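import Mathlib

/-!
# Internal amalgamated products (MP_ef842e_al)

`RW P E i j g` : `g` is the product of a reduced word for the pair of subgroups `P false`, `P true`
over `E`, whose first syllable is in `P i` and whose last syllable is in `P j`.
`IsAmalgam P E` : the subgroup generated by `P false`, `P true` is their amalgamated product
over `E` (normal form theorem: reduced words are not in `E`).
`side P E g : Option Bool` : the type of the first syllable (`none` iff `g ∈ E`).
-/

namespace FlatClosing

variable {G : Type*} [Group G]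

/-- reduced words -/
inductive RW (P : Bool → Subgroup G) (E : Subgroup G) : Bool → Bool → G → Prop
  | single {i : Bool} {g : G} (hg : g ∈ P i) (hE : g ∉ E) : RW P E i i g
  | cons {i j : Bool} {a g : G} (ha : a ∈ P i) (hE : a ∉ E) (h : RW P E (!i) j g) :
      RW P E i j (a * g)

/-- internal amalgamated product -/
structure IsAmalgam (P : Bool → Subgroup G) (E : Subgroup G) : Prop where
  le : ∀ i, E ≤ P i
  reduced : ∀ i j g, RW P E i j g → g ∉ E

variable {P : Bool → Subgroup G} {E : Subgroup G}

namespace RW

theorem append {i j k : Bool} {g h : G} (h1 : RW P E i j g) (h2 : RW P E (!j) k h) :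
    RW P E i k (g * h) := by
  induction h1 with
  | single hg hE => exact RW.cons hg hE h2
  | cons ha hE _ ih => rw [mul_assoc]; exact RW.cons ha hE (ih h2)

theorem inv {i j : Bool} {g : G} (h1 : RW P E i j g) : RW P E j i g⁻¹ := by
  induction h1 with
  | single hg hE => exact RW.single (inv_mem hg) (fun h => hE (by simpa using inv_mem h))
  | @cons i j a g ha hE _ ih =>
    rw [mul_inv_rev]
    refine RW.append ih ?_
    rw [Bool.not_not]
    exact RW.single (inv_mem ha) (fun h => hE (by simpa using inv_mem h))

/-- left multiplication by an element of `E` -/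
theorem base_mul (hle : ∀ i, E ≤ P i) {i j : Bool} {e g : G} (he : e ∈ E) (h1 : RW P E i j g) :
    RW P E i j (e * g) := by
  cases h1 with
  | single hg hE =>
    exact RW.single (mul_mem (hle _ he) hg) (fun h => hE ((Subgroup.mul_mem_cancel_left _ he).1 h))
  | cons ha hE h =>
    rw [← mul_assoc]
    exact RW.cons (mul_mem (hle _ he) ha) (fun h => hE ((Subgroup.mul_mem_cancel_left _ he).1 h)) h

theorem mul_base (hle : ∀ i, E ≤ P i) {i j : Bool} {e g : G} (he : e ∈ E) (h1 : RW P E i j g) :
    RW P E i j (g * e) := by
  have := (base_mul hle (inv_mem he) h1.inv).inv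
  simpa [mul_inv_rev] using this

/-- left multiplication by an element of `P k` -/
theorem mul_left (hle : ∀ i, E ≤ P i) {i j k : Bool} {a g : G} (ha : a ∈ P k)
    (h1 : RW P E i j g) :
    (i ≠ k → a ∉ E → RW P E k j (a * g)) ∧
    (i = k → RW P E k j (a * g) ∨ (a * g ∈ E) ∨ RW P E (!k) j (a * g)) := by
  constructor
  · intro hik haE
    have : i = !k := by cases i <;> cases k <;> simp_all
    subst this
    exact RW.cons ha haE h1
  · rintro rfl
    cases h1 with
    | single hg hE =>
      by_cases h : a * g ∈ E
      · exact Or.inr (Or.inl h)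
      · exact Or.inl (RW.single (mul_mem ha hg) h)
    | @cons _ _ b g hb hE h1 =>
      rw [← mul_assoc]
      by_cases h : a * b ∈ E
      · exact Or.inr (Or.inr (base_mul hle h h1))
      · exact Or.inl (RW.cons (mul_mem ha hb) h h1)

end RW

namespace IsAmalgam

variable (hA : IsAmalgam P E)
include hA

/-- The type of the first syllable is well defined. -/
theorem first_unique {i i' j j' : Bool} {g : G} (h1 : RW P E i j g) (h2 : RW P E i' j' g) :
    i = i' := by
  by_contra hne
  have : i' = !i := by cases i <;> cases i' <;> simp_all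
  subst this
  have h3 := RW.append (P := P) (E := E) (i := j) (j := i) (k := j') h1.inv h2
  exact hA.reduced _ _ _ h3 (by simp [one_mem])

theorem last_unique {i i' j j' : Bool} {g : G} (h1 : RW P E i j g) (h2 : RW P E i' j' g) :
    j = j' := hA.first_unique h1.inv h2.inv

/-- reduced words exist -/
theorem exists_RW {g : G} (hg : g ∈ Subgroup.closure ((P false : Set G) ∪ P true)) :
    g ∈ E ∨ ∃ i j, RW P E i j g := by
  have key : ∀ k, ∀ a ∈ P k, ∀ g, (g ∈ E ∨ ∃ i j, RW P E i j g) →
      (a * g ∈ E ∨ ∃ i j, RW P E i j (a * g)) := by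
    intro k a ha g hg
    by_cases haE : a ∈ E
    · rcases hg with hg | ⟨i, j, hg⟩
      · exact Or.inl (mul_mem haE hg)
      · exact Or.inr ⟨i, j, RW.base_mul hA.le haE hg⟩
    · rcases hg with hg | ⟨i, j, hg⟩
      · refine Or.inr ⟨k, k, RW.single (mul_mem ha (hA.le _ hg)) ?_⟩
        exact fun h => haE ((Subgroup.mul_mem_cancel_right _ hg).1 h)
      · by_cases hik : i = k
        · rcases (RW.mul_left hA.le ha hg).2 hik with h | h | h
          · exact Or.inr ⟨_, _, h⟩
          · exact Or.inl h
          · exact Or.inr ⟨_, _, h⟩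
        · exact Or.inr ⟨_, _, (RW.mul_left hA.le ha hg).1 hik haE⟩
  refine Subgroup.closure_induction_left (p := fun g _ => g ∈ E ∨ ∃ i j, RW P E i j g)
    (Or.inl (one_mem _)) ?_ ?_ hg
  · rintro x (hx | hx) y _ hy
    · exact key false x hx y hy
    · exact key true x hx y hy
  · rintro x (hx | hx) y _ hy
    · exact key false x⁻¹ (inv_mem hx) y hy
    · exact key true x⁻¹ (inv_mem hx) y hy

end IsAmalgam

open Classical in
/-- The type of the first syllable of `g`, `none` if `g` is not represented by a reduced word
(for `g` in the generated subgroup: iff `g ∈ E`). -/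
noncomputable def side (P : Bool → Subgroup G) (E : Subgroup G) (g : G) : Option Bool :=
  if h : ∃ i j, RW P E i j g then some h.choose else none

theorem side_eq_some (hA : IsAmalgam P E) {i : Bool} {g : G} :
    side P E g = some i ↔ ∃ j, RW P E i j g := by
  unfold side
  constructor
  · intro h
    split_ifs at h with h'
    have := h'.choose_spec
    obtain ⟨j, hj⟩ := this
    simp only [Option.some.injEq] at h
    rw [h] at hj
    exact ⟨j, hj⟩
  · rintro ⟨j, hj⟩
    have h' : ∃ i j, RW P E i j g := ⟨i, j, hj⟩
    rw [dif_pos h']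
    obtain ⟨j', hj'⟩ := h'.choose_spec
    rw [hA.first_unique hj' hj]

theorem side_of_RW (hA : IsAmalgam P E) {i j : Bool} {g : G} (h : RW P E i j g) :
    side P E g = some i := (side_eq_some hA).2 ⟨j, h⟩

theorem side_of_mem (hA : IsAmalgam P E) {g : G} (h : g ∈ E) : side P E g = none := by
  unfold side
  rw [dif_neg]
  rintro ⟨i, j, hj⟩
  exact hA.reduced _ _ _ hj h

theorem side_eq_none (hA : IsAmalgam P E) {g : G}
    (hg : g ∈ Subgroup.closure ((P false : Set G) ∪ P true)) :
    side P E g = none ↔ g ∈ E := by
  constructor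
  · intro h
    rcases hA.exists_RW hg with h' | ⟨i, j, h'⟩
    · exact h'
    · rw [side_of_RW hA h'] at h; simp at h
  · exact side_of_mem hA

theorem side_mem (hA : IsAmalgam P E) {i : Bool} {g : G} (h : g ∈ P i) (hE : g ∉ E) :
    side P E g = some i := side_of_RW hA (RW.single h hE)

/-- left invariance under `E` -/
theorem side_base_mul (hA : IsAmalgam P E) {e : G} (he : e ∈ E) (g : G) :
    side P E (e * g) = side P E g := by
  by_cases h : ∃ i j, RW P E i j g
  · obtain ⟨i, j, h⟩ := h
    rw [side_of_RW hA h, side_of_RW hA (RW.base_mul hA.le he h)]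
  · have h' : ¬ ∃ i j, RW P E i j (e * g) := by
      rintro ⟨i, j, hj⟩
      exact h ⟨i, j, by simpa using RW.base_mul hA.le (inv_mem he) hj⟩
    unfold side
    rw [dif_neg h, dif_neg h']

theorem side_mul_base (hA : IsAmalgam P E) {e : G} (he : e ∈ E) (g : G) :
    side P E (g * e) = side P E g := by
  by_cases h : ∃ i j, RW P E i j g
  · obtain ⟨i, j, h⟩ := h
    rw [side_of_RW hA h, side_of_RW hA (RW.mul_base hA.le he h)]
  · have h' : ¬ ∃ i j, RW P E i j (g * e) := by
      rintro ⟨i, j, hj⟩
      exact h ⟨i, j, by simpa using RW.mul_base hA.le (inv_mem he) hj⟩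
    unfold side
    rw [dif_neg h, dif_neg h']

/-- the side `!i` is invariant under right multiplication by `P i` -/
theorem side_mul_right (hA : IsAmalgam P E) {i : Bool} {a : G} (ha : a ∈ P i) {g : G}
    (hg : side P E g = some (!i)) : side P E (g * a) = some (!i) := by
  obtain ⟨j, hj⟩ := (side_eq_some hA).1 hg
  by_cases haE : a ∈ E
  · rw [side_mul_base hA haE, hg]
  have hinv : ∀ {u : G}, RW P E (!i) i u → side P E (u * a) = some (!i) := by
    intro u hu
    have h1 := (RW.mul_left hA.le (inv_mem ha) hu.inv).2 rfl
    rw [← mul_inv_rev] at h1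
    rcases h1 with h1 | h1 | h1
    · exact side_of_RW hA (by simpa using h1.inv)
    · exfalso
      -- `u * a ∈ E` with `u` starting with `!i` and ending with `i`
      have h2 : u * a ∈ E := by simpa using inv_mem h1
      have h3 : u ∈ P i := by
        have := mul_mem (hA.le i h2) (inv_mem ha)
        simpa using this
      by_cases h4 : u ∈ E
      · exact hA.reduced _ _ _ hu h4
      · have := hA.first_unique (RW.single h3 h4) hu
        cases i <;> simp at this
    · exact side_of_RW hA (by simpa using h1.inv)
  by_cases hji : j = i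
  · subst hji; exact hinv hj
  · have : j = !i := by cases i <;> cases j <;> simp_all
    subst this
    have h5 := RW.append hj (RW.single (i := !(!i)) (by rwa [Bool.not_not]) haE)
    exact side_of_RW hA h5

/-- ping-pong -/
theorem side_mul_left (hA : IsAmalgam P E) {i : Bool} {a : G} (ha : a ∈ P i) (haE : a ∉ E) {g : G}
    (hg : g ∈ Subgroup.closure ((P false : Set G) ∪ P true)) (h : side P E g ≠ some i) :
    side P E (a * g) = some i := by
  rcases hA.exists_RW hg with h' | ⟨i', j, h'⟩
  · rw [side_mul_base hA h', side_mem hA ha haE]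
  · rw [side_of_RW hA h'] at h
    have : i' ≠ i := fun h'' => h (by rw [h''])
    exact side_of_RW hA ((RW.mul_left hA.le ha h').1 this haE)

/-- concatenation -/
theorem side_mul (hA : IsAmalgam P E) {i j : Bool} {u v : G} (hu : RW P E i j u)
    (hv : v ∈ Subgroup.closure ((P false : Set G) ∪ P true)) (h : side P E v ≠ some j) :
    side P E (u * v) = some i := by
  rcases hA.exists_RW hv with h' | ⟨i', k, h'⟩
  · rw [side_mul_base hA h', side_of_RW hA hu]
  · rw [side_of_RW hA h'] at h
    have : i' = !j := by
      have : i' ≠ j := fun h'' => h (by rw [h''])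
      cases i' <;> cases j <;> simp_all
    subst this
    exact side_of_RW hA (RW.append hu h')

theorem side_inv (hA : IsAmalgam P E) {i j : Bool} {u : G} (hu : RW P E i j u) :
    side P E u⁻¹ = some j := side_of_RW hA hu.inv

end FlatClosing
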