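import Mathlib
import Pool.Agent.FlatClosing.Amalgam

/-!
# Induction over the Bass-Serre tree of an amalgamated product (MP_ef842e_al)

`tree_induction` : a property of subsets of `Z` which holds for the vertex pieces `K i g` and the
edge pieces `S g`, which is inherited by unions along a wall and by directed unions, holds for the
union of all pieces.
-/

namespace FlatClosing

open Set

variable {G : Type*} [Group G] {P : Bool → Subgroup G} {E : Subgroup G}

/-- the subgroup generated by the two factors -/
def gen (P : Bool → Subgroup G) : Subgroup G := Subgroup.closure ((P false : Set G) ∪ P true)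

theorem le_gen (P : Bool → Subgroup G) (i : Bool) : P i ≤ gen P := by
  intro x hx
  apply Subgroup.subset_closure
  cases i
  · exact Or.inl hx
  · exact Or.inr hx

/-- The edges of the Bass-Serre tree at distance `n` from the vertex `P false`. -/
def lev (P : Bool → Subgroup G) (E : Subgroup G) : ℕ → Set G
  | 0 => P false
  | n + 1 => {g | ∃ g' ∈ lev P E n, ∃ a ∈ P (n + 1).bodd, a ∉ E ∧ g = g' * a}

theorem lev_subset_gen (n : ℕ) : lev P E n ⊆ gen P := by
  induction n with
  | zero => exact le_gen P false
  | succ n ih =>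
    rintro _ ⟨g', hg', a, ha, -, rfl⟩
    exact mul_mem (ih hg') (le_gen P _ ha)

theorem lev_mul_base (hA : IsAmalgam P E) {n : ℕ} {g e : G} (hg : g ∈ lev P E n) (he : e ∈ E) :
    g * e ∈ lev P E n := by
  cases n with
  | zero => exact mul_mem (show g ∈ P false from hg) (hA.le _ he)
  | succ n =>
    obtain ⟨g', hg', a, ha, haE, rfl⟩ := hg
    exact ⟨g', hg', a * e, mul_mem ha (hA.le _ he),
      fun h => haE ((Subgroup.mul_mem_cancel_right _ he).1 h), by group⟩

theorem exists_lev (hA : IsAmalgam P E) {g : G} (hg : g ∈ gen P) : ∃ n, g ∈ lev P E n := by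
  have key : ∀ i, ∀ p ∈ P i, ∀ g, (∃ n, g ∈ lev P E n) → ∃ n, g * p ∈ lev P E n := by
    rintro i p hp g ⟨n, hn⟩
    by_cases hpE : p ∈ E
    · exact ⟨n, lev_mul_base hA hn hpE⟩
    by_cases hi : i = n.bodd
    · subst hi
      cases n with
      | zero => exact ⟨0, mul_mem (show g ∈ P false from hn) hp⟩
      | succ n =>
        obtain ⟨g', hg', a, ha, haE, rfl⟩ := hn
        by_cases h : a * p ∈ E
        · exact ⟨n, by rw [mul_assoc]; exact lev_mul_base hA hg' h⟩
        · exact ⟨n + 1, g', hg', a * p, mul_mem ha hp, h, by group⟩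
    · have : i = (n + 1).bodd := by
        rw [Nat.bodd_succ]; cases i <;> cases h : n.bodd <;> simp_all
      subst this
      exact ⟨n + 1, g, hn, p, hp, hpE, rfl⟩
  refine Subgroup.closure_induction_right (p := fun g _ => ∃ n, g ∈ lev P E n)
    ⟨0, one_mem (P false)⟩ ?_ ?_ hg
  · rintro y _ x (hx | hx) hy
    · exact key false x hx y hy
    · exact key true x hx y hy
  · rintro y _ x (hx | hx) hy
    · exact key false x⁻¹ (inv_mem hx) y hy
    · exact key true x⁻¹ (inv_mem hx) y hy

theorem lev_side (hA : IsAmalgam P E) (n : ℕ) : ∀ m ≤ n, ∀ g ∈ lev P E n, ∀ h ∈ lev P E m,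
    (g⁻¹ * h ∈ E ∧ m = n) ∨ side P E (g⁻¹ * h) = some n.bodd := by
  induction n with
  | zero =>
    intro m hm g hg h hh
    obtain rfl : m = 0 := by omega
    have h1 : g⁻¹ * h ∈ P false := mul_mem (inv_mem hg) hh
    by_cases h2 : g⁻¹ * h ∈ E
    · exact Or.inl ⟨h2, rfl⟩
    · exact Or.inr (side_mem hA h1 h2)
  | succ n ih =>
    intro m hm g hg h hh
    obtain ⟨g', hg', a, ha, haE, rfl⟩ := hg
    have hbn : (some n.bodd : Option Bool) ≠ some (n + 1).bodd := by
      rw [Nat.bodd_succ]; cases n.bodd <;> simp
    have hgen : ∀ x ∈ lev P E n, x ∈ gen P := fun x hx => lev_subset_gen n hx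
    have haE' : a⁻¹ ∉ E := fun h => haE (by simpa using inv_mem h)
    rcases Nat.lt_or_ge n m with hnm | hnm
    · obtain rfl : m = n + 1 := by omega
      obtain ⟨h', hh', b, hb, hbE, rfl⟩ := hh
      have e1 : (g' * a)⁻¹ * (h' * b) = a⁻¹ * (g'⁻¹ * h' * b) := by group
      rcases ih n le_rfl g' hg' h' hh' with ⟨h1, -⟩ | h1
      · by_cases h2 : (g' * a)⁻¹ * (h' * b) ∈ E
        · exact Or.inl ⟨h2, rfl⟩
        · refine Or.inr (side_mem hA ?_ h2)
          rw [e1]
          exact mul_mem (inv_mem ha) (mul_mem (hA.le _ h1) hb)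
      · right
        rw [e1]
        apply side_mul_left hA (inv_mem ha) haE'
        · exact mul_mem (mul_mem (inv_mem (hgen _ hg')) (hgen _ hh')) (le_gen P _ hb)
        · have h3 : side P E (g'⁻¹ * h' * b) = some (!(n + 1).bodd) := by
            apply side_mul_right hA hb
            rw [h1, Nat.bodd_succ, Bool.not_not]
          rw [h3]
          cases (n + 1).bodd <;> simp
    · right
      have e1 : (g' * a)⁻¹ * h = a⁻¹ * (g'⁻¹ * h) := by group
      rw [e1]
      apply side_mul_left hA (inv_mem ha) haE'
      · exact mul_mem (inv_mem (hgen _ hg')) (lev_subset_gen m hh)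
      · rcases ih m hnm g' hg' h hh with ⟨h1, -⟩ | h1
        · rw [side_of_mem hA h1]; simp
        · rw [h1]; exact hbn

variable {Z : Type*}

/-- balls in the Bass-Serre tree -/
def tball (P : Bool → Subgroup G) (E : Subgroup G) (K : Bool → G → Set Z) (S : G → Set Z) :
    ℕ → Set Z
  | 0 => K false 1
  | n + 1 => tball P E K S n ∪ ⋃ g ∈ lev P E n, (S g ∪ K (!n.bodd) g)

theorem mem_tball (K : Bool → G → Set Z) (S : G → Set Z) (n : ℕ) (z : Z) :
    z ∈ tball P E K S n → z ∈ K false 1 ∨ ∃ m < n, ∃ h ∈ lev P E m, z ∈ S h ∪ K (!m.bodd) h := by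
  induction n with
  | zero => exact fun h => Or.inl h
  | succ n ih =>
    rintro (h | h)
    · rcases ih h with h | ⟨m, hm, h', hh', hz⟩
      · exact Or.inl h
      · exact Or.inr ⟨m, by omega, h', hh', hz⟩
    · simp only [mem_iUnion] at h
      obtain ⟨g, hg, hz⟩ := h
      exact Or.inr ⟨n, by omega, g, hg, hz⟩

theorem tree_induction (hA : IsAmalgam P E) (K : Bool → G → Set Z) (S : G → Set Z)
    (HS : Bool → G → Set Z)
    (hK : ∀ i g, ∀ p ∈ P i, K i (g * p) = K i g) (hS : ∀ g, ∀ e ∈ E, S (g * e) = S g)
    (h_side : ∀ i, ∀ g ∈ gen P, ∀ h ∈ gen P, side P E (g⁻¹ * h) = some i →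
      S h ⊆ HS i g ∧ ∀ j, K j h ⊆ HS i g)
    (h_K : ∀ i, ∀ g ∈ gen P, K i g ⊆ HS i g)
    (h_disj : ∀ g ∈ gen P, Disjoint (HS false g) (HS true g))
    (h_SH : ∀ i, ∀ g ∈ gen P, S g ∩ HS i g ⊆ K i g)
    (Pr : Set Z → Prop)
    (pK : ∀ i, ∀ g ∈ gen P, Pr (K i g)) (pS : ∀ g ∈ gen P, Pr (S g))
    (step : ∀ i, ∀ g ∈ gen P, ∀ U V : Set Z, U ⊆ HS i g → V ⊆ S g ∪ HS (!i) g →
      U ∩ V = S g ∩ K i g → Pr U → Pr V → Pr (U ∪ V))
    (dir : ∀ Us : Set (Set Z), Us.Nonempty → DirectedOn (· ⊆ ·) Us → (∀ U ∈ Us, Pr U) → Pr (⋃₀ Us)) :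
    Pr (⋃ g ∈ gen P, (S g ∪ K false g ∪ K true g)) := by
  -- the pieces of the ball of radius `n` are on the near side of an edge of level `n`
  have hdisj' : ∀ i, ∀ g ∈ gen P, Disjoint (HS i g) (HS (!i) g) := by
    intro i g hg
    cases i
    · exact h_disj g hg
    · exact (h_disj g hg).symm
  have hnear : ∀ n, ∀ g ∈ lev P E n, tball P E K S n ⊆ HS n.bodd g := by
    intro n g hg z hz
    have hgg := lev_subset_gen n hg
    rcases mem_tball K S n z hz with hz' | ⟨m, hm, h, hh, hz⟩
    · rcases Nat.eq_zero_or_pos n with h0 | h0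
      · subst h0
        have h1 : K false g = K false 1 := by
          have := hK false 1 g hg
          rwa [one_mul] at this
        rw [← h1] at hz'
        exact h_K false g hgg hz'
      · rcases lev_side hA n 0 (by omega) g hg 1 (one_mem (P false)) with ⟨-, h1⟩ | h1
        · omega
        · exact (h_side _ g hgg 1 (one_mem _) h1).2 false hz'
    · rcases lev_side hA n m hm.le g hg h hh with ⟨-, h1⟩ | h1
      · omega
      · have h2 := h_side _ g hgg h (lev_subset_gen m hh) h1
        rcases hz with hz | hz
        · exact h2.1 hz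
        · exact h2.2 _ hz
  -- the near vertex tree of an edge of level `n` is in the ball
  have hbase : ∀ n, ∀ g ∈ lev P E n, K n.bodd g ⊆ tball P E K S n := by
    intro n g hg
    cases n with
    | zero =>
      have h1 : K false g = K false 1 := by
        have := hK false 1 g hg
        rwa [one_mul] at this
      rw [Nat.bodd_zero, h1]
      exact subset_rfl
    | succ n =>
      obtain ⟨g', hg', a, ha, haE, rfl⟩ := hg
      rw [hK _ _ _ ha, Nat.bodd_succ]
      intro z hz
      right
      simp only [mem_iUnion]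
      exact ⟨g', hg', Or.inr hz⟩
  have hcover : (⋃ g ∈ gen P, (S g ∪ K false g ∪ K true g)) = ⋃₀ (range (tball P E K S)) := by
    apply Subset.antisymm
    · intro z hz
      simp only [mem_iUnion] at hz
      obtain ⟨g, hg, hz⟩ := hz
      obtain ⟨n, hn⟩ := exists_lev hA hg
      have h1 : z ∈ S g ∪ K (!n.bodd) g ∨ z ∈ K n.bodd g := by
        rcases hz with (hz | hz) | hz
        · exact Or.inl (Or.inl hz)
        · cases n.bodd
          · exact Or.inr hz
          · exact Or.inl (Or.inr hz)
        · cases n.bodd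
          · exact Or.inl (Or.inr hz)
          · exact Or.inr hz
      rcases h1 with h1 | h1
      · refine ⟨_, ⟨n + 1, rfl⟩, Or.inr ?_⟩
        simp only [mem_iUnion]
        exact ⟨g, hn, h1⟩
      · exact ⟨_, ⟨n, rfl⟩, hbase n g hn h1⟩
    · rintro z ⟨_, ⟨n, rfl⟩, hz⟩
      simp only [mem_iUnion]
      rcases mem_tball K S n z hz with hz | ⟨m, hm, h, hh, hz⟩
      · exact ⟨1, one_mem _, Or.inl (Or.inr hz)⟩
      · refine ⟨h, lev_subset_gen m hh, ?_⟩
        rcases hz with hz | hz
        · exact Or.inl (Or.inl hz)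
        · cases hb : m.bodd <;> rw [hb] at hz
          · exact Or.inr hz
          · exact Or.inl (Or.inr hz)
  have hmono : Monotone (tball P E K S) := monotone_nat_of_le_succ (fun n z hz => Or.inl hz)
  rw [hcover]
  apply dir _ (range_nonempty _)
  · rintro _ ⟨n, rfl⟩ _ ⟨m, rfl⟩
    exact ⟨_, ⟨max n m, rfl⟩, hmono (le_max_left _ _), hmono (le_max_right _ _)⟩
  · rintro _ ⟨n, rfl⟩
    induction n with
    | zero => exact pK false 1 (one_mem _)
    | succ n ih =>
      classical
      have hfin : ∀ J : Finset (lev P E n),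
          Pr (tball P E K S n ∪ ⋃ g ∈ J, (S (g : G) ∪ K (!n.bodd) (g : G))) := by
        intro J
        induction J using Finset.induction_on with
        | empty => simpa using ih
        | insert g J hgJ ihJ =>
          have hgg := lev_subset_gen n g.2
          by_cases hex : ∃ h ∈ J, (h : G)⁻¹ * g ∈ E
          · obtain ⟨h, hh, hE⟩ := hex
            have e1 : (g : G) = h * ((h : G)⁻¹ * g) := by group
            have e2 : S (g : G) = S (h : G) := by rw [e1, hS _ _ hE]
            have e3 : K (!n.bodd) (g : G) = K (!n.bodd) (h : G) := by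
              rw [e1, hK _ _ _ (hA.le _ hE)]
            have e4 : (⋃ g' ∈ insert g J, (S (g' : G) ∪ K (!n.bodd) (g' : G))) =
                ⋃ g' ∈ J, (S (g' : G) ∪ K (!n.bodd) (g' : G)) := by
              rw [Finset.set_biUnion_insert, e2, e3]
              apply union_eq_right.2
              intro z hz
              simp only [mem_iUnion]
              exact ⟨h, hh, hz⟩
            rw [e4]
            exact ihJ
          · push Not at hex
            set U := tball P E K S n ∪ ⋃ g ∈ J, (S (g : G) ∪ K (!n.bodd) (g : G)) with hU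
            have hUside : U ⊆ HS n.bodd g := by
              rintro z (hz | hz)
              · exact hnear n g g.2 hz
              · simp only [mem_iUnion] at hz
                obtain ⟨h, hh, hz⟩ := hz
                rcases lev_side hA n n le_rfl g g.2 h h.2 with ⟨h1, -⟩ | h1
                · exfalso
                  apply hex h hh
                  have := inv_mem h1
                  rwa [mul_inv_rev, inv_inv] at this
                · have h2 := h_side _ g hgg h (lev_subset_gen n h.2) h1
                  rcases hz with hz | hz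
                  · exact h2.1 hz
                  · exact h2.2 _ hz
            have hUS : U ∩ S (g : G) = S (g : G) ∩ K n.bodd g := by
              apply Subset.antisymm
              · rintro z ⟨hz1, hz2⟩
                exact ⟨hz2, h_SH _ g hgg ⟨hz2, hUside hz1⟩⟩
              · rintro z ⟨hz1, hz2⟩
                exact ⟨Or.inl (hbase n g g.2 hz2), hz1⟩
            have h3 : Pr (U ∪ S (g : G)) :=
              step _ g hgg U (S g) hUside (fun z hz => Or.inl hz) hUS ihJ (pS g hgg)
            have h4 : K (!n.bodd) (g : G) ∩ (U ∪ S (g : G)) = S (g : G) ∩ K (!n.bodd) g := by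
              apply Subset.antisymm
              · rintro z ⟨hz1, hz2 | hz2⟩
                · exfalso
                  exact (Set.disjoint_left.1 (hdisj' n.bodd g hgg) (hUside hz2))
                    (h_K _ g hgg hz1)
                · exact ⟨hz2, hz1⟩
              · rintro z ⟨hz1, hz2⟩
                exact ⟨hz2, Or.inr hz1⟩
            have h5 := step (!n.bodd) g hgg (K (!n.bodd) g) (U ∪ S (g : G)) (h_K _ g hgg)
              (by
                rw [Bool.not_not]
                rintro z (hz | hz)
                · exact Or.inr (hUside hz)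
                · exact Or.inl hz) h4 (pK _ g hgg) h3
            convert h5 using 1
            rw [Finset.set_biUnion_insert, hU]
            ext z
            simp only [mem_union]
            tauto
      have e5 : tball P E K S (n + 1) = ⋃₀ (range fun J : Finset (lev P E n) =>
          tball P E K S n ∪ ⋃ g ∈ J, (S (g : G) ∪ K (!n.bodd) (g : G))) := by
        apply Subset.antisymm
        · rintro z (hz | hz)
          · exact ⟨_, ⟨∅, rfl⟩, Or.inl hz⟩
          · simp only [mem_iUnion] at hz
            obtain ⟨g, hg, hz⟩ := hz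
            refine ⟨_, ⟨{⟨g, hg⟩}, rfl⟩, Or.inr ?_⟩
            simpa using hz
        · rintro z ⟨_, ⟨J, rfl⟩, hz | hz⟩
          · exact Or.inl hz
          · right
            simp only [mem_iUnion] at hz ⊢
            obtain ⟨g, -, hz⟩ := hz
            exact ⟨g, g.2, hz⟩
      rw [e5]
      apply dir _ (range_nonempty _)
      · rintro _ ⟨J, rfl⟩ _ ⟨J', rfl⟩
        refine ⟨_, ⟨J ∪ J', rfl⟩, ?_, ?_⟩
        · rintro z (hz | hz)
          · exact Or.inl hz
          · right
            simp only [mem_iUnion] at hz ⊢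
            obtain ⟨g, hg, hz⟩ := hz
            exact ⟨g, Finset.mem_union_left _ hg, hz⟩
        · rintro z (hz | hz)
          · exact Or.inl hz
          · right
            simp only [mem_iUnion] at hz ⊢
            obtain ⟨g, hg, hz⟩ := hz
            exact ⟨g, Finset.mem_union_right _ hg, hz⟩
      · rintro _ ⟨J, rfl⟩
        exact hfin J

end FlatClosing
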