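import Mathlib
import Pool.Agent.FlatClosing.Amalgam
import Pool.Agent.FlatClosing.TreeInd

/-!
# Amalgams: push-outs, sub-amalgams (MP_ef842e_al, helper22)

* `isAmalgam_pushout` : the factors of `Monoid.PushoutI` form an internal amalgam;
* `IsAmalgam.map` : injective images of internal amalgams;
* `injective_of_RW` : injectivity of homomorphisms between amalgams;
* `IsAmalgam.sub`, `gen_inf_base`, `gen_inf_factor` : sub-amalgams.
-/

set_option autoImplicit false

namespace FlatClosing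

open Monoid

section general

variable {G : Type*} [Group G] {P : Bool → Subgroup G} {E : Subgroup G}

/-- the base is the intersection of the factors -/
theorem IsAmalgam.inf_eq (hA : IsAmalgam P E) {i j : Bool} (hij : i ≠ j) : P i ⊓ P j = E := by
  apply le_antisymm
  · rintro g ⟨h1, h2⟩
    by_contra hE
    exact hij (hA.first_unique (RW.single h1 hE) (RW.single h2 hE))
  · exact le_inf (hA.le i) (hA.le j)

/-- image of an amalgam under an injective homomorphism -/
theorem RW.of_map {H : Type*} [Group H] {Q : Bool → Subgroup H} {F : Subgroup H} (f : H →* G)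
    {i j : Bool} {g : G}
    (h : RW (fun i => (Q i).map f) (F.map f) i j g) : ∃ x, f x = g ∧ RW Q F i j x := by
  induction h with
  | @single i g hg hE =>
    obtain ⟨x, hx, rfl⟩ := hg
    exact ⟨x, rfl, RW.single hx (fun h => hE ⟨x, h, rfl⟩)⟩
  | @cons i j a g ha hE _ ih =>
    obtain ⟨x, hx, rfl⟩ := ha
    obtain ⟨y, rfl, hy⟩ := ih
    exact ⟨x * y, map_mul f x y, RW.cons hx (fun h => hE ⟨x, h, rfl⟩) hy⟩

theorem IsAmalgam.map {H : Type*} [Group H] {Q : Bool → Subgroup H} {F : Subgroup H}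
    (hA : IsAmalgam Q F) (f : H →* G) (hf : Function.Injective f) :
    IsAmalgam (fun i => (Q i).map f) (F.map f) := by
  refine ⟨fun i => Subgroup.map_mono (hA.le i), ?_⟩
  intro i j g hg hgF
  obtain ⟨x, rfl, hx⟩ := RW.of_map f hg
  obtain ⟨y, hy, hyx⟩ := hgF
  rw [hf hyx] at hy
  exact hA.reduced _ _ _ hx hy

theorem gen_map {H : Type*} [Group H] (Q : Bool → Subgroup H) (f : H →* G) :
    gen (fun i => (Q i).map f) = (gen Q).map f := by
  unfold gen
  rw [MonoidHom.map_closure, Set.image_union]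
  rfl

/-- monotonicity of reduced words -/
theorem RW.mono {Q : Bool → Subgroup G} {F : Subgroup G} (h1 : ∀ i, ∀ x ∈ Q i, x ∈ P i)
    (h2 : ∀ i, ∀ x ∈ Q i, x ∉ F → x ∉ E) {i j : Bool} {g : G} (h : RW Q F i j g) :
    RW P E i j g := by
  induction h with
  | single hg hE => exact RW.single (h1 _ _ hg) (h2 _ _ hg hE)
  | cons ha hE _ ih => exact RW.cons (h1 _ _ ha) (h2 _ _ ha hE) ih

/-- image of reduced words -/
theorem RW.image {H : Type*} [Group H] {Q : Bool → Subgroup H} {F : Subgroup H} (f : H →* G)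
    (h1 : ∀ i, ∀ x ∈ Q i, f x ∈ P i) (h2 : ∀ i, ∀ x ∈ Q i, x ∉ F → f x ∉ E) {i j : Bool} {g : H}
    (h : RW Q F i j g) : RW P E i j (f g) := by
  induction h with
  | single hg hE => exact RW.single (h1 _ _ hg) (h2 _ _ hg hE)
  | cons ha hE _ ih => rw [map_mul]; exact RW.cons (h1 _ _ ha) (h2 _ _ ha hE) ih

/-- injectivity of homomorphisms between amalgams -/
theorem injective_of_RW {H : Type*} [Group H] {Q : Bool → Subgroup H} {F : Subgroup H}
    (hQ : IsAmalgam Q F) (hgen : gen Q = ⊤) (hP : IsAmalgam P E) (f : H →* G)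
    (h1 : ∀ i, ∀ x ∈ Q i, f x ∈ P i) (h2 : ∀ i, ∀ x ∈ Q i, x ∉ F → f x ∉ E)
    (h3 : ∀ x ∈ F, f x = 1 → x = 1) : Function.Injective f := by
  rw [injective_iff_map_eq_one]
  intro x hx
  have hxg : x ∈ gen Q := by rw [hgen]; trivial
  rcases hQ.exists_RW hxg with h | ⟨i, j, h⟩
  · exact h3 x h hx
  · exfalso
    have h4 := RW.image (P := P) (E := E) f h1 h2 h
    rw [hx] at h4
    exact hP.reduced _ _ _ h4 (one_mem _)

variable {Q : Bool → Subgroup G} {F : Subgroup G}

/-- sub-amalgam -/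
theorem IsAmalgam.sub (hP : IsAmalgam P E) (hQP : ∀ i, Q i ≤ P i) (hFQ : ∀ i, F ≤ Q i)
    (hQE : ∀ i, Q i ⊓ E ≤ F) (hFE : F ≤ E) : IsAmalgam Q F := by
  refine ⟨hFQ, fun i j g hg hgF => ?_⟩
  have h : RW P E i j g := RW.mono (fun i x hx => hQP i hx)
    (fun i x hx hxF hxE => hxF (hQE i ⟨hx, hxE⟩)) hg
  exact hP.reduced _ _ _ h (hFE hgF)

theorem gen_inf_base (hP : IsAmalgam P E) (hQP : ∀ i, Q i ≤ P i) (hFQ : ∀ i, F ≤ Q i)
    (hQE : ∀ i, Q i ⊓ E ≤ F) (hFE : F ≤ E) : gen Q ⊓ E = F := by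
  apply le_antisymm
  · rintro g ⟨hg, hgE⟩
    rcases (hP.sub hQP hFQ hQE hFE).exists_RW hg with h | ⟨i, j, h⟩
    · exact h
    · exfalso
      have h : RW P E i j g := RW.mono (fun i x hx => hQP i hx)
        (fun i x hx hxF hxE => hxF (hQE i ⟨hx, hxE⟩)) h
      exact hP.reduced _ _ _ h hgE
  · exact le_inf ((hFQ false).trans (le_gen Q false)) hFE

theorem gen_inf_factor (hP : IsAmalgam P E) (hQP : ∀ i, Q i ≤ P i) (hFQ : ∀ i, F ≤ Q i)
    (hQE : ∀ i, Q i ⊓ E ≤ F) (hFE : F ≤ E) (i : Bool) : gen Q ⊓ P i = Q i := by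
  apply le_antisymm
  · rintro g ⟨hg, hgP⟩
    have hmono : ∀ {i j : Bool} {g : G}, RW Q F i j g → RW P E i j g := fun h =>
      RW.mono (fun i x hx => hQP i hx) (fun i x hx hxF hxE => hxF (hQE i ⟨hx, hxE⟩)) h
    by_cases hgE : g ∈ E
    · have h := gen_inf_base hP hQP hFQ hQE hFE
      have h2 : g ∈ gen Q ⊓ E := ⟨hg, hgE⟩
      rw [h] at h2
      exact hFQ i h2
    · rcases (hP.sub hQP hFQ hQE hFE).exists_RW hg with h | ⟨a, b, h⟩
      · exact absurd (hFE h) hgE
      · have h5 := hmono h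
        have hai : a = i := hP.first_unique h5 (RW.single hgP hgE)
        subst hai
        cases h with
        | single h6 _ => exact h6
        | @cons _ _ q g' hq hqF h6 =>
          exfalso
          have h7 := hmono h6
          have h8 : g' ∈ P a := by
            have := mul_mem (inv_mem (hQP _ hq)) hgP
            simpa using this
          have h9 := hP.first_unique h7 (RW.single h8 (hP.reduced _ _ _ h7))
          cases a <;> simp at h9
  · exact le_inf (le_gen Q i) (hQP i)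

end general

section pushout

variable {V : Bool → Type*} [∀ i, Group (V i)] {H : Type*} [Group H] (φ : ∀ i, H →* V i)

/-- the factors of a push-out -/
def fac (i : Bool) : Subgroup (PushoutI φ) := (PushoutI.of (φ := φ) i).range

/-- the base of a push-out -/
def bas : Subgroup (PushoutI φ) := (PushoutI.base φ).range

theorem bas_le_fac (i : Bool) : bas φ ≤ fac φ i := by
  rintro _ ⟨h, rfl⟩
  exact ⟨φ i h, PushoutI.of_apply_eq_base φ i h⟩

theorem gen_fac : gen (fac φ) = ⊤ := by
  rw [eq_top_iff]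
  intro x _
  induction x using PushoutI.induction_on with
  | of i g => exact le_gen (fac φ) i ⟨g, rfl⟩
  | base h => exact le_gen (fac φ) false (bas_le_fac φ false ⟨h, rfl⟩)
  | mul x y hx hy => exact mul_mem (hx trivial) (hy trivial)

theorem fstIdx_empty : (CoprodI.Word.empty : CoprodI.Word V).fstIdx = none := rfl

theorem fstIdx_empty_ne (i : Bool) : (CoprodI.Word.empty : CoprodI.Word V).fstIdx ≠ some i := by
  rw [fstIdx_empty]; exact (Option.some_ne_none i).symm

theorem fstIdx_cons {i : Bool} (a : V i) (w : CoprodI.Word V) (h : w.fstIdx ≠ some i)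
    (ha : a ≠ 1) : (CoprodI.Word.cons a w h ha).fstIdx = some i := rfl

theorem RW.exists_word {i j : Bool} {g : PushoutI φ} (h : RW (fac φ) (bas φ) i j g) :
    ∃ w : CoprodI.Word V, PushoutI.Reduced φ w ∧ w.fstIdx = some i ∧
      PushoutI.ofCoprodI w.prod = g := by
  induction h with
  | @single i g hg hE =>
    obtain ⟨a, rfl⟩ := hg
    have ha : a ∉ (φ i).range := by
      rintro ⟨x, rfl⟩
      exact hE ⟨x, (PushoutI.of_apply_eq_base φ i x).symm⟩
    have ha1 : a ≠ 1 := fun h => ha (h ▸ one_mem _)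
    refine ⟨CoprodI.Word.cons a CoprodI.Word.empty (fstIdx_empty_ne i) ha1, ?_, ?_, ?_⟩
    · intro x hx
      simp only [CoprodI.Word.cons, CoprodI.Word.empty, List.mem_singleton] at hx
      rw [hx]
      exact ha
    · exact fstIdx_cons _ _ _ _
    · rw [CoprodI.Word.prod_cons, CoprodI.Word.prod_empty, mul_one, PushoutI.ofCoprodI_of]
  | @cons i j a g ha hE _ ih =>
    obtain ⟨b, rfl⟩ := ha
    obtain ⟨w, hw, hwi, rfl⟩ := ih
    have hb : b ∉ (φ i).range := by
      rintro ⟨x, rfl⟩
      exact hE ⟨x, (PushoutI.of_apply_eq_base φ i x).symm⟩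
    have hb1 : b ≠ 1 := fun h => hb (h ▸ one_mem _)
    refine ⟨CoprodI.Word.cons b w (by rw [hwi]; cases i <;> simp) hb1, ?_, ?_, ?_⟩
    · intro x hx
      simp only [CoprodI.Word.cons, List.mem_cons] at hx
      rcases hx with rfl | hx
      · exact hb
      · exact hw x hx
    · exact fstIdx_cons _ _ _ _
    · rw [CoprodI.Word.prod_cons, map_mul, PushoutI.ofCoprodI_of]

theorem isAmalgam_pushout (hφ : ∀ i, Function.Injective (φ i)) : IsAmalgam (fac φ) (bas φ) := by
  refine ⟨bas_le_fac φ, fun i j g hg hgE => ?_⟩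
  obtain ⟨w, hw, hwi, rfl⟩ := hg.exists_word φ
  have := PushoutI.Reduced.eq_empty_of_mem_range hφ hw hgE
  rw [this] at hwi
  exact fstIdx_empty_ne i hwi

end pushout

end FlatClosing
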