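import Mathlib

/-!
# Core definitions for MP_ef842e (helper60)

* `Pos`, `pos` : position of a coordinate in the unit interval (lower end, interior, upper end);
* `Alt`, `IsAmalg` : internal amalgams `G = P *_{P ⊓ Q} Q`;
* `DoubleAmalg` : a group with two compatible internal amalgam decompositions
  (this is what a square of groups with trivial face group and no bigons gives);
* `StabSys` and `StabSys.U` : the basic construction `G × Q / ~` with the chain distance;
* the stabiliser systems of the two trees and of the square complex of a `DoubleAmalg`.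
-/

set_option autoImplicit false

namespace Pool.Agent.FlatClosing

/-- lower end, interior, upper end of the unit interval -/
inductive Pos
  | lo
  | mid
  | hi
  deriving DecidableEq

/-- position of a real number relative to the unit interval -/
noncomputable def pos (s : ℝ) : Pos := if s ≤ 0 then .lo else if 1 ≤ s then .hi else .mid

/-- alternating words: letters in `P \ Q` and `Q \ P` alternately -/
def Alt {G : Type} [Group G] (P Q : Subgroup G) (w : List G) : Prop :=
  (∀ x ∈ w, (x ∈ P ∧ x ∉ Q) ∨ (x ∈ Q ∧ x ∉ P)) ∧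
    List.IsChain (fun a b => (a ∈ P ∧ b ∈ Q) ∨ (a ∈ Q ∧ b ∈ P)) w

/-- `G` is the (internal) amalgam of its subgroups `P` and `Q` over `P ⊓ Q` -/
structure IsAmalg {G : Type} [Group G] (P Q : Subgroup G) : Prop where
  sup : P ⊔ Q = ⊤
  alt : ∀ w : List G, Alt P Q w → w ≠ [] → w.prod ∉ P ⊓ Q

/-- A group with two compatible internal amalgam decompositions.
`K false` belongs to the tree dual to the vertical strips, `K true` to the tree dual to the
horizontal strips. -/
structure DoubleAmalg (G : Type) [Group G] where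
  K : Bool → Pos → Subgroup G
  mid_eq : ∀ a, K a .mid = K a .lo ⊓ K a .hi
  amalg : ∀ a, IsAmalg (K a .lo) (K a .hi)
  triv : K false .mid ⊓ K true .mid = ⊥
  gen : ∀ a i, K a i = (K a i ⊓ K (!a) .lo) ⊔ (K a i ⊓ K (!a) .hi)
  fin : ∀ i j, Finite (K false i ⊓ K true j : Subgroup G)

/-- exchange of the two directions -/
def DoubleAmalg.swap {G : Type} [Group G] (D : DoubleAmalg G) : DoubleAmalg G where
  K a i := D.K (!a) i
  mid_eq a := D.mid_eq _
  amalg a := D.amalg _
  triv := by
    have h := D.triv
    rw [inf_comm] at h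
    exact h
  gen a i := D.gen _ _
  fin i j := by
    have h := D.fin j i
    rw [inf_comm] at h
    exact h

/-- stabiliser of a cell of the square complex: `i` horizontal position, `j` vertical position -/
def DoubleAmalg.St {G : Type} [Group G] (D : DoubleAmalg G) (i j : Pos) : Subgroup G :=
  D.K false i ⊓ D.K true j

theorem DoubleAmalg.K_mid_le {G : Type} [Group G] (D : DoubleAmalg G) (a : Bool) (i : Pos) :
    D.K a .mid ≤ D.K a i := by
  rw [D.mid_eq a]
  cases i
  · exact inf_le_left
  · rw [D.mid_eq a]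
  · exact inf_le_right

/-- A stabiliser system on a metric space `Q`: an upper semicontinuous assignment of subgroups
which generate the group. -/
structure StabSys (G : Type) [Group G] (Q : Type) [MetricSpace Q] where
  St : Q → Subgroup G
  usc : ∀ p : Q, ∃ δ > 0, ∀ q : Q, dist p q < δ → St q ≤ St p
  gen : (⨆ p, St p) = ⊤

namespace StabSys

variable {G : Type} [Group G] {Q : Type} [MetricSpace Q] (S : StabSys G Q)

/-- `(g, p) ~ (h, q)` iff `p = q` and `g⁻¹ h` stabilises `p` -/
def setoid : Setoid (G × Q) where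
  r x y := x.2 = y.2 ∧ x.1⁻¹ * y.1 ∈ S.St x.2
  iseqv := by
    refine ⟨fun x => ⟨rfl, by simp⟩, ?_, ?_⟩
    · rintro ⟨g, p⟩ ⟨h, q⟩ ⟨hpq, hg⟩
      simp only at hpq hg ⊢
      subst hpq
      refine ⟨rfl, ?_⟩
      have := (S.St p).inv_mem hg
      simpa [mul_inv_rev] using this
    · rintro ⟨g, p⟩ ⟨h, q⟩ ⟨k, r⟩ ⟨hpq, hg⟩ ⟨hqr, hh⟩
      simp only at hpq hqr hg hh ⊢
      subst hpq
      subst hqr
      refine ⟨rfl, ?_⟩
      have := (S.St p).mul_mem hg hh
      simpa [mul_assoc] using this

/-- the basic construction -/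
def U : Type := Quotient S.setoid

/-- the point `p` of the cell `g` -/
def pt (g : G) (p : Q) : S.U := Quotient.mk S.setoid (g, p)

theorem pt_eq_pt {g h : G} {p q : Q} :
    S.pt g p = S.pt h q ↔ p = q ∧ g⁻¹ * h ∈ S.St p := by
  constructor
  · intro h0
    exact Quotient.exact (s := S.setoid) h0
  · intro h0
    exact Quotient.sound (s := S.setoid) h0

theorem exists_rep (x : S.U) : ∃ g p, x = S.pt g p := by
  induction x using Quotient.inductionOn with
  | _ a => exact ⟨a.1, a.2, rfl⟩

/-- the fold map -/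
def fold : S.U → Q := Quotient.lift (fun a : G × Q => a.2) (fun _ _ h => h.1)

@[simp] theorem fold_pt (g : G) (p : Q) : S.fold (S.pt g p) = p := rfl

instance : SMul G S.U where
  smul g := Quotient.map (fun a : G × Q => (g * a.1, a.2)) (by
    rintro ⟨h, p⟩ ⟨k, q⟩ ⟨hpq, hg⟩
    simp only at hpq hg
    subst hpq
    refine ⟨rfl, ?_⟩
    simpa [mul_inv_rev, mul_assoc] using hg)

@[simp] theorem smul_pt (g h : G) (p : Q) : g • S.pt h p = S.pt (g * h) p := rfl

instance : MulAction G S.U where
  one_smul x := by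
    obtain ⟨h, p, rfl⟩ := S.exists_rep x
    simp
  mul_smul g k x := by
    obtain ⟨h, p, rfl⟩ := S.exists_rep x
    simp [mul_assoc]

/-- `Chain x y L`: there is a broken path from `x` to `y` of total length `L`, consecutive
points lying in a common cell. -/
inductive Chain : S.U → S.U → ℝ → Prop
  | nil (x : S.U) : Chain x x 0
  | cons (g : G) (p q : Q) (y : S.U) (L : ℝ) (h : Chain (S.pt g q) y L) :
      Chain (S.pt g p) y (dist p q + L)

/-- the chain distance -/
noncomputable def cdist (x y : S.U) : ℝ := sInf {L | S.Chain x y L}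

end StabSys

/-- the closed unit interval -/
abbrev I01 : Type := unitInterval

/-- the unit square with its Euclidean metric -/
abbrev Sq : Type := WithLp 2 (unitInterval × unitInterval)

/-- the `l2` product distance -/
theorem l2_dist {α β : Type} [PseudoMetricSpace α] [PseudoMetricSpace β]
    (p q : WithLp 2 (α × β)) :
    dist p q = Real.sqrt (dist p.fst q.fst ^ 2 + dist p.snd q.snd ^ 2) := by
  rw [WithLp.prod_dist_eq_add (by norm_num), Real.sqrt_eq_rpow]
  norm_num

namespace DoubleAmalg

variable {G : Type} [Group G] (D : DoubleAmalg G)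

theorem pos_near (s : ℝ) (h0 : 0 ≤ s) (h1 : s ≤ 1) :
    ∃ δ > 0, ∀ t : ℝ, 0 ≤ t → t ≤ 1 → |s - t| < δ → pos t = pos s ∨ pos t = .mid := by
  rcases eq_or_lt_of_le h0 with h0' | h0'
  · refine ⟨1, one_pos, fun t ht0 ht1 ht => ?_⟩
    subst h0'
    have h2 : t < 1 := by
      rw [abs_lt] at ht
      linarith [ht.1]
    by_cases h3 : t ≤ 0
    · left; simp [pos, h3]
    · right; simp [pos, h3, not_le.2 h2]
  · rcases eq_or_lt_of_le h1 with h1' | h1'
    · refine ⟨1, one_pos, fun t ht0 ht1 ht => ?_⟩
      subst h1'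
      have h2 : 0 < t := by
        rw [abs_lt] at ht
        linarith [ht.2]
      by_cases h3 : 1 ≤ t
      · left; simp [pos, h3, not_le.2 h2]
      · right; simp [pos, h3, not_le.2 h2]
    · refine ⟨min s (1 - s), lt_min h0' (by linarith), fun t ht0 ht1 ht => ?_⟩
      have h2 := lt_of_lt_of_le ht (min_le_left _ _)
      have h3 := lt_of_lt_of_le ht (min_le_right _ _)
      rw [abs_lt] at h2 h3
      right
      have h4 : ¬ t ≤ 0 := by linarith [h2.2]
      have h5 : ¬ 1 ≤ t := by linarith [h3.1]
      simp [pos, h4, h5]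

theorem K_pos_le (a : Bool) {s t : ℝ} (h : pos t = pos s ∨ pos t = .mid) :
    D.K a (pos t) ≤ D.K a (pos s) := by
  rcases h with h | h
  · rw [h]
  · rw [h]; exact D.K_mid_le a _

/-- stabiliser system of the tree in direction `a` -/
noncomputable def treeSys (a : Bool) : StabSys G I01 where
  St s := D.K a (pos s)
  usc := by
    intro s
    obtain ⟨δ, hδ, h⟩ := pos_near s s.2.1 s.2.2
    refine ⟨δ, hδ, fun t ht => D.K_pos_le a (h t t.2.1 t.2.2 ?_)⟩
    rw [Subtype.dist_eq, Real.dist_eq] at ht
    exact ht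
  gen := by
    apply le_antisymm le_top
    rw [← (D.amalg a).sup]
    apply sup_le
    · have : D.K a (pos ((0 : unitInterval) : ℝ)) = D.K a .lo := by simp [pos]
      rw [← this]
      exact le_iSup (fun s : I01 => D.K a (pos s)) 0
    · have : D.K a (pos ((1 : unitInterval) : ℝ)) = D.K a .hi := by
        have h : ¬ ((1 : ℝ) ≤ 0) := by norm_num
        simp [pos, h]
      rw [← this]
      exact le_iSup (fun s : I01 => D.K a (pos s)) 1

theorem gen_St : (⨆ p : Pos × Pos, D.St p.1 p.2) = ⊤ := by
  apply le_antisymm le_top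
  rw [← (D.amalg false).sup]
  apply sup_le
  · rw [D.gen false .lo]
    exact sup_le (le_iSup (fun p : Pos × Pos => D.St p.1 p.2) (.lo, .lo))
      (le_iSup (fun p : Pos × Pos => D.St p.1 p.2) (.lo, .hi))
  · rw [D.gen false .hi]
    exact sup_le (le_iSup (fun p : Pos × Pos => D.St p.1 p.2) (.hi, .lo))
      (le_iSup (fun p : Pos × Pos => D.St p.1 p.2) (.hi, .hi))

theorem exists_pos (i : Pos) : ∃ s : unitInterval, pos (s : ℝ) = i := by
  cases i
  · exact ⟨0, by simp [pos]⟩
  · refine ⟨⟨1 / 2, by norm_num, by norm_num⟩, ?_⟩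
    have h1 : ¬ (1 / 2 : ℝ) ≤ 0 := by norm_num
    have h2 : ¬ (1 : ℝ) ≤ 1 / 2 := by norm_num
    simp only [pos, if_neg h1, if_neg h2]
  · refine ⟨1, ?_⟩
    have h : ¬ ((1 : ℝ) ≤ 0) := by norm_num
    simp [pos, h]

/-- stabiliser system of the square complex -/
noncomputable def sqSys : StabSys G Sq where
  St p := D.St (pos p.fst) (pos p.snd)
  usc := by
    intro p
    obtain ⟨δ, hδ, h⟩ := pos_near p.fst p.fst.2.1 p.fst.2.2
    obtain ⟨ε, hε, h'⟩ := pos_near p.snd p.snd.2.1 p.snd.2.2
    refine ⟨min δ ε, lt_min hδ hε, fun q hq => ?_⟩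
    have hd : dist p q = Real.sqrt (dist p.fst q.fst ^ 2 + dist p.snd q.snd ^ 2) := l2_dist p q
    have h1 : dist p.fst q.fst ≤ dist p q := by
      rw [hd]
      exact Real.le_sqrt_of_sq_le (by nlinarith [sq_nonneg (dist p.snd q.snd)])
    have h2 : dist p.snd q.snd ≤ dist p q := by
      rw [hd]
      exact Real.le_sqrt_of_sq_le (by nlinarith [sq_nonneg (dist p.fst q.fst)])
    have h3 := h q.fst q.fst.2.1 q.fst.2.2 (by
      have := lt_of_le_of_lt h1 (lt_of_lt_of_le hq (min_le_left _ _))
      rwa [Subtype.dist_eq, Real.dist_eq] at this)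
    have h4 := h' q.snd q.snd.2.1 q.snd.2.2 (by
      have := lt_of_le_of_lt h2 (lt_of_lt_of_le hq (min_le_right _ _))
      rwa [Subtype.dist_eq, Real.dist_eq] at this)
    exact inf_le_inf (D.K_pos_le false h3) (D.K_pos_le true h4)
  gen := by
    apply le_antisymm le_top
    rw [← D.gen_St]
    apply iSup_le
    rintro ⟨i, j⟩
    obtain ⟨s, hs⟩ := exists_pos i
    obtain ⟨t, ht⟩ := exists_pos j
    have := le_iSup (fun p : Sq => D.St (pos p.fst) (pos p.snd)) (WithLp.toLp 2 (s, t))
    have e : D.St (pos ((WithLp.toLp 2 (s, t) : Sq).fst : ℝ)) (pos ((WithLp.toLp 2 (s, t) : Sq).snd : ℝ))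
        = D.St i j := by
      rw [← hs, ← ht]
      rfl
    rw [← e]
    exact this

/-- The square complex of a double amalgam. -/
abbrev X : Type := D.sqSys.U

/-- The tree in direction `a` of a double amalgam. -/
abbrev T (a : Bool) : Type := (D.treeSys a).U

end DoubleAmalg

end Pool.Agent.FlatClosing
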