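import Mathlib
import Pool.Agent.FlatClosing.AlgA
import Pool.Agent.FlatClosing.Core

/-!
# Squares of groups with trivial face group and no bigons (MP_ef842e_al, helper22)

`SqData` : a square of finite groups; `S.Grp` its colimit, `S.f i j` the maps of the corner groups,
`S.lift`, `S.hom_ext` the universal property, `S.dbl : DoubleAmalg S.Grp` and its stabilisers.
-/

set_option autoImplicit false

namespace FlatClosing

open Monoid Pool.Agent.FlatClosing

/-- A square of groups with trivial face group and without bigons in the links. `V i j` is the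
group of the corner `(i, j)`, `Ev i` the group of the vertical side `s = i`, `Eh j` the group of
the horizontal side `t = j`. -/
structure SqData where
  V : Bool → Bool → Type
  Ev : Bool → Type
  Eh : Bool → Type
  grV : ∀ i j, Group (V i j)
  grEv : ∀ i, Group (Ev i)
  grEh : ∀ j, Group (Eh j)
  ev : ∀ i j, Ev i →* V i j
  eh : ∀ i j, Eh j →* V i j
  ev_inj : ∀ i j, Function.Injective (ev i j)
  eh_inj : ∀ i j, Function.Injective (eh i j)
  nb : ∀ i j x y, ev i j x = eh i j y → x = 1
  fin : ∀ i j, Finite (V i j)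

attribute [instance] SqData.grV SqData.grEv SqData.grEh SqData.fin

namespace SqData

/-- exchange of the two directions -/
def swap (S : SqData) : SqData where
  V i j := S.V j i
  Ev := S.Eh
  Eh := S.Ev
  grV i j := S.grV j i
  grEv := S.grEh
  grEh := S.grEv
  ev i j := S.eh j i
  eh i j := S.ev j i
  ev_inj i j := S.eh_inj j i
  eh_inj i j := S.ev_inj j i
  nb i j x y h := by
    have h1 := S.nb j i y x h.symm
    rw [h1, map_one] at h
    exact S.eh_inj j i (by rw [h, map_one])
  fin i j := S.fin j i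

variable (S : SqData)

/-- the amalgam of the two corner groups of a vertical side -/
abbrev Gl (i : Bool) : Type := PushoutI (fun j => S.ev i j)

/-- the free product of the two horizontal edge groups -/
abbrev Fr : Type := PushoutI (fun j : Bool => (1 : Unit →* S.Eh j))

/-- the inclusion of the free product of the horizontal edge groups -/
noncomputable def toGl (i : Bool) : S.Fr →* S.Gl i :=
  PushoutI.lift (fun j => (PushoutI.of j).comp (S.eh i j)) 1 (by
    intro j
    ext x
    simp)

theorem toGl_of (i j : Bool) (x : S.Eh j) :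
    S.toGl i (PushoutI.of j x) = PushoutI.of j (S.eh i j x) := by
  simp [toGl]

theorem toGl_injective (i : Bool) : Function.Injective (S.toGl i) := by
  have h1 : ∀ j : Bool, Function.Injective (1 : Unit →* S.Eh j) := fun j a b _ =>
    Subsingleton.elim a b
  refine injective_of_RW (isAmalgam_pushout _ h1) (gen_fac _)
    (isAmalgam_pushout _ (fun j => S.ev_inj i j)) _ ?_ ?_ ?_
  · rintro j _ ⟨a, rfl⟩
    exact ⟨S.eh i j a, (S.toGl_of i j a).symm⟩
  · rintro j _ ⟨a, rfl⟩ ha ⟨y, hy⟩
    apply ha
    rw [S.toGl_of] at hy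
    rw [← PushoutI.of_apply_eq_base _ j] at hy
    have h2 := PushoutI.of_injective (fun j => S.ev_inj i j) j hy
    have h3 := S.nb i j y a h2
    rw [h3, map_one] at h2
    have h4 : a = 1 := S.eh_inj i j (by rw [← h2, map_one])
    rw [h4, map_one]
    exact one_mem _
  · rintro _ ⟨u, rfl⟩ _
    have : u = 1 := Subsingleton.elim _ _
    rw [this, map_one]

/-- the colimit of the square of groups -/
def Grp : Type := PushoutI (fun i => S.toGl i)

noncomputable instance : Group S.Grp := inferInstanceAs (Group (PushoutI (fun i => S.toGl i)))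

/-- the inclusion of the group of a side -/
noncomputable def ofGl (i : Bool) : S.Gl i →* S.Grp :=
  (PushoutI.of i : S.Gl i →* PushoutI (fun i => S.toGl i))

/-- the inclusion of the wall group -/
noncomputable def ofFr : S.Fr →* S.Grp :=
  (PushoutI.base (fun i => S.toGl i) : S.Fr →* PushoutI (fun i => S.toGl i))

theorem ofGl_toGl (i : Bool) (x : S.Fr) : S.ofGl i (S.toGl i x) = S.ofFr x :=
  PushoutI.of_apply_eq_base (fun i => S.toGl i) i x

theorem ofGl_injective (i : Bool) : Function.Injective (S.ofGl i) :=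
  PushoutI.of_injective (fun i => S.toGl_injective i) i

/-- the maps of the corner groups -/
noncomputable def f (i j : Bool) : S.V i j →* S.Grp := (S.ofGl i).comp (PushoutI.of j)

theorem f_apply (i j : Bool) (x : S.V i j) : S.f i j x = S.ofGl i (PushoutI.of j x) := rfl

theorem f_injective (i j : Bool) : Function.Injective (S.f i j) := by
  intro x y h
  exact PushoutI.of_injective (fun j => S.ev_inj i j) j (S.ofGl_injective i h)

theorem f_ev (i j : Bool) (x : S.Ev i) : S.f i j (S.ev i j x) = S.f i false (S.ev i false x) := by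
  rw [f_apply, f_apply, PushoutI.of_apply_eq_base (fun j => S.ev i j),
    PushoutI.of_apply_eq_base (fun j => S.ev i j)]

theorem f_eh (i j : Bool) (x : S.Eh j) : S.f i j (S.eh i j x) = S.f false j (S.eh false j x) := by
  rw [f_apply, f_apply, ← S.toGl_of, ← S.toGl_of, S.ofGl_toGl, S.ofGl_toGl]

section lift

variable {K : Type*} [Group K] (g : ∀ i j, S.V i j →* K)
  (hv : ∀ i x, g i true (S.ev i true x) = g i false (S.ev i false x))
  (hh : ∀ j x, g true j (S.eh true j x) = g false j (S.eh false j x))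

/-- auxiliary -/
noncomputable def liftGl (i : Bool) : S.Gl i →* K :=
  PushoutI.lift (fun j => g i j) ((g i false).comp (S.ev i false)) (by
    intro j
    ext x
    cases j
    · rfl
    · exact hv i x)

theorem liftGl_of (i j : Bool) (x : S.V i j) :
    S.liftGl g hv i (PushoutI.of j x) = g i j x := by
  simp [liftGl]

/-- the universal property of the colimit -/
noncomputable def lift : S.Grp →* K :=
  (PushoutI.lift (fun i => S.liftGl g hv i) ((S.liftGl g hv false).comp (S.toGl false)) (by
    intro i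
    apply PushoutI.hom_ext_nonempty
    intro j
    ext x
    simp only [MonoidHom.comp_apply]
    rw [S.toGl_of, S.toGl_of, liftGl_of, liftGl_of]
    cases i
    · rfl
    · exact hh j x) : PushoutI (fun i => S.toGl i) →* K)

theorem lift_f (i j : Bool) (x : S.V i j) : S.lift g hv hh (S.f i j x) = g i j x := by
  have h : S.lift g hv hh (S.f i j x) = S.liftGl g hv i (PushoutI.of j x) :=
    PushoutI.lift_of _ _ _ _
  rw [h, liftGl_of]

end lift

theorem hom_ext {K : Type*} [Group K] {a b : S.Grp →* K}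
    (h : ∀ i j x, a (S.f i j x) = b (S.f i j x)) : a = b := by
  apply PushoutI.hom_ext_nonempty (φ := fun i => S.toGl i)
  intro i
  apply PushoutI.hom_ext_nonempty
  intro j
  ext x
  exact h i j x

/-! ### the internal amalgams of the vertical direction -/

/-- the corner subgroups -/
noncomputable def Vs (i j : Bool) : Subgroup S.Grp := (S.f i j).range
/-- the vertical edge subgroups -/
noncomputable def Evs (i : Bool) : Subgroup S.Grp := ((S.f i false).comp (S.ev i false)).range
/-- the horizontal edge subgroups -/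
noncomputable def Ehs (j : Bool) : Subgroup S.Grp := ((S.f false j).comp (S.eh false j)).range

theorem Evs_eq (i j : Bool) : S.Evs i = ((S.f i j).comp (S.ev i j)).range := by
  ext x
  constructor
  · rintro ⟨y, rfl⟩
    exact ⟨y, S.f_ev i j y⟩
  · rintro ⟨y, rfl⟩
    exact ⟨y, (S.f_ev i j y).symm⟩

theorem Ehs_eq (i j : Bool) : S.Ehs j = ((S.f i j).comp (S.eh i j)).range := by
  ext x
  constructor
  · rintro ⟨y, rfl⟩
    exact ⟨y, S.f_eh i j y⟩
  · rintro ⟨y, rfl⟩
    exact ⟨y, (S.f_eh i j y).symm⟩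

/-- the vertex groups of the vertical splitting -/
noncomputable def Kv (i : Bool) : Subgroup S.Grp := gen (fun j => S.Vs i j)
/-- the vertex groups of the horizontal splitting -/
noncomputable def Kh (j : Bool) : Subgroup S.Grp := gen (fun i => S.Vs i j)

theorem Kv_eq (i : Bool) : S.Kv i = fac (fun i => S.toGl i) i := by
  have h1 : (fun j => S.Vs i j) = fun j => (fac (fun j => S.ev i j) j).map (S.ofGl i) := by
    funext j
    unfold Vs fac f
    rw [MonoidHom.range_comp]
  unfold Kv
  rw [h1, gen_map, gen_fac]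
  ext x
  simp only [Subgroup.mem_map, Subgroup.mem_top, true_and]
  rfl

theorem genEhs_eq : gen S.Ehs = bas (fun i => S.toGl i) := by
  have h1 : S.Ehs = fun j => (fac (fun j : Bool => (1 : Unit →* S.Eh j)) j).map S.ofFr := by
    funext j
    ext x
    constructor
    · rintro ⟨y, rfl⟩
      refine ⟨PushoutI.of j y, ⟨y, rfl⟩, ?_⟩
      rw [← S.ofGl_toGl false, S.toGl_of]
      rfl
    · rintro ⟨_, ⟨y, rfl⟩, rfl⟩
      refine ⟨y, ?_⟩
      rw [← S.ofGl_toGl false, S.toGl_of]
      rfl
  rw [h1, gen_map, gen_fac]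
  ext x
  simp only [Subgroup.mem_map, Subgroup.mem_top, true_and]
  rfl

theorem amV : IsAmalgam S.Kv (gen S.Ehs) := by
  have h1 : S.Kv = fac (fun i => S.toGl i) := funext S.Kv_eq
  rw [h1, genEhs_eq]
  exact isAmalgam_pushout (fun i => S.toGl i) (fun i => S.toGl_injective i)

theorem genKv : gen S.Kv = ⊤ := by
  have h1 : S.Kv = fac (fun i => S.toGl i) := funext S.Kv_eq
  rw [h1]
  exact gen_fac (fun i => S.toGl i)

theorem amVi (i : Bool) : IsAmalgam (fun j => S.Vs i j) (S.Evs i) := by
  have h1 : (fun j => S.Vs i j) = fun j => (fac (fun j => S.ev i j) j).map (S.ofGl i) := by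
    funext j
    unfold Vs fac f
    rw [MonoidHom.range_comp]
  have h2 : S.Evs i = (bas (fun j => S.ev i j)).map (S.ofGl i) := by
    unfold Evs bas
    ext x
    constructor
    · rintro ⟨y, rfl⟩
      refine ⟨_, ⟨y, rfl⟩, ?_⟩
      rw [← PushoutI.of_apply_eq_base (fun j => S.ev i j) false]
      rfl
    · rintro ⟨_, ⟨y, rfl⟩, rfl⟩
      refine ⟨y, ?_⟩
      rw [← PushoutI.of_apply_eq_base (fun j => S.ev i j) false]
      rfl
  rw [h1, h2]
  exact (isAmalgam_pushout _ (fun j => S.ev_inj i j)).map (S.ofGl i) (S.ofGl_injective i)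

/-! ### the other direction -/

/-- the comparison of the two constructions -/
noncomputable def toSwap : S.Grp →* S.swap.Grp :=
  S.lift (fun i j => S.swap.f j i) (fun i x => S.swap.f_eh true i x)
    (fun j x => S.swap.f_ev j true x)

theorem toSwap_f (i j : Bool) (x : S.V i j) : S.toSwap (S.f i j x) = S.swap.f j i x :=
  S.lift_f _ _ _ i j x

/-- the comparison of the two constructions -/
noncomputable def ofSwap : S.swap.Grp →* S.Grp :=
  S.swap.lift (fun i j => S.f j i) (fun i x => S.f_eh true i x) (fun j x => S.f_ev j true x)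

theorem ofSwap_f (i j : Bool) (x : S.V i j) : S.ofSwap (S.swap.f j i x) = S.f i j x :=
  S.swap.lift_f _ _ _ j i x

theorem ofSwap_injective : Function.Injective S.ofSwap := by
  have h : S.toSwap.comp S.ofSwap = MonoidHom.id _ := by
    apply S.swap.hom_ext
    intro j i x
    exact (congrArg S.toSwap (S.ofSwap_f i j x)).trans (S.toSwap_f i j x)
  intro x y hxy
  have h1 := DFunLike.congr_fun h x
  have h2 := DFunLike.congr_fun h y
  simp only [MonoidHom.comp_apply, MonoidHom.id_apply] at h1 h2
  rw [← h1, ← h2, hxy]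

theorem ofSwap_surjective : Function.Surjective S.ofSwap := by
  have h : S.ofSwap.comp S.toSwap = MonoidHom.id _ := by
    apply S.hom_ext
    intro i j x
    exact (congrArg S.ofSwap (S.toSwap_f i j x)).trans (S.ofSwap_f i j x)
  intro x
  exact ⟨S.toSwap x, DFunLike.congr_fun h x⟩

theorem map_Vs (i j : Bool) : (S.swap.Vs j i).map S.ofSwap = S.Vs i j := by
  ext x
  constructor
  · rintro ⟨_, ⟨y, rfl⟩, rfl⟩
    exact ⟨y, (S.ofSwap_f i j y).symm⟩
  · rintro ⟨y, rfl⟩
    exact ⟨S.swap.f j i y, ⟨y, rfl⟩, S.ofSwap_f i j y⟩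

theorem map_Evs (j : Bool) : (S.swap.Evs j).map S.ofSwap = S.Ehs j := by
  ext x
  constructor
  · rintro ⟨_, ⟨y, rfl⟩, rfl⟩
    exact ⟨y, (S.ofSwap_f false j (S.eh false j y)).symm⟩
  · rintro ⟨y, rfl⟩
    exact ⟨_, ⟨y, rfl⟩, S.ofSwap_f false j (S.eh false j y)⟩

theorem map_Ehs (i : Bool) : (S.swap.Ehs i).map S.ofSwap = S.Evs i := by
  ext x
  constructor
  · rintro ⟨_, ⟨y, rfl⟩, rfl⟩
    exact ⟨y, (S.ofSwap_f i false (S.ev i false y)).symm⟩
  · rintro ⟨y, rfl⟩
    exact ⟨_, ⟨y, rfl⟩, S.ofSwap_f i false (S.ev i false y)⟩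

theorem amHj (j : Bool) : IsAmalgam (fun i => S.Vs i j) (S.Ehs j) := by
  have h := (S.swap.amVi j).map S.ofSwap S.ofSwap_injective
  rw [S.map_Evs] at h
  have h1 : (fun i => (S.swap.Vs j i).map S.ofSwap) = fun i => S.Vs i j :=
    funext fun i => S.map_Vs i j
  rw [h1] at h
  exact h

theorem map_Kv (j : Bool) : (S.swap.Kv j).map S.ofSwap = S.Kh j := by
  unfold Kv Kh
  rw [← gen_map]
  congr 1
  funext i
  exact S.map_Vs i j

theorem amH : IsAmalgam S.Kh (gen S.Evs) := by
  have h := S.swap.amV.map S.ofSwap S.ofSwap_injective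
  rw [← gen_map] at h
  have h1 : (fun j => (S.swap.Kv j).map S.ofSwap) = S.Kh := funext S.map_Kv
  have h2 : (fun j => (S.swap.Ehs j).map S.ofSwap) = S.Evs := funext S.map_Ehs
  rw [h1, h2] at h
  exact h

theorem genKh : gen S.Kh = ⊤ := by
  have h1 : (fun j => (S.swap.Kv j).map S.ofSwap) = S.Kh := funext S.map_Kv
  rw [← h1, gen_map, S.swap.genKv]
  rw [eq_top_iff]
  rintro x -
  obtain ⟨y, rfl⟩ := S.ofSwap_surjective x
  exact ⟨y, trivial, rfl⟩

/-! ### intersections -/

theorem Evs_le (i j : Bool) : S.Evs i ≤ S.Vs i j := by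
  rw [S.Evs_eq i j]
  rintro _ ⟨y, rfl⟩
  exact ⟨_, rfl⟩

theorem Ehs_le (i j : Bool) : S.Ehs j ≤ S.Vs i j := by
  rw [S.Ehs_eq i j]
  rintro _ ⟨y, rfl⟩
  exact ⟨_, rfl⟩

theorem Evs_inf_Ehs (i j : Bool) : S.Evs i ⊓ S.Ehs j = ⊥ := by
  rw [S.Evs_eq i j, S.Ehs_eq i j, eq_bot_iff]
  rintro _ ⟨⟨x, rfl⟩, ⟨y, hy⟩⟩
  have h := S.f_injective i j hy
  rw [S.nb i j x y h.symm]
  simp

theorem genEvs_inf_Ehs (j : Bool) : gen S.Evs ⊓ S.Ehs j = ⊥ :=
  gen_inf_base (S.amHj j) (fun i => S.Evs_le i j) (fun _ => bot_le)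
    (fun i => (S.Evs_inf_Ehs i j).le) bot_le

theorem genEvs_inf_Vs (i j : Bool) : gen S.Evs ⊓ S.Vs i j = S.Evs i :=
  gen_inf_factor (S.amHj j) (fun i => S.Evs_le i j) (fun _ => bot_le)
    (fun i => (S.Evs_inf_Ehs i j).le) bot_le i

theorem Evs_le_gen (i : Bool) : S.Evs i ≤ gen S.Evs := le_gen S.Evs i

theorem Vs_le_Kh (i j : Bool) : S.Vs i j ≤ S.Kh j := le_gen (fun i => S.Vs i j) i

theorem Vs_le_Kv (i j : Bool) : S.Vs i j ≤ S.Kv i := le_gen (fun j => S.Vs i j) j

theorem Ehs_inf_genEvs (j : Bool) : S.Ehs j ⊓ gen S.Evs ≤ ⊥ := by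
  rw [inf_comm]; exact (S.genEvs_inf_Ehs j).le

theorem Vs_inf_genEvs (i j : Bool) : S.Vs i j ⊓ gen S.Evs ≤ S.Evs i := by
  rw [inf_comm]; exact (S.genEvs_inf_Vs i j).le

/-- `K_v i ⊓ F_h = E_v i` -/
theorem Kv_inf_genEvs (i : Bool) : S.Kv i ⊓ gen S.Evs = S.Evs i :=
  gen_inf_base (Q := fun j => S.Vs i j) S.amH (fun j => S.Vs_le_Kh i j) (fun j => S.Evs_le i j)
    (fun j => S.Vs_inf_genEvs i j) (S.Evs_le_gen i)

/-- `K_v i ⊓ K_h j = V i j` -/
theorem Kv_inf_Kh (i j : Bool) : S.Kv i ⊓ S.Kh j = S.Vs i j :=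
  gen_inf_factor (Q := fun j => S.Vs i j) S.amH (fun j => S.Vs_le_Kh i j)
    (fun j => S.Evs_le i j) (fun j => S.Vs_inf_genEvs i j) (S.Evs_le_gen i) j

/-- `F_v ⊓ F_h = 1` -/
theorem genEhs_inf_genEvs : gen S.Ehs ⊓ gen S.Evs = ⊥ :=
  gen_inf_base (Q := S.Ehs) S.amH (fun j => (S.Ehs_le false j).trans (S.Vs_le_Kh false j))
    (fun _ => bot_le) (fun j => S.Ehs_inf_genEvs j) bot_le

/-- `F_v ⊓ K_h j = E_h j` -/
theorem genEhs_inf_Kh (j : Bool) : gen S.Ehs ⊓ S.Kh j = S.Ehs j :=
  gen_inf_factor (Q := S.Ehs) S.amH (fun j => (S.Ehs_le false j).trans (S.Vs_le_Kh false j))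
    (fun _ => bot_le) (fun j => S.Ehs_inf_genEvs j) bot_le j

end SqData

/-! ### conversion to `IsAmalg` -/

theorem RW.of_alt {G : Type} [Group G] {P : Bool → Subgroup G} (w : List G)
    (h : Alt (P false) (P true) w) (hw : w ≠ []) :
    ∃ i j, RW P (P false ⊓ P true) i j w.prod ∧ ∀ x ∈ w.head?, x ∈ P i := by
  induction w with
  | nil => exact absurd rfl hw
  | cons a l ih =>
    obtain ⟨h1, h2⟩ := h
    obtain ⟨i, hi, hi'⟩ : ∃ i, a ∈ P i ∧ a ∉ P (!i) := by
      rcases h1 a (by simp) with h | h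
      · exact ⟨false, h⟩
      · exact ⟨true, h⟩
    have haE : a ∉ P false ⊓ P true := by
      rintro ⟨h3, h4⟩
      cases i
      · exact hi' h4
      · exact hi' h3
    cases l with
    | nil =>
      refine ⟨i, i, ?_, by simpa using hi⟩
      simpa using RW.single hi haE
    | cons b l =>
      have h2' := List.isChain_cons_cons.1 h2
      obtain ⟨i', j', h5, h6⟩ := ih ⟨fun x hx => h1 x (List.mem_cons_of_mem _ hx), h2'.2⟩
        (by simp)
      have hb : b ∈ P i' := h6 b (by simp)
      have hii : i' = !i := by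
        rcases h1 b (by simp) with hb' | hb'
        · have : i' = false := by
            cases i'
            · rfl
            · exact absurd hb hb'.2
          subst this
          rcases h2'.1 with h7 | h7
          · exact absurd h7.2 hb'.2
          · cases i
            · exact absurd h7.1 hi'
            · rfl
        · have : i' = true := by
            cases i'
            · exact absurd hb hb'.2
            · rfl
          subst this
          rcases h2'.1 with h7 | h7
          · cases i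
            · rfl
            · exact absurd h7.1 hi'
          · exact absurd h7.2 hb'.2
      subst hii
      refine ⟨i, j', ?_, by simpa using hi⟩
      rw [List.prod_cons]
      exact RW.cons hi haE h5

theorem IsAmalgam.isAmalg {G : Type} [Group G] {P : Bool → Subgroup G} {E : Subgroup G}
    (hA : IsAmalgam P E) (hg : gen P = ⊤) : IsAmalg (P false) (P true) := by
  have hE : P false ⊓ P true = E := hA.inf_eq (by simp)
  constructor
  · rw [eq_top_iff, ← hg]
    unfold gen
    rw [Subgroup.closure_union, Subgroup.closure_eq, Subgroup.closure_eq]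
  · intro w hw hne
    obtain ⟨i, j, h, -⟩ := RW.of_alt w hw hne
    rw [hE] at h ⊢
    exact hA.reduced _ _ _ h

namespace SqData

variable (S : SqData)

/-- the subgroups of the double amalgam -/
noncomputable def KK : Bool → Pos → Subgroup S.Grp
  | false, .lo => S.Kv false
  | false, .mid => S.Kv false ⊓ S.Kv true
  | false, .hi => S.Kv true
  | true, .lo => S.Kh false
  | true, .mid => S.Kh false ⊓ S.Kh true
  | true, .hi => S.Kh true

theorem KK_mid_false : S.KK false .mid = gen S.Ehs := S.amV.inf_eq (by simp)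

theorem KK_mid_true : S.KK true .mid = gen S.Evs := S.amH.inf_eq (by simp)

/-- position of a side -/
def _root_.FlatClosing.bp : Bool → Pos
  | false => .lo
  | true => .hi

theorem KK_false_bp (i : Bool) : S.KK false (bp i) = S.Kv i := by cases i <;> rfl

theorem KK_true_bp (j : Bool) : S.KK true (bp j) = S.Kh j := by cases j <;> rfl

theorem gen_eq_sup {G : Type} [Group G] (P : Bool → Subgroup G) : gen P = P false ⊔ P true := by
  unfold gen
  rw [Subgroup.closure_union, Subgroup.closure_eq, Subgroup.closure_eq]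

/-- the double amalgam of a square of groups -/
noncomputable def dbl : DoubleAmalg S.Grp where
  K := S.KK
  mid_eq a := by cases a <;> rfl
  amalg a := by
    cases a
    · exact S.amV.isAmalg S.genKv
    · exact S.amH.isAmalg S.genKh
  triv := by rw [S.KK_mid_false, S.KK_mid_true]; exact S.genEhs_inf_genEvs
  gen a i := by
    apply le_antisymm
    · cases a
      · cases i
        · show S.Kv false ≤ (S.Kv false ⊓ S.Kh false) ⊔ (S.Kv false ⊓ S.Kh true)
          rw [S.Kv_inf_Kh, S.Kv_inf_Kh]
          exact (gen_eq_sup _).le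
        · rw [S.KK_mid_false]
          show gen S.Ehs ≤ (gen S.Ehs ⊓ S.Kh false) ⊔ (gen S.Ehs ⊓ S.Kh true)
          rw [S.genEhs_inf_Kh, S.genEhs_inf_Kh]
          exact (gen_eq_sup _).le
        · show S.Kv true ≤ (S.Kv true ⊓ S.Kh false) ⊔ (S.Kv true ⊓ S.Kh true)
          rw [S.Kv_inf_Kh, S.Kv_inf_Kh]
          exact (gen_eq_sup _).le
      · cases i
        · show S.Kh false ≤ (S.Kh false ⊓ S.Kv false) ⊔ (S.Kh false ⊓ S.Kv true)
          rw [inf_comm, S.Kv_inf_Kh, inf_comm, S.Kv_inf_Kh]
          exact (gen_eq_sup _).le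
        · rw [S.KK_mid_true]
          show gen S.Evs ≤ (gen S.Evs ⊓ S.Kv false) ⊔ (gen S.Evs ⊓ S.Kv true)
          rw [inf_comm, S.Kv_inf_genEvs, inf_comm, S.Kv_inf_genEvs]
          exact (gen_eq_sup _).le
        · show S.Kh true ≤ (S.Kh true ⊓ S.Kv false) ⊔ (S.Kh true ⊓ S.Kv true)
          rw [inf_comm, S.Kv_inf_Kh, inf_comm, S.Kv_inf_Kh]
          exact (gen_eq_sup _).le
    · exact sup_le inf_le_left inf_le_left
  fin i j := by
    have h1 : ∃ i', S.KK false i ≤ S.KK false (bp i') := by
      cases i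
      · exact ⟨false, le_rfl⟩
      · exact ⟨false, inf_le_left⟩
      · exact ⟨true, le_rfl⟩
    have h2 : ∃ j', S.KK true j ≤ S.KK true (bp j') := by
      cases j
      · exact ⟨false, le_rfl⟩
      · exact ⟨false, inf_le_left⟩
      · exact ⟨true, le_rfl⟩
    obtain ⟨i', h1⟩ := h1
    obtain ⟨j', h2⟩ := h2
    have h3 : S.KK false i ⊓ S.KK true j ≤ S.Vs i' j' := by
      rw [← S.Kv_inf_Kh, ← S.KK_false_bp, ← S.KK_true_bp]
      exact inf_le_inf h1 h2
    have h4 : Finite (S.Vs i' j') := by
      unfold Vs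
      exact Set.finite_range (S.f i' j') |>.to_subtype
    exact Finite.Set.subset (s := (S.Vs i' j' : Set S.Grp)) h3

theorem St_corner (i j : Bool) : S.dbl.St (bp i) (bp j) = (S.f i j).range := by
  show S.KK false (bp i) ⊓ S.KK true (bp j) = _
  rw [S.KK_false_bp, S.KK_true_bp, S.Kv_inf_Kh]
  rfl

theorem St_vert (i j : Bool) : S.dbl.St (bp i) .mid = ((S.f i j).comp (S.ev i j)).range := by
  show S.KK false (bp i) ⊓ S.KK true .mid = _
  rw [S.KK_false_bp, S.KK_mid_true, S.Kv_inf_genEvs, S.Evs_eq i j]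

theorem St_horiz (i j : Bool) : S.dbl.St .mid (bp j) = ((S.f i j).comp (S.eh i j)).range := by
  show S.KK false .mid ⊓ S.KK true (bp j) = _
  rw [S.KK_true_bp, S.KK_mid_false, S.genEhs_inf_Kh, S.Ehs_eq i j]

theorem St_face : S.dbl.St .mid .mid = ⊥ := S.dbl.triv

end SqData

end FlatClosing
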