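import Mathlib

/-!
# Finite data for MP_ef842e (helper84)

* `E73` : the group `7:3`, the pair `(a, j)` stands for `n ↦ 4^j n + a` on `ZMod 7`;
* `VV` : the finite group `Perm (Option (ZMod 7)) × Z3 × Z3`; `none` is the zero of the field
  with 8 elements, `some n` is the `n`-th power of a generator `t` with `t^3 = t + 1`;
* `iota`, `kappa` : two embeddings of `E73` in `VV`; `alpha`, `beta` automorphisms of `VV`;
* the facts f1 - f7 of the blueprint.
-/

set_option autoImplicit false

namespace Pool.Agent.FlatClosing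

/-- powers of 4 modulo 7 -/
def pw (j : ZMod 3) : ZMod 7 := if j = 0 then 1 else if j = 1 then 4 else 2

theorem pw_add (i j : ZMod 3) : pw (i + j) = pw i * pw j := by
  revert i j; decide

theorem pw_zero : pw 0 = 1 := by decide

/-- the group 7:3 -/
@[ext] structure E73 where
  a : ZMod 7
  j : ZMod 3
  deriving DecidableEq, Fintype

namespace E73

instance : Mul E73 := ⟨fun x y => ⟨x.a + pw x.j * y.a, x.j + y.j⟩⟩
instance : One E73 := ⟨⟨0, 0⟩⟩
instance : Inv E73 := ⟨fun x => ⟨-(pw (-x.j) * x.a), -x.j⟩⟩

theorem mul_def (x y : E73) : x * y = ⟨x.a + pw x.j * y.a, x.j + y.j⟩ := rfl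
theorem one_def : (1 : E73) = ⟨0, 0⟩ := rfl
theorem inv_def (x : E73) : x⁻¹ = ⟨-(pw (-x.j) * x.a), -x.j⟩ := rfl

instance : Group E73 := Group.ofLeftAxioms
  (by
    intro x y z
    simp only [mul_def, E73.mk.injEq, pw_add]
    constructor <;> ring)
  (by
    intro x
    simp only [mul_def, one_def, pw_zero]
    ext <;> simp)
  (by
    intro x
    simp only [mul_def, one_def, inv_def, E73.mk.injEq]
    constructor <;> ring)

/-- action on `ZMod 7` -/
def act (x : E73) (n : ZMod 7) : ZMod 7 := x.a + pw x.j * n

theorem act_mul (x y : E73) (n : ZMod 7) : act (x * y) n = act x (act y n) := by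
  simp only [act, mul_def, pw_add]; ring

theorem act_one (n : ZMod 7) : act 1 n = n := by
  simp [act, one_def, pw_zero]

/-- the permutation of `ZMod 7` -/
def perm7 : E73 →* Equiv.Perm (ZMod 7) where
  toFun x := ⟨act x, act x⁻¹, fun n => by rw [← act_mul]; simp [act_one],
    fun n => by rw [← act_mul]; simp [act_one]⟩
  map_one' := by ext n; simp [act_one]
  map_mul' x y := by ext n; simp [act_mul]

/-- the character -/
def ch : E73 →* Multiplicative (ZMod 3) where
  toFun x := Multiplicative.ofAdd x.j
  map_one' := rfl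
  map_mul' _ _ := rfl

/-- `E73` as the stabiliser of `none` -/
def emb : E73 →* Equiv.Perm (Option (ZMod 7)) where
  toFun x := (perm7 x).optionCongr
  map_one' := by ext (_ | n) <;> simp
  map_mul' x y := by
    apply Equiv.ext
    rintro (_ | n) <;> simp

theorem emb_some (x : E73) (n : ZMod 7) : emb x (some n) = some (act x n) := rfl

theorem emb_none (x : E73) : emb x none = none := rfl

theorem emb_injective : Function.Injective emb := by
  intro x y h
  have h0 : emb x (some 0) = emb y (some 0) := by rw [h]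
  have h1 : emb x (some 1) = emb y (some 1) := by rw [h]
  rw [emb_some, emb_some, Option.some.injEq] at h0 h1
  revert x y
  decide

/-- the element `c` -/
def cc : E73 := ⟨0, 1⟩
/-- the element `P` -/
def PP : E73 := ⟨1, 1⟩
/-- the element `c'` -/
def cc' : E73 := ⟨2, 1⟩

/-- the automorphism `R`, conjugation by `P` -/
def RR : E73 ≃* E73 := MulAut.conj PP
/-- the automorphism `L`, conjugation by `c` -/
def LL : E73 ≃* E73 := MulAut.conj cc
/-- the automorphism `δ = R⁻¹ L`, conjugation by `P⁻¹ c` -/
def del : E73 ≃* E73 := MulAut.conj (PP⁻¹ * cc)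

theorem del_eq (x : E73) : del x = RR.symm (LL x) := by
  simp [del, RR, LL, MulAut.conj_apply, MulAut.conj_symm_apply, mul_assoc]

theorem RR_del (x : E73) : RR (del x) = LL x := by
  rw [del_eq]; simp

end E73

open E73

/-- addition of 1 on the field with 8 elements, `none = 0`, `some n = t^n`, `t^3 = t + 1` -/
def sfun : Option (ZMod 7) → Option (ZMod 7)
  | none => some 0
  | some n => if n = 0 then none else if n = 1 then some 3 else if n = 2 then some 6
      else if n = 3 then some 1 else if n = 4 then some 5 else if n = 5 then some 4 else some 2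

/-- the permutation `x ↦ x + 1` -/
def sperm : Equiv.Perm (Option (ZMod 7)) :=
  Function.Involutive.toPerm sfun (by
    intro x; revert x; decide)

/-- the ambient finite group -/
abbrev VV : Type := Equiv.Perm (Option (ZMod 7)) × Multiplicative (ZMod 3) × Multiplicative (ZMod 3)

/-- conjugator of `alpha` -/
def sig : Equiv.Perm (Option (ZMod 7)) := sperm * (emb cc)⁻¹

/-- first embedding -/
def iota : E73 →* VV := emb.prod (ch.prod 1)

/-- second embedding -/
def kappa : E73 →* VV := (((MulAut.conj sig).toMonoidHom).comp emb).prod (ch.prod ch)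

theorem iota_apply (x : E73) : iota x = (emb x, ch x, 1) := rfl

theorem kappa_apply (x : E73) : kappa x = (sig * emb x * sig⁻¹, ch x, ch x) := rfl

theorem iota_injective : Function.Injective iota := by
  intro x y h
  rw [iota_apply, iota_apply, Prod.mk.injEq] at h
  exact emb_injective h.1

theorem kappa_injective : Function.Injective kappa := by
  intro x y h
  rw [kappa_apply, kappa_apply, Prod.mk.injEq] at h
  apply emb_injective
  have := h.1
  simpa using this

/-- the generator of the group attached to the edge `r` in the corner `B` -/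
def rhoB : VV := (emb PP, ch PP, ch PP)

/-- the automorphism `alpha` -/
def alpha : VV ≃* VV where
  toFun v := (sig * v.1 * sig⁻¹, v.2.1, v.2.1 * v.2.2⁻¹)
  invFun v := (sig⁻¹ * v.1 * sig, v.2.1, v.2.1 * v.2.2⁻¹)
  left_inv v := by
    ext1
    · simp [mul_assoc]
    · ext1
      · rfl
      · simp
  right_inv v := by
    ext1
    · simp [mul_assoc]
    · ext1
      · rfl
      · simp
  map_mul' v w := by
    ext1
    · simp [mul_assoc]
    · ext1
      · rfl
      · simp only [Prod.fst_mul, Prod.snd_mul, mul_inv_rev]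
        generalize v.2.1 = a
        generalize v.2.2 = b
        generalize w.2.1 = c
        generalize w.2.2 = d
        rw [mul_comm d⁻¹ b⁻¹, mul_mul_mul_comm]

/-- the automorphism `beta`, conjugation by `iota (P⁻¹ c)` -/
def beta : VV ≃* VV := MulAut.conj (iota (PP⁻¹ * cc))

theorem alpha_iota (x : E73) : alpha (iota x) = kappa x := by
  rw [iota_apply, kappa_apply]
  simp [alpha]

theorem sig_sq (x : E73) : sig * (sig * emb x * sig⁻¹) * sig⁻¹ = emb (LL x) := by
  apply Equiv.ext
  intro p
  revert x p
  decide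

theorem alpha_kappa (x : E73) : alpha (kappa x) = iota (LL x) := by
  rw [kappa_apply, iota_apply]
  have h : ch (LL x) = ch x := by revert x; decide
  rw [h]
  show (sig * (sig * emb x * sig⁻¹) * sig⁻¹, ch x, ch x * (ch x)⁻¹) = _
  rw [sig_sq]
  simp

theorem beta_iota (x : E73) : beta (iota x) = iota (del x) := by
  simp [beta, del, MulAut.conj_apply]

theorem beta_rhoB : beta rhoB = kappa cc := by
  have h : beta rhoB = (emb ((PP⁻¹ * cc) * PP * (PP⁻¹ * cc)⁻¹), ch PP, ch PP) := by
    simp [beta, MulAut.conj_apply, rhoB, iota_apply]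
  rw [h, kappa_apply]
  have h2 : sig * emb cc * sig⁻¹ = emb ((PP⁻¹ * cc) * PP * (PP⁻¹ * cc)⁻¹) := by
    apply Equiv.ext
    intro p
    revert p
    decide
  rw [h2]
  rfl

/-- The homomorphism from the cyclic group of order 3 given by an element with `x ^ 3 = 1`. -/
def cyc (x : E73) (hx : x ^ 3 = 1) : Multiplicative (ZMod 3) →* E73 where
  toFun m := x ^ (Multiplicative.toAdd m).val
  map_one' := by
    show x ^ (0 : ZMod 3).val = 1
    simp
  map_mul' m n := by
    show x ^ (Multiplicative.toAdd m + Multiplicative.toAdd n).val = _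
    rw [← pow_add, ZMod.val_add]
    conv_rhs => rw [← Nat.div_add_mod ((Multiplicative.toAdd m).val + (Multiplicative.toAdd n).val) 3]
    rw [pow_add, pow_mul, hx, one_pow, one_mul]

theorem cc_pow : cc ^ 3 = 1 := by decide
theorem cc'_pow : cc' ^ 3 = 1 := by decide
theorem PP_pow : PP ^ 3 = 1 := by decide

/-- powers of `c` -/
def cycC : Multiplicative (ZMod 3) →* E73 := cyc cc cc_pow
/-- powers of `c'` -/
def cycC' : Multiplicative (ZMod 3) →* E73 := cyc cc' cc'_pow
/-- powers of `P` -/
def cycP : Multiplicative (ZMod 3) →* E73 := cyc PP PP_pow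

/-- the edge group `r` in the corner `B` -/
def rhoHom : Multiplicative (ZMod 3) →* VV := (emb.prod (ch.prod ch)).comp cycP

theorem ch_cycC (m : Multiplicative (ZMod 3)) : ch (cycC m) = m := by revert m; decide
theorem ch_cycC' (m : Multiplicative (ZMod 3)) : ch (cycC' m) = m := by revert m; decide
theorem ch_cycP (m : Multiplicative (ZMod 3)) : ch (cycP m) = m := by revert m; decide

theorem rhoHom_apply (m : Multiplicative (ZMod 3)) : rhoHom m = (emb (cycP m), m, m) := by
  show (emb (cycP m), ch (cycP m), ch (cycP m)) = _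
  rw [ch_cycP]

theorem rhoHom_injective : Function.Injective rhoHom := by
  intro m n h
  rw [rhoHom_apply, rhoHom_apply, Prod.mk.injEq, Prod.mk.injEq] at h
  exact h.2.1

/-- `f1` -/
theorem iota_eq_kappa {x y : E73} (h : iota x = kappa y) : x = 1 ∧ y = 1 := by
  rw [iota_apply, kappa_apply, Prod.mk.injEq, Prod.mk.injEq] at h
  obtain ⟨h1, h2, h3⟩ := h
  have h4 : ∀ p : Option (ZMod 7), emb x (sig p) = sig (emb y p) := by
    intro p
    rw [h1]
    simp
  clear h1
  revert x y
  decide

/-- `f2` -/
theorem iota_eq_rho {x : E73} {m : Multiplicative (ZMod 3)} (h : iota x = rhoHom m) :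
    x = 1 ∧ m = 1 := by
  rw [iota_apply, rhoHom_apply, Prod.mk.injEq, Prod.mk.injEq] at h
  obtain ⟨h1, h2, h3⟩ := h
  subst h3
  rw [map_one] at h1
  exact ⟨emb_injective (by rw [h1, map_one]), rfl⟩

/-- `f2`, conjugation -/
theorem rho_iota (m : Multiplicative (ZMod 3)) (x : E73) :
    rhoHom m * iota x = iota (MulAut.conj (cycP m) x) * rhoHom m := by
  rw [iota_apply, rhoHom_apply, iota_apply]
  simp only [Prod.mk_mul_mk, MulAut.conj_apply, map_mul, map_inv, inv_mul_cancel_right,
    mul_one, one_mul, Prod.mk.injEq, true_and]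
  constructor
  · rw [mul_comm]
    simp
  · trivial

theorem beta_rhoHom (m : Multiplicative (ZMod 3)) : beta (rhoHom m) = kappa (cycC m) := by
  have e1 : rhoHom (Multiplicative.ofAdd 1) = rhoB := by
    rw [rhoHom_apply]
    have h1 : cycP (Multiplicative.ofAdd 1) = PP := by decide
    rw [h1]
    rfl
  have e2 : cycC (Multiplicative.ofAdd 1) = cc := by decide
  have key : ∀ n : ℕ, beta (rhoHom (Multiplicative.ofAdd 1 ^ n)) =
      kappa (cycC (Multiplicative.ofAdd 1 ^ n)) := by
    intro n
    rw [map_pow, map_pow, map_pow, map_pow, e1, e2, beta_rhoB]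
  have h3 : ∀ m : Multiplicative (ZMod 3), m = Multiplicative.ofAdd 1 ^ (Multiplicative.toAdd m).val := by
    decide
  rw [h3 m]
  exact key _

/-- corner relation at the corner `A` -/
def RelA (h v v' h' : E73) : Prop := kappa h * iota v = iota v' * kappa h'

/-- corner relation at the corner `B` -/
def RelB (m : Multiplicative (ZMod 3)) (v v' : E73) (m' : Multiplicative (ZMod 3)) : Prop :=
  rhoHom m * iota v = iota v' * rhoHom m'

/-- corner relation at the corner `C` -/
def RelC (m : Multiplicative (ZMod 3)) (v v' : E73) (m' : Multiplicative (ZMod 3)) : Prop :=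
  kappa (cycC' m) * iota (del v) = iota (del v') * kappa (cycC' m')

/-- corner relation at the corner `D` -/
def RelD (h v v' h' : E73) : Prop := iota (del h) * kappa v = kappa v' * iota (del h')

/-- the group elements `iota x` and `kappa y` determine `x` and `y` in a product -/
theorem iota_mul_kappa_inj {x y x' y' : E73} (h : iota x * kappa y = iota x' * kappa y') :
    x = x' ∧ y = y' := by
  have h1 : iota (x'⁻¹ * x) = kappa (y' * y⁻¹) := by
    rw [map_mul, map_mul, map_inv, map_inv, inv_mul_eq_iff_eq_mul, ← mul_assoc, eq_mul_inv_iff_mul_eq]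
    exact h
  obtain ⟨h2, h3⟩ := iota_eq_kappa h1
  constructor
  · exact (inv_mul_eq_one.1 h2).symm
  · exact (mul_inv_eq_one.1 h3).symm

theorem kappa_mul_iota_inj {x y x' y' : E73} (h : kappa x * iota y = kappa x' * iota y') :
    x = x' ∧ y = y' := by
  have h1 : iota (y * y'⁻¹) = kappa (x⁻¹ * x') := by
    rw [map_mul, map_mul, map_inv, map_inv, eq_inv_mul_iff_mul_eq, ← mul_assoc, mul_inv_eq_iff_eq_mul]
    exact h
  obtain ⟨h2, h3⟩ := iota_eq_kappa h1
  constructor
  · exact inv_mul_eq_one.1 h3
  · exact mul_inv_eq_one.1 h2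

theorem RelA.ch_eq {h v v' h' : E73} (H : RelA h v v' h') : ch h = ch h' ∧ ch v = ch v' := by
  unfold RelA at H
  rw [kappa_apply, kappa_apply, iota_apply, iota_apply] at H
  simp only [Prod.mk_mul_mk, Prod.mk.injEq, mul_one, one_mul] at H
  obtain ⟨-, h2, h3⟩ := H
  rw [h3] at h2
  refine ⟨h3, ?_⟩
  rw [mul_comm] at h2
  exact mul_right_cancel h2

theorem RelD.ch_eq {h v v' h' : E73} (H : RelD h v v' h') : ch h = ch h' ∧ ch v = ch v' := by
  unfold RelD at H
  rw [kappa_apply, kappa_apply, iota_apply, iota_apply] at H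
  simp only [Prod.mk_mul_mk, Prod.mk.injEq, mul_one, one_mul] at H
  obtain ⟨-, h2, h3⟩ := H
  rw [h3, mul_comm] at h2
  have e : ∀ x : E73, ch (del x) = ch x := by decide
  rw [e, e] at h2
  exact ⟨mul_left_cancel h2, h3⟩

/-- relation `B` -/
theorem relB_iff {m : Multiplicative (ZMod 3)} {v v' : E73} {m' : Multiplicative (ZMod 3)} :
    RelB m v v' m' ↔ m = m' ∧ v' = cycP m * v * (cycP m)⁻¹ := by
  unfold RelB
  constructor
  · intro h
    have h2 : m = m' := by
      have := congrArg (fun z : VV => z.2.2) h
      simpa [rhoHom_apply, iota_apply] using this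
    subst h2
    refine ⟨rfl, ?_⟩
    rw [rho_iota] at h
    have := iota_injective (mul_right_cancel h)
    rw [← this]
    rfl
  · rintro ⟨rfl, rfl⟩
    exact rho_iota m v

/-- `beta` carries the corner `B` into the corner `D` -/
theorem relB_iff_beta {m : Multiplicative (ZMod 3)} {v v' : E73} {m' : Multiplicative (ZMod 3)} :
    RelB m v v' m' ↔ kappa (cycC m) * iota (del v) = iota (del v') * kappa (cycC m') := by
  unfold RelB
  rw [← beta_rhoHom, ← beta_rhoHom, ← beta_iota, ← beta_iota, ← map_mul, ← map_mul]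
  exact beta.injective.eq_iff.symm

/-- `alpha` carries the corner `A` into the corner `A` -/
theorem relA_iff_alpha {h v v' h' : E73} :
    RelA h v v' h' ↔ RelA v' (LL h') (LL h) v := by
  unfold RelA
  have h0 : (kappa h * iota v = iota v' * kappa h') ↔
      alpha (kappa h * iota v) = alpha (iota v' * kappa h') := alpha.injective.eq_iff.symm
  rw [h0, map_mul, map_mul, alpha_kappa, alpha_iota, alpha_kappa, alpha_iota]
  exact eq_comm

/-- conjugation of `iota` by powers of `kappa c` -/
theorem kappa_cc_iota (m : Multiplicative (ZMod 3)) (v : E73) :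
    kappa (cycC m) * iota (del v) = iota (del (cycP m * v * (cycP m)⁻¹)) * kappa (cycC m) :=
  relB_iff_beta.1 (relB_iff.2 ⟨rfl, rfl⟩)

/-- corner `D`, upper letter a power of `c` -/
theorem RelD.of_right {h h' : E73} {m : Multiplicative (ZMod 3)} {v : E73}
    (H : RelD h v (cycC m) h') : v = cycC m ∧ h = cycP m * h' * (cycP m)⁻¹ := by
  unfold RelD at H
  rw [kappa_cc_iota] at H
  obtain ⟨h1, h2⟩ := iota_mul_kappa_inj H
  exact ⟨h2, del.injective h1⟩

/-- corner `D`, the other letter a power of `c` -/
theorem RelD.of_left {h h' : E73} {m : Multiplicative (ZMod 3)} {v' : E73}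
    (H : RelD h (cycC m) v' h') : v' = cycC m ∧ h = cycP m * h' * (cycP m)⁻¹ := by
  unfold RelD at H
  have h1 : h = cycP m * ((cycP m)⁻¹ * h * cycP m) * (cycP m)⁻¹ := by group
  rw [h1, ← kappa_cc_iota] at H
  obtain ⟨h2, h3⟩ := kappa_mul_iota_inj H
  refine ⟨h2.symm, ?_⟩
  have h4 := del.injective h3
  rw [← h4]
  group

/-- `(c')^m` for generator exponents: evaluation data for the corner `C` -/
def kfun (m : Multiplicative (ZMod 3)) (p : Option (ZMod 7)) : Option (ZMod 7) :=
  sig (emb (cycC' m) (sig⁻¹ p))

/-- corner `C` -/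
theorem relC_iff {m : Multiplicative (ZMod 3)} {v v' : E73} {m' : Multiplicative (ZMod 3)} :
    RelC m v v' m' ↔ m = m' ∧ ((m = 1 ∧ v' = v) ∨
      (m = Multiplicative.ofAdd 1 ∧ ∃ n, v' = cycC n ∧ v = cycC' n) ∨
      (m = Multiplicative.ofAdd 2 ∧ ∃ n, v' = cycC' n ∧ v = cycC n)) := by
  unfold RelC
  constructor
  · intro H
    have h2 : m = m' := by
      have := congrArg (fun z : VV => z.2.2) H
      simpa [kappa_apply, iota_apply, ch_cycC'] using this
    subst h2
    refine ⟨rfl, ?_⟩
    have h1 := congrArg (fun z : VV => z.1) H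
    simp only [kappa_apply, iota_apply, Prod.mk_mul_mk] at h1
    have h4 : ∀ p : Option (ZMod 7), kfun m (emb (del v) p) = emb (del v') (kfun m p) := by
      intro p
      have := congrArg (fun z : Equiv.Perm (Option (ZMod 7)) => z p) h1
      simpa [kfun] using this
    clear H h1
    revert m v v'
    decide
  · rintro ⟨rfl, H⟩
    have key : ∀ p : Option (ZMod 7), kfun m (emb (del v) p) = emb (del v') (kfun m p) := by
      revert m v v'
      decide
    have h5 : ch v = ch v' := by
      rcases H with ⟨-, rfl⟩ | ⟨-, n, rfl, rfl⟩ | ⟨-, n, rfl, rfl⟩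
      · rfl
      · rw [ch_cycC, ch_cycC']
      · rw [ch_cycC, ch_cycC']
    have e : ∀ x : E73, ch (del x) = ch x := by decide
    rw [kappa_apply, iota_apply, iota_apply, Prod.mk_mul_mk, Prod.mk_mul_mk, Prod.mk_mul_mk,
      Prod.mk_mul_mk, e, e, h5]
    have h6 : sig * emb (cycC' m) * sig⁻¹ * emb (del v) =
        emb (del v') * (sig * emb (cycC' m) * sig⁻¹) := by
      apply Equiv.ext
      intro p
      exact key p
    rw [h6, mul_comm (ch (cycC' m)) (ch v'), mul_one, one_mul]

end Pool.Agent.FlatClosing
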