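import Pool.Agent.FlatClosing.Core

/-!
# Combinatorial flats and the existence of large flat patches (MP_ef842e, helper60)

* `par x` : type of the vertical (horizontal) line number `x`;
* `IsFlatOn D U τ` : the squares `τ x y`, `(x, y) ∈ U`, form a combinatorial flat patch;
* `exists_patch` : an endomorphism of substitution type gives arbitrarily large patches.
-/

set_option autoImplicit false

namespace Pool.Agent.FlatClosing

/-- type of the grid line number `x` -/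
def par (x : ℤ) : Pos := if Even x then .lo else .hi

theorem par_even {x : ℤ} (h : Even x) : par x = .lo := by simp [par, h]

theorem par_odd {x : ℤ} (h : ¬ Even x) : par x = .hi := by simp [par, h]

/-- `τ` is a combinatorial flat patch on the set `U` of squares of the integer grid.
The square `(x, y)` is `[x, x+1] × [y, y+1]`; the vertical line between `(x-1, y)` and `(x, y)`
is line number `x`. -/
structure IsFlatOn {G : Type} [Group G] (D : DoubleAmalg G) (U : Set (ℤ × ℤ))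
    (τ : ℤ → ℤ → G) : Prop where
  h : ∀ x y : ℤ, (x - 1, y) ∈ U → (x, y) ∈ U →
    (τ (x - 1) y)⁻¹ * τ x y ∈ D.St (par x) .mid ∧ (τ (x - 1) y)⁻¹ * τ x y ≠ 1
  v : ∀ x y : ℤ, (x, y - 1) ∈ U → (x, y) ∈ U →
    (τ x (y - 1))⁻¹ * τ x y ∈ D.St .mid (par y) ∧ (τ x (y - 1))⁻¹ * τ x y ≠ 1

theorem IsFlatOn.mono {G : Type} [Group G] {D : DoubleAmalg G} {U V : Set (ℤ × ℤ)}
    {τ : ℤ → ℤ → G} (h : IsFlatOn D U τ) (hV : V ⊆ U) : IsFlatOn D V τ :=
  ⟨fun x y h1 h2 => h.h x y (hV h1) (hV h2), fun x y h1 h2 => h.v x y (hV h1) (hV h2)⟩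

/-- the rectangle of squares `[0, a) × [0, b)` -/
def Rect (a b : ℤ) : Set (ℤ × ℤ) := {z | 0 ≤ z.1 ∧ z.1 < a ∧ 0 ≤ z.2 ∧ z.2 < b}

/-- Substitution data: an endomorphism `φ` and an element `ρ` such that
`g ↦ {φ g, φ g ρ}` is a substitution of squares by `2 × 1` blocks. -/
structure Subst {G : Type} [Group G] (D : DoubleAmalg G) where
  φ : G →* G
  ρ : G
  ρ_mem : ρ ∈ D.St .hi .mid
  ρ_ne : ρ ≠ 1
  b : ∀ x ∈ D.St .mid .lo, x ≠ 1 → φ x ∈ D.St .lo .mid ∧ φ x ≠ 1
  l : ∀ x ∈ D.St .lo .mid, x ≠ 1 → φ x ∈ D.St .mid .lo ∧ φ x ≠ 1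
  l' : ∀ x ∈ D.St .lo .mid, x ≠ 1 → ρ⁻¹ * φ x * ρ ∈ D.St .mid .lo
  r : ∀ x ∈ D.St .hi .mid, x ≠ 1 → φ x ∈ D.St .mid .hi ∧ φ x ≠ 1
  r' : ∀ x ∈ D.St .hi .mid, x ≠ 1 → ρ⁻¹ * φ x * ρ ∈ D.St .mid .hi
  t' : ∀ x ∈ D.St .mid .hi, x ≠ 1 → ρ⁻¹ * φ x * ρ ∈ D.St .lo .mid ∧ φ x ≠ 1

namespace Subst

variable {G : Type} [Group G] {D : DoubleAmalg G} (S : Subst D)

open Classical in
/-- the substituted patch -/
noncomputable def next (τ : ℤ → ℤ → G) (x y : ℤ) : G :=
  if (Even x ↔ Even (x / 2)) then S.φ (τ y (x / 2)) else S.φ (τ y (x / 2)) * S.ρ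

theorem conj_ne {g : G} (h : g ≠ 1) : S.ρ⁻¹ * g * S.ρ ≠ 1 := by
  intro h1
  apply h
  have h2 : S.ρ⁻¹ * g = S.ρ⁻¹ := by
    have := congrArg (· * S.ρ⁻¹) h1
    simpa [mul_assoc] using this
  have h3 := congrArg (S.ρ * ·) h2
  simpa using h3

theorem next_flat {a b : ℤ} {τ : ℤ → ℤ → G} (hτ : IsFlatOn D (Rect a b) τ) :
    IsFlatOn D (Rect (2 * b) a) (S.next τ) := by
  constructor
  · rintro x y ⟨h1, h2, h3, h4⟩ ⟨h5, h6, h7, h8⟩
    simp only at h1 h2 h3 h4 h5 h6 h7 h8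
    rcases Int.even_or_odd' x with ⟨j, hj | hj⟩
    · -- `x = 2 j`
      subst hj
      have e1 : (2 * j) / 2 = j := by omega
      have e2 : (2 * j - 1) / 2 = j - 1 := by omega
      have hx : Even (2 * j) := even_two_mul j
      have hx1 : ¬ Even (2 * j - 1) := by
        rw [Int.even_sub_one]; simp
      have hv := hτ.v y j ⟨h7, h8, by omega, by omega⟩ ⟨h7, h8, by omega, by omega⟩
      rw [par_even hx]
      by_cases hje : Even j
      · have hj1 : ¬ Even (j - 1) := by rw [Int.even_sub_one]; simpa using hje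
        have t1 : S.next τ (2 * j) y = S.φ (τ y j) := by
          unfold next; rw [e1, if_pos]; simp [hje]
        have t2 : S.next τ (2 * j - 1) y = S.φ (τ y (j - 1)) := by
          unfold next; rw [e2, if_pos]; simp only [hx1, hj1]
        rw [t1, t2, ← map_inv, ← map_mul]
        rw [par_even hje] at hv
        exact S.b _ hv.1 hv.2
      · have hj1 : Even (j - 1) := by rw [Int.even_sub_one]; exact hje
        have t1 : S.next τ (2 * j) y = S.φ (τ y j) * S.ρ := by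
          unfold next; rw [e1, if_neg]; simp [hje]
        have t2 : S.next τ (2 * j - 1) y = S.φ (τ y (j - 1)) * S.ρ := by
          unfold next; rw [e2, if_neg]; simp only [hx1, hj1]; simp
        rw [par_odd hje] at hv
        have h9 := S.t' _ hv.1 hv.2
        have e3 : (S.next τ (2 * j - 1) y)⁻¹ * S.next τ (2 * j) y =
            S.ρ⁻¹ * S.φ ((τ y (j - 1))⁻¹ * τ y j) * S.ρ := by
          rw [t1, t2, map_mul, map_inv]; group
        rw [e3]
        exact ⟨h9.1, S.conj_ne h9.2⟩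
    · -- `x = 2 j + 1`
      subst hj
      have e1 : (2 * j + 1) / 2 = j := by omega
      have e2 : (2 * j + 1 - 1) / 2 = j := by omega
      have hx : ¬ Even (2 * j + 1) := by
        rw [Int.even_add_one]; simp
      have hx1 : Even (2 * j + 1 - 1) := by
        rw [Int.even_sub_one]; exact hx
      rw [par_odd hx]
      by_cases hje : Even j
      · have t1 : S.next τ (2 * j + 1) y = S.φ (τ y j) * S.ρ := by
          unfold next; rw [e1, if_neg]; simp only [hx, hje]; simp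
        have t2 : S.next τ (2 * j + 1 - 1) y = S.φ (τ y j) := by
          unfold next; rw [e2, if_pos]; simp only [hx1, hje]
        have e3 : (S.next τ (2 * j + 1 - 1) y)⁻¹ * S.next τ (2 * j + 1) y = S.ρ := by
          rw [t1, t2]; group
        rw [e3]
        exact ⟨S.ρ_mem, S.ρ_ne⟩
      · have t1 : S.next τ (2 * j + 1) y = S.φ (τ y j) := by
          unfold next; rw [e1, if_pos]; simp only [hx, hje]
        have t2 : S.next τ (2 * j + 1 - 1) y = S.φ (τ y j) * S.ρ := by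
          unfold next; rw [e2, if_neg]; simp only [hx1, hje]; simp
        have e3 : (S.next τ (2 * j + 1 - 1) y)⁻¹ * S.next τ (2 * j + 1) y = S.ρ⁻¹ := by
          rw [t1, t2]; group
        rw [e3]
        exact ⟨inv_mem S.ρ_mem, inv_ne_one.2 S.ρ_ne⟩
  · rintro x y ⟨h1, h2, h3, h4⟩ ⟨h5, h6, h7, h8⟩
    simp only at h1 h2 h3 h4 h5 h6 h7 h8
    have hv := hτ.h y (x / 2) ⟨h3, h4, by omega, by omega⟩ ⟨h7, h8, by omega, by omega⟩
    by_cases hx : (Even x ↔ Even (x / 2))
    · have t1 : S.next τ x y = S.φ (τ y (x / 2)) := by unfold next; rw [if_pos hx]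
      have t2 : S.next τ x (y - 1) = S.φ (τ (y - 1) (x / 2)) := by unfold next; rw [if_pos hx]
      rw [t1, t2, ← map_inv, ← map_mul]
      by_cases hy : Even y
      · rw [par_even hy] at hv ⊢
        exact S.l _ hv.1 hv.2
      · rw [par_odd hy] at hv ⊢
        exact S.r _ hv.1 hv.2
    · have t1 : S.next τ x y = S.φ (τ y (x / 2)) * S.ρ := by unfold next; rw [if_neg hx]
      have t2 : S.next τ x (y - 1) = S.φ (τ (y - 1) (x / 2)) * S.ρ := by
        unfold next; rw [if_neg hx]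
      have e3 : (S.next τ x (y - 1))⁻¹ * S.next τ x y =
          S.ρ⁻¹ * S.φ ((τ (y - 1) (x / 2))⁻¹ * τ y (x / 2)) * S.ρ := by
        rw [t1, t2, map_mul, map_inv]; group
      rw [e3]
      by_cases hy : Even y
      · rw [par_even hy] at hv ⊢
        exact ⟨S.l' _ hv.1 hv.2, S.conj_ne (S.l _ hv.1 hv.2).2⟩
      · rw [par_odd hy] at hv ⊢
        exact ⟨S.r' _ hv.1 hv.2, S.conj_ne (S.r _ hv.1 hv.2).2⟩

include S in
/-- arbitrarily large flat patches -/
theorem exists_patch_pow (k : ℕ) : ∃ τ : ℤ → ℤ → G, IsFlatOn D (Rect (2 ^ k) (2 ^ k)) τ := by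
  induction k with
  | zero =>
    refine ⟨fun _ _ => 1, ?_, ?_⟩
    · rintro x y ⟨h1, h2, h3, h4⟩ ⟨h5, h6, h7, h8⟩
      simp only [pow_zero] at *
      omega
    · rintro x y ⟨h1, h2, h3, h4⟩ ⟨h5, h6, h7, h8⟩
      simp only [pow_zero] at *
      omega
  | succ k ih =>
    obtain ⟨τ, hτ⟩ := ih
    have h1 := S.next_flat hτ
    have h2 := S.next_flat h1
    refine ⟨S.next (S.next τ), ?_⟩
    rw [pow_succ, mul_comm ((2 : ℤ) ^ k) 2]
    exact h2

include S in
theorem exists_patch (n : ℕ) : ∃ τ : ℤ → ℤ → G, IsFlatOn D (Rect n n) τ := by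
  obtain ⟨τ, hτ⟩ := S.exists_patch_pow n
  refine ⟨τ, hτ.mono ?_⟩
  rintro z ⟨h1, h2, h3, h4⟩
  have : (n : ℤ) ≤ 2 ^ n := by
    exact_mod_cast (Nat.lt_two_pow_self (n := n)).le
  exact ⟨h1, by omega, h3, by omega⟩

end Subst

end Pool.Agent.FlatClosing
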