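import Mathlib
import Pool.Agent.FlatClosing.AlgB
import Pool.Agent.FlatClosing.Data
import Pool.Agent.FlatClosing.Flat

/-!
# The concrete square of finite groups and the substitution (MP_ef842e_al, helper22)

`QQ : SqData` : the concrete square of groups; `GG` its colimit, `DD : DoubleAmalg GG`;
`fA fB fC fD : VV →* GG` the corner maps; `SS : Subst DD` the substitution.
-/

set_option autoImplicit false

namespace FlatClosing

open Monoid Pool.Agent.FlatClosing Pool.Agent.FlatClosing.E73

/-- vertical edge groups -/
abbrev EvT : Bool → Type
  | false => E73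
  | true => Multiplicative (ZMod 3)

instance EvT.group : ∀ i, Group (EvT i)
  | false => inferInstanceAs (Group E73)
  | true => inferInstanceAs (Group (Multiplicative (ZMod 3)))

/-- `E73 → VV`, the embedding `iota ∘ del` -/
noncomputable def iotaD : E73 →* VV := iota.comp del.toMonoidHom

theorem iotaD_apply (x : E73) : iotaD x = iota (del x) := rfl

theorem iotaD_injective : Function.Injective iotaD := by
  intro x y h
  exact del.injective (iota_injective h)

/-- `Z3 → VV`, powers of `kappa c'` -/
noncomputable def kappaC' : Multiplicative (ZMod 3) →* VV := kappa.comp cycC'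

theorem kappaC'_apply (m : Multiplicative (ZMod 3)) : kappaC' m = kappa (cycC' m) := rfl

theorem kappaC'_injective : Function.Injective kappaC' := by
  intro x y h
  have h1 := kappa_injective h
  rw [← ch_cycC' x, ← ch_cycC' y, h1]

/-- inclusions of the vertical edge groups -/
noncomputable def evT : ∀ i (_ : Bool), EvT i →* VV
  | false, false => kappa
  | false, true => iotaD
  | true, false => rhoHom
  | true, true => kappaC'

/-- inclusions of the horizontal edge groups -/
noncomputable def ehT : Bool → Bool → (E73 →* VV)
  | _, false => iota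
  | false, true => kappa
  | true, true => iotaD

/-- the concrete square of groups -/
noncomputable def QQ : SqData where
  V _ _ := VV
  Ev := EvT
  Eh _ := E73
  grV _ _ := inferInstance
  grEv := inferInstance
  grEh _ := inferInstance
  ev := evT
  eh := ehT
  ev_inj i j := by
    cases i <;> cases j
    · exact kappa_injective
    · exact iotaD_injective
    · exact rhoHom_injective
    · exact kappaC'_injective
  eh_inj i j := by
    cases i <;> cases j
    · exact iota_injective
    · exact kappa_injective
    · exact iota_injective
    · exact iotaD_injective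
  nb i j x y h := by
    cases i <;> cases j
    · exact (iota_eq_kappa (x := y) (y := x) h.symm).2
    · have h1 := (iota_eq_kappa (x := del x) (y := y) h).1
      exact del.injective (by rw [h1, map_one])
    · exact (iota_eq_rho (x := y) (m := x) h.symm).2
    · have h1 := (iota_eq_kappa (x := del y) (y := cycC' x) h.symm).2
      rw [← ch_cycC' x, h1, map_one]
  fin _ _ := inferInstance

/-- the group -/
noncomputable abbrev GG : Type := QQ.Grp

/-- the double amalgam -/
noncomputable abbrev DD : DoubleAmalg GG := QQ.dbl

/-- corner map -/
noncomputable def fA : VV →* GG := QQ.f false false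
/-- corner map -/
noncomputable def fB : VV →* GG := QQ.f true false
/-- corner map -/
noncomputable def fC : VV →* GG := QQ.f true true
/-- corner map -/
noncomputable def fD : VV →* GG := QQ.f false true

theorem fA_injective : Function.Injective fA := QQ.f_injective false false
theorem fB_injective : Function.Injective fB := QQ.f_injective true false
theorem fC_injective : Function.Injective fC := QQ.f_injective true true
theorem fD_injective : Function.Injective fD := QQ.f_injective false true

/-- edge `l` -/
theorem fD_iotaD (x : E73) : fD (iota (del x)) = fA (kappa x) := QQ.f_ev false true x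
/-- edge `r` -/
theorem fC_kappaC' (m : Multiplicative (ZMod 3)) : fC (kappa (cycC' m)) = fB (rhoHom m) :=
  QQ.f_ev true true m
/-- edge `b` -/
theorem fB_iota (x : E73) : fB (iota x) = fA (iota x) := QQ.f_eh true false x
/-- edge `t` -/
theorem fC_iotaD (x : E73) : fC (iota (del x)) = fD (kappa x) := QQ.f_eh true true x

theorem St_A : DD.St .lo .lo = fA.range := QQ.St_corner false false
theorem St_B : DD.St .hi .lo = fB.range := QQ.St_corner true false
theorem St_C : DD.St .hi .hi = fC.range := QQ.St_corner true true
theorem St_D : DD.St .lo .hi = fD.range := QQ.St_corner false true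

/-- edge `l` -/
theorem St_l : DD.St .lo .mid = (fA.comp kappa).range := QQ.St_vert false false
/-- edge `l` -/
theorem St_l' : DD.St .lo .mid = (fD.comp iotaD).range := QQ.St_vert false true
/-- edge `r` -/
theorem St_r : DD.St .hi .mid = (fB.comp rhoHom).range := QQ.St_vert true false
/-- edge `r` -/
theorem St_r' : DD.St .hi .mid = (fC.comp kappaC').range := QQ.St_vert true true
/-- edge `b` -/
theorem St_b : DD.St .mid .lo = (fA.comp iota).range := QQ.St_horiz false false
/-- edge `b` -/
theorem St_b' : DD.St .mid .lo = (fB.comp iota).range := QQ.St_horiz true false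
/-- edge `t` -/
theorem St_t : DD.St .mid .hi = (fD.comp kappa).range := QQ.St_horiz false true
/-- edge `t` -/
theorem St_t' : DD.St .mid .hi = (fC.comp iotaD).range := QQ.St_horiz true true

/-- the element `rho` -/
noncomputable def rr : GG := fB (rhoHom (Multiplicative.ofAdd 1))

theorem rr_eq : rr = fC (kappa (cycC' (Multiplicative.ofAdd 1))) := (fC_kappaC' _).symm

/-- `rho iota(x) rho⁻¹ = iota(R x)` -/
theorem rr_iota (x : E73) : rr * fA (iota (del x)) = fA (iota (LL x)) * rr := by
  have h := rho_iota (Multiplicative.ofAdd 1) (del x)
  have e : MulAut.conj (cycP (Multiplicative.ofAdd 1)) (del x) = LL x := by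
    have : cycP (Multiplicative.ofAdd 1) = PP := by decide
    rw [this]
    exact RR_del x
  rw [e] at h
  have h2 := congrArg fB h
  rw [map_mul, map_mul, fB_iota, fB_iota] at h2
  exact h2

/-- `rho tau(c'^m) rho⁻¹ = tau(c^m)` -/
theorem rr_kappa (m : Multiplicative (ZMod 3)) :
    rr * fD (kappa (cycC' m)) = fD (kappa (cycC m)) * rr := by
  have h : RelC (Multiplicative.ofAdd 1) (cycC' m) (cycC m) (Multiplicative.ofAdd 1) :=
    relC_iff.2 ⟨rfl, Or.inr (Or.inl ⟨rfl, m, rfl, rfl⟩)⟩
  have h2 := congrArg fC h
  rw [map_mul, map_mul, fC_iotaD, fC_iotaD, ← rr_eq] at h2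
  exact h2

/-- the corner components of the substitution -/
noncomputable def subG : Bool → Bool → (VV →* GG)
  | false, false => fA.comp alpha.toMonoidHom
  | true, false => fD.comp beta.toMonoidHom
  | true, true => (MulAut.conj rr).toMonoidHom.comp fD
  | false, true => (MulAut.conj rr).toMonoidHom.comp fA

theorem sub_l (x : E73) : rr * fA (iota (del x)) * rr⁻¹ = fA (alpha (kappa x)) := by
  rw [rr_iota, mul_inv_cancel_right, alpha_kappa]

theorem sub_r (m : Multiplicative (ZMod 3)) :
    rr * fD (kappa (cycC' m)) * rr⁻¹ = fD (beta (rhoHom m)) := by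
  rw [rr_kappa, mul_inv_cancel_right, beta_rhoHom]

theorem sub_b (x : E73) : fD (beta (iota x)) = fA (alpha (iota x)) := by
  rw [beta_iota, alpha_iota, fD_iotaD]

theorem sub_t (x : E73) : rr * fD (iota (del x)) * rr⁻¹ = rr * fA (kappa x) * rr⁻¹ := by
  rw [fD_iotaD]

/-- the substitution endomorphism -/
noncomputable def subHom : GG →* GG :=
  QQ.lift subG
    (by
      intro i x
      cases i
      · exact sub_l x
      · exact sub_r x)
    (by
      intro j x
      cases j
      · exact sub_b x
      · exact sub_t x)

theorem subHom_A (v : VV) : subHom (fA v) = fA (alpha v) := QQ.lift_f _ _ _ false false v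
theorem subHom_B (v : VV) : subHom (fB v) = fD (beta v) := QQ.lift_f _ _ _ true false v
theorem subHom_C (v : VV) : subHom (fC v) = rr * fD v * rr⁻¹ := QQ.lift_f _ _ _ true true v
theorem subHom_D (v : VV) : subHom (fD v) = rr * fA v * rr⁻¹ := QQ.lift_f _ _ _ false true v

/-- the substitution -/
noncomputable def SS : Subst DD where
  φ := subHom
  ρ := rr
  ρ_mem := by
    rw [St_r]
    exact ⟨_, rfl⟩
  ρ_ne := by
    intro h
    have h1 : rhoHom (Multiplicative.ofAdd 1) = 1 := fB_injective (h.trans (map_one fB).symm)
    have h2 := rhoHom_injective (h1.trans (map_one rhoHom).symm)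
    exact absurd h2 (by decide)
  b := by
    intro x hx hx1
    rw [St_b] at hx
    obtain ⟨e, rfl⟩ := hx
    have he : e ≠ 1 := fun h => hx1 (by rw [h, map_one])
    have h1 : subHom (fA (iota e)) = fA (kappa e) := by rw [subHom_A, alpha_iota]
    constructor
    · rw [St_l]
      exact ⟨e, h1.symm⟩
    · intro h
      apply he
      apply kappa_injective
      apply fA_injective
      rw [map_one, map_one, ← h1]
      exact h
  l := by
    intro x hx hx1
    rw [St_l] at hx
    obtain ⟨e, rfl⟩ := hx
    have he : e ≠ 1 := fun h => hx1 (by rw [h, map_one])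
    have h1 : subHom (fA (kappa e)) = fA (iota (LL e)) := by rw [subHom_A, alpha_kappa]
    constructor
    · rw [St_b]
      exact ⟨LL e, h1.symm⟩
    · intro h
      apply he
      apply LL.injective
      apply iota_injective
      apply fA_injective
      rw [map_one, map_one, map_one, ← h1]
      exact h
  l' := by
    intro x hx hx1
    rw [St_l] at hx
    obtain ⟨e, rfl⟩ := hx
    have h1 : subHom (fA (kappa e)) = fA (iota (LL e)) := by rw [subHom_A, alpha_kappa]
    have h2 : rr⁻¹ * subHom (fA (kappa e)) * rr = fA (iota (del e)) := by
      rw [h1, mul_assoc, ← rr_iota, ← mul_assoc, inv_mul_cancel, one_mul]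
    rw [St_b]
    exact ⟨del e, h2.symm⟩
  r := by
    intro x hx hx1
    rw [St_r] at hx
    obtain ⟨m, rfl⟩ := hx
    have he : m ≠ 1 := fun h => hx1 (by rw [h, map_one])
    have h1 : subHom (fB (rhoHom m)) = fD (kappa (cycC m)) := by rw [subHom_B, beta_rhoHom]
    constructor
    · rw [St_t]
      exact ⟨cycC m, h1.symm⟩
    · intro h
      apply he
      have h3 : fD (kappa (cycC m)) = 1 := h1.symm.trans h
      have h4 : cycC m = 1 := by
        apply kappa_injective
        apply fD_injective
        rw [map_one, map_one, h3]
      rw [← ch_cycC m, h4, map_one]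
  r' := by
    intro x hx hx1
    rw [St_r] at hx
    obtain ⟨m, rfl⟩ := hx
    have h1 : subHom (fB (rhoHom m)) = fD (kappa (cycC m)) := by rw [subHom_B, beta_rhoHom]
    have h2 : rr⁻¹ * subHom (fB (rhoHom m)) * rr = fD (kappa (cycC' m)) := by
      rw [h1, mul_assoc, ← rr_kappa, ← mul_assoc, inv_mul_cancel, one_mul]
    rw [St_t]
    exact ⟨cycC' m, h2.symm⟩
  t' := by
    intro x hx hx1
    rw [St_t] at hx
    obtain ⟨e, rfl⟩ := hx
    have he : e ≠ 1 := fun h => hx1 (by rw [h, map_one])
    have h1 : subHom (fD (kappa e)) = rr * fA (kappa e) * rr⁻¹ := subHom_D _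
    have h2 : rr⁻¹ * subHom (fD (kappa e)) * rr = fA (kappa e) := by
      rw [h1]; group
    constructor
    · rw [St_l]
      exact ⟨e, h2.symm⟩
    · intro h
      apply he
      apply kappa_injective
      apply fA_injective
      rw [map_one, map_one, ← h2]
      have h' : subHom (fD (kappa e)) = 1 := h
      rw [h']
      group

end FlatClosing
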