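import Pool.Agent.FlatClosing.CubeDefs

/-!
# Statement of the main theorem for MP_ef842e_al

All notions used in the final statement; cube complexes are defined in `CubeDefs.lean`.
-/

set_option autoImplicit false

namespace Pool.Agent.FlatClosing

/-- A metric space is CAT(0): complete, and any two points `x, y` have a midpoint `m` satisfying
the inequality of Bruhat and Tits. (For complete metric spaces this is equivalent to being a
geodesic space all of whose geodesic triangles are at least as thin as their Euclidean
comparison triangles.) -/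
def IsCompleteCAT0 (X : Type) [MetricSpace X] : Prop :=
  CompleteSpace X ∧ ∀ x y : X, ∃ m : X, ∀ z : X,
    dist z m ^ 2 ≤ (dist z x ^ 2 + dist z y ^ 2) / 2 - dist x y ^ 2 / 4

/-- The action of `G` on `X` is geometric: by isometries, properly discontinuous and
cocompact. -/
structure IsGeometric (G X : Type) [Group G] [MetricSpace X] [MulAction G X] : Prop where
  isometric : ∀ (g : G) (x y : X), dist (g • x) (g • y) = dist x y
  proper : ∀ K : Set X, IsCompact K → {g : G | (((fun x => g • x) '' K) ∩ K).Nonempty}.Finite
  cocompact : ∃ K : Set X, IsCompact K ∧ ∀ x : X, ∃ g : G, g • x ∈ K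

/-- `γ` is an axis of `g`: a geodesic line translated by `g` by a positive amount. -/
def IsAxis {G X : Type} [Group G] [MetricSpace X] [MulAction G X] (g : G) (γ : ℝ → X) : Prop :=
  Isometry γ ∧ ∃ l : ℝ, 0 < l ∧ ∀ t : ℝ, g • γ t = γ (t + l)

/-- The closed Euclidean half-plane. -/
abbrev HalfPlane : Type := {z : EuclideanSpace ℝ (Fin 2) // 0 ≤ z 1}

/-- The line `γ` bounds a flat half-plane: some isometrically embedded Euclidean half-plane has
the image of `γ` as boundary line. -/
def BoundsHalfPlane {X : Type} [MetricSpace X] (γ : ℝ → X) : Prop :=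
  ∃ f : HalfPlane → X, Isometry f ∧ f '' {z | z.1 1 = 0} = Set.range γ

/-- `g` is a rank-one isometry of `X`: it has an axis which does not bound a flat half-plane. -/
def IsRankOne {G X : Type} [Group G] [MetricSpace X] [MulAction G X] (g : G) : Prop :=
  ∃ γ : ℝ → X, IsAxis g γ ∧ ¬ BoundsHalfPlane γ

/-- Word length with respect to a set `S`. -/
noncomputable def wordLength {G : Type} [Group G] (S : Set G) (g : G) : ℕ :=
  sInf {n | ∃ l : List G, l.length = n ∧ (∀ x ∈ l, x ∈ S ∨ x⁻¹ ∈ S) ∧ l.prod = g}

/-- A group is hyperbolic in the sense of Gromov: for some finite generating set the word metric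
satisfies the four-point condition for some `δ`. -/
def IsHyperbolicGroup (G : Type) [Group G] : Prop :=
  ∃ S : Set G, S.Finite ∧ Subgroup.closure S = ⊤ ∧ ∃ δ : ℝ, ∀ x y z w : G,
    (wordLength S (x⁻¹ * z) : ℝ) + wordLength S (y⁻¹ * w) ≤
      max ((wordLength S (x⁻¹ * y) : ℝ) + wordLength S (z⁻¹ * w))
        ((wordLength S (x⁻¹ * w) : ℝ) + wordLength S (y⁻¹ * z)) + δ

/-- The negative answer to Q1 (and Q2) of MP_ef842e_al: a non-hyperbolic group acting
geometrically on a two-dimensional CAT(0) cube complex such that every element of infinite order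
is a rank-one isometry (moreover none of its axes bounds a flat half-plane). -/
def NegativeAnswer : Prop :=
  ∃ (G : Type) (_ : Group G) (X : Type) (_ : MetricSpace X) (_ : MulAction G X)
    (C : CubeComplex X),
    ProperSpace X ∧ IsCompleteCAT0 X ∧ SimplyConnectedSpace X ∧
    (∀ c, C.dim c ≤ 2) ∧
    IsGeometric G X ∧
    C.IsCellular G ∧
    Group.FG G ∧ ¬ IsHyperbolicGroup G ∧
    (∃ g : G, ¬ IsOfFinOrder g) ∧
    (∀ g : G, ¬ IsOfFinOrder g → IsRankOne (X := X) g) ∧
    ∀ (g : G) (γ : ℝ → X), IsAxis g γ → ¬ BoundsHalfPlane γ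

end Pool.Agent.FlatClosing
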