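import Pool.Agent.FlatClosing.Core
import Pool.Agent.FlatClosing.Statement

/-!
# Small tools for the assembly (MP_ef842e_al, helper60)
-/

set_option autoImplicit false

namespace Pool.Agent.FlatClosing

/-! ### An element of infinite order -/

section InfOrder

variable {G : Type} [Group G] {P Q : Subgroup G}

theorem alt_pow_pair {p q : G} (hp : p ∈ P) (hp' : p ∉ Q) (hq : q ∈ Q) (hq' : q ∉ P) (n : ℕ) :
    Alt P Q (List.replicate n [p, q]).flatten := by
  induction n with
  | zero => exact ⟨by simp, by simp⟩
  | succ n ih =>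
    rw [List.replicate_succ, List.flatten_cons]
    refine ⟨?_, ?_⟩
    · intro x hx
      rcases List.mem_append.1 hx with hx | hx
      · simp only [List.mem_cons, List.not_mem_nil, or_false] at hx
        rcases hx with rfl | rfl
        · exact Or.inl ⟨hp, hp'⟩
        · exact Or.inr ⟨hq, hq'⟩
      · exact ih.1 x hx
    · rw [List.isChain_append]
      refine ⟨?_, ih.2, ?_⟩
      · simp [hp, hq]
      · intro x hx y hy
        simp at hx
        subst hx
        right
        refine ⟨hq, ?_⟩
        cases n with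
        | zero => simp at hy
        | succ n =>
          rw [List.replicate_succ, List.flatten_cons] at hy
          simp at hy
          subst hy
          exact hp

theorem IsAmalg.infinite_order (h : IsAmalg P Q) {p q : G} (hp : p ∈ P) (hp' : p ∉ Q)
    (hq : q ∈ Q) (hq' : q ∉ P) : ¬ IsOfFinOrder (p * q) := by
  rw [isOfFinOrder_iff_pow_eq_one]
  rintro ⟨n, hn, h1⟩
  have h2 := h.alt _ (alt_pow_pair hp hp' hq hq' n) (by
    cases n with
    | zero => exact absurd hn (lt_irrefl _)
    | succ n => simp [List.replicate_succ])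
  apply h2
  have h3 : (List.replicate n [p, q]).flatten.prod = (p * q) ^ n := by
    rw [List.prod_flatten]
    simp
  rw [h3, h1]
  exact one_mem _

end InfOrder

/-! ### Normalisation of a half-plane bounded by an axis -/

section Half

variable {G X : Type} [Group G] [MetricSpace X] [MulAction G X]

/-- points of the half-plane -/
def hp (x y : ℝ) (hy : 0 ≤ y) : HalfPlane := ⟨!₂[x, y], by simpa using hy⟩

theorem hp_dist (x y x' y' : ℝ) (hy : 0 ≤ y) (hy' : 0 ≤ y') :
    dist (hp x y hy) (hp x' y' hy') = Real.sqrt ((x - x') ^ 2 + (y - y') ^ 2) := by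
  rw [Subtype.dist_eq, EuclideanSpace.dist_eq, Fin.sum_univ_two]
  simp [hp, Real.dist_eq, sq_abs]

theorem hp_surj (z : HalfPlane) : ∃ x y, ∃ hy : 0 ≤ y, z = hp x y hy := by
  refine ⟨z.1 0, z.1 1, z.2, ?_⟩
  apply Subtype.ext
  ext i
  fin_cases i <;> rfl

/-- the reflection `x ↦ -x` of the half-plane -/
def hpRefl (z : HalfPlane) : HalfPlane := hp (-z.1 0) (z.1 1) z.2

theorem isometry_hpRefl : Isometry hpRefl := by
  apply Isometry.of_dist_eq
  intro z w
  obtain ⟨x, y, hy, rfl⟩ := hp_surj z
  obtain ⟨x', y', hy', rfl⟩ := hp_surj w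
  have e : ∀ (x y : ℝ) (hy : 0 ≤ y), hpRefl (hp x y hy) = hp (-x) y hy := fun x y hy => rfl
  rw [e, e, hp_dist, hp_dist]
  congr 1
  ring

/-- An isometric embedding of the real line into the real line is affine. -/
theorem real_isometry_affine {u : ℝ → ℝ} (hu : Isometry u) :
    (∀ x, u x = u 0 + x) ∨ (∀ x, u x = u 0 - x) := by
  have h1 : ∀ x y, |u x - u y| = |x - y| := fun x y => by
    have := hu.dist_eq x y
    rwa [Real.dist_eq, Real.dist_eq] at this
  have h2 : ∀ x, u x = u 0 + x ∨ u x = u 0 - x := by
    intro x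
    have := h1 x 0
    rw [sub_zero] at this
    rcases abs_eq_abs.1 this with h | h
    · left; linarith
    · right; linarith
  by_cases h : ∀ x, u x = u 0 + x
  · exact Or.inl h
  · right
    push Not at h
    obtain ⟨a, ha⟩ := h
    have ha' := (h2 a).resolve_left ha
    have ha0 : a ≠ 0 := by
      rintro rfl
      exact ha (by simp)
    intro x
    rcases h2 x with hx | hx
    · have h3 := h1 x a
      rw [hx, ha'] at h3
      have h4 : u 0 + x - (u 0 - a) = x + a := by ring
      rw [h4] at h3
      have h5 : x = 0 := by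
        rcases abs_eq_abs.1 h3 with h | h
        · exfalso; apply ha0; linarith
        · linarith
      rw [hx, h5]; simp
    · exact hx

/-- If an axis of `g` bounds a flat half-plane, then there is an isometrically embedded
half-plane on whose boundary line `g` acts as the translation by `l > 0`. -/
theorem BoundsHalfPlane.normalise {g : G} {γ : ℝ → X} (hγ : IsAxis g γ)
    (h : BoundsHalfPlane γ) : ∃ (f : HalfPlane → X) (l : ℝ), Isometry f ∧ 0 < l ∧
      ∀ x : ℝ, g • f (hp x 0 le_rfl) = f (hp (x + l) 0 le_rfl) := by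
  obtain ⟨hγi, l, hl, hgl⟩ := hγ
  obtain ⟨f, hf, hfr⟩ := h
  have h1 : ∀ x : ℝ, ∃ t, γ t = f (hp x 0 le_rfl) := by
    intro x
    have : f (hp x 0 le_rfl) ∈ Set.range γ := by
      rw [← hfr]
      exact ⟨_, rfl, rfl⟩
    exact this
  choose u hu using h1
  have hui : Isometry u := by
    apply Isometry.of_dist_eq
    intro x y
    rw [← hγi.dist_eq, hu, hu, hf.dist_eq, hp_dist, Real.dist_eq]
    rw [sub_self, zero_pow two_ne_zero, add_zero, Real.sqrt_sq_eq_abs]
  rcases real_isometry_affine hui with h2 | h2
  · refine ⟨f, l, hf, hl, fun x => ?_⟩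
    rw [← hu x, ← hu (x + l), hgl]
    congr 1
    rw [h2 x, h2 (x + l)]
    ring
  · refine ⟨f ∘ hpRefl, l, hf.comp isometry_hpRefl, hl, fun x => ?_⟩
    have e : ∀ x : ℝ, hpRefl (hp x 0 le_rfl) = hp (-x) 0 le_rfl := fun x => rfl
    simp only [Function.comp]
    rw [e, e, ← hu (-x), ← hu (-(x + l)), hgl]
    congr 1
    rw [h2 (-x), h2 (-(x + l))]
    ring

end Half

end Pool.Agent.FlatClosing
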