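import Mathlib

/-!
# MP_ef842e: letter data and letter patterns (helper74)

`LData V E` collects the facts about the finite groups which are needed for the combinatorial
descent (section 0 and section 11 of the blueprint).  Conventions:

* `io : E →* V` and `ka : E →* V` are the two copies of `E` in the corner group `V`;
* `V_A`: bottom letters via `io`, left letters via `ka`;
* `V_B`: bottom letters and the right generator `rho`, `rho * e * rho⁻¹ = R e`;
* `V_C`: top letters `t` via `io (M t)`, right letters `s = ± 1` via `ka c' ^ s`;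
* `V_D`: top letters via `ka`, left letters `l` via `io (M l)`;
* here `M = R⁻¹ L`.
-/

set_option autoImplicit false

namespace Pool.Agent.FlatClosing

/-- Finite data for the descent. -/
structure LData (V E : Type) [Group V] [Group E] where
  io : E →* V
  ka : E →* V
  L : MulAut E
  R : MulAut E
  al : V →* V
  c : E
  c' : E
  chi : E →* Multiplicative (ZMod 3)
  chV : V →* Multiplicative (ZMod 3)
  io_inj : Function.Injective io
  ka_inj : Function.Injective ka
  al_inj : Function.Injective al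
  al_io : ∀ e, al (io e) = ka e
  al_ka : ∀ e, al (ka e) = io (L e)
  n1 : ∀ e f, io e = ka f → e = 1
  relI : ∀ e, ka c * io ((R⁻¹ * L) e) = io ((R⁻¹ * L) (R e)) * ka c
  relII : io ((R⁻¹ * L) c) * ka c' = ka c' * io ((R⁻¹ * L) c')
  cstr : ∀ s t : ℤ, (s = 1 ∨ s = -1) → (t = 1 ∨ t = -1) → ∀ x y : E, x ≠ 1 →
    ka c' ^ s * io ((R⁻¹ * L) y) = io ((R⁻¹ * L) x) * ka c' ^ t →
    s = t ∧ ∃ e : ℤ, (e = 1 ∨ e = -1) ∧ (s = 1 → x = c ^ e ∧ y = c' ^ e) ∧
      (s = -1 → x = c' ^ e ∧ y = c ^ e)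
  dstr1 : ∀ s t : ℤ, (s = 1 ∨ s = -1) → (t = 1 ∨ t = -1) → ∀ u v : E,
    io ((R⁻¹ * L) u) * ka (c ^ s) ≠ ka (c' ^ t) * io ((R⁻¹ * L) v)
  dstr2 : ∀ s t : ℤ, (s = 1 ∨ s = -1) → (t = 1 ∨ t = -1) → ∀ u v : E,
    io ((R⁻¹ * L) u) * ka (c' ^ s) ≠ ka (c ^ t) * io ((R⁻¹ * L) v)
  chi_R : ∀ e, chi (R e) = chi e
  chi_L : ∀ e, chi (L e) = chi e
  chi_c : chi c = Multiplicative.ofAdd 1
  chi_c' : chi c' = Multiplicative.ofAdd 1
  chV_io : ∀ e, chV (io e) = chi e
  chV_ka : ∀ e, chV (ka e) = 1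

namespace LData

variable {V E : Type} [Group V] [Group E] (D : LData V E)

/-- the automorphism `M = R⁻¹ L` -/
def M : MulAut E := D.R⁻¹ * D.L

theorem M_apply (e : E) : D.M e = D.R⁻¹ (D.L e) := rfl

theorem chi_Rinv (e : E) : D.chi (D.R⁻¹ e) = D.chi e := by
  have h := D.chi_R (D.R⁻¹ e)
  rw [← h]
  congr 1
  exact MulAut.apply_inv_self E D.R e

theorem chi_M (e : E) : D.chi (D.M e) = D.chi e := by
  rw [M_apply, chi_Rinv, chi_L]

/-- second character of `V` -/
def chW : V →* Multiplicative (ZMod 3) := D.chV.comp D.al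

theorem chW_io (e : E) : D.chW (D.io e) = 1 := by
  simp only [chW, MonoidHom.comp_apply, D.al_io, D.chV_ka]

theorem chW_ka (e : E) : D.chW (D.ka e) = D.chi e := by
  simp only [chW, MonoidHom.comp_apply, D.al_ka, D.chV_io, D.chi_L]

theorem M_Linv (e : E) : D.M (D.L⁻¹ e) = D.R⁻¹ e := by
  rw [M_apply, MulAut.apply_inv_self]

/-- `c` and `c'` are different powers -/
theorem chi_pow_ne {s t : ℤ} (hs : s = 1 ∨ s = -1) (ht : t = 1 ∨ t = -1)
    (h : (Multiplicative.ofAdd (1 : ZMod 3)) ^ s = (Multiplicative.ofAdd (1 : ZMod 3)) ^ t) :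
    s = t := by
  rcases hs with rfl | rfl <;> rcases ht with rfl | rfl
  · rfl
  · exact absurd h (by decide)
  · exact absurd h (by decide)
  · rfl

theorem ofAdd_zpow_ne_one {s : ℤ} (hs : s = 1 ∨ s = -1) :
    (Multiplicative.ofAdd (1 : ZMod 3)) ^ s ≠ 1 := by
  rcases hs with rfl | rfl
  · decide
  · decide

/-- decomposition in `io E * ka E` is unique -/
theorem uniq1 {a b a' b' : E} (h : D.io a * D.ka b = D.io a' * D.ka b') : a = a' ∧ b = b' := by
  have h1 : D.io (a'⁻¹ * a) = D.ka (b' * b⁻¹) := by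
    rw [map_mul, map_mul, map_inv, map_inv]
    rw [inv_mul_eq_iff_eq_mul, ← mul_assoc, eq_mul_inv_iff_mul_eq]
    exact h
  have h2 := D.n1 _ _ h1
  have h3 : a = a' := by
    have := inv_mul_eq_one.1 h2
    exact this.symm
  refine ⟨h3, ?_⟩
  subst h3
  exact D.ka_inj (mul_left_cancel h)

/-- decomposition in `ka E * io E` is unique -/
theorem uniq2 {a b a' b' : E} (h : D.ka a * D.io b = D.ka a' * D.io b') : a = a' ∧ b = b' := by
  have h1 : D.io (b⁻¹) * D.ka (a⁻¹) = D.io (b'⁻¹) * D.ka (a'⁻¹) := by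
    have := congrArg (fun x => x⁻¹) h
    simpa only [mul_inv_rev, map_inv] using this
  have h2 := D.uniq1 h1
  exact ⟨inv_injective h2.2, inv_injective h2.1⟩

/-- the relation `relI` for both signs -/
theorem relI_zpow {s : ℤ} (hs : s = 1 ∨ s = -1) (e : E) :
    D.ka D.c ^ s * D.io (D.M e) = D.io (D.M ((D.R ^ s) e)) * D.ka D.c ^ s := by
  rcases hs with rfl | rfl
  · rw [zpow_one, zpow_one]
    exact D.relI e
  · rw [zpow_neg_one, zpow_neg_one]
    have h := D.relI (D.R⁻¹ e)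
    rw [MulAut.apply_inv_self] at h
    change D.ka D.c * D.io (D.M (D.R⁻¹ e)) = D.io (D.M e) * D.ka D.c at h
    rw [inv_mul_eq_iff_eq_mul, ← mul_assoc, h, mul_assoc, mul_inv_cancel, mul_one]

/-- base-base relation at a `D`-vertex -/
theorem relD_base {s t : ℤ} (hs : s = 1 ∨ s = -1) (ht : t = 1 ∨ t = -1) {u v : E}
    (h : D.io (D.M u) * D.ka (D.c ^ s) = D.ka (D.c ^ t) * D.io (D.M v)) :
    t = s ∧ v = (D.R ^ (-s)) u := by
  have hst : t = s := by
    have h1 := congrArg D.chW h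
    rw [map_mul, map_mul, chW_io, chW_io, chW_ka, chW_ka, one_mul, mul_one, map_zpow,
      map_zpow, D.chi_c] at h1
    exact (chi_pow_ne hs ht h1).symm
  subst hst
  refine ⟨rfl, ?_⟩
  have h1 := D.relI_zpow hs v
  rw [map_zpow] at h
  rw [← h] at h1
  have h2 := D.io_inj (mul_right_cancel h1)
  have h3 := D.M.injective h2
  rw [h3, ← MulAut.mul_apply, ← zpow_add]
  simp

end LData

/-- A letter pattern on the squares `(i, j)` with `A i` and `B j` (`A` and `B` upward closed).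
Vertical line `2 m` is a left line with letters `l m j`, vertical line `2 m + 1` is a right
line with letters `r m j`; horizontal line `2 n` is a bottom line with letters `b i n`,
horizontal line `2 n + 1` is a top line with letters `t i n`. -/
structure Pat {V E : Type} [Group V] [Group E] (D : LData V E) (A B : ℤ → Prop)
    (l : ℤ → ℤ → E) (r : ℤ → ℤ → ℤ) (b t : ℤ → ℤ → E) : Prop where
  l_ne : ∀ m j, A (2 * m - 1) → B j → l m j ≠ 1
  r_sg : ∀ m j, A (2 * m) → B j → r m j = 1 ∨ r m j = -1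
  b_ne : ∀ i n, A i → B (2 * n - 1) → b i n ≠ 1
  t_ne : ∀ i n, A i → B (2 * n) → t i n ≠ 1
  relA : ∀ m n, A (2 * m - 1) → B (2 * n - 1) →
    D.ka (l m (2 * n - 1)) * D.io (b (2 * m) n) = D.io (b (2 * m - 1) n) * D.ka (l m (2 * n))
  relBs : ∀ m n, A (2 * m) → B (2 * n - 1) → r m (2 * n - 1) = r m (2 * n)
  relB : ∀ m n, A (2 * m) → B (2 * n - 1) →
    b (2 * m + 1) n = (D.R ^ (-(r m (2 * n)))) (b (2 * m) n)
  relC : ∀ m n, A (2 * m) → B (2 * n) →
    D.ka D.c' ^ (r m (2 * n)) * D.io (D.M (t (2 * m + 1) n)) =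
      D.io (D.M (t (2 * m) n)) * D.ka D.c' ^ (r m (2 * n + 1))
  relD : ∀ m n, A (2 * m - 1) → B (2 * n) →
    D.io (D.M (l m (2 * n))) * D.ka (t (2 * m) n) =
      D.ka (t (2 * m - 1) n) * D.io (D.M (l m (2 * n + 1)))

/-- upward closed predicates on the integers -/
def UpC (A : ℤ → Prop) : Prop := ∀ x y, A x → x ≤ y → A y

end Pool.Agent.FlatClosing
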