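import Pool.Agent.FlatClosing.Data
import Pool.Agent.FlatClosing.Letters

/-!
# The finite data of MP_ef842e as an instance of `LData` (helper84)
-/

set_option autoImplicit false

namespace Pool.Agent.FlatClosing

open E73

/-- character of `VV` which is `ch` on `iota` and trivial on `kappa` -/
def chVV : VV →* Multiplicative (ZMod 3) where
  toFun v := v.2.1 * v.2.2⁻¹
  map_one' := by simp
  map_mul' v w := by
    simp only [Prod.fst_mul, Prod.snd_mul, mul_inv_rev]
    generalize v.2.1 = a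
    generalize v.2.2 = b
    generalize w.2.1 = c
    generalize w.2.2 = d
    rw [mul_comm d⁻¹ b⁻¹, mul_mul_mul_comm]

theorem M_eq (e : E73) : ((RR : MulAut E73)⁻¹ * (LL : MulAut E73)) e = del e := by
  rw [del_eq]
  rfl

theorem kappa_cc'_zpow {s : ℤ} (hs : s = 1 ∨ s = -1) :
    kappa cc' ^ s = kappa (cycC' (Multiplicative.ofAdd ((s : ZMod 3)))) := by
  rw [← map_zpow]
  congr 1
  rcases hs with rfl | rfl <;> decide

theorem ofAdd_cast_inj {s t : ℤ} (hs : s = 1 ∨ s = -1) (ht : t = 1 ∨ t = -1)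
    (h : Multiplicative.ofAdd ((s : ZMod 3)) = Multiplicative.ofAdd ((t : ZMod 3))) : s = t := by
  rcases hs with rfl | rfl <;> rcases ht with rfl | rfl
  · rfl
  · exact absurd h (by decide)
  · exact absurd h (by decide)
  · rfl

theorem cstr_data : ∀ s t : ℤ, (s = 1 ∨ s = -1) → (t = 1 ∨ t = -1) → ∀ x y : E73, x ≠ 1 →
    kappa cc' ^ s * iota (del y) = iota (del x) * kappa cc' ^ t →
    s = t ∧ ∃ e : ℤ, (e = 1 ∨ e = -1) ∧ (s = 1 → x = cc ^ e ∧ y = cc' ^ e) ∧
      (s = -1 → x = cc' ^ e ∧ y = cc ^ e) := by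
  intro s t hs ht x y hx h
  rw [kappa_cc'_zpow hs, kappa_cc'_zpow ht] at h
  have h1 : RelC (Multiplicative.ofAdd ((s : ZMod 3))) y x (Multiplicative.ofAdd ((t : ZMod 3))) := h
  rw [relC_iff] at h1
  obtain ⟨h2, h3⟩ := h1
  refine ⟨ofAdd_cast_inj hs ht h2, ?_⟩
  have n3 : ∀ n : Multiplicative (ZMod 3), n = 1 ∨ n = Multiplicative.ofAdd 1 ∨
      n = Multiplicative.ofAdd 2 := by decide
  rcases hs with rfl | rfl
  · rcases h3 with ⟨h4, -⟩ | ⟨-, n, rfl, rfl⟩ | ⟨h4, -⟩
    · exact absurd h4 (by decide)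
    · rcases n3 n with rfl | rfl | rfl
      · exact absurd (map_one _) hx
      · exact ⟨1, Or.inl rfl, fun _ => ⟨by decide, by decide⟩, fun h => absurd h (by decide)⟩
      · exact ⟨-1, Or.inr rfl, fun _ => ⟨by decide, by decide⟩, fun h => absurd h (by decide)⟩
    · exact absurd h4 (by decide)
  · rcases h3 with ⟨h4, -⟩ | ⟨h4, -⟩ | ⟨-, n, rfl, rfl⟩
    · exact absurd h4 (by decide)
    · exact absurd h4 (by decide)
    · rcases n3 n with rfl | rfl | rfl
      · exact absurd (map_one _) hx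
      · exact ⟨1, Or.inl rfl, fun h => absurd h (by decide), fun _ => ⟨by decide, by decide⟩⟩
      · exact ⟨-1, Or.inr rfl, fun h => absurd h (by decide), fun _ => ⟨by decide, by decide⟩⟩

theorem cc_zpow_eq {s : ℤ} (hs : s = 1 ∨ s = -1) :
    cc ^ s = cycC (Multiplicative.ofAdd ((s : ZMod 3))) := by
  rcases hs with rfl | rfl <;> decide

theorem dstr1_data : ∀ s t : ℤ, (s = 1 ∨ s = -1) → (t = 1 ∨ t = -1) → ∀ u v : E73,
    iota (del u) * kappa (cc ^ s) ≠ kappa (cc' ^ t) * iota (del v) := by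
  intro s t hs ht u v h
  rw [cc_zpow_eq hs] at h
  have h1 : RelD u (cycC (Multiplicative.ofAdd ((s : ZMod 3)))) (cc' ^ t) v := h
  have h2 := h1.of_left.1
  revert h2
  rcases hs with rfl | rfl <;> rcases ht with rfl | rfl <;> decide

theorem dstr2_data : ∀ s t : ℤ, (s = 1 ∨ s = -1) → (t = 1 ∨ t = -1) → ∀ u v : E73,
    iota (del u) * kappa (cc' ^ s) ≠ kappa (cc ^ t) * iota (del v) := by
  intro s t hs ht u v h
  rw [cc_zpow_eq ht] at h
  have h1 : RelD u (cc' ^ s) (cycC (Multiplicative.ofAdd ((t : ZMod 3)))) v := h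
  have h2 := h1.of_right.1
  revert h2
  rcases hs with rfl | rfl <;> rcases ht with rfl | rfl <;> decide

/-- the finite data -/
def ldata : LData VV E73 where
  io := iota
  ka := kappa
  L := LL
  R := RR
  al := alpha.toMonoidHom
  c := cc
  c' := cc'
  chi := ch
  chV := chVV
  io_inj := iota_injective
  ka_inj := kappa_injective
  al_inj := alpha.injective
  al_io := alpha_iota
  al_ka := alpha_kappa
  n1 e f h := (iota_eq_kappa h).1
  relI e := by
    rw [M_eq, M_eq]
    have h := kappa_cc_iota (Multiplicative.ofAdd 1) e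
    have e1 : cycC (Multiplicative.ofAdd 1) = cc := by decide
    have e2 : cycP (Multiplicative.ofAdd 1) = PP := by decide
    rw [e1, e2] at h
    exact h
  relII := by
    rw [M_eq, M_eq]
    have h : RelC (Multiplicative.ofAdd 1) (cycC' (Multiplicative.ofAdd 1))
        (cycC (Multiplicative.ofAdd 1)) (Multiplicative.ofAdd 1) :=
      relC_iff.2 ⟨rfl, Or.inr (Or.inl ⟨rfl, _, rfl, rfl⟩)⟩
    have e1 : cycC (Multiplicative.ofAdd 1) = cc := by decide
    have e2 : cycC' (Multiplicative.ofAdd 1) = cc' := by decide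
    unfold RelC at h
    rw [e1, e2] at h
    exact h.symm
  cstr s t hs ht x y hx h := by
    rw [M_eq, M_eq] at h
    exact cstr_data s t hs ht x y hx h
  dstr1 s t hs ht u v := by
    rw [M_eq, M_eq]
    exact dstr1_data s t hs ht u v
  dstr2 s t hs ht u v := by
    rw [M_eq, M_eq]
    exact dstr2_data s t hs ht u v
  chi_R e := by revert e; decide
  chi_L e := by revert e; decide
  chi_c := rfl
  chi_c' := rfl
  chV_io e := by
    show ch e * (1 : Multiplicative (ZMod 3))⁻¹ = ch e
    simp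
  chV_ka e := by
    show ch e * (ch e)⁻¹ = 1
    simp

end Pool.Agent.FlatClosing
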