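import Pool.Agent.FlatClosing.Flat
import Pool.Agent.FlatClosing.DataInst

/-!
# From group elements to letters (MP_ef842e, helper84)

* `Realisation D` : the double amalgam `D` is the one given by the square of groups of the
  finite data;
* `exists_pat` : a combinatorial flat on a set `{A i and B j}` gives a letter pattern `Pat`.
-/

set_option autoImplicit false

namespace Pool.Agent.FlatClosing

open E73

/-- The double amalgam `D` is built from the finite data. -/
structure Realisation {G : Type} [Group G] (D : DoubleAmalg G) where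
  fA : VV →* G
  fB : VV →* G
  fC : VV →* G
  fD : VV →* G
  injA : Function.Injective fA
  injB : Function.Injective fB
  injC : Function.Injective fC
  injD : Function.Injective fD
  eb : ∀ e, fA (iota e) = fB (iota e)
  el : ∀ e, fA (kappa e) = fD (iota (del e))
  er : ∀ m, fB (rhoHom m) = fC (kappa (cycC' m))
  et : ∀ e, fD (kappa e) = fC (iota (del e))
  St_b : ∀ g, g ∈ D.St .mid .lo ↔ ∃ e, g = fA (iota e)
  St_l : ∀ g, g ∈ D.St .lo .mid ↔ ∃ e, g = fA (kappa e)
  St_r : ∀ g, g ∈ D.St .hi .mid ↔ ∃ m, g = fB (rhoHom m)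
  St_t : ∀ g, g ∈ D.St .mid .hi ↔ ∃ e, g = fD (kappa e)

/-- the sign of an exponent -/
def sgn3 (m : Multiplicative (ZMod 3)) : ℤ := if m = Multiplicative.ofAdd 1 then 1 else -1

theorem sgn3_sg (m : Multiplicative (ZMod 3)) : sgn3 m = 1 ∨ sgn3 m = -1 := by
  unfold sgn3; split <;> simp

theorem ofAdd_sgn3 {m : Multiplicative (ZMod 3)} (hm : m ≠ 1) :
    Multiplicative.ofAdd ((sgn3 m : ZMod 3)) = m := by
  revert m; decide

theorem sgn3_ofAdd {s : ℤ} (hs : s = 1 ∨ s = -1) :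
    sgn3 (Multiplicative.ofAdd ((s : ZMod 3))) = s := by
  rcases hs with rfl | rfl <;> decide

theorem cycP_zpow {s : ℤ} (hs : s = 1 ∨ s = -1) (v : E73) :
    cycP (Multiplicative.ofAdd ((s : ZMod 3))) * v * (cycP (Multiplicative.ofAdd ((s : ZMod 3))))⁻¹ =
      ((RR : MulAut E73) ^ s) v := by
  rcases hs with rfl | rfl
  · have h : cycP (Multiplicative.ofAdd (((1 : ℤ) : ZMod 3))) = PP := by decide
    rw [h, zpow_one]
    rfl
  · have h : cycP (Multiplicative.ofAdd (((-1 : ℤ) : ZMod 3))) = PP⁻¹ := by decide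
    rw [h, zpow_neg_one, inv_inv]
    show _ = RR.symm v
    simp [RR, MulAut.conj_symm_apply]

theorem relB_sgn {s s' : ℤ} (hs : s = 1 ∨ s = -1) (hs' : s' = 1 ∨ s' = -1) {v v' : E73}
    (h : RelB (Multiplicative.ofAdd ((s : ZMod 3))) v v' (Multiplicative.ofAdd ((s' : ZMod 3)))) :
    s = s' ∧ v = ((RR : MulAut E73) ^ (-s')) v' := by
  rw [relB_iff] at h
  obtain ⟨h1, h2⟩ := h
  have h3 := ofAdd_cast_inj hs hs' h1
  refine ⟨h3, ?_⟩
  subst h3
  rw [cycP_zpow hs] at h2
  rw [h2, ← MulAut.mul_apply, ← zpow_add]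
  simp

namespace Realisation

variable {G : Type} [Group G] {D : DoubleAmalg G} (R : Realisation D)

open Classical in
/-- the letter of an element of the edge group `l` -/
noncomputable def decL (g : G) : E73 := if h : ∃ e, g = R.fA (kappa e) then h.choose else 1

open Classical in
/-- the letter of an element of the edge group `b` -/
noncomputable def decB (g : G) : E73 := if h : ∃ e, g = R.fA (iota e) then h.choose else 1

open Classical in
/-- the letter of an element of the edge group `t` -/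
noncomputable def decT (g : G) : E73 := if h : ∃ e, g = R.fD (kappa e) then h.choose else 1

open Classical in
/-- the letter of an element of the edge group `r` -/
noncomputable def decR (g : G) : ℤ :=
  if h : ∃ m, g = R.fB (rhoHom m) then sgn3 h.choose else 1

theorem decL_spec {g : G} (h : g ∈ D.St .lo .mid) : R.fA (kappa (R.decL g)) = g := by
  have h1 := (R.St_l g).1 h
  unfold decL
  rw [dif_pos h1]
  exact h1.choose_spec.symm

theorem decB_spec {g : G} (h : g ∈ D.St .mid .lo) : R.fA (iota (R.decB g)) = g := by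
  have h1 := (R.St_b g).1 h
  unfold decB
  rw [dif_pos h1]
  exact h1.choose_spec.symm

theorem decT_spec {g : G} (h : g ∈ D.St .mid .hi) : R.fD (kappa (R.decT g)) = g := by
  have h1 := (R.St_t g).1 h
  unfold decT
  rw [dif_pos h1]
  exact h1.choose_spec.symm

theorem decR_sg (g : G) : R.decR g = 1 ∨ R.decR g = -1 := by
  unfold decR
  split
  · exact sgn3_sg _
  · left; rfl

theorem decR_spec {g : G} (h : g ∈ D.St .hi .mid) (h1 : g ≠ 1) :
    R.fB (rhoHom (Multiplicative.ofAdd ((R.decR g : ZMod 3)))) = g := by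
  have h2 := (R.St_r g).1 h
  unfold decR
  rw [dif_pos h2]
  have h3 : h2.choose ≠ 1 := by
    intro h4
    apply h1
    rw [h2.choose_spec, h4, map_one, map_one]
  rw [ofAdd_sgn3 h3]
  exact h2.choose_spec.symm

end Realisation

/-- horizontal step of a flat -/
def stepH {G : Type} [Group G] (τ : ℤ → ℤ → G) (x y : ℤ) : G := (τ (x - 1) y)⁻¹ * τ x y

/-- vertical step of a flat -/
def stepV {G : Type} [Group G] (τ : ℤ → ℤ → G) (x y : ℤ) : G := (τ x (y - 1))⁻¹ * τ x y

theorem step_comm {G : Type} [Group G] (τ : ℤ → ℤ → G) (x y : ℤ) :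
    stepH τ x (y - 1) * stepV τ x y = stepV τ (x - 1) y * stepH τ x y := by
  simp only [stepH, stepV]
  group

namespace Realisation

variable {G : Type} [Group G] {D : DoubleAmalg G} (R : Realisation D)

/-- the letters of a flat -/
noncomputable def ltL (τ : ℤ → ℤ → G) (m j : ℤ) : E73 := R.decL (stepH τ (2 * m) j)
/-- the letters of a flat -/
noncomputable def ltR (τ : ℤ → ℤ → G) (m j : ℤ) : ℤ := R.decR (stepH τ (2 * m + 1) j)
/-- the letters of a flat -/
noncomputable def ltB (τ : ℤ → ℤ → G) (i n : ℤ) : E73 := R.decB (stepV τ i (2 * n))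
/-- the letters of a flat -/
noncomputable def ltT (τ : ℤ → ℤ → G) (i n : ℤ) : E73 := R.decT (stepV τ i (2 * n + 1))

variable {τ : ℤ → ℤ → G} {A B : ℤ → Prop}

theorem specL (hτ : IsFlatOn D {z | A z.1 ∧ B z.2} τ) (hA : UpC A) {m j : ℤ}
    (h1 : A (2 * m - 1)) (h2 : B j) :
    R.fA (kappa (R.ltL τ m j)) = stepH τ (2 * m) j ∧ stepH τ (2 * m) j ≠ 1 := by
  have h3 := hτ.h (2 * m) j ⟨h1, h2⟩ ⟨hA _ _ h1 (by omega), h2⟩
  rw [par_even (even_two_mul m)] at h3
  exact ⟨R.decL_spec h3.1, h3.2⟩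

theorem not_even (m : ℤ) : ¬ Even (2 * m + 1) := by
  rw [Int.even_add_one]; simp

theorem specR (hτ : IsFlatOn D {z | A z.1 ∧ B z.2} τ) (hA : UpC A) {m j : ℤ}
    (h1 : A (2 * m)) (h2 : B j) :
    R.fB (rhoHom (Multiplicative.ofAdd ((R.ltR τ m j : ZMod 3)))) = stepH τ (2 * m + 1) j ∧
      stepH τ (2 * m + 1) j ≠ 1 := by
  have h3 := hτ.h (2 * m + 1) j ⟨by simpa using h1, h2⟩ ⟨hA _ _ h1 (by omega), h2⟩
  rw [par_odd (not_even m)] at h3
  exact ⟨R.decR_spec h3.1 h3.2, h3.2⟩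

theorem specB (hτ : IsFlatOn D {z | A z.1 ∧ B z.2} τ) (hB : UpC B) {i n : ℤ}
    (h1 : A i) (h2 : B (2 * n - 1)) :
    R.fA (iota (R.ltB τ i n)) = stepV τ i (2 * n) ∧ stepV τ i (2 * n) ≠ 1 := by
  have h3 := hτ.v i (2 * n) ⟨h1, h2⟩ ⟨h1, hB _ _ h2 (by omega)⟩
  rw [par_even (even_two_mul n)] at h3
  exact ⟨R.decB_spec h3.1, h3.2⟩

theorem specT (hτ : IsFlatOn D {z | A z.1 ∧ B z.2} τ) (hB : UpC B) {i n : ℤ}
    (h1 : A i) (h2 : B (2 * n)) :
    R.fD (kappa (R.ltT τ i n)) = stepV τ i (2 * n + 1) ∧ stepV τ i (2 * n + 1) ≠ 1 := by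
  have h3 := hτ.v i (2 * n + 1) ⟨h1, by simpa using h2⟩ ⟨h1, hB _ _ h2 (by omega)⟩
  rw [par_odd (not_even n)] at h3
  exact ⟨R.decT_spec h3.1, h3.2⟩

/-- the letters of a flat form a pattern -/
theorem pat (hτ : IsFlatOn D {z | A z.1 ∧ B z.2} τ) (hA : UpC A) (hB : UpC B) :
    Pat ldata A B (R.ltL τ) (R.ltR τ) (R.ltB τ) (R.ltT τ) where
  l_ne m j h1 h2 := by
    have h := R.specL hτ hA h1 h2
    intro h3
    apply h.2
    rw [← h.1, h3, map_one, map_one]
  r_sg m j _ _ := R.decR_sg _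
  b_ne i n h1 h2 := by
    have h := R.specB hτ hB h1 h2
    intro h3
    apply h.2
    rw [← h.1, h3, map_one, map_one]
  t_ne i n h1 h2 := by
    have h := R.specT hτ hB h1 h2
    intro h3
    apply h.2
    rw [← h.1, h3, map_one, map_one]
  relA m n h1 h2 := by
    have e := step_comm τ (2 * m) (2 * n)
    have hB2 : B (2 * n) := hB _ _ h2 (by omega)
    have hA2 : A (2 * m) := hA _ _ h1 (by omega)
    rw [← (R.specL hτ hA h1 h2).1, ← (R.specB hτ hB hA2 h2).1, ← (R.specB hτ hB h1 h2).1,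
      ← (R.specL hτ hA h1 hB2).1, ← map_mul, ← map_mul] at e
    exact R.injA e
  relBs m n h1 h2 := by
    have e := step_comm τ (2 * m + 1) (2 * n)
    have hB2 : B (2 * n) := hB _ _ h2 (by omega)
    have hA2 : A (2 * m + 1) := hA _ _ h1 (by omega)
    have e1 : (2 * m + 1 - 1 : ℤ) = 2 * m := by ring
    rw [e1] at e
    rw [← (R.specR hτ hA h1 h2).1, ← (R.specB hτ hB hA2 h2).1, ← (R.specB hτ hB h1 h2).1,
      ← (R.specR hτ hA h1 hB2).1, R.eb, R.eb, ← map_mul, ← map_mul] at e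
    exact (relB_sgn (R.decR_sg _) (R.decR_sg _) (R.injB e)).1
  relB m n h1 h2 := by
    have e := step_comm τ (2 * m + 1) (2 * n)
    have hB2 : B (2 * n) := hB _ _ h2 (by omega)
    have hA2 : A (2 * m + 1) := hA _ _ h1 (by omega)
    have e1 : (2 * m + 1 - 1 : ℤ) = 2 * m := by ring
    rw [e1] at e
    rw [← (R.specR hτ hA h1 h2).1, ← (R.specB hτ hB hA2 h2).1, ← (R.specB hτ hB h1 h2).1,
      ← (R.specR hτ hA h1 hB2).1, R.eb, R.eb, ← map_mul, ← map_mul] at e
    exact (relB_sgn (R.decR_sg _) (R.decR_sg _) (R.injB e)).2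
  relC m n h1 h2 := by
    have e := step_comm τ (2 * m + 1) (2 * n + 1)
    have hB2 : B (2 * n + 1) := hB _ _ h2 (by omega)
    have hA2 : A (2 * m + 1) := hA _ _ h1 (by omega)
    have e1 : (2 * m + 1 - 1 : ℤ) = 2 * m := by ring
    have e2 : (2 * n + 1 - 1 : ℤ) = 2 * n := by ring
    rw [e1, e2] at e
    rw [← (R.specR hτ hA h1 h2).1, ← (R.specT hτ hB hA2 h2).1, ← (R.specT hτ hB h1 h2).1,
      ← (R.specR hτ hA h1 hB2).1, R.er, R.er, R.et, R.et, ← map_mul, ← map_mul] at e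
    have h3 := R.injC e
    rw [← kappa_cc'_zpow (s := R.ltR τ m (2 * n)) (R.decR_sg _),
      ← kappa_cc'_zpow (s := R.ltR τ m (2 * n + 1)) (R.decR_sg _)] at h3
    show kappa cc' ^ _ * iota (((RR : MulAut E73)⁻¹ * (LL : MulAut E73)) _) =
      iota (((RR : MulAut E73)⁻¹ * (LL : MulAut E73)) _) * kappa cc' ^ _
    rw [M_eq, M_eq]
    exact h3
  relD m n h1 h2 := by
    have e := step_comm τ (2 * m) (2 * n + 1)
    have hB2 : B (2 * n + 1) := hB _ _ h2 (by omega)
    have hA2 : A (2 * m) := hA _ _ h1 (by omega)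
    have e2 : (2 * n + 1 - 1 : ℤ) = 2 * n := by ring
    rw [e2] at e
    rw [← (R.specL hτ hA h1 h2).1, ← (R.specT hτ hB hA2 h2).1, ← (R.specT hτ hB h1 h2).1,
      ← (R.specL hτ hA h1 hB2).1, R.el, R.el, ← map_mul, ← map_mul] at e
    have h3 := R.injD e
    show iota (((RR : MulAut E73)⁻¹ * (LL : MulAut E73)) _) * kappa _ =
      kappa _ * iota (((RR : MulAut E73)⁻¹ * (LL : MulAut E73)) _)
    rw [M_eq, M_eq]
    exact h3

end Realisation

end Pool.Agent.FlatClosing
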