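import Pool.Agent.FlatClosing.AlgC
import Pool.Agent.FlatClosing.Realise
import Pool.Agent.FlatClosing.AsmTools

/-!
# The realisation of the finite data and an element of infinite order (MP_ef842e_al, helper22)
-/

set_option autoImplicit false

namespace FlatClosing

open Pool.Agent.FlatClosing Pool.Agent.FlatClosing.E73

/-- the realisation of the finite data by the concrete group -/
noncomputable def real : Realisation DD where
  fA := fA
  fB := fB
  fC := fC
  fD := fD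
  injA := fA_injective
  injB := fB_injective
  injC := fC_injective
  injD := fD_injective
  eb e := (fB_iota e).symm
  el e := (fD_iotaD e).symm
  er m := (fC_kappaC' m).symm
  et e := (fC_iotaD e).symm
  St_b g := by
    rw [St_b]
    exact ⟨fun ⟨e, h⟩ => ⟨e, h.symm⟩, fun ⟨e, h⟩ => ⟨e, h.symm⟩⟩
  St_l g := by
    rw [St_l]
    exact ⟨fun ⟨e, h⟩ => ⟨e, h.symm⟩, fun ⟨e, h⟩ => ⟨e, h.symm⟩⟩
  St_r g := by
    rw [St_r]
    exact ⟨fun ⟨e, h⟩ => ⟨e, h.symm⟩, fun ⟨e, h⟩ => ⟨e, h.symm⟩⟩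
  St_t g := by
    rw [St_t]
    exact ⟨fun ⟨e, h⟩ => ⟨e, h.symm⟩, fun ⟨e, h⟩ => ⟨e, h.symm⟩⟩

/-- `St .lo .lo ⊓ K false .hi = St .mid .lo` -/
theorem exists_not_finOrder : ∃ g : GG, ¬ IsOfFinOrder g := by
  have hl : fA (kappa cc) ∈ DD.St .lo .mid := (real.St_l _).2 ⟨cc, rfl⟩
  have hr : rr ∈ DD.St .hi .mid := SS.ρ_mem
  have hmid : DD.St .mid .mid = ⊥ := DD.triv
  have key : ∀ x : GG, x ∈ DD.K true .mid → x ∈ DD.K false .lo → x ∈ DD.K false .hi → x = 1 := by
    intro x h1 h2 h3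
    have h4 : x ∈ DD.St .mid .mid := ⟨by rw [DD.mid_eq]; exact ⟨h2, h3⟩, h1⟩
    rw [hmid] at h4
    simpa using h4
  refine ⟨fA (kappa cc) * rr, (DD.amalg false).infinite_order hl.1 ?_ hr.1 ?_⟩
  · intro h
    have h1 := key _ hl.2 hl.1 h
    have h2 : cc = 1 := kappa_injective (fA_injective (by rw [h1, map_one, map_one]))
    exact absurd h2 (by decide)
  · intro h
    exact SS.ρ_ne (key _ hr.2 h hr.1)

end FlatClosing
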