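import Mathlib
import Pool.Agent.CNGlue.Basic
import Pool.Agent.FlatClosing.Statement

/-!
# Axes of infinite order elements (MP_ef842e_al)

`exists_axis` : an element of infinite order of a group acting geometrically on a nonempty proper
CAT(0) space has an axis.
-/

set_option autoImplicit false

namespace Pool.Agent.FlatClosing

open Set Pool.Agent.CNGlue

section Mid

variable {X : Type*} [MetricSpace X]

/-- `m` satisfies the inequality of Bruhat and Tits for the pair `x, y`. -/
def Mid (m x y : X) : Prop :=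
  ∀ p : X, dist p m ^ 2 ≤ (dist p x ^ 2 + dist p y ^ 2) / 2 - dist x y ^ 2 / 4

theorem Mid.left {m x y : X} (h : Mid m x y) : dist x m ^ 2 ≤ dist x y ^ 2 / 4 := by
  have := h x
  rw [dist_self] at this
  linarith

theorem Mid.right {m x y : X} (h : Mid m x y) : dist y m ^ 2 ≤ dist x y ^ 2 / 4 := by
  have := h y
  rw [dist_self, dist_comm y x] at this
  linarith

/-- The segment joining the midpoints of two sides is at most half as long as the third side. -/
theorem Mid.dist_le {m n x y z : X} (h : Mid m x y) (h' : Mid n y z) :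
    2 * dist m n ≤ dist x z := by
  have h1 := h' m
  have h2 := h.right
  have h3 := h z
  rw [dist_comm y m] at h2
  rw [dist_comm z m] at h3
  have h4 : dist m n ^ 2 ≤ dist x z ^ 2 / 4 := by
    rw [dist_comm z x, dist_comm z y] at h3
    linarith
  have h5 : (2 * dist m n) ^ 2 ≤ dist x z ^ 2 := by nlinarith
  exact (abs_le_of_sq_le_sq' h5 dist_nonneg).2

theorem exists_mid_of_geoCN (hX : GeoCN (univ : Set X)) (x y : X) : ∃ m, Mid m x y := by
  obtain ⟨γ, -, -, h⟩ := hX x trivial y trivial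
  refine ⟨γ (1 / 2), fun p => ?_⟩
  have := h p trivial (1 / 2) (by constructor <;> norm_num)
  linarith

end Mid

section Displacement

variable {G X : Type} [Group G] [MetricSpace X] [MulAction G X]

theorem Mid.smul (hi : ∀ (g : G) (x y : X), dist (g • x) (g • y) = dist x y) (g : G)
    {m x y : X} (h : Mid m x y) : Mid (g • m) (g • x) (g • y) := by
  intro p
  have h1 := h (g⁻¹ • p)
  rw [← hi g, ← hi g (g⁻¹ • p) x, ← hi g (g⁻¹ • p) y, ← hi g x y, smul_inv_smul] at h1
  exact h1

/-- The displacement of `g ^ 2` is at least twice the minimal displacement of `g`. -/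
theorem two_mul_le_dist_sq (hi : ∀ (g : G) (x y : X), dist (g • x) (g • y) = dist x y)
    (hm : ∀ x y : X, ∃ m, Mid m x y) (g : G) (l : ℝ) (hl : ∀ y : X, l ≤ dist y (g • y)) (y : X) :
    2 * l ≤ dist y ((g * g) • y) := by
  obtain ⟨m, h⟩ := hm y (g • y)
  have h1 := h.dist_le (h.smul hi g)
  have h2 := hl m
  rw [mul_smul]
  linarith

theorem pow_two_le_dist (hi : ∀ (g : G) (x y : X), dist (g • x) (g • y) = dist x y)
    (hm : ∀ x y : X, ∃ m, Mid m x y) (g : G) (l : ℝ) (hl : ∀ y : X, l ≤ dist y (g • y)) (k : ℕ) :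
    ∀ y : X, 2 ^ k * l ≤ dist y (g ^ (2 ^ k) • y) := by
  induction k with
  | zero => simpa using hl
  | succ k ih =>
    intro y
    have h1 := two_mul_le_dist_sq hi hm (g ^ (2 ^ k)) _ ih y
    rw [← pow_add, ← two_mul, ← pow_succ'] at h1
    rw [pow_succ]
    linarith

theorem dist_pow_le (hi : ∀ (g : G) (x y : X), dist (g • x) (g • y) = dist x y)
    (g : G) (y : X) (n : ℕ) : dist y (g ^ n • y) ≤ n * dist y (g • y) := by
  induction n with
  | zero => simp
  | succ n ih =>
    have h1 := dist_triangle y (g ^ n • y) (g ^ (n + 1) • y)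
    rw [pow_succ, mul_smul, hi] at h1
    rw [pow_succ, mul_smul]
    push_cast
    linarith

/-- If `x` minimises the displacement of `g` then `d(x, g ^ n x) = n d(x, g x)`. -/
theorem dist_pow_eq (hi : ∀ (g : G) (x y : X), dist (g • x) (g • y) = dist x y)
    (hm : ∀ x y : X, ∃ m, Mid m x y) (g : G) (x : X)
    (hx : ∀ y : X, dist x (g • x) ≤ dist y (g • y)) (n : ℕ) :
    dist x (g ^ n • x) = n * dist x (g • x) := by
  apply le_antisymm (dist_pow_le hi g x n)
  have h1 := pow_two_le_dist hi hm g _ hx n x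
  have hn : n ≤ 2 ^ n := Nat.lt_two_pow_self.le
  have h2 := dist_triangle x (g ^ n • x) (g ^ (2 ^ n) • x)
  have h3 : dist (g ^ n • x) (g ^ (2 ^ n) • x) ≤ ((2 ^ n - n : ℕ) : ℝ) * dist x (g • x) := by
    have h4 : g ^ (2 ^ n) = g ^ n * g ^ (2 ^ n - n) := by
      rw [← pow_add]
      congr 1
      omega
    rw [h4, mul_smul, hi]
    exact dist_pow_le hi g x _
  rw [Nat.cast_sub hn] at h3
  push_cast at h3
  nlinarith

/-- The displacement function of an isometry in a geometric action attains its infimum. -/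
theorem exists_min_displacement [ProperSpace X] [Nonempty X] (h : IsGeometric G X) (g : G) :
    ∃ x : X, ∀ y : X, dist x (g • x) ≤ dist y (g • y) := by
  classical
  obtain ⟨K, hK, hcov⟩ := h.cocompact
  obtain ⟨x0⟩ := ‹Nonempty X›
  have hi := h.isometric
  set D0 := dist x0 (g • x0) with hD0
  set K' := Metric.cthickening D0 K with hK'
  have hKK' : K ⊆ K' := Metric.self_subset_cthickening K
  have hcK' : IsCompact K' := hK.cthickening
  have hfin := h.proper K' hcK'
  set F : Set G := {g' : G | (((fun x => g' • x) '' K') ∩ K').Nonempty} with hF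
  set S : Set G := {g' ∈ F | ∃ k : G, g' = k * g * k⁻¹} with hS
  have hSfin : S.Finite := hfin.subset (fun _ h => h.1)
  -- the conjugates moving a point of `K` by at most `D0` are in `S`
  have key : ∀ (z : X) (k : G), k • z ∈ K → dist z (g • z) ≤ D0 → k * g * k⁻¹ ∈ S := by
    intro z k hk hz
    refine ⟨⟨(k * g * k⁻¹) • (k • z), ⟨k • z, hKK' hk, rfl⟩, ?_⟩, k, rfl⟩
    have h1 : (k * g * k⁻¹) • (k • z) = k • (g • z) := by
      rw [smul_smul, smul_smul]
      group
    rw [h1]
    apply Metric.mem_cthickening_of_dist_le (k • (g • z)) (k • z) D0 K hk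
    rw [hi, dist_comm]
    exact hz
  have hdisp : ∀ (z : X) (k : G), dist (k • z) ((k * g * k⁻¹) • (k • z)) = dist z (g • z) := by
    intro z k
    have h1 : (k * g * k⁻¹) • (k • z) = k • (g • z) := by
      rw [smul_smul, smul_smul]
      group
    rw [h1, hi]
  obtain ⟨k0, hk0⟩ := hcov x0
  have hKne : K.Nonempty := ⟨_, hk0⟩
  have hmin : ∀ g' : G, ∃ y ∈ K, ∀ z ∈ K, dist y (g' • y) ≤ dist z (g' • z) := by
    intro g'
    have hcont : Continuous (fun y : X => dist y (g' • y)) := by
      have h1 : Isometry (fun y : X => g' • y) := Isometry.of_dist_eq (hi g')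
      exact continuous_id.dist h1.continuous
    obtain ⟨y, hy, hmin⟩ := hK.exists_isMinOn hKne hcont.continuousOn
    exact ⟨y, hy, fun z hz => hmin hz⟩
  choose y hyK hymin using hmin
  obtain ⟨g', hg'S, hg'min⟩ := Set.exists_min_image S (fun g' => dist (y g') (g' • y g')) hSfin
    ⟨_, key x0 k0 hk0 le_rfl⟩
  obtain ⟨k, rfl⟩ := hg'S.2
  refine ⟨k⁻¹ • y (k * g * k⁻¹), fun z => ?_⟩
  have h1 : dist (k⁻¹ • y (k * g * k⁻¹)) (g • k⁻¹ • y (k * g * k⁻¹)) =
      dist (y (k * g * k⁻¹)) ((k * g * k⁻¹) • y (k * g * k⁻¹)) := by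
    rw [← hdisp (k⁻¹ • y (k * g * k⁻¹)) k, smul_inv_smul]
  rw [h1]
  have h2 : ∀ w : X, dist w (g • w) ≤ D0 →
      dist (y (k * g * k⁻¹)) ((k * g * k⁻¹) • y (k * g * k⁻¹)) ≤ dist w (g • w) := by
    intro w hw
    obtain ⟨k1, hk1⟩ := hcov w
    have h3 := hg'min _ (key w k1 hk1 hw)
    have h4 := hymin (k1 * g * k1⁻¹) _ hk1
    rw [hdisp w k1] at h4
    exact h3.trans h4
  rcases le_total (dist z (g • z)) D0 with hz | hz
  · exact h2 z hz
  · exact (h2 x0 le_rfl).trans hz

/-- An element of infinite order has no fixed point. -/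
theorem smul_ne_of_not_isOfFinOrder (h : IsGeometric G X) (g : G) (hg : ¬ IsOfFinOrder g)
    (x : X) : g • x ≠ x := by
  intro hx
  have hfin := h.proper {x} isCompact_singleton
  have hinj : Function.Injective fun n : ℕ => g ^ n := injective_pow_iff_not_isOfFinOrder.2 hg
  have hinf := Set.infinite_range_of_injective hinj
  apply hinf
  apply hfin.subset
  rintro _ ⟨n, rfl⟩
  have h1 : g ^ n • x = x := by
    induction n with
    | zero => simp
    | succ n ih => rw [pow_succ, mul_smul, hx, ih]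
  exact ⟨x, ⟨x, rfl, h1⟩, rfl⟩

/-- The line through the translates of a geodesic from `x` to `g x`. -/
theorem isAxis_of_dist_pow_eq (hi : ∀ (g : G) (x y : X), dist (g • x) (g • y) = dist x y)
    (g : G) (x : X) (hpos : 0 < dist x (g • x))
    (hpow : ∀ n : ℕ, dist x (g ^ n • x) = n * dist x (g • x)) (σ : ℝ → X)
    (hσ : IsGeod σ x (g • x)) :
    IsAxis g (fun t : ℝ => g ^ ⌊t / dist x (g • x)⌋ • σ (Int.fract (t / dist x (g • x)))) := by
  set l := dist x (g • x) with hl
  have hz : ∀ a b : ℤ, a ≤ b → dist (g ^ a • x) (g ^ b • x) = ((b : ℝ) - a) * l := by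
    intro a b hab
    obtain ⟨n, rfl⟩ := Int.le.dest hab
    rw [zpow_add, mul_smul, hi, zpow_natCast, hpow]
    push_cast
    ring
  have hfr : ∀ r : ℝ, Int.fract r ∈ Icc (0 : ℝ) 1 := fun r =>
    ⟨Int.fract_nonneg r, (Int.fract_lt_one r).le⟩
  have hleft : ∀ r : ℝ, dist (g ^ ⌊r⌋ • x) (g ^ ⌊r⌋ • σ (Int.fract r)) = Int.fract r * l := by
    intro r
    rw [hi]
    exact hσ.dist_left (hfr r)
  have hright : ∀ r : ℝ, dist (g ^ ⌊r⌋ • σ (Int.fract r)) (g ^ (⌊r⌋ + 1) • x) =
      (1 - Int.fract r) * l := by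
    intro r
    rw [zpow_add_one, mul_smul, hi]
    exact hσ.dist_right (hfr r)
  have main : ∀ r r' : ℝ, r ≤ r' →
      dist (g ^ ⌊r⌋ • σ (Int.fract r)) (g ^ ⌊r'⌋ • σ (Int.fract r')) = (r' - r) * l := by
    intro r r' hrr
    have hfl : ⌊r⌋ ≤ ⌊r'⌋ := Int.floor_le_floor hrr
    have e1 : (⌊r⌋ : ℝ) + Int.fract r = r := Int.floor_add_fract r
    have e2 : (⌊r'⌋ : ℝ) + Int.fract r' = r' := Int.floor_add_fract r'
    apply le_antisymm
    · rcases eq_or_lt_of_le hfl with heq | hlt
      · rw [heq, hi, hσ.2.2 _ (hfr r) _ (hfr r')]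
        have h1 : |Int.fract r - Int.fract r'| = r' - r := by
          have : Int.fract r - Int.fract r' = -(r' - r) := by
            rw [heq] at e1
            linarith
          rw [this, abs_neg, abs_of_nonneg (by linarith)]
        rw [h1]
      · have h1 := dist_triangle (g ^ ⌊r⌋ • σ (Int.fract r)) (g ^ (⌊r⌋ + 1) • x)
          (g ^ ⌊r'⌋ • σ (Int.fract r'))
        have h2 := dist_triangle (g ^ (⌊r⌋ + 1) • x) (g ^ ⌊r'⌋ • x)
          (g ^ ⌊r'⌋ • σ (Int.fract r'))
        rw [hz _ _ (by omega), hleft] at h2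
        rw [hright] at h1
        push_cast at h2
        have h3 : (1 - Int.fract r) * l + (((⌊r'⌋ : ℝ) - (⌊r⌋ + 1)) * l + Int.fract r' * l) =
            (r' - r) * l := by
          rw [← e1, ← e2]
          simp only [e1, e2]
          have e3 : Int.fract r = r - ⌊r⌋ := rfl
          have e4 : Int.fract r' = r' - ⌊r'⌋ := rfl
          rw [e3, e4]
          ring
        linarith
    · have h1 := dist_triangle (g ^ ⌊r⌋ • x) (g ^ ⌊r⌋ • σ (Int.fract r)) (g ^ (⌊r'⌋ + 1) • x)
      have h2 := dist_triangle (g ^ ⌊r⌋ • σ (Int.fract r)) (g ^ ⌊r'⌋ • σ (Int.fract r'))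
        (g ^ (⌊r'⌋ + 1) • x)
      rw [hz _ _ (by omega), hleft] at h1
      rw [hright] at h2
      push_cast at h1
      have e3 : Int.fract r * l = (r - ⌊r⌋) * l := rfl
      have e4 : (1 - Int.fract r') * l = (1 - (r' - ⌊r'⌋)) * l := rfl
      have h3 : ((⌊r'⌋ : ℝ) + 1 - ⌊r⌋) * l - (r - ⌊r⌋) * l - (1 - (r' - ⌊r'⌋)) * l =
          (r' - r) * l := by ring
      linarith
  constructor
  · apply Isometry.of_dist_eq
    have wlog : ∀ s t : ℝ, s ≤ t →
        dist (g ^ ⌊s / l⌋ • σ (Int.fract (s / l))) (g ^ ⌊t / l⌋ • σ (Int.fract (t / l))) =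
        dist s t := by
      intro s t hst
      rw [main _ _ (div_le_div_of_nonneg_right hst hpos.le), Real.dist_eq, abs_sub_comm,
        abs_of_nonneg (by linarith)]
      field_simp
    intro s t
    rcases le_total s t with hst | hst
    · exact wlog s t hst
    · rw [dist_comm, dist_comm s t]
      exact wlog t s hst
  · refine ⟨l, hpos, fun t => ?_⟩
    have h1 : (t + l) / l = t / l + 1 := by field_simp
    simp only [h1, Int.floor_add_one, Int.fract_add_one]
    rw [add_comm, zpow_add, zpow_one, mul_smul]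

/-- **Axes.** An element of infinite order of a group acting geometrically on a nonempty proper
CAT(0) space has an axis. -/
theorem exists_axis [ProperSpace X] [Nonempty X] (hX : GeoCN (univ : Set X))
    (h : IsGeometric G X) (g : G) (hg : ¬ IsOfFinOrder g) : ∃ γ : ℝ → X, IsAxis g γ := by
  obtain ⟨x, hx⟩ := exists_min_displacement h g
  have hpos : 0 < dist x (g • x) := dist_pos.2 (smul_ne_of_not_isOfFinOrder h g hg x).symm
  obtain ⟨σ, hσ, -, -⟩ := hX x trivial (g • x) trivial
  exact ⟨_, isAxis_of_dist_pow_eq h.isometric g x hpos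
    (dist_pow_eq h.isometric (exists_mid_of_geoCN hX) g x hx) σ hσ⟩

end Displacement

end Pool.Agent.FlatClosing
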