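import Pool.Agent.FlatClosing.Contractible
import Pool.Agent.FlatClosing.Statement

/-!
# From `GeoCN univ` to the properties in the statement (MP_ef842e_al)
-/

set_option autoImplicit false

namespace Pool.Agent.FlatClosing

open Pool.Agent.CNGlue

theorem isCompleteCAT0_of_geoCN {X : Type} [MetricSpace X] [CompleteSpace X]
    (h : GeoCN (Set.univ : Set X)) : IsCompleteCAT0 X := by
  refine ⟨inferInstance, fun x y => ?_⟩
  obtain ⟨γ, -, -, hs⟩ := h x trivial y trivial
  refine ⟨γ (1 / 2), fun z => ?_⟩
  have := hs z trivial (1 / 2) ⟨by norm_num, by norm_num⟩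
  refine this.trans (le_of_eq ?_)
  ring

theorem simplyConnectedSpace_of_geoCN {X : Type} [MetricSpace X] [Nonempty X]
    (h : GeoCN (Set.univ : Set X)) : SimplyConnectedSpace X :=
  (_root_.FlatClosing.isCAT0_iff_geoCN.2 h).simplyConnectedSpace

end Pool.Agent.FlatClosing
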