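import Mathlib

/-!
# Cube complexes (MP_ef842e_al)

* `Cube n`, `face F` : the unit cube of dimension `n` with its Euclidean metric, and its faces;
* `CubeComplex X` : the structure of a cube complex on the metric space `X`, following
  Bridson-Haefliger, Definition I.7.32: `X` is covered by injective images of unit cubes, two cubes
  are disjoint or meet in a common face, and the metric is the intrinsic (piecewise Euclidean)
  one;
* `CubeComplex.IsCellular` : a group acts by maps which send cubes isometrically onto cubes.
-/

set_option autoImplicit false

namespace Pool.Agent.FlatClosing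

/-- The unit cube `[0,1]^n` with its Euclidean metric. -/
abbrev Cube (n : ℕ) : Type := {x : EuclideanSpace ℝ (Fin n) // ∀ i, x i ∈ Set.Icc (0 : ℝ) 1}

/-- The faces of the unit cube: the coordinate `i` is `0` if `F i = some false`, it is `1` if
`F i = some true`, and it is free if `F i = none`. -/
def face {n : ℕ} (F : Fin n → Option Bool) : Set (Cube n) :=
  {x | ∀ i, (F i = some false → x.1 i = 0) ∧ (F i = some true → x.1 i = 1)}

/-- `IsString chart x y L`: there is a string (a finite sequence of points, each two consecutive
ones in a common cube) from `x` to `y`, of length `L`. -/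
inductive IsString {X ι : Type} {dim : ι → ℕ} (chart : ∀ c, Cube (dim c) → X) : X → X → ℝ → Prop
  | nil (x : X) : IsString chart x x 0
  | cons (c : ι) (u v : Cube (dim c)) (y : X) (L : ℝ) (h : IsString chart (chart c v) y L) :
      IsString chart (chart c u) y (dist u v + L)

/-- The structure of a cube complex on a metric space (Bridson-Haefliger, Definition I.7.32). -/
structure CubeComplex (X : Type) [MetricSpace X] where
  /-- the index set of the cubes -/
  ι : Type
  /-- the dimension of a cube -/
  dim : ι → ℕ
  /-- the characteristic map of a cube -/
  chart : ∀ c, Cube (dim c) → X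
  /-- the cubes are embedded -/
  inj : ∀ c, Function.Injective (chart c)
  /-- the cubes cover the space -/
  cover : ∀ x, ∃ c u, chart c u = x
  /-- two cubes which meet are glued along an isometry between two of their faces -/
  glue : ∀ c d, (Set.range (chart c) ∩ Set.range (chart d)).Nonempty →
    ∃ (F : Fin (dim c) → Option Bool) (F' : Fin (dim d) → Option Bool) (e : face F ≃ᵢ face F'),
      ∀ (u : Cube (dim c)) (v : Cube (dim d)),
        chart c u = chart d v ↔ ∃ hu : u ∈ face F, (e ⟨u, hu⟩ : Cube (dim d)) = v
  /-- the metric is the intrinsic one: the greatest lower bound of the lengths of strings -/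
  metric : ∀ x y, IsGLB {L | IsString chart x y L} (dist x y)

/-- A group acts cellularly: every element maps every cube isometrically onto a cube. -/
def CubeComplex.IsCellular {X : Type} [MetricSpace X] (C : CubeComplex X) (G : Type) [Group G]
    [MulAction G X] : Prop :=
  ∀ (g : G) (c : C.ι), ∃ (d : C.ι) (e : Cube (C.dim c) ≃ᵢ Cube (C.dim d)),
    ∀ u, g • C.chart c u = C.chart d (e u)

end Pool.Agent.FlatClosing
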