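import Pool.Agent.FlatClosing.Dev
import Pool.Agent.FlatClosing.CubeDefs

/-!
# The square complex of a double amalgam (MP_ef842e_al)

`DoubleAmalg.cubeComplex` : the space `D.X` of a double amalgam is a square complex on which `G`
acts cellularly.
-/

set_option autoImplicit false

namespace Pool.Agent.FlatClosing

/-! ### The square complex of a double amalgam -/

/-- The identification of the cube of dimension `2` with `Sq`. -/
noncomputable def toSq (u : Cube 2) : Sq :=
  WithLp.toLp 2 (⟨u.1 0, u.2 0⟩, ⟨u.1 1, u.2 1⟩)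

theorem toSq_fst (u : Cube 2) : ((toSq u).fst : ℝ) = u.1 0 := rfl

theorem toSq_snd (u : Cube 2) : ((toSq u).snd : ℝ) = u.1 1 := rfl

theorem dist_toSq (u v : Cube 2) : dist (toSq u) (toSq v) = dist u v := by
  have h1 : dist u v = Real.sqrt (dist (u.1 0) (v.1 0) ^ 2 + dist (u.1 1) (v.1 1) ^ 2) := by
    rw [Subtype.dist_eq, EuclideanSpace.dist_eq, Fin.sum_univ_two]
  rw [h1]
  exact l2_dist _ _

theorem toSq_injective : Function.Injective toSq := by
  intro u v h
  have h1 := dist_toSq u v
  rw [h, dist_self] at h1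
  exact eq_of_dist_eq_zero h1.symm

theorem toSq_surjective : Function.Surjective toSq := by
  intro p
  refine ⟨⟨!₂[(p.fst : ℝ), (p.snd : ℝ)], ?_⟩, ?_⟩
  · intro i
    fin_cases i
    · exact p.fst.2
    · exact p.snd.2
  · rfl

theorem pos_eq_lo {s : ℝ} (h0 : 0 ≤ s) (h : pos s = .lo) : s = 0 := by
  unfold pos at h
  split_ifs at h with h1 h2
  exact le_antisymm h1 h0

theorem pos_eq_hi {s : ℝ} (h1 : s ≤ 1) (h : pos s = .hi) : s = 1 := by
  unfold pos at h
  split_ifs at h with h2 h3
  exact le_antisymm h1 h3

namespace DoubleAmalg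

variable {G : Type} [Group G] (D : DoubleAmalg G)

open Classical in
/-- The part of the unit interval on which the element `k` acts trivially. -/
noncomputable def faceCoord (a : Bool) (k : G) : Option Bool :=
  if k ∈ D.K a .mid then none else if k ∈ D.K a .lo then some false else some true

theorem faceCoord_iff (a : Bool) {k : G} (hk : k ∈ D.K a .lo ∨ k ∈ D.K a .hi) {s : ℝ}
    (hs : s ∈ Set.Icc (0 : ℝ) 1) :
    ((D.faceCoord a k = some false → s = 0) ∧ (D.faceCoord a k = some true → s = 1)) ↔
      k ∈ D.K a (pos s) := by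
  unfold faceCoord
  by_cases hm : k ∈ D.K a .mid
  · simp only [if_pos hm]
    have : k ∈ D.K a (pos s) := D.K_mid_le a _ hm
    simp [this]
  · rw [if_neg hm]
    by_cases hl : k ∈ D.K a .lo
    · rw [if_pos hl]
      have hh : k ∉ D.K a .hi := by
        intro hh
        apply hm
        rw [D.mid_eq a]
        exact ⟨hl, hh⟩
      constructor
      · rintro ⟨h1, -⟩
        have : s = 0 := h1 rfl
        subst this
        have e : pos 0 = .lo := by simp [pos]
        rw [e]; exact hl
      · intro h
        refine ⟨fun _ => ?_, fun h' => by simp at h'⟩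
        cases hp : pos s with
        | lo => exact pos_eq_lo hs.1 hp
        | mid => rw [hp] at h; exact absurd h hm
        | hi => rw [hp] at h; exact absurd h hh
    · rw [if_neg hl]
      have hh : k ∈ D.K a .hi := hk.resolve_left hl
      constructor
      · rintro ⟨-, h1⟩
        have : s = 1 := h1 rfl
        subst this
        have e : pos 1 = .hi := by
          have h : ¬ ((1 : ℝ) ≤ 0) := by norm_num
          simp [pos, h]
        rw [e]; exact hh
      · intro h
        refine ⟨fun h' => by simp at h', fun _ => ?_⟩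
        cases hp : pos s with
        | lo => rw [hp] at h; exact absurd h hl
        | mid => rw [hp] at h; exact absurd h hm
        | hi => exact pos_eq_hi hs.2 hp

theorem lo_or_hi (a : Bool) {k : G} {i : Pos} (hk : k ∈ D.K a i) :
    k ∈ D.K a .lo ∨ k ∈ D.K a .hi := by
  cases i with
  | lo => exact Or.inl hk
  | mid =>
    rw [D.mid_eq a] at hk
    exact Or.inl hk.1
  | hi => exact Or.inr hk

/-- The characteristic map of the square `g`. -/
noncomputable def chart (g : G) (u : Cube 2) : D.X := D.sqSys.pt g (toSq u)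

theorem mem_St_iff {k : G} (p : Sq) :
    k ∈ D.sqSys.St p ↔ k ∈ D.K false (pos p.fst) ∧ k ∈ D.K true (pos p.snd) := Iff.rfl

theorem chart_eq_chart {g h : G} {u v : Cube 2} :
    D.chart g u = D.chart h v ↔
      u = v ∧ g⁻¹ * h ∈ D.K false (pos (u.1 0)) ∧ g⁻¹ * h ∈ D.K true (pos (u.1 1)) := by
  unfold chart
  rw [StabSys.pt_eq_pt, mem_St_iff, toSq_injective.eq_iff, toSq_fst, toSq_snd]

theorem isString_iff {x y : D.X} {L : ℝ} :
    IsString (ι := G) (dim := fun _ => 2) D.chart x y L ↔ D.sqSys.Chain x y L := by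
  constructor
  · intro h
    induction h with
    | nil x => exact StabSys.Chain.nil x
    | cons c u v y L _ ih =>
      rw [← dist_toSq]
      exact StabSys.Chain.cons c _ _ _ _ ih
  · intro h
    induction h with
    | nil x => exact IsString.nil x
    | cons g p q y L _ ih =>
      obtain ⟨u, rfl⟩ := toSq_surjective p
      obtain ⟨v, rfl⟩ := toSq_surjective q
      rw [dist_toSq]
      exact IsString.cons (dim := fun _ : G => 2) (chart := D.chart) g u v _ _ ih

/-- **The square complex of a double amalgam.** -/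
noncomputable def cubeComplex : CubeComplex D.X where
  ι := G
  dim _ := 2
  chart := D.chart
  inj g u v h := (D.chart_eq_chart.1 h).1
  cover x := by
    obtain ⟨g, p, rfl⟩ := D.sqSys.exists_rep x
    obtain ⟨u, rfl⟩ := toSq_surjective p
    exact ⟨g, u, rfl⟩
  glue g h hne := by
    obtain ⟨x, ⟨u₀, hu₀⟩, ⟨v₀, hv₀⟩⟩ := hne
    have h0 := D.chart_eq_chart.1 (hu₀.trans hv₀.symm)
    have ha := D.lo_or_hi false h0.2.1
    have hb := D.lo_or_hi true h0.2.2
    refine ⟨![D.faceCoord false (g⁻¹ * h), D.faceCoord true (g⁻¹ * h)],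
      ![D.faceCoord false (g⁻¹ * h), D.faceCoord true (g⁻¹ * h)], IsometryEquiv.refl _, ?_⟩
    intro u v
    have hmem : u ∈ face ![D.faceCoord false (g⁻¹ * h), D.faceCoord true (g⁻¹ * h)] ↔
        g⁻¹ * h ∈ D.K false (pos (u.1 0)) ∧ g⁻¹ * h ∈ D.K true (pos (u.1 1)) := by
      rw [← D.faceCoord_iff false ha (u.2 0), ← D.faceCoord_iff true hb (u.2 1)]
      unfold face
      rw [Set.mem_ofPred_eq, Fin.forall_fin_two]
      rfl
    rw [chart_eq_chart]
    constructor
    · rintro ⟨rfl, h1⟩
      exact ⟨hmem.2 h1, rfl⟩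
    · rintro ⟨hu, huv⟩
      exact ⟨huv, hmem.1 hu⟩
  metric x y := by
    constructor
    · intro L hL
      exact D.sqSys.dist_le_of_chain (D.isString_iff.1 hL)
    · intro r hr
      exact D.sqSys.le_dist_of_chain fun L hL => hr (D.isString_iff.2 hL)

@[simp] theorem cubeComplex_dim (c : D.cubeComplex.ι) : D.cubeComplex.dim c = 2 := rfl

theorem cubeComplex_isCellular : D.cubeComplex.IsCellular G := by
  intro g c
  refine ⟨g * (show G from c), IsometryEquiv.refl _, fun u => ?_⟩
  exact D.sqSys.smul_pt g c _

end DoubleAmalg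

end Pool.Agent.FlatClosing
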