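import Pool.Agent.FlatClosing.Dev
import Pool.Agent.FlatClosing.Statement

/-!
# Properness of the basic construction (MP_ef842e_al)

For a stabiliser system on a compact metric space with finite stabilisers:
the basic construction is a proper metric space, the action of `G` is geometric, `G` is finitely
generated and the cells form a locally finite family.
-/

set_option autoImplicit false

open scoped Pointwise

namespace Pool.Agent.FlatClosing

namespace StabSys

variable {G : Type} [Group G] {Q : Type} [MetricSpace Q] (S : StabSys G Q)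

theorem finite_pow {A : Set G} (hA : A.Finite) (n : ℕ) : (A ^ n).Finite := by
  induction n with
  | zero => rw [pow_zero]; exact Set.finite_one
  | succ n ih => rw [pow_succ]; exact ih.mul hA

/-- The cell `g`. -/
def cell (g : G) : Set S.U := Set.range (S.pt g)

theorem pt_mem_cell (g : G) (p : Q) : S.pt g p ∈ S.cell g := ⟨p, rfl⟩

theorem mem_cell_iff (g : G) (x : S.U) : x ∈ S.cell g ↔ x = S.pt g (S.fold x) := by
  constructor
  · rintro ⟨p, rfl⟩; simp
  · intro h; rw [h]; exact ⟨_, rfl⟩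

theorem smul_cell (g h : G) : (fun x => g • x) '' S.cell h = S.cell (g * h) := by
  ext x
  constructor
  · rintro ⟨_, ⟨p, rfl⟩, rfl⟩
    exact ⟨p, (S.smul_pt g h p).symm⟩
  · rintro ⟨p, rfl⟩
    exact ⟨S.pt h p, ⟨p, rfl⟩, S.smul_pt g h p⟩

theorem isCompact_cell [CompactSpace Q] (g : G) : IsCompact (S.cell g) :=
  isCompact_range (S.isometry_pt g).continuous

/-- A good finite system of centres: uniform star radius. -/
structure Centres where
  C : Set Q
  hC : C.Finite
  δ : Q → ℝ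
  ε : ℝ
  hε : 0 < ε
  usc : ∀ c ∈ C, ∀ q, dist c q < δ c → S.St q ≤ S.St c
  half : ∀ c ∈ C, ε ≤ δ c / 2
  cov : ∀ q, ∃ c ∈ C, dist c q < δ c / 2

theorem exists_centres [CompactSpace Q] : Nonempty S.Centres := by
  choose δ hδ h using S.usc
  have hcov : (Set.univ : Set Q) ⊆ ⋃ c : Q, Metric.ball c (δ c / 2) := by
    intro q _
    exact Set.mem_iUnion.mpr ⟨q, Metric.mem_ball_self (by linarith [hδ q])⟩
  obtain ⟨t, ht⟩ := isCompact_univ.elim_finite_subcover (fun c : Q => Metric.ball c (δ c / 2))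
    (fun _ => Metric.isOpen_ball) hcov
  have hpos : ∃ ε : ℝ, 0 < ε ∧ ∀ c ∈ t, ε ≤ δ c / 2 := by
    rcases t.eq_empty_or_nonempty with h0 | h0
    · exact ⟨1, one_pos, by simp [h0]⟩
    · refine ⟨t.inf' h0 (fun c => δ c / 2), ?_, fun c hc => Finset.inf'_le _ hc⟩
      rw [Finset.lt_inf'_iff]
      intro c _
      linarith [hδ c]
  obtain ⟨ε, hε, hε'⟩ := hpos
  refine ⟨⟨t, t.finite_toSet, δ, ε, hε, fun c _ q hq => h c q hq, fun c hc => hε' c hc, ?_⟩⟩
  intro q
  have := ht (Set.mem_univ q)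
  simp only [Set.mem_iUnion, Metric.mem_ball, exists_prop] at this
  obtain ⟨c, hc, hq⟩ := this
  exact ⟨c, hc, by rwa [dist_comm]⟩

variable {S}

/-- The union of the stabilisers of the centres. -/
def Centres.F (Z : S.Centres) : Set G := ⋃ c ∈ Z.C, (S.St c : Set G) ∪ {1}

theorem Centres.one_mem [Nonempty Q] (Z : S.Centres) : (1 : G) ∈ Z.F := by
  obtain ⟨q⟩ := ‹Nonempty Q›
  obtain ⟨c, hc, _⟩ := Z.cov q
  unfold Centres.F
  simp only [Set.mem_iUnion]
  exact ⟨c, hc, Or.inr rfl⟩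

theorem Centres.mem_F (Z : S.Centres) {c : Q} (hc : c ∈ Z.C) {g : G} (hg : g ∈ S.St c) :
    g ∈ Z.F := by
  unfold Centres.F
  simp only [Set.mem_iUnion]
  exact ⟨c, hc, Or.inl hg⟩

theorem Centres.St_sub (Z : S.Centres) (q : Q) : (S.St q : Set G) ⊆ Z.F := by
  intro g hg
  obtain ⟨c, hc, hq⟩ := Z.cov q
  refine Z.mem_F hc (Z.usc c hc q ?_ hg)
  have := Z.half c hc
  have := Z.hε
  linarith

theorem Centres.finite_F (Z : S.Centres) (hfin : ∀ p, Finite (S.St p)) : Z.F.Finite := by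
  unfold Centres.F
  apply Set.Finite.biUnion Z.hC
  intro c _
  apply Set.Finite.union _ (Set.finite_singleton 1)
  have := hfin c
  exact Set.toFinite _

theorem Centres.pow_mono [Nonempty Q] (Z : S.Centres) {m n : ℕ} (h : m ≤ n) : Z.F ^ m ⊆ Z.F ^ n :=
  Set.pow_subset_pow_right Z.one_mem h

/-- The main lemma: a chain of length `L` only reaches boundedly many cells. -/
theorem Centres.chain [Nonempty Q] (Z : S.Centres) {x y : S.U} {L : ℝ} (h : S.Chain x y L) :
    ∀ (g k : G) (r c : Q) (t : ℝ), c ∈ Z.C → k ∈ S.St c → x = S.pt (g * k) r → 0 ≤ t →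
      dist c r ≤ Z.δ c / 2 + t → dist c r < Z.δ c →
      ∃ w ∈ Z.F ^ (⌊(L + t) / Z.ε⌋₊ + 1), y = S.pt (g * w) (S.fold y) := by
  induction h with
  | nil x =>
    intro g k r c t hc hk hx ht h1 h2
    refine ⟨k, ?_, by rw [hx, fold_pt]⟩
    have : k ∈ Z.F ^ 1 := by rw [pow_one]; exact Z.mem_F hc hk
    exact Z.pow_mono (by omega) this
  | cons g0 a b y L hch ih =>
    intro g k r c t hc hk hx ht h1 h2
    rw [pt_eq_pt] at hx
    obtain ⟨rfl, hx⟩ := hx
    have hL0 := hch.nonneg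
    have hε := Z.hε
    have hle : S.St a ≤ S.St c := Z.usc c hc a h2
    have hk1 : g⁻¹ * g0 ∈ S.St c := by
      have h3 := (S.St c).mul_mem hk ((S.St c).inv_mem (hle hx))
      have h4 : k * (g0⁻¹ * (g * k))⁻¹ = g⁻¹ * g0 := by group
      rwa [h4] at h3
    by_cases hlt : Z.δ c / 2 + t + dist a b < Z.δ c
    · have hd : dist c b ≤ dist c a + dist a b := dist_triangle _ _ _
      obtain ⟨w, hw, e⟩ := ih g (g⁻¹ * g0) b c (t + dist a b) hc hk1
        (by rw [mul_inv_cancel_left]) (by positivity) (by linarith) (by linarith)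
      refine ⟨w, ?_, e⟩
      rwa [show dist a b + L + t = L + (t + dist a b) by ring]
    · push Not at hlt
      obtain ⟨c', hc', hb⟩ := Z.cov b
      obtain ⟨w, hw, e⟩ := ih g0 1 b c' 0 hc' (S.St c').one_mem (by rw [mul_one]) le_rfl
        (by linarith) (by have := Z.half c' hc'; linarith)
      refine ⟨g⁻¹ * g0 * w, ?_, by rw [mul_assoc, mul_inv_cancel_left]; exact e⟩
      have h5 : g⁻¹ * g0 * w ∈ Z.F * Z.F ^ (⌊(L + 0) / Z.ε⌋₊ + 1) :=
        Set.mul_mem_mul (Z.mem_F hc hk1) hw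
      rw [← pow_succ'] at h5
      apply Z.pow_mono _ h5
      have h6 := Z.half c hc
      have h7 : L / Z.ε + 1 ≤ (dist a b + L + t) / Z.ε := by
        rw [div_add_one hε.ne']
        exact div_le_div_of_nonneg_right (by linarith) hε.le
      have h8 : ⌊L / Z.ε⌋₊ + 1 ≤ ⌊(dist a b + L + t) / Z.ε⌋₊ := by
        rw [← Nat.floor_add_one (by positivity)]
        exact Nat.floor_le_floor h7
      rw [add_zero]
      omega

theorem Centres.ball_subset [Nonempty Q] (Z : S.Centres) (g : G) (p : Q) (R : ℝ) :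
    Metric.ball (S.pt g p) R ⊆ ⋃ w ∈ Z.F ^ (⌊R / Z.ε⌋₊ + 1), S.cell (g * w) := by
  intro y hy
  rw [Metric.mem_ball, dist_comm] at hy
  obtain ⟨L, hL, hlt⟩ := S.exists_chain_lt hy
  obtain ⟨c, hc, hp⟩ := Z.cov p
  have hε := Z.hε
  obtain ⟨w, hw, e⟩ := Z.chain hL g 1 p c 0 hc (S.St c).one_mem (by rw [mul_one]) le_rfl
    (by linarith) (by have := Z.half c hc; linarith)
  rw [add_zero] at hw
  simp only [Set.mem_iUnion, exists_prop]
  refine ⟨w, Z.pow_mono ?_ hw, (S.mem_cell_iff _ _).mpr e⟩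
  have : ⌊L / Z.ε⌋₊ ≤ ⌊R / Z.ε⌋₊ :=
    Nat.floor_le_floor (div_le_div_of_nonneg_right hlt.le hε.le)
  omega

variable (S)

/-- Bounded sets are covered by finitely many cells. -/
theorem exists_finite_cells [CompactSpace Q] (hfin : ∀ p, Finite (S.St p)) (g : G) (p : Q)
    (R : ℝ) : ∃ W : Set G, W.Finite ∧ Metric.ball (S.pt g p) R ⊆ ⋃ w ∈ W, S.cell w := by
  have : Nonempty Q := ⟨p⟩
  obtain ⟨Z⟩ := S.exists_centres
  have hF := Z.finite_F hfin
  refine ⟨(fun w => g * w) '' (Z.F ^ (⌊R / Z.ε⌋₊ + 1)), (finite_pow hF _).image _, ?_⟩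
  refine (Z.ball_subset g p R).trans ?_
  intro y hy
  simp only [Set.mem_iUnion, exists_prop] at hy ⊢
  obtain ⟨w, hw, e⟩ := hy
  exact ⟨g * w, ⟨w, hw, rfl⟩, e⟩

/-- The basic construction with finite stabilisers on a compact space is proper. -/
theorem properSpace [CompactSpace Q] (hfin : ∀ p, Finite (S.St p)) : ProperSpace S.U := by
  constructor
  intro x r
  obtain ⟨g, p, rfl⟩ := S.exists_rep x
  obtain ⟨W, hW, h⟩ := S.exists_finite_cells hfin g p (r + 1)
  have hc : IsCompact (⋃ w ∈ W, S.cell w) := hW.isCompact_biUnion fun w _ => S.isCompact_cell w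
  refine hc.of_isClosed_subset Metric.isClosed_closedBall ?_
  exact (Metric.closedBall_subset_ball (by linarith)).trans h

/-- A bounded set meets only finitely many of its translates. -/
theorem finite_smul_inter [CompactSpace Q] (hfin : ∀ p, Finite (S.St p)) (K : Set S.U)
    (hK : Bornology.IsBounded K) : {g : G | (((fun x => g • x) '' K) ∩ K).Nonempty}.Finite := by
  rcases K.eq_empty_or_nonempty with rfl | ⟨x, hx⟩
  · simp
  obtain ⟨g, p, rfl⟩ := S.exists_rep x
  have : Nonempty Q := ⟨p⟩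
  obtain ⟨Z⟩ := S.exists_centres
  have hF := Z.finite_F hfin
  obtain ⟨R, hR⟩ := hK.subset_ball (S.pt g p)
  obtain ⟨W, hW, h⟩ := S.exists_finite_cells hfin g p R
  have hfin2 : (W * Z.F⁻¹ * W⁻¹).Finite := (hW.mul hF.inv).mul hW.inv
  refine hfin2.subset ?_
  rintro k ⟨y, ⟨z, hz, rfl⟩, hy⟩
  have h1 := h (hR hz)
  have h2 := h (hR hy)
  simp only [Set.mem_iUnion, exists_prop] at h1 h2
  obtain ⟨w1, hw1, ⟨q1, rfl⟩⟩ := h1
  obtain ⟨w2, hw2, ⟨q2, e2⟩⟩ := h2
  change S.pt w2 q2 = k • S.pt w1 q1 at e2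
  rw [smul_pt, eq_comm, pt_eq_pt] at e2
  obtain ⟨rfl, e3⟩ := e2
  have h4 : k = w2 * ((k * w1)⁻¹ * w2)⁻¹ * w1⁻¹ := by group
  rw [h4]
  exact Set.mul_mem_mul (Set.mul_mem_mul hw2 (Set.inv_mem_inv.mpr (Z.St_sub _ e3)))
    (Set.inv_mem_inv.mpr hw1)

/-- The action on the basic construction is geometric. -/
theorem isGeometric [CompactSpace Q] (hfin : ∀ p, Finite (S.St p)) : IsGeometric G S.U where
  isometric g x y := dist_smul g x y
  proper K hK := S.finite_smul_inter hfin K hK.isBounded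
  cocompact := by
    refine ⟨S.cell 1, S.isCompact_cell 1, fun x => ?_⟩
    obtain ⟨g, p, rfl⟩ := S.exists_rep x
    refine ⟨g⁻¹, p, ?_⟩
    rw [smul_pt, inv_mul_cancel]

theorem group_fg [CompactSpace Q] (hfin : ∀ p, Finite (S.St p)) : Group.FG G := by
  obtain ⟨Z⟩ := S.exists_centres
  have hF := Z.finite_F hfin
  refine ⟨⟨hF.toFinset, ?_⟩⟩
  rw [eq_top_iff, ← S.gen]
  apply iSup_le
  intro p g hg
  apply Subgroup.subset_closure
  rw [Set.Finite.coe_toFinset]
  exact Z.St_sub p hg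

/-- Uniform star radius. -/
theorem exists_uniform [CompactSpace Q] : ∃ ε > 0, ∀ (g : G) (q : Q), ∃ c : Q,
    S.St q ≤ S.St c ∧ dist c q < ε + dist c q ∧
    ∀ y : S.U, dist (S.pt g q) y < ε → ∃ k ∈ S.St c, y = S.pt (g * k) (S.fold y) := by
  obtain ⟨Z⟩ := S.exists_centres
  refine ⟨Z.ε, Z.hε, fun g q => ?_⟩
  obtain ⟨c, hc, hq⟩ := Z.cov q
  have h1 := Z.half c hc
  have h2 := Z.hε
  refine ⟨c, Z.usc c hc q (by linarith), by linarith, fun y hy => ?_⟩
  have h3 : dist (S.pt g c) y < Z.δ c := by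
    have := dist_triangle (S.pt g c) (S.pt g q) y
    rw [dist_pt] at this
    linarith
  obtain ⟨k, hk, e, _⟩ := S.star (Z.usc c hc) g y h3
  exact ⟨k, hk, e⟩

/-- The cells form a locally finite family. -/
theorem locallyFinite_cell [CompactSpace Q] (hfin : ∀ p, Finite (S.St p)) :
    LocallyFinite fun g : G => S.cell g := by
  intro x
  obtain ⟨g, p, rfl⟩ := S.exists_rep x
  have : Nonempty Q := ⟨p⟩
  obtain ⟨Z⟩ := S.exists_centres
  have hF := Z.finite_F hfin
  obtain ⟨W, hW, h⟩ := S.exists_finite_cells hfin g p 1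
  refine ⟨Metric.ball (S.pt g p) 1, Metric.ball_mem_nhds _ one_pos, (hW.mul hF).subset ?_⟩
  rintro k ⟨y, ⟨q, rfl⟩, hy⟩
  have h1 := h hy
  simp only [Set.mem_iUnion, exists_prop] at h1
  obtain ⟨w, hw, ⟨q', e⟩⟩ := h1
  change S.pt w q' = S.pt k q at e
  rw [pt_eq_pt] at e
  obtain ⟨rfl, e⟩ := e
  have h4 : k = w * (w⁻¹ * k) := by group
  rw [h4]
  exact Set.mul_mem_mul hw (Z.St_sub _ e)

/-- If `St p = ⊥` then near `pt g p` there is only the cell `g`. -/
theorem exists_ball_subset_cell {p : Q} (hp : S.St p = ⊥) : ∃ δ > 0, ∀ (g : G) (y : S.U),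
    dist (S.pt g p) y < δ → y = S.pt g (S.fold y) ∧ dist (S.pt g p) y = dist p (S.fold y) := by
  obtain ⟨δ, hδ, h⟩ := S.usc p
  refine ⟨δ, hδ, fun g y hy => ?_⟩
  obtain ⟨k, hk, e, e2⟩ := S.star h g y hy
  rw [hp, Subgroup.mem_bot] at hk
  subst hk
  rw [mul_one] at e
  exact ⟨e, e2⟩

/-- The image of an open set of points with trivial stabiliser is open. -/
theorem isOpen_image_pt (g : G) (O : Set Q) (hO : IsOpen O) (hSt : ∀ p ∈ O, S.St p = ⊥) :
    IsOpen (S.pt g '' O) := by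
  rw [Metric.isOpen_iff]
  rintro _ ⟨p, hp, rfl⟩
  obtain ⟨δ, hδ, h⟩ := S.exists_ball_subset_cell (hSt p hp)
  obtain ⟨ε, hε, h'⟩ := Metric.isOpen_iff.mp hO p hp
  refine ⟨min δ ε, lt_min hδ hε, fun y hy => ?_⟩
  rw [Metric.mem_ball, dist_comm] at hy
  obtain ⟨e1, e2⟩ := h g y (lt_of_lt_of_le hy (min_le_left _ _))
  refine ⟨S.fold y, h' ?_, e1.symm⟩
  rw [Metric.mem_ball, dist_comm, ← e2]
  exact lt_of_lt_of_le hy (min_le_right _ _)

end StabSys

namespace DoubleAmalg

variable {G : Type} [Group G] (D : DoubleAmalg G)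

instance : CompactSpace Sq :=
  (WithLp.homeomorphProd 2 unitInterval unitInterval).symm.compactSpace

theorem sqSys_finite (p : Sq) : Finite (D.sqSys.St p) := D.fin _ _

instance : ProperSpace D.X := D.sqSys.properSpace D.sqSys_finite

theorem isGeometric_X : IsGeometric G D.X := D.sqSys.isGeometric D.sqSys_finite

include D in
theorem fg : Group.FG G := D.sqSys.group_fg D.sqSys_finite

theorem locallyFinite_X : LocallyFinite fun g : G => D.sqSys.cell g :=
  D.sqSys.locallyFinite_cell D.sqSys_finite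

end DoubleAmalg

end Pool.Agent.FlatClosing
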