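import Pool.Agent.FlatClosing.AsmTools
import Pool.Agent.FlatClosing.Axis
import Pool.Agent.FlatClosing.CubeComplex
import Pool.Agent.FlatClosing.CatAux
import Pool.Agent.FlatClosing.Proper

/-!
# Assembly (MP_ef842e_al, helper60)
-/

set_option autoImplicit false

namespace Pool.Agent.FlatClosing

open Set Pool.Agent.CNGlue

namespace DoubleAmalg

variable {G : Type} [Group G] (D : DoubleAmalg G)

instance nonempty_X : Nonempty D.X :=
  ⟨D.sqSys.pt 1 (WithLp.toLp 2 (0, 0))⟩

/-- The final assembly, relative to the four main facts on `D`. -/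
theorem negativeAnswer (hCN : GeoCN (univ : Set D.X)) (hhyp : ¬ IsHyperbolicGroup G)
    (hinf : ∃ g : G, ¬ IsOfFinOrder g)
    (hflat : ∀ (g : G) (γ : ℝ → D.X), IsAxis g γ → ¬ BoundsHalfPlane γ) :
    NegativeAnswer := by
  have : ProperSpace D.X := D.sqSys.properSpace D.sqSys_finite
  refine ⟨G, inferInstance, D.X, inferInstance, inferInstance, D.cubeComplex, inferInstance,
    isCompleteCAT0_of_geoCN hCN, simplyConnectedSpace_of_geoCN hCN, ?_, D.isGeometric_X,
    D.cubeComplex_isCellular, D.fg, hhyp, hinf, ?_, hflat⟩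
  · intro c
    rw [D.cubeComplex_dim]
  · intro g hg
    obtain ⟨γ, hγ⟩ := exists_axis hCN D.isGeometric_X g hg
    exact ⟨γ, hγ, hflat g γ hγ⟩

end DoubleAmalg

end Pool.Agent.FlatClosing
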