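import Mathlib
import Pool.Agent.CNGlue.Basic

/-!
# CAT(0) spaces (MP_ef842e_al): definitions

* `IsCAT0 X` : the definition used in the statements.
* `Cat0On S` : the subset `S` of the ambient metric space is geodesic and satisfies the CAT(0)
  (Bruhat-Tits / Stewart) inequality; `isCAT0_iff : IsCAT0 X ↔ Cat0On univ`.
* `isCAT0_iff_geoCN : IsCAT0 X ↔ Pool.Agent.CNGlue.GeoCN univ` : the link with the gluing library.
-/

namespace FlatClosing

open Set

variable {X : Type*} [MetricSpace X]

/-- The CAT(0) inequality for the point `p` and the points `x, z, y` (used when `z` lies between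
`x` and `y`), cleared of denominators (Stewart's formula). -/
def CN (p x z y : X) : Prop :=
  (dist x z + dist z y) * dist p z ^ 2 ≤
    dist z y * dist p x ^ 2 + dist x z * dist p y ^ 2 -
      dist x z * dist z y * (dist x z + dist z y)

theorem CN.symm {p x z y : X} (h : CN p x z y) : CN p y z x := by
  unfold CN at *
  rw [dist_comm y z, dist_comm z x]
  nlinarith [h]

/-- The subset `S` is geodesic and satisfies the CAT(0) inequality. -/
structure Cat0On (S : Set X) : Prop where
  geod : ∀ x ∈ S, ∀ y ∈ S, ∀ s, 0 ≤ s → s ≤ dist x y →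
    ∃ z ∈ S, dist x z = s ∧ dist z y = dist x y - s
  cn : ∀ p ∈ S, ∀ x ∈ S, ∀ z ∈ S, ∀ y ∈ S, dist x z + dist z y = dist x y → CN p x z y

/-- The algebra behind `cn_junction`. -/
theorem junction_algebra {s₁ s₂ a e u v P Q : ℝ} (hs₁0 : 0 ≤ s₁) (hs₂0 : 0 ≤ s₂) (ha0 : 0 ≤ a)
    (he : 0 < e) (huv : s₁ + s₂ ≤ u + v)
    (hx' : a * u ^ 2 ≤ (a - e) * s₁ ^ 2 + e * P - e * (a - e) * a)
    (hy' : a * v ^ 2 ≤ (a - e) * s₂ ^ 2 + e * Q - e * (a - e) * a) :
    (s₁ + s₂) * a ^ 2 - (s₂ * P + s₁ * Q - s₁ * s₂ * (s₁ + s₂)) ≤ e * (a * (s₁ + s₂)) := by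
  have hkey : s₁ * s₂ * (s₁ + s₂) ≤ s₂ * u ^ 2 + s₁ * v ^ 2 := by
    rcases eq_or_lt_of_le (add_nonneg hs₁0 hs₂0) with h0 | h0
    · have h1 : s₁ = 0 := by linarith
      have h2 : s₂ = 0 := by linarith
      rw [h1, h2]; simp
    · have h1 : s₁ * s₂ * (u + v) ^ 2 ≤ (s₁ + s₂) * (s₂ * u ^ 2 + s₁ * v ^ 2) := by
        have h1' : (s₁ + s₂) * (s₂ * u ^ 2 + s₁ * v ^ 2) - s₁ * s₂ * (u + v) ^ 2 =
          (s₂ * u - s₁ * v) ^ 2 := by ring
        have := sq_nonneg (s₂ * u - s₁ * v)
        linarith
      have h2 : (s₁ + s₂) ^ 2 ≤ (u + v) ^ 2 := pow_le_pow_left₀ h0.le huv 2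
      have h3 : s₁ * s₂ * (s₁ + s₂) ^ 2 ≤ s₁ * s₂ * (u + v) ^ 2 :=
        mul_le_mul_of_nonneg_left h2 (by positivity)
      have h4 : (s₁ + s₂) * (s₁ * s₂ * (s₁ + s₂)) ≤ (s₁ + s₂) * (s₂ * u ^ 2 + s₁ * v ^ 2) := by
        have h5 : (s₁ + s₂) * (s₁ * s₂ * (s₁ + s₂)) = s₁ * s₂ * (s₁ + s₂) ^ 2 := by ring
        rw [h5]; linarith
      exact le_of_mul_le_mul_left h4 h0
  have h6 := mul_le_mul_of_nonneg_left hkey ha0
  have h7 := mul_le_mul_of_nonneg_left hx' hs₂0
  have h8 := mul_le_mul_of_nonneg_left hy' hs₁0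
  have h9 : e * ((s₁ + s₂) * a ^ 2 - (s₂ * P + s₁ * Q - s₁ * s₂ * (s₁ + s₂))) ≤
      e * (e * (a * (s₁ + s₂))) := by
    have e1 : e * ((s₁ + s₂) * a ^ 2 - (s₂ * P + s₁ * Q - s₁ * s₂ * (s₁ + s₂))) -
      e * (e * (a * (s₁ + s₂))) =
      a * (s₁ * s₂ * (s₁ + s₂)) -
      (s₂ * ((a - e) * s₁ ^ 2 + e * P - e * (a - e) * a) +
      s₁ * ((a - e) * s₂ ^ 2 + e * Q - e * (a - e) * a)) := by ring
    have e2 : s₂ * (a * u ^ 2) + s₁ * (a * v ^ 2) = a * (s₂ * u ^ 2 + s₁ * v ^ 2) := by ring
    linarith
  exact le_of_mul_le_mul_left h9 he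

/-- Junction lemma: the inequality for `p` at `r` between `x` and `y` follows from the
inequalities for `x` and for `y` on the segment from `r` to `p`, near `r`. -/
theorem cn_junction {p x r y : X} (hr : dist x r + dist r y = dist x y)
    (h : ∀ ε > 0, ∃ q : X, 0 < dist r q ∧ dist r q < ε ∧ dist r q + dist q p = dist r p ∧
      CN x r q p ∧ CN y r q p) : CN p x r y := by
  unfold CN
  by_contra hcon
  push Not at hcon
  have hK0 : 0 ≤ dist r p * (dist x r + dist r y) := by positivity
  have hδ0 : 0 < (dist x r + dist r y) * dist r p ^ 2 - (dist r y * dist p x ^ 2 +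
    dist x r * dist p y ^ 2 - dist x r * dist r y * (dist x r + dist r y)) := by
    rw [dist_comm p r] at hcon; linarith
  set K := dist r p * (dist x r + dist r y) with hK
  set δ := (dist x r + dist r y) * dist r p ^ 2 - (dist r y * dist p x ^ 2 +
    dist x r * dist p y ^ 2 - dist x r * dist r y * (dist x r + dist r y)) with hδ
  obtain ⟨q, hq0, hqε, hq, hx, hy⟩ := h (δ / (K + 1)) (by positivity)
  have hqp : dist q p = dist r p - dist r q := by linarith
  unfold CN at hx hy
  rw [hqp] at hx hy
  have huv : dist x r + dist r y ≤ dist x q + dist y q := by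
    rw [hr, dist_comm y q]; exact dist_triangle x q y
  have h10 : δ ≤ dist r q * K := by
    apply junction_algebra dist_nonneg dist_nonneg dist_nonneg hq0 huv
    · rw [dist_comm x p] at hx
      have e1 : dist r q + (dist r p - dist r q) = dist r p := by ring
      rw [e1] at hx
      linarith
    · rw [dist_comm y p, dist_comm y r] at hy
      have e1 : dist r q + (dist r p - dist r q) = dist r p := by ring
      rw [e1] at hy
      linarith
  have h11 : dist r q * (K + 1) < δ := by
    rwa [lt_div_iff₀ (by positivity)] at hqε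
  linarith

theorem Cat0On.param {S : Set X} (h : Cat0On S) {p x y z : X} (hp : p ∈ S) (hx : x ∈ S)
    (hz : z ∈ S) (hy : y ∈ S) {t : ℝ} (h1 : dist x z = t * dist x y)
    (h2 : dist z y = (1 - t) * dist x y) :
    dist p z ^ 2 ≤ (1 - t) * dist p x ^ 2 + t * dist p y ^ 2 - t * (1 - t) * dist x y ^ 2 := by
  rcases eq_or_lt_of_le (dist_nonneg : 0 ≤ dist x y) with h0 | h0
  · have hxz : x = z := dist_eq_zero.1 (by rw [h1, ← h0, mul_zero])
    have hxy : x = y := dist_eq_zero.1 h0.symm
    subst hxz; subst hxy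
    have e : (1 - t) * dist p x ^ 2 + t * dist p x ^ 2 - t * (1 - t) * dist x x ^ 2 =
        dist p x ^ 2 := by rw [dist_self]; ring
    rw [e]
  · have := h.cn p hp x hx z hz y hy (by rw [h1, h2]; ring)
    unfold CN at this
    rw [h1, h2] at this
    have e : t * dist x y + (1 - t) * dist x y = dist x y := by ring
    rw [e] at this
    have h3 : dist x y * dist p z ^ 2 ≤ dist x y * ((1 - t) * dist p x ^ 2 + t * dist p y ^ 2 -
        t * (1 - t) * dist x y ^ 2) := by
      refine this.trans (le_of_eq ?_); ring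
    exact le_of_mul_le_mul_left h3 h0

/-- Points between `x` and `y` at the same distance from `x` coincide. -/
theorem Cat0On.unique {S : Set X} (h : Cat0On S) {x y z z' : X} (hx : x ∈ S)
    (hz : z ∈ S) (hz' : z' ∈ S) (hy : y ∈ S) (h1 : dist x z + dist z y = dist x y)
    (h1' : dist x z' + dist z' y = dist x y) (h2 : dist x z = dist x z') : z = z' := by
  have h3 : dist z y = dist z' y := by linarith
  have := h.cn z' hz' x hx z hz y hy h1
  unfold CN at this
  rw [dist_comm z' x, ← h2, ← h3] at this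
  rcases eq_or_lt_of_le (dist_nonneg : 0 ≤ dist x y) with h0 | h0
  · have a1 : dist x z = 0 := by
      have := dist_nonneg (x := z) (y := y); have := dist_nonneg (x := x) (y := z); linarith
    have a2 : dist x z' = 0 := by rw [← h2]; exact a1
    rw [← dist_eq_zero.1 a1, ← dist_eq_zero.1 a2]
  · rw [h1] at this
    have h4 : dist x y * dist z' z ^ 2 ≤ 0 := by
      refine this.trans (le_of_eq ?_)
      rw [← h1]; ring
    have h5 : dist z' z ^ 2 ≤ 0 := by
      by_contra hc; push Not at hc
      have := mul_pos h0 hc; linarith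
    have h6 : dist z' z = 0 := by
      have := sq_nonneg (dist z' z)
      exact pow_eq_zero_iff (two_ne_zero) |>.1 (le_antisymm h5 this)
    exact (dist_eq_zero.1 h6).symm

/-- **CAT(0) spaces**: geodesic metric spaces such that `d(p, ·)²` satisfies the comparison
inequality with the Euclidean plane along every geodesic segment (equivalently, every geodesic
triangle is at least as thin as its comparison triangle, Bridson-Haefliger II.1.7). -/
structure IsCAT0 (X : Type*) [MetricSpace X] : Prop where
  exists_geodesic : ∀ x y : X, ∃ γ : ℝ → X, γ 0 = x ∧ γ 1 = y ∧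
    ∀ s ∈ Icc (0 : ℝ) 1, ∀ t ∈ Icc (0 : ℝ) 1, dist (γ s) (γ t) = |s - t| * dist x y
  comparison : ∀ p x y z : X, ∀ t ∈ Icc (0 : ℝ) 1, dist x z = t * dist x y →
    dist z y = (1 - t) * dist x y →
    dist p z ^ 2 ≤ (1 - t) * dist p x ^ 2 + t * dist p y ^ 2 - t * (1 - t) * dist x y ^ 2

theorem isCAT0_iff : IsCAT0 X ↔ Cat0On (univ : Set X) := by
  constructor
  · intro h
    refine ⟨?_, ?_⟩
    · intro x _ y _ s hs0 hs1
      obtain ⟨γ, h0, h1, hγ⟩ := h.exists_geodesic x y
      rcases eq_or_lt_of_le (dist_nonneg : 0 ≤ dist x y) with hD | hD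
      · refine ⟨x, trivial, ?_, ?_⟩
        · rw [dist_self]; linarith
        · linarith
      · have hm : s / dist x y ∈ Icc (0 : ℝ) 1 := ⟨by positivity, (div_le_one hD).2 hs1⟩
        refine ⟨γ (s / dist x y), trivial, ?_, ?_⟩
        · have := hγ 0 (by simp) _ hm
          rw [h0] at this
          rw [this, zero_sub, abs_neg, abs_of_nonneg hm.1]; field_simp
        · have := hγ _ hm 1 (by simp)
          rw [h1] at this
          rw [this, abs_sub_comm, abs_of_nonneg (by linarith [hm.2])]; field_simp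
    · intro p _ x _ z _ y _ hxy
      unfold CN
      rcases eq_or_lt_of_le (dist_nonneg : 0 ≤ dist x y) with hD | hD
      · have a1 : dist x z = 0 := by
          have := dist_nonneg (x := z) (y := y); have := dist_nonneg (x := x) (y := z); linarith
        have a2 : dist z y = 0 := by linarith
        rw [a1, a2]; simp
      · have hz0 : 0 ≤ dist x z := dist_nonneg
        have hz1 : 0 ≤ dist z y := dist_nonneg
        have := h.comparison p x y z (dist x z / dist x y)
          ⟨by positivity, (div_le_one hD).2 (by linarith)⟩ (by field_simp)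
          (by field_simp; linarith)
        have h3 := mul_le_mul_of_nonneg_left this hD.le
        rw [hxy]
        refine h3.trans (le_of_eq ?_)
        have e : dist z y = dist x y - dist x z := by linarith
        rw [e]; field_simp
  · intro h
    refine ⟨?_, ?_⟩
    · intro x y
      have hex : ∀ t : ℝ, ∃ z : X, t ∈ Icc (0 : ℝ) 1 →
          dist x z = t * dist x y ∧ dist z y = (1 - t) * dist x y := by
        intro t
        by_cases ht : t ∈ Icc (0 : ℝ) 1
        · obtain ⟨z, -, h1, h2⟩ := h.geod x trivial y trivial (t * dist x y)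
            (mul_nonneg ht.1 dist_nonneg)
            (by have := mul_le_mul_of_nonneg_right ht.2 (dist_nonneg (x := x) (y := y)); linarith)
          exact ⟨z, fun _ => ⟨h1, by rw [h2]; ring⟩⟩
        · exact ⟨x, fun h' => absurd h' ht⟩
      choose γ hγ using hex
      have key : ∀ s ∈ Icc (0 : ℝ) 1, ∀ t ∈ Icc (0 : ℝ) 1, s ≤ t →
          dist (γ s) (γ t) = (t - s) * dist x y := by
        intro s hs t ht hst
        have hs' := hγ s hs
        have ht' := hγ t ht
        obtain ⟨z, -, h1, h2⟩ := h.geod x trivial (γ t) trivial (s * dist x y)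
          (mul_nonneg hs.1 dist_nonneg)
          (by rw [ht'.1]; exact mul_le_mul_of_nonneg_right hst dist_nonneg)
        have h3 : dist z y ≤ dist z (γ t) + dist (γ t) y := dist_triangle _ _ _
        have h4 : dist x y ≤ dist x z + dist z y := dist_triangle _ _ _
        have h5 : dist z y = (1 - s) * dist x y := by
          rw [h2, ht'.1, ht'.2] at h3; rw [h1] at h4
          apply le_antisymm
          · linarith
          · linarith
        have h6 : γ s = z := h.unique (x := x) (y := y) trivial trivial trivial trivial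
          (by rw [hs'.1, hs'.2]; ring) (by rw [h1, h5]; ring) (by rw [hs'.1, h1])
        rw [h6, h2, ht'.1]; ring
      refine ⟨γ, ?_, ?_, ?_⟩
      · have := (hγ 0 (by simp)).1
        rw [zero_mul] at this
        exact (dist_eq_zero.1 this).symm
      · have := (hγ 1 (by simp)).2
        rw [sub_self, zero_mul] at this
        exact dist_eq_zero.1 this
      · intro s hs t ht
        rcases le_total s t with hst | hst
        · rw [key s hs t ht hst, abs_sub_comm, abs_of_nonneg (by linarith)]
        · rw [dist_comm, key t ht s hs hst, abs_of_nonneg (by linarith)]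
    · intro p x y z t ht h1 h2
      exact h.param trivial trivial trivial trivial h1 h2

open Pool.Agent.CNGlue in
theorem isCAT0_iff_geoCN : IsCAT0 X ↔ GeoCN (univ : Set X) := by
  constructor
  · intro h x _ y _
    obtain ⟨γ, h0, h1, hγ⟩ := h.exists_geodesic x y
    have hg : IsGeod γ x y := ⟨h0, h1, hγ⟩
    exact ⟨γ, hg, fun _ _ => trivial, fun p _ t ht =>
      h.comparison p x y (γ t) t ht (hg.dist_left ht) (hg.dist_right ht)⟩
  · intro h
    refine ⟨?_, ?_⟩
    · intro x y
      obtain ⟨γ, hγ, -, -⟩ := h x trivial y trivial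
      exact ⟨γ, hγ.1, hγ.2.1, hγ.2.2⟩
    · intro p x y z t ht h1 h2
      obtain ⟨γ, hγ, -, hs⟩ := h x trivial y trivial
      have h3 := hs z trivial t ht
      rw [dist_comm z x, h1, h2] at h3
      have h4 : dist z (γ t) ^ 2 ≤ 0 := h3.trans (le_of_eq (by ring))
      have h5 : dist z (γ t) = 0 :=
        pow_eq_zero_iff (two_ne_zero) |>.mp (le_antisymm h4 (sq_nonneg _))
      rw [dist_eq_zero.mp h5]
      exact hs p trivial t ht

end FlatClosing
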