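import Mathlib
import Pool.Agent.FlatClosing.Cat0

/-!
# CAT(0) spaces are contractible, hence simply connected (MP_ef842e_al)
-/

set_option autoImplicit false

namespace FlatClosing

open Set

variable {X : Type*} [MetricSpace X]

/-- In a CAT(0) space, contraction along geodesics issuing from a common point is
`t`-Lipschitz. -/
theorem IsCAT0.dist_le_of_common (h : IsCAT0 X) {o x y z w : X} {t : ℝ}
    (ht : t ∈ Icc (0 : ℝ) 1) (hz : dist o z = t * dist o x) (hzx : dist z x = (1 - t) * dist o x)
    (hw : dist o w = t * dist o y) (hwy : dist w y = (1 - t) * dist o y) :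
    dist z w ≤ t * dist x y := by
  have h1 := h.comparison w o x z t ht hz hzx
  have h2 := h.comparison x o y w t ht hw hwy
  rw [dist_comm w o, hw, dist_comm w x, dist_comm w z] at h1
  rw [dist_comm x o] at h2
  have h3 := mul_le_mul_of_nonneg_left h2 ht.1
  have h4 : dist z w ^ 2 ≤ (t * dist x y) ^ 2 := by
    nlinarith [h1, h3]
  exact le_of_sq_le_sq h4 (mul_nonneg ht.1 dist_nonneg)

/-- A CAT(0) space is contractible. -/
theorem IsCAT0.contractibleSpace [Nonempty X] (h : IsCAT0 X) : ContractibleSpace X := by
  obtain ⟨o⟩ := (inferInstance : Nonempty X)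
  choose γ h0 h1 hγ using fun x => h.exists_geodesic o x
  have hl : ∀ x, ∀ t ∈ Icc (0 : ℝ) 1, dist o (γ x t) = t * dist o x := by
    intro x t ht
    have := hγ x 0 (by simp) t ht
    rw [h0] at this
    rw [this, zero_sub, abs_neg, abs_of_nonneg ht.1]
  have hr : ∀ x, ∀ t ∈ Icc (0 : ℝ) 1, dist (γ x t) x = (1 - t) * dist o x := by
    intro x t ht
    have := hγ x t ht 1 (by simp)
    rw [h1] at this
    rw [this, abs_sub_comm, abs_of_nonneg (by linarith [ht.2])]
  have key : ∀ (s t : unitInterval) (x y : X),
      dist (γ x s) (γ y t) ≤ dist s t * dist o x + dist x y := by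
    intro s t x y
    have e1 : dist (γ x s) (γ x t) = dist s t * dist o x := by
      rw [hγ x s s.2 t t.2, Subtype.dist_eq, Real.dist_eq]
    have e2 : dist (γ x t) (γ y t) ≤ t * dist x y :=
      h.dist_le_of_common t.2 (hl x t t.2) (hr x t t.2) (hl y t t.2) (hr y t t.2)
    have e3 : (t : ℝ) * dist x y ≤ 1 * dist x y :=
      mul_le_mul_of_nonneg_right t.2.2 dist_nonneg
    have e4 := dist_triangle (γ x s) (γ x t) (γ y t)
    linarith
  have hcont : Continuous (fun p : unitInterval × X => γ p.2 p.1) := by
    rw [continuous_iff_continuousAt]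
    rintro ⟨s, x⟩
    rw [ContinuousAt, tendsto_iff_dist_tendsto_zero]
    have hb : Filter.Tendsto (fun p : unitInterval × X => dist s p.1 * dist o x + dist x p.2)
        (nhds (s, x)) (nhds 0) := by
      have hc : Continuous (fun p : unitInterval × X => dist s p.1 * dist o x + dist x p.2) := by
        fun_prop
      have := hc.tendsto (s, x)
      simpa using this
    refine squeeze_zero (fun _ => dist_nonneg) ?_ hb
    rintro ⟨t, y⟩
    rw [dist_comm]
    exact key s t x y
  rw [contractible_iff_id_nullhomotopic]
  refine ⟨o, ?_⟩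
  refine (ContinuousMap.Homotopic.symm ⟨?_⟩)
  exact
    { toFun := fun p => γ p.2 p.1
      continuous_toFun := hcont
      map_zero_left := fun x => by simp [h0]
      map_one_left := fun x => by simp [h1] }

/-- A CAT(0) space is simply connected. -/
theorem IsCAT0.simplyConnectedSpace [Nonempty X] (h : IsCAT0 X) : SimplyConnectedSpace X := by
  haveI := h.contractibleSpace
  infer_instance

end FlatClosing
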