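import Mathlib
import Pool.Agent.FlatClosing.Letters

/-!
# MP_ef842e: desubstitution of letter patterns (helper74)

Main results:
* `plane_aperiodic` : a letter pattern on the whole plane has no nonzero period;
* `rows_aperiodic` : a letter pattern on a half plane `q ≤ j` has no periodic first row;
* `cols_aperiodic` : a letter pattern on a half plane `p ≤ i` has no periodic first column.
-/

set_option autoImplicit false

namespace Pool.Agent.FlatClosing

/-- alternating sign -/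
def sg (m : ℤ) : ℤ := if Even m then 1 else -1

theorem sg_even (m : ℤ) : sg (2 * m) = 1 := by
  simp [sg]

theorem sg_odd (m : ℤ) : sg (2 * m + 1) = -1 := by
  simp [sg]

theorem sg_succ (m : ℤ) : sg (m + 1) = - sg m := by
  rcases Int.even_or_odd' m with ⟨k, rfl | rfl⟩
  · rw [sg_even, sg_odd]
  · rw [sg_odd, show 2 * k + 1 + 1 = 2 * (k + 1) by ring, sg_even]; rfl

theorem sg_pm (m : ℤ) : sg m = 1 ∨ sg m = -1 := by
  unfold sg
  split_ifs
  · exact Or.inl rfl
  · exact Or.inr rfl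

theorem sg_sq (m : ℤ) : sg m * sg m = 1 := by
  rcases sg_pm m with h | h <;> rw [h] <;> norm_num

section
variable {V E : Type} [Group V] [Group E] {D : LData V E}

namespace LData

theorem c_zpow_inj {s t : ℤ} (hs : s = 1 ∨ s = -1) (ht : t = 1 ∨ t = -1)
    (h : D.c ^ s = D.c ^ t) : s = t := by
  have h1 := congrArg D.chi h
  rw [map_zpow, map_zpow, D.chi_c] at h1
  exact chi_pow_ne hs ht h1

theorem c'_zpow_inj {s t : ℤ} (hs : s = 1 ∨ s = -1) (ht : t = 1 ∨ t = -1)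
    (h : D.c' ^ s = D.c' ^ t) : s = t := by
  have h1 := congrArg D.chi h
  rw [map_zpow, map_zpow, D.chi_c'] at h1
  exact chi_pow_ne hs ht h1

theorem c_zpow_ne_one {s : ℤ} (hs : s = 1 ∨ s = -1) : D.c ^ s ≠ 1 := by
  intro h
  have h1 := congrArg D.chi h
  rw [map_zpow, D.chi_c, D.chi.map_one] at h1
  exact ofAdd_zpow_ne_one hs h1

theorem c'_zpow_ne_one {s : ℤ} (hs : s = 1 ∨ s = -1) : D.c' ^ s ≠ 1 := by
  intro h
  have h1 := congrArg D.chi h
  rw [map_zpow, D.chi_c', D.chi.map_one] at h1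
  exact ofAdd_zpow_ne_one hs h1

/-- `k⁻¹ Q^e k = Q'^e` -/
theorem relII_zpow (e : ℤ) :
    D.io (D.M (D.c ^ e)) * D.ka D.c' = D.ka D.c' * D.io (D.M (D.c' ^ e)) := by
  have h : D.io (D.M D.c) * D.ka D.c' = D.ka D.c' * D.io (D.M D.c') := D.relII
  have h1 : D.io (D.M D.c) = D.ka D.c' * D.io (D.M D.c') * (D.ka D.c')⁻¹ := by
    rw [← h, mul_inv_cancel_right]
  rw [map_zpow, map_zpow, h1, conj_zpow, map_zpow, map_zpow, inv_mul_cancel_right]

end LData

variable {A B : ℤ → Prop} {l : ℤ → ℤ → E} {r : ℤ → ℤ → ℤ} {b t : ℤ → ℤ → E}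

namespace Pat

theorem tstat (h : Pat D A B l r b t) (_hA : UpC A) (hB : UpC B) {m n : ℤ} (hm : A (2 * m))
    (hn : B (2 * n)) :
    r m (2 * n) = r m (2 * n + 1) ∧
    ∃ e : ℤ, (e = 1 ∨ e = -1) ∧
      (r m (2 * n) = 1 → t (2 * m) n = D.c ^ e ∧ t (2 * m + 1) n = D.c' ^ e) ∧
      (r m (2 * n) = -1 → t (2 * m) n = D.c' ^ e ∧ t (2 * m + 1) n = D.c ^ e) :=
  D.cstr _ _ (h.r_sg m _ hm hn) (h.r_sg m _ hm (hB _ _ hn (by linarith))) _ _
    (h.t_ne _ n hm hn) (h.relC m n hm hn)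

theorem r_succ (h : Pat D A B l r b t) (hA : UpC A) (hB : UpC B) {m j : ℤ} (hm : A (2 * m))
    (hj : B j) : r m (j + 1) = r m j := by
  rcases Int.even_or_odd' j with ⟨n, rfl | rfl⟩
  · exact (h.tstat hA hB hm hj).1.symm
  · have := h.relBs m (n + 1) hm (by rwa [show 2 * (n + 1) - 1 = 2 * n + 1 by ring])
    rw [show 2 * (n + 1) - 1 = 2 * n + 1 by ring] at this
    rw [this, show 2 * n + 1 + 1 = 2 * (n + 1) by ring]

theorem r_const (h : Pat D A B l r b t) (hA : UpC A) (hB : UpC B) {m j j' : ℤ}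
    (hm : A (2 * m)) (hj : B j) (hj' : B j') : r m j = r m j' := by
  have key : ∀ j j' : ℤ, B j → j ≤ j' → r m j' = r m j := by
    intro j j' hj hle
    induction j', hle using Int.leInduction with
    | base => rfl
    | succ k hk ih =>
      rw [h.r_succ hA hB hm (hB _ _ hj hk), ih]
  rcases le_total j j' with h1 | h1
  · exact (key j j' hj h1).symm
  · exact key j' j hj' h1

theorem r_alt0 (h : Pat D A B l r b t) (hA : UpC A) (hB : UpC B) {m n : ℤ} (hm : A (2 * m))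
    (hn : B (2 * n)) : r (m + 1) (2 * n) = - r m (2 * n) := by
  have hm' : A (2 * (m + 1)) := hA _ _ hm (by linarith)
  have hm'' : A (2 * (m + 1) - 1) := hA _ _ hm (by linarith)
  obtain ⟨-, e, he, h1, h2⟩ := h.tstat hA hB hm hn
  obtain ⟨-, f, hf, h3, h4⟩ := h.tstat hA hB hm' hn
  have hD := h.relD (m + 1) n hm'' hn
  rw [show 2 * (m + 1) - 1 = 2 * m + 1 by ring] at hD
  rcases h.r_sg m _ hm hn with h5 | h5 <;> rcases h.r_sg (m + 1) _ hm' hn with h6 | h6
  · exfalso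
    rw [(h1 h5).2, (h3 h6).1] at hD
    exact D.dstr1 _ _ hf he _ _ hD
  · rw [h5, h6]
  · rw [h5, h6]; rfl
  · exfalso
    rw [(h2 h5).2, (h4 h6).1] at hD
    exact D.dstr2 _ _ hf he _ _ hD

theorem exists_B_even (hB : UpC B) {j : ℤ} (hj : B j) : ∃ n, B (2 * n) := by
  refine ⟨|j|, hB _ _ hj ?_⟩
  have := le_abs_self j
  have := abs_nonneg j
  linarith

theorem r_alt (h : Pat D A B l r b t) (hA : UpC A) (hB : UpC B) {m j : ℤ} (hm : A (2 * m))
    (hj : B j) : r (m + 1) j = - r m j := by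
  obtain ⟨n, hn⟩ := exists_B_even hB hj
  rw [h.r_const hA hB (hA _ _ hm (by linarith)) hj hn, h.r_const hA hB hm hj hn]
  exact h.r_alt0 hA hB hm hn

theorem r_sg_const (h : Pat D A B l r b t) (hA : UpC A) (hB : UpC B) {m m' j j' : ℤ}
    (hm : A (2 * m)) (hm' : A (2 * m')) (hj : B j) (hj' : B j') :
    r m j * sg m = r m' j' * sg m' := by
  have key : ∀ m m' : ℤ, A (2 * m) → m ≤ m' → r m' j * sg m' = r m j * sg m := by
    intro m m' hm hle
    induction m', hle using Int.leInduction with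
    | base => rfl
    | succ k hk ih =>
      rw [h.r_alt hA hB (hA _ _ hm (by linarith)) hj, sg_succ, neg_mul_neg, ih]
  rw [h.r_const hA hB hm' hj' hj]
  rcases le_total m m' with h1 | h1
  · exact (key m m' hm h1).symm
  · exact key m' m hm' h1

/-- shifting a pattern by two columns -/
theorem shift (h : Pat D A B l r b t) :
    Pat D (fun i => A (i + 2)) B (fun m j => l (m + 1) j) (fun m j => r (m + 1) j)
      (fun i n => b (i + 2) n) (fun i n => t (i + 2) n) where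
  l_ne m j hm hj := h.l_ne (m + 1) j (by rwa [show 2 * (m + 1) - 1 = 2 * m - 1 + 2 by ring]) hj
  r_sg m j hm hj := h.r_sg (m + 1) j (by rwa [show 2 * (m + 1) = 2 * m + 2 by ring]) hj
  b_ne i n hi hn := h.b_ne (i + 2) n hi hn
  t_ne i n hi hn := h.t_ne (i + 2) n hi hn
  relA m n hm hn := by
    have := h.relA (m + 1) n (by rwa [show 2 * (m + 1) - 1 = 2 * m - 1 + 2 by ring]) hn
    rwa [show 2 * (m + 1) - 1 = 2 * m - 1 + 2 by ring,
      show 2 * (m + 1) = 2 * m + 2 by ring] at this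
  relBs m n hm hn := h.relBs (m + 1) n (by rwa [show 2 * (m + 1) = 2 * m + 2 by ring]) hn
  relB m n hm hn := by
    have := h.relB (m + 1) n (by rwa [show 2 * (m + 1) = 2 * m + 2 by ring]) hn
    rwa [show 2 * (m + 1) + 1 = 2 * m + 1 + 2 by ring,
      show 2 * (m + 1) = 2 * m + 2 by ring] at this
  relC m n hm hn := by
    have := h.relC (m + 1) n (by rwa [show 2 * (m + 1) = 2 * m + 2 by ring]) hn
    rwa [show 2 * (m + 1) + 1 = 2 * m + 1 + 2 by ring,
      show 2 * (m + 1) = 2 * m + 2 by ring] at this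
  relD m n hm hn := by
    have := h.relD (m + 1) n (by rwa [show 2 * (m + 1) - 1 = 2 * m - 1 + 2 by ring]) hn
    rwa [show 2 * (m + 1) - 1 = 2 * m - 1 + 2 by ring,
      show 2 * (m + 1) = 2 * m + 2 by ring] at this

end Pat

/-- base column of the block `J` -/
def bcol (J : ℤ) : ℤ := if Even J then 2 * J else 2 * J + 1

theorem bcol_even (N : ℤ) : bcol (2 * N) = 2 * (2 * N) := by
  simp [bcol]

theorem bcol_odd (N : ℤ) : bcol (2 * N + 1) = 2 * (2 * N + 1) + 1 := by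
  simp [bcol]

theorem bcol_ge (J : ℤ) : 2 * J ≤ bcol J := by
  unfold bcol
  split_ifs
  · exact le_rfl
  · linarith

open Classical in
/-- macroscopic right letters -/
noncomputable def rNew (D : LData V E) (t : ℤ → ℤ → E) (M J : ℤ) : ℤ :=
  if t (bcol J) M = D.c then 1 else -1

theorem rNew_of (D : LData V E) {t : ℤ → ℤ → E} {M J e : ℤ} (he : e = 1 ∨ e = -1)
    (h : t (bcol J) M = D.c ^ e) : rNew D t M J = e := by
  unfold rNew
  rcases he with rfl | rfl
  · rw [if_pos (by rw [h, zpow_one])]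
  · rw [if_neg]
    rw [h]
    intro h1
    have h2 : D.c ^ (-1 : ℤ) = D.c ^ (1 : ℤ) := by rw [h1, zpow_one]
    have := LData.c_zpow_inj (Or.inr rfl) (Or.inl rfl) h2
    norm_num at this

/-- **Desubstitution.** -/
theorem Pat.desub (h : Pat D A B l r b t) (hA : UpC A) (hB : UpC B)
    (hs : ∀ m j, A (2 * m) → B j → r m j = sg m) :
    Pat D B (fun J => A (2 * J)) (fun M J => D.L⁻¹ (b (bcol J) M)) (fun M J => rNew D t M J)
      (fun I N => l (2 * N) I) (fun I N => l (2 * N + 1) I) := by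
  -- statuses
  have st0 : ∀ N M : ℤ, A (2 * (2 * N)) → B (2 * M) → ∃ e : ℤ, (e = 1 ∨ e = -1) ∧
      t (2 * (2 * N)) M = D.c ^ e ∧ t (2 * (2 * N) + 1) M = D.c' ^ e ∧
        rNew D t M (2 * N) = e := by
    intro N M hN hM
    obtain ⟨-, e, he, h1, -⟩ := h.tstat hA hB hN hM
    have h2 := h1 (by rw [hs _ _ hN hM, sg_even])
    exact ⟨e, he, h2.1, h2.2, rNew_of D he (by rw [bcol_even]; exact h2.1)⟩
  have st1 : ∀ N M : ℤ, A (2 * (2 * N + 1)) → B (2 * M) → ∃ e : ℤ, (e = 1 ∨ e = -1) ∧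
      t (2 * (2 * N + 1)) M = D.c' ^ e ∧ t (2 * (2 * N + 1) + 1) M = D.c ^ e ∧
        rNew D t M (2 * N + 1) = e := by
    intro N M hN hM
    obtain ⟨-, e, he, -, h1⟩ := h.tstat hA hB hN hM
    have h2 := h1 (by rw [hs _ _ hN hM, sg_odd])
    exact ⟨e, he, h2.1, h2.2, rNew_of D he (by rw [bcol_odd]; exact h2.2)⟩
  refine ⟨?_, ?_, ?_, ?_, ?_, ?_, ?_, ?_, ?_⟩
  · -- l_ne
    intro M J hM hJ h1
    have h2 : b (bcol J) M = 1 := by
      have := congrArg D.L h1
      rwa [MulAut.apply_inv_self, map_one] at this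
    exact h.b_ne _ _ (hA _ _ hJ (bcol_ge J)) hM h2
  · -- r_sg
    intro M J hM hJ
    rcases Int.even_or_odd' J with ⟨N, rfl | rfl⟩
    · obtain ⟨e, he, -, -, h1⟩ := st0 N M hJ hM
      rw [h1]; exact he
    · obtain ⟨e, he, -, -, h1⟩ := st1 N M hJ hM
      rw [h1]; exact he
  · -- b_ne
    intro I N hI hN
    exact h.l_ne _ _ (hA _ _ hN (by linarith)) hI
  · -- t_ne
    intro I N hI hN
    exact h.l_ne _ _ (hA _ _ hN (by linarith)) hI
  · -- relA
    intro M N hM hN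
    have h1 := h.relA (2 * N) M (hA _ _ hN (by linarith)) hM
    apply D.al_inj
    have e1 : bcol (2 * N - 1) = 2 * (2 * N) - 1 := by
      rw [show 2 * N - 1 = 2 * (N - 1) + 1 by ring, bcol_odd]; ring
    rw [map_mul, map_mul, D.al_ka, D.al_ka, D.al_io, D.al_io, MulAut.apply_inv_self,
      MulAut.apply_inv_self, e1, bcol_even]
    exact h1.symm
  · -- relBs
    intro M N hM hN
    have hN1 : A (2 * (2 * (N - 1) + 1)) := by
      rwa [show 2 * (2 * (N - 1) + 1) = 2 * (2 * N - 1) by ring]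
    have hN2 : A (2 * (2 * N)) := hA _ _ hN (by linarith)
    obtain ⟨e, he, -, h2, h3⟩ := st1 (N - 1) M hN1 hM
    obtain ⟨f, hf, h4, -, h5⟩ := st0 N M hN2 hM
    rw [show 2 * (N - 1) + 1 = 2 * N - 1 by ring] at h3
    have h6 := h.relD (2 * N) M (hA _ _ hN (by linarith)) hM
    rw [show 2 * (2 * (N - 1) + 1) + 1 = 2 * (2 * N) - 1 by ring] at h2
    rw [h2, h4] at h6
    change rNew D t M (2 * N - 1) = rNew D t M (2 * N)
    rw [h3, h5]
    exact (D.relD_base hf he h6).1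
  · -- relB
    intro M N hM hN
    have hN1 : A (2 * (2 * (N - 1) + 1)) := by
      rwa [show 2 * (2 * (N - 1) + 1) = 2 * (2 * N - 1) by ring]
    have hN2 : A (2 * (2 * N)) := hA _ _ hN (by linarith)
    obtain ⟨e, he, -, h2, h3⟩ := st1 (N - 1) M hN1 hM
    obtain ⟨f, hf, h4, -, h5⟩ := st0 N M hN2 hM
    have h6 := h.relD (2 * N) M (hA _ _ hN (by linarith)) hM
    rw [show 2 * (2 * (N - 1) + 1) + 1 = 2 * (2 * N) - 1 by ring] at h2
    rw [h2, h4] at h6
    change l (2 * N) (2 * M + 1) = (D.R ^ (-(rNew D t M (2 * N)))) (l (2 * N) (2 * M))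
    rw [h5]
    exact (D.relD_base hf he h6).2
  · -- relC
    intro M N hM hN
    have hN2 : A (2 * (2 * N + 1)) := hA _ _ hN (by linarith)
    obtain ⟨e, he, -, h2, h3⟩ := st0 N M hN hM
    obtain ⟨f, hf, h4, -, h5⟩ := st1 N M hN2 hM
    have h6 := h.relD (2 * N + 1) M (hA _ _ hN (by linarith)) hM
    rw [show 2 * (2 * N + 1) - 1 = 2 * (2 * N) + 1 by ring, h2, h4, map_zpow, map_zpow] at h6
    change D.ka D.c' ^ (rNew D t M (2 * N)) * D.io (D.M (l (2 * N + 1) (2 * M + 1))) =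
      D.io (D.M (l (2 * N + 1) (2 * M))) * D.ka D.c' ^ (rNew D t M (2 * N + 1))
    rw [h3, h5]
    exact h6.symm
  · -- relD
    intro M N hM hN
    have hN2 : A (2 * (2 * N + 1)) := hA _ _ hN (by linarith)
    have h1 := h.relA (2 * N + 1) M (hA _ _ hN (by linarith)) hM
    have h2 := h.relB (2 * N) M hN hM
    have h3 := h.relB (2 * N + 1) M hN2 hM
    have hM' : B (2 * M) := hB _ _ hM (by linarith)
    rw [hs _ _ hN hM', sg_even, zpow_neg_one] at h2
    rw [hs _ _ hN2 hM', sg_odd, neg_neg, zpow_one] at h3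
    change D.io (D.M (D.L⁻¹ (b (bcol (2 * N)) M))) * D.ka (l (2 * N + 1) (2 * M)) =
      D.ka (l (2 * N + 1) (2 * M - 1)) * D.io (D.M (D.L⁻¹ (b (bcol (2 * N + 1)) M)))
    rw [D.M_Linv, D.M_Linv, bcol_even, bcol_odd, h3, MulAut.inv_apply_self, ← h2]
    rw [show 2 * (2 * N) + 1 = 2 * (2 * N + 1) - 1 by ring]
    exact h1.symm

/-- restriction of a pattern -/
theorem Pat.mono {A' B' : ℤ → Prop} (h : Pat D A B l r b t) (hA : ∀ i, A' i → A i)
    (hB : ∀ j, B' j → B j) : Pat D A' B' l r b t where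
  l_ne m j hm hj := h.l_ne m j (hA _ hm) (hB _ hj)
  r_sg m j hm hj := h.r_sg m j (hA _ hm) (hB _ hj)
  b_ne i n hi hn := h.b_ne i n (hA _ hi) (hB _ hn)
  t_ne i n hi hn := h.t_ne i n (hA _ hi) (hB _ hn)
  relA m n hm hn := h.relA m n (hA _ hm) (hB _ hn)
  relBs m n hm hn := h.relBs m n (hA _ hm) (hB _ hn)
  relB m n hm hn := h.relB m n (hA _ hm) (hB _ hn)
  relC m n hm hn := h.relC m n (hA _ hm) (hB _ hn)
  relD m n hm hn := h.relD m n (hA _ hm) (hB _ hn)

theorem Pat.sign_cases (h : Pat D A B l r b t) (hA : UpC A) (hB : UpC B) {m₀ j₀ : ℤ}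
    (hm₀ : A (2 * m₀)) (hj₀ : B j₀) :
    (∀ m j, A (2 * m) → B j → r m j = sg m) ∨ (∀ m j, A (2 * m) → B j → r m j = - sg m) := by
  have key : ∀ m j, A (2 * m) → B j → r m j = (r m₀ j₀ * sg m₀) * sg m := by
    intro m j hm hj
    rw [← h.r_sg_const hA hB hm hm₀ hj hj₀, mul_assoc, sg_sq, mul_one]
  have h1 : r m₀ j₀ * sg m₀ = 1 ∨ r m₀ j₀ * sg m₀ = -1 := by
    rcases h.r_sg m₀ j₀ hm₀ hj₀ with h2 | h2 <;> rcases sg_pm m₀ with h3 | h3 <;> rw [h2, h3] <;>
      norm_num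
  rcases h1 with h1 | h1
  · left
    intro m j hm hj
    rw [key m j hm hj, h1, one_mul]
  · right
    intro m j hm hj
    rw [key m j hm hj, h1, neg_one_mul]

theorem upC_true : UpC (fun _ => True) := fun _ _ _ _ => trivial

theorem upC_le (p : ℤ) : UpC (fun i => p ≤ i) := fun _ _ h1 h2 => le_trans h1 h2

variable (D) in
/-- there is a pattern on the plane with period vector `(2 a, 2 b)` -/
def PlanePer (a b' : ℤ) : Prop :=
  ∃ (l : ℤ → ℤ → E) (r : ℤ → ℤ → ℤ) (b t : ℤ → ℤ → E),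
    Pat D (fun _ => True) (fun _ => True) l r b t ∧
    (∀ m j, l (m + a) (j + 2 * b') = l m j) ∧ (∀ m j, r (m + a) (j + 2 * b') = r m j) ∧
    (∀ i n, b (i + 2 * a) (n + b') = b i n) ∧ (∀ i n, t (i + 2 * a) (n + b') = t i n)

theorem sg_eq_one_iff {m : ℤ} (h : sg m = 1) : ∃ k, m = 2 * k := by
  rcases Int.even_or_odd' m with ⟨k, rfl | rfl⟩
  · exact ⟨k, rfl⟩
  · rw [sg_odd] at h; norm_num at h

theorem bcol_add (J k : ℤ) : bcol (J + 2 * k) = bcol J + 4 * k := by
  rcases Int.even_or_odd' J with ⟨N, rfl | rfl⟩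
  · rw [show 2 * N + 2 * k = 2 * (N + k) by ring, bcol_even, bcol_even]; ring
  · rw [show 2 * N + 1 + 2 * k = 2 * (N + k) + 1 by ring, bcol_odd, bcol_odd]; ring

theorem planePer_step {a b' : ℤ} (h : PlanePer D a b') :
    ∃ a', a = 2 * a' ∧ PlanePer D b' a' := by
  -- normalise the signs
  have h0 : ∃ (l : ℤ → ℤ → E) (r : ℤ → ℤ → ℤ) (b t : ℤ → ℤ → E),
    Pat D (fun _ => True) (fun _ => True) l r b t ∧ (∀ m j, r m j = sg m) ∧
    (∀ m j, l (m + a) (j + 2 * b') = l m j) ∧ (∀ m j, r (m + a) (j + 2 * b') = r m j) ∧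
    (∀ i n, b (i + 2 * a) (n + b') = b i n) ∧ (∀ i n, t (i + 2 * a) (n + b') = t i n) := by
    obtain ⟨l, r, b, t, hP, h1, h2, h3, h4⟩ := h
    rcases hP.sign_cases upC_true upC_true (m₀ := 0) (j₀ := 0) trivial trivial with hs | hs
    · exact ⟨l, r, b, t, hP, fun m j => hs m j trivial trivial, h1, h2, h3, h4⟩
    · refine ⟨_, _, _, _, hP.shift, fun m j => ?_, fun m j => ?_, fun m j => ?_, fun i n => ?_,
        fun i n => ?_⟩
      · change r (m + 1) j = sg m
        rw [hs _ _ trivial trivial, sg_succ, neg_neg]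
      · change l (m + a + 1) (j + 2 * b') = l (m + 1) j
        rw [← h1 (m + 1) j]; congr 1; ring
      · change r (m + a + 1) (j + 2 * b') = r (m + 1) j
        rw [← h2 (m + 1) j]; congr 1; ring
      · change b (i + 2 * a + 2) (n + b') = b (i + 2) n
        rw [← h3 (i + 2) n]; congr 1; ring
      · change t (i + 2 * a + 2) (n + b') = t (i + 2) n
        rw [← h4 (i + 2) n]; congr 1; ring
  obtain ⟨l, r, b, t, hP, hs, h1, h2, h3, h4⟩ := h0
  obtain ⟨a', rfl⟩ : ∃ a', a = 2 * a' := by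
    apply sg_eq_one_iff
    have := h2 0 0
    rw [hs, hs, zero_add] at this
    rw [this]; rfl
  refine ⟨a', rfl, _, _, _, _, hP.desub upC_true upC_true (fun m j _ _ => hs m j), ?_, ?_, ?_, ?_⟩
  · intro M J
    change D.L⁻¹ (b (bcol (J + 2 * a')) (M + b')) = D.L⁻¹ (b (bcol J) M)
    rw [bcol_add, ← h3 (bcol J) M]
    congr 2; ring
  · intro M J
    change rNew D t (M + b') (J + 2 * a') = rNew D t M J
    unfold rNew
    rw [bcol_add, ← h4 (bcol J) M, show 2 * (2 * a') = 4 * a' by ring]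
  · intro I N
    change l (2 * (N + a')) (I + 2 * b') = l (2 * N) I
    rw [← h1 (2 * N) I]
    congr 1; ring
  · intro I N
    change l (2 * (N + a') + 1) (I + 2 * b') = l (2 * N + 1) I
    rw [← h1 (2 * N + 1) I]
    congr 1; ring

theorem planePer_dvd (k : ℕ) : ∀ a b' : ℤ, PlanePer D a b' → (2 : ℤ) ^ k ∣ a ∧ (2 : ℤ) ^ k ∣ b' := by
  induction k with
  | zero => intro a b' _; simp
  | succ k ih =>
    intro a b' h
    obtain ⟨a', rfl, h1⟩ := planePer_step h
    obtain ⟨b'', rfl, h2⟩ := planePer_step h1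
    obtain ⟨h3, h4⟩ := ih _ _ h2
    rw [pow_succ, mul_comm ((2 : ℤ) ^ k) 2]
    exact ⟨mul_dvd_mul_left 2 h3, mul_dvd_mul_left 2 h4⟩

theorem eq_zero_of_pow_dvd {a : ℤ} (h : ∀ k : ℕ, (2 : ℤ) ^ k ∣ a) : a = 0 := by
  by_contra ha
  have h1 := h a.natAbs
  have h2 : (2 : ℤ) ^ a.natAbs ≤ |a| := Int.le_of_dvd (abs_pos.2 ha) ((dvd_abs _ _).2 h1)
  have h3 : a.natAbs < 2 ^ a.natAbs := Nat.lt_two_pow_self
  have h4 : ((a.natAbs : ℕ) : ℤ) = |a| := Int.natCast_natAbs a
  have h5 : ((a.natAbs : ℕ) : ℤ) < ((2 ^ a.natAbs : ℕ) : ℤ) := by exact_mod_cast h3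
  push_cast at h5
  linarith

/-- **The plane has no periodic letter pattern.** -/
theorem plane_aperiodic {a b' : ℤ} (h : PlanePer D a b') : a = 0 ∧ b' = 0 :=
  ⟨eq_zero_of_pow_dvd fun k => (planePer_dvd k a b' h).1,
    eq_zero_of_pow_dvd fun k => (planePer_dvd k a b' h).2⟩

variable (D) in
/-- a pattern on the half plane `q ≤ j` whose first row is periodic -/
def RowPer (q a : ℤ) : Prop :=
  ∃ (l : ℤ → ℤ → E) (r : ℤ → ℤ → ℤ) (b t : ℤ → ℤ → E),
    Pat D (fun _ => True) (fun j => q ≤ j) l r b t ∧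
    (∀ m, l (m + a) q = l m q) ∧ (∀ m, r (m + a) q = r m q)

variable (D) in
/-- a pattern on the half plane `p ≤ i` whose first column is periodic -/
def ColPer (p a : ℤ) : Prop :=
  ∃ (l : ℤ → ℤ → E) (r : ℤ → ℤ → ℤ) (b t : ℤ → ℤ → E),
    Pat D (fun i => p ≤ i) (fun _ => True) l r b t ∧
    (∀ n, b p (n + a) = b p n) ∧ (∀ n, t p (n + a) = t p n)

theorem rowPer_step {q a : ℤ} (h : RowPer D q a) : ∃ a', a = 2 * a' ∧ ColPer D q a' := by
  have h0 : ∃ (l : ℤ → ℤ → E) (r : ℤ → ℤ → ℤ) (b t : ℤ → ℤ → E),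
    Pat D (fun _ => True) (fun j => q ≤ j) l r b t ∧ (∀ m j, q ≤ j → r m j = sg m) ∧
    (∀ m, l (m + a) q = l m q) ∧ (∀ m, r (m + a) q = r m q) := by
    obtain ⟨l, r, b, t, hP, h1, h2⟩ := h
    rcases hP.sign_cases upC_true (upC_le q) (m₀ := 0) (j₀ := q) trivial le_rfl with hs | hs
    · exact ⟨l, r, b, t, hP, fun m j hj => hs m j trivial hj, h1, h2⟩
    · refine ⟨_, _, _, _, hP.shift, fun m j hj => ?_, fun m => ?_, fun m => ?_⟩
      · change r (m + 1) j = sg m
        rw [hs _ _ trivial hj, sg_succ, neg_neg]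
      · change l (m + a + 1) q = l (m + 1) q
        rw [← h1 (m + 1)]; congr 1; ring
      · change r (m + a + 1) q = r (m + 1) q
        rw [← h2 (m + 1)]; congr 1; ring
  obtain ⟨l, r, b, t, hP, hs, h1, h2⟩ := h0
  obtain ⟨a', rfl⟩ : ∃ a', a = 2 * a' := by
    apply sg_eq_one_iff
    have := h2 0
    rw [hs _ _ le_rfl, hs _ _ le_rfl, zero_add] at this
    rw [this]; rfl
  refine ⟨a', rfl, _, _, _, _, hP.desub upC_true (upC_le q) (fun m j _ hj => hs m j hj), ?_, ?_⟩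
  · intro N
    change l (2 * (N + a')) q = l (2 * N) q
    rw [← h1 (2 * N)]; congr 1; ring
  · intro N
    change l (2 * (N + a') + 1) q = l (2 * N + 1) q
    rw [← h1 (2 * N + 1)]; congr 1; ring

/-- complete blocks, normalised signs -/
theorem colPer_even_aux {J₀ a : ℤ} {l : ℤ → ℤ → E} {r : ℤ → ℤ → ℤ} {b t : ℤ → ℤ → E}
    (hP : Pat D (fun i => 2 * J₀ ≤ i) (fun _ => True) l r b t)
    (hs : ∀ m j, J₀ ≤ m → r m j = sg m)
    (h1 : ∀ n, b (2 * J₀) (n + a) = b (2 * J₀) n) (h2 : ∀ n, t (2 * J₀) (n + a) = t (2 * J₀) n) :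
    RowPer D J₀ a := by
  have hd := hP.desub (upC_le _) upC_true (fun m j hm _ => hs m j (by linarith))
  refine ⟨_, _, _, _, hd.mono (fun _ _ => trivial) (fun j hj => ?_), ?_, ?_⟩
  · show 2 * J₀ ≤ 2 * j
    linarith
  · intro M
    change D.L⁻¹ (b (bcol J₀) (M + a)) = D.L⁻¹ (b (bcol J₀) M)
    congr 1
    rcases Int.even_or_odd' J₀ with ⟨N, hN | hN⟩
    · have : bcol J₀ = 2 * J₀ := by rw [hN, bcol_even]
      rw [this, h1]
    · have : bcol J₀ = 2 * J₀ + 1 := by rw [hN, bcol_odd]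
      rw [this, hP.relB J₀ _ (le_refl (2 * J₀)) trivial, hP.relB J₀ _ (le_refl (2 * J₀)) trivial,
        hs _ _ le_rfl, hs _ _ le_rfl, h1]
  · intro M
    change rNew D t (M + a) J₀ = rNew D t M J₀
    unfold rNew
    congr 2
    rcases Int.even_or_odd' J₀ with ⟨N, hN | hN⟩
    · have : bcol J₀ = 2 * J₀ := by rw [hN, bcol_even]
      rw [this, h2]
    · have hb : bcol J₀ = 2 * J₀ + 1 := by rw [hN, bcol_odd]
      have hsg : sg J₀ = -1 := by rw [hN, sg_odd]
      obtain ⟨-, e, he, -, h3⟩ := hP.tstat (upC_le _) upC_true (m := J₀) (n := M)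
        (le_refl (2 * J₀)) trivial
      obtain ⟨-, f, hf, -, h4⟩ := hP.tstat (upC_le _) upC_true (m := J₀) (n := M + a)
        (le_refl (2 * J₀)) trivial
      have h5 := h3 (by rw [hs _ _ le_rfl, hsg])
      have h6 := h4 (by rw [hs _ _ le_rfl, hsg])
      rw [hb, h5.2, h6.2]
      have h7 : D.c' ^ f = D.c' ^ e := by rw [← h5.1, ← h6.1, h2]
      rw [LData.c'_zpow_inj hf he h7]

theorem colPer_even {J₀ a : ℤ} (h : ColPer D (2 * J₀) a) : ∃ q, RowPer D q a := by
  obtain ⟨l, r, b, t, hP, h1, h2⟩ := h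
  rcases hP.sign_cases (upC_le _) upC_true (m₀ := J₀) (j₀ := 0) (le_refl (2 * J₀)) trivial
    with hs | hs
  · exact ⟨J₀, colPer_even_aux hP (fun m j hm => hs m j (by linarith) trivial) h1 h2⟩
  · refine ⟨J₀ - 1, colPer_even_aux (hP.shift.mono (fun i hi => ?_) (fun _ _ => trivial))
      (fun m j hm => ?_) (fun n => ?_) (fun n => ?_)⟩
    · show 2 * J₀ ≤ i + 2
      linarith
    · change r (m + 1) j = sg m
      rw [hs _ _ (by linarith) trivial, sg_succ, neg_neg]
    · change b (2 * (J₀ - 1) + 2) (n + a) = b (2 * (J₀ - 1) + 2) n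
      rw [show 2 * (J₀ - 1) + 2 = 2 * J₀ by ring, h1]
    · change t (2 * (J₀ - 1) + 2) (n + a) = t (2 * (J₀ - 1) + 2) n
      rw [show 2 * (J₀ - 1) + 2 = 2 * J₀ by ring, h2]

/-- the character of the left letters is constant along a left line -/
theorem Pat.chi_const (h : Pat D A B l r b t) {m j : ℤ} (hm : A (2 * m - 1))
    (hj : B j) : D.chi (l m (j + 1)) = D.chi (l m j) := by
  rcases Int.even_or_odd' j with ⟨n, rfl | rfl⟩
  · have h1 := congrArg D.chV (h.relD m n hm hj)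
    rw [map_mul, map_mul, D.chV_io, D.chV_io, D.chV_ka, D.chV_ka, one_mul, mul_one, D.chi_M,
      D.chi_M] at h1
    exact h1.symm
  · have h1 := congrArg D.chW (h.relA m (n + 1) hm
      (by rwa [show 2 * (n + 1) - 1 = 2 * n + 1 by ring]))
    rw [map_mul, map_mul, D.chW_io, D.chW_io, D.chW_ka, D.chW_ka, one_mul, mul_one,
      show 2 * (n + 1) - 1 = 2 * n + 1 by ring] at h1
    rw [h1, show 2 * n + 1 + 1 = 2 * (n + 1) by ring]

theorem Pat.chi_const' (h : Pat D A B l r b t) (hB : UpC B) {m j j' : ℤ} (hm : A (2 * m - 1))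
    (hj : B j) (hj' : B j') : D.chi (l m j') = D.chi (l m j) := by
  have key : ∀ j j' : ℤ, B j → j ≤ j' → D.chi (l m j') = D.chi (l m j) := by
    intro j j' hj hle
    induction j', hle using Int.leInduction with
    | base => rfl
    | succ k hk ih => rw [h.chi_const hm (hB _ _ hj hk), ih]
  rcases le_total j j' with h1 | h1
  · exact key j j' hj h1
  · exact (key j' j hj' h1).symm

/-- adding the missing column of a cut block -/
theorem colPer_odd_base {J₀ a : ℤ} {l : ℤ → ℤ → E} {r : ℤ → ℤ → ℤ} {b t : ℤ → ℤ → E}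
    (hP : Pat D (fun i => 2 * J₀ + 1 ≤ i) (fun _ => True) l r b t)
    (hs : r (J₀ + 1) 0 = 1)
    (h1 : ∀ n, b (2 * J₀ + 1) (n + a) = b (2 * J₀ + 1) n)
    (h2 : ∀ n, t (2 * J₀ + 1) (n + a) = t (2 * J₀ + 1) n) :
    ColPer D (2 * J₀) a := by
  classical
  have hst : ∀ n, ∃ e : ℤ, (e = 1 ∨ e = -1) ∧ t (2 * J₀ + 1) n = D.c ^ e := by
    intro n
    have hA0 : (2 * J₀ + 1 : ℤ) ≤ 2 * (J₀ + 1) := by linarith
    obtain ⟨-, e, he, h3, -⟩ := hP.tstat (upC_le _) upC_true (m := J₀ + 1) (n := n) hA0 trivial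
    have h4 := h3 ((hP.r_const (upC_le _) upC_true hA0 trivial trivial).trans hs)
    refine ⟨e, he, ?_⟩
    have h5 := hP.relD (J₀ + 1) n (by linarith) trivial
    rw [h4.1, show 2 * (J₀ + 1) - 1 = 2 * J₀ + 1 by ring, map_zpow] at h5
    have h6 := D.relI_zpow he ((D.R ^ (-e)) (l (J₀ + 1) (2 * n)))
    have hRR : (D.R ^ e) ((D.R ^ (-e)) (l (J₀ + 1) (2 * n))) = l (J₀ + 1) (2 * n) := by
      rw [← MulAut.mul_apply, ← zpow_add, add_neg_cancel, zpow_zero, MulAut.one_apply]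
    rw [hRR] at h6
    rw [← h6, ← map_zpow] at h5
    exact (D.uniq2 h5).1.symm
  choose e he hte using hst
  refine ⟨l, fun m j => if m = J₀ then -1 else r m j,
    fun i n => if i = 2 * J₀ then D.R⁻¹ (b (2 * J₀ + 1) n) else b i n,
    fun i n => if i = 2 * J₀ then D.c' ^ (e n) else t i n, ⟨?_, ?_, ?_, ?_, ?_, ?_, ?_, ?_, ?_⟩,
    ?_, ?_⟩
  · intro m j hm _
    exact hP.l_ne m j (by show 2 * J₀ + 1 ≤ 2 * m - 1; have : 2 * J₀ ≤ 2 * m - 1 := hm; omega)
      trivial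
  · intro m j hm _
    have hm : 2 * J₀ ≤ 2 * m := hm
    by_cases h3 : m = J₀
    · right; simp [h3]
    · simp only [h3, if_false]
      exact hP.r_sg m j (by show 2 * J₀ + 1 ≤ 2 * m; omega) trivial
  · intro i n hi _
    have hi : 2 * J₀ ≤ i := hi
    by_cases h3 : i = 2 * J₀
    · simp only [h3, if_true]
      intro h4
      have h5 := congrArg D.R h4
      rw [MulAut.apply_inv_self, map_one] at h5
      exact hP.b_ne _ _ (le_refl (2 * J₀ + 1)) trivial h5
    · simp only [h3, if_false]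
      exact hP.b_ne i n (by show 2 * J₀ + 1 ≤ i; omega) trivial
  · intro i n hi _
    have hi : 2 * J₀ ≤ i := hi
    by_cases h3 : i = 2 * J₀
    · simp only [h3, if_true]
      exact LData.c'_zpow_ne_one (he n)
    · simp only [h3, if_false]
      exact hP.t_ne i n (by show 2 * J₀ + 1 ≤ i; omega) trivial
  · intro m n hm _
    have hm : 2 * J₀ ≤ 2 * m - 1 := hm
    have h3 : ¬ 2 * m = 2 * J₀ := by omega
    have h4 : ¬ 2 * m - 1 = 2 * J₀ := by omega
    simp only [h3, h4, if_false]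
    exact hP.relA m n (by show 2 * J₀ + 1 ≤ 2 * m - 1; omega) trivial
  · intro m n hm _
    have hm : 2 * J₀ ≤ 2 * m := hm
    by_cases h3 : m = J₀
    · simp [h3]
    · simp only [h3, if_false]
      exact hP.relBs m n (by show 2 * J₀ + 1 ≤ 2 * m; omega) trivial
  · intro m n hm _
    have hm : 2 * J₀ ≤ 2 * m := hm
    have h4 : ¬ 2 * m + 1 = 2 * J₀ := by omega
    by_cases h3 : m = J₀
    · subst h3
      simp only [h4, if_true, if_false]
      rw [neg_neg, zpow_one, MulAut.apply_inv_self]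
    · have h5 : ¬ 2 * m = 2 * J₀ := by omega
      simp only [h3, h4, h5, if_false]
      exact hP.relB m n (by show 2 * J₀ + 1 ≤ 2 * m; omega) trivial
  · intro m n hm _
    have hm : 2 * J₀ ≤ 2 * m := hm
    have h4 : ¬ 2 * m + 1 = 2 * J₀ := by omega
    by_cases h3 : m = J₀
    · subst h3
      simp only [h4, if_true, if_false]
      have h5 := LData.relII_zpow (D := D) (e n)
      rw [hte n, zpow_neg_one, inv_mul_eq_iff_eq_mul, ← mul_assoc, ← h5,
        mul_inv_cancel_right]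
    · have h5 : ¬ 2 * m = 2 * J₀ := by omega
      simp only [h3, h4, h5, if_false]
      exact hP.relC m n (by show 2 * J₀ + 1 ≤ 2 * m; omega) trivial
  · intro m n hm _
    have hm : 2 * J₀ ≤ 2 * m - 1 := hm
    have h3 : ¬ 2 * m = 2 * J₀ := by omega
    have h4 : ¬ 2 * m - 1 = 2 * J₀ := by omega
    simp only [h3, h4, if_false]
    exact hP.relD m n (by show 2 * J₀ + 1 ≤ 2 * m - 1; omega) trivial
  · intro n
    simp only [if_true]
    rw [h1]
  · intro n
    simp only [if_true]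
    have h3 : D.c ^ e (n + a) = D.c ^ e n := by rw [← hte, ← hte, h2]
    rw [LData.c_zpow_inj (he _) (he _) h3]

/-- dropping a cut partner column -/
theorem colPer_odd_partner {J₀ a : ℤ} {l : ℤ → ℤ → E} {r : ℤ → ℤ → ℤ} {b t : ℤ → ℤ → E}
    (hP : Pat D (fun i => 2 * J₀ + 1 ≤ i) (fun _ => True) l r b t)
    (hs : r (J₀ + 1) 0 = -1)
    (h1 : ∀ n, b (2 * J₀ + 1) (n + a) = b (2 * J₀ + 1) n)
    (h2 : ∀ n, t (2 * J₀ + 1) (n + a) = t (2 * J₀ + 1) n) :
    ColPer D (2 * (J₀ + 1)) a := by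
  have hA0 : (2 * J₀ + 1 : ℤ) ≤ 2 * (J₀ + 1) := by linarith
  have hA1 : (2 * J₀ + 1 : ℤ) ≤ 2 * (J₀ + 1) - 1 := by linarith
  have hst : ∀ n, ∃ e : ℤ, (e = 1 ∨ e = -1) ∧ t (2 * (J₀ + 1)) n = D.c' ^ e := by
    intro n
    obtain ⟨-, e, he, -, h3⟩ := hP.tstat (upC_le _) upC_true (m := J₀ + 1) (n := n) hA0 trivial
    have h4 := h3 ((hP.r_const (upC_le _) upC_true hA0 trivial trivial).trans hs)
    exact ⟨e, he, h4.1⟩
  choose e he hte using hst
  have hchi : ∀ n, D.chi (t (2 * J₀ + 1) n) = D.chi (D.c' ^ (e n)) := by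
    intro n
    have h5 := congrArg D.chW (hP.relD (J₀ + 1) n hA1 trivial)
    rw [map_mul, map_mul, D.chW_io, D.chW_io, D.chW_ka, D.chW_ka, one_mul, mul_one, hte n,
      show 2 * (J₀ + 1) - 1 = 2 * J₀ + 1 by ring] at h5
    exact h5.symm
  have hee : ∀ n, e (n + a) = e n := by
    intro n
    have h3 := hchi (n + a)
    rw [h2, hchi n, map_zpow, map_zpow, D.chi_c'] at h3
    exact (LData.chi_pow_ne (he _) (he _) h3).symm
  -- the left letters in even rows are periodic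
  have hl : ∀ n, l (J₀ + 1) (2 * (n + a)) = l (J₀ + 1) (2 * n) := by
    intro n
    by_contra hne
    have h3 := hP.relD (J₀ + 1) n hA1 trivial
    have h4 := hP.relD (J₀ + 1) (n + a) hA1 trivial
    rw [hte, show 2 * (J₀ + 1) - 1 = 2 * J₀ + 1 by ring] at h3 h4
    rw [h2, hee] at h4
    -- compare the two relations
    set u := l (J₀ + 1) (2 * n) with hu
    set u' := l (J₀ + 1) (2 * (n + a)) with hu'
    set v := l (J₀ + 1) (2 * n + 1) with hv
    set v' := l (J₀ + 1) (2 * (n + a) + 1) with hv'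
    have h5 : D.ka D.c' ^ (e n) * D.io (D.M (v⁻¹ * v')) =
        D.io (D.M (u⁻¹ * u')) * D.ka D.c' ^ (e n) := by
      rw [map_zpow] at h3 h4
      have h6 : D.ka (t (2 * J₀ + 1) n) =
          D.io (D.M u) * D.ka D.c' ^ (e n) * (D.io (D.M v))⁻¹ := by
        rw [h3, mul_inv_cancel_right]
      rw [h6] at h4
      rw [map_mul, map_mul, map_mul, map_mul, map_inv, map_inv, map_inv, map_inv]
      rw [mul_assoc (D.io (D.M u))⁻¹, h4]
      group
    have h6 : u⁻¹ * u' ≠ 1 := by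
      intro h7
      exact hne (inv_mul_eq_one.1 h7).symm
    obtain ⟨-, f, hf, h7, h8⟩ := D.cstr _ _ (he n) (he n) _ _ h6 h5
    have h9 : D.chi (u⁻¹ * u') = 1 := by
      rw [map_mul, map_inv, hu, hu',
        hP.chi_const' upC_true hA1 (j := 2 * n) (j' := 2 * (n + a)) trivial trivial,
        inv_mul_cancel]
    rcases he n with h10 | h10
    · rw [(h7 h10).1, map_zpow, D.chi_c] at h9
      exact LData.ofAdd_zpow_ne_one hf h9
    · rw [(h8 h10).1, map_zpow, D.chi_c'] at h9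
      exact LData.ofAdd_zpow_ne_one hf h9
  refine ⟨l, r, b, t, hP.mono (fun i hi => ?_) (fun _ _ => trivial), ?_, ?_⟩
  · show 2 * J₀ + 1 ≤ i
    have : 2 * (J₀ + 1) ≤ i := hi
    omega
  · intro n
    have h3 := hP.relA (J₀ + 1) n hA1 trivial
    have h4 := hP.relA (J₀ + 1) (n + a) hA1 trivial
    rw [show 2 * (J₀ + 1) - 1 = 2 * J₀ + 1 by ring] at h3 h4
    rw [h1, hl, ← h3] at h4
    exact (D.uniq2 h4).2
  · intro n
    rw [hte, hte, hee]

theorem colPer_step {p a : ℤ} (h : ColPer D p a) : ∃ q, RowPer D q a := by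
  rcases Int.even_or_odd' p with ⟨J₀, rfl | rfl⟩
  · exact colPer_even h
  · obtain ⟨l, r, b, t, hP, h1, h2⟩ := h
    rcases hP.r_sg (J₀ + 1) 0 (by show 2 * J₀ + 1 ≤ 2 * (J₀ + 1); linarith) trivial with hs | hs
    · exact colPer_even (colPer_odd_base hP hs h1 h2)
    · exact colPer_even (colPer_odd_partner hP hs h1 h2)

theorem rowPer_dvd (k : ℕ) : ∀ q a : ℤ, RowPer D q a → (2 : ℤ) ^ k ∣ a := by
  induction k with
  | zero => intro q a _; simp
  | succ k ih =>
    intro q a h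
    obtain ⟨a', rfl, h1⟩ := rowPer_step h
    obtain ⟨q', h2⟩ := colPer_step h1
    have h3 := ih _ _ h2
    rw [pow_succ, mul_comm ((2 : ℤ) ^ k) 2]
    exact mul_dvd_mul_left 2 h3

/-- **A pattern on a half plane `q ≤ j` has no periodic first row.** -/
theorem rows_aperiodic {q a : ℤ} (h : RowPer D q a) : a = 0 :=
  eq_zero_of_pow_dvd fun k => rowPer_dvd k q a h

/-- **A pattern on a half plane `p ≤ i` has no periodic first column.** -/
theorem cols_aperiodic {p a : ℤ} (h : ColPer D p a) : a = 0 := by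
  obtain ⟨q, h1⟩ := colPer_step h
  exact rows_aperiodic h1

end

end Pool.Agent.FlatClosing
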