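import Pool.Agent.FlatClosing.Core

/-!
# The basic construction: chain metric, action, cells, star lemma (MP_ef842e_al)

For a stabiliser system `S : StabSys G Q`:
* `S.U` is a metric space (chain distance), `G` acts on it by isometries;
* `S.isometry_pt` : every cell is isometrically embedded, `S.lipschitz_fold` : the fold map is
  `1`-Lipschitz;
* `S.star` : near the point `p` of the cell `g` the space is the union of the cells `g k`,
  `k ∈ S.St p`;
* `S.exists_chain_lt`, `S.dist_le_of_chain` : the distance is the infimum of the lengths of chains.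
-/

set_option autoImplicit false

namespace Pool.Agent.FlatClosing

namespace StabSys

variable {G : Type} [Group G] {Q : Type} [MetricSpace Q] (S : StabSys G Q)

variable {S}

theorem Chain.nonneg {x y : S.U} {L : ℝ} (h : S.Chain x y L) : 0 ≤ L := by
  induction h with
  | nil x => exact le_refl 0
  | cons g p q y L _ ih => exact add_nonneg dist_nonneg ih

theorem Chain.trans {x y z : S.U} {L M : ℝ} (h : S.Chain x y L) (h' : S.Chain y z M) :
    S.Chain x z (L + M) := by
  induction h with
  | nil x => simpa using h'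
  | cons g p q y L _ ih =>
    rw [add_assoc]
    exact Chain.cons g p q _ _ (ih h')

variable (S)

theorem chain_single (g : G) (p q : Q) : S.Chain (S.pt g p) (S.pt g q) (dist p q) := by
  have := Chain.cons g p q _ _ (Chain.nil (S.pt g q))
  simpa using this

variable {S}

theorem Chain.symm {x y : S.U} {L : ℝ} (h : S.Chain x y L) : S.Chain y x L := by
  induction h with
  | nil x => exact Chain.nil x
  | cons g p q y L _ ih =>
    have h1 := S.chain_single g q p
    rw [dist_comm] at h1
    rw [add_comm]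
    exact ih.trans h1

theorem Chain.smul (k : G) {x y : S.U} {L : ℝ} (h : S.Chain x y L) :
    S.Chain (k • x) (k • y) L := by
  induction h with
  | nil x => exact Chain.nil _
  | cons g p q y L _ ih =>
    rw [smul_pt] at ih ⊢
    exact Chain.cons (k * g) p q _ _ ih

theorem Chain.dist_fold_le {x y : S.U} {L : ℝ} (h : S.Chain x y L) :
    dist (S.fold x) (S.fold y) ≤ L := by
  induction h with
  | nil x => simp
  | cons g p q y L _ ih =>
    rw [fold_pt] at ih ⊢
    exact (dist_triangle _ q _).trans (by linarith)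

variable (S)

/-- The group elements `k` such that `g` and `g * k` can be joined by a chain. -/
def joinable : Subgroup G where
  carrier := {k | ∀ (g : G) (p q : Q), ∃ L, S.Chain (S.pt g p) (S.pt (g * k) q) L}
  one_mem' := by
    intro g p q
    rw [mul_one]
    exact ⟨_, S.chain_single g p q⟩
  mul_mem' := by
    intro a b ha hb g p q
    obtain ⟨L, hL⟩ := ha g p p
    obtain ⟨M, hM⟩ := hb (g * a) p q
    rw [← mul_assoc]
    exact ⟨_, hL.trans hM⟩
  inv_mem' := by
    intro a ha g p q
    obtain ⟨L, hL⟩ := ha (g * a⁻¹) q p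
    rw [inv_mul_cancel_right] at hL
    exact ⟨L, hL.symm⟩

theorem exists_chain (x y : S.U) : ∃ L, S.Chain x y L := by
  have h1 : S.joinable = ⊤ := by
    apply le_antisymm le_top
    rw [← S.gen]
    apply iSup_le
    intro r k hk g p q
    have h2 : S.pt g r = S.pt (g * k) r := by
      rw [pt_eq_pt]
      exact ⟨rfl, by simpa using hk⟩
    have h3 := S.chain_single g p r
    rw [h2] at h3
    exact ⟨_, h3.trans (S.chain_single (g * k) r q)⟩
  obtain ⟨g, p, rfl⟩ := S.exists_rep x
  obtain ⟨h, q, rfl⟩ := S.exists_rep y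
  have h2 : g⁻¹ * h ∈ S.joinable := by rw [h1]; trivial
  obtain ⟨L, hL⟩ := h2 g p q
  rw [mul_inv_cancel_left] at hL
  exact ⟨L, hL⟩

theorem bddBelow_chain (x y : S.U) : BddBelow {L | S.Chain x y L} :=
  ⟨0, fun _ h => Chain.nonneg h⟩

theorem cdist_le {x y : S.U} {L : ℝ} (h : S.Chain x y L) : S.cdist x y ≤ L :=
  csInf_le (S.bddBelow_chain x y) h

theorem le_cdist {x y : S.U} {r : ℝ} (h : ∀ L, S.Chain x y L → r ≤ L) : r ≤ S.cdist x y :=
  le_csInf (S.exists_chain x y) h

theorem cdist_nonneg (x y : S.U) : 0 ≤ S.cdist x y := S.le_cdist fun _ h => h.nonneg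

theorem cdist_self (x : S.U) : S.cdist x x = 0 :=
  le_antisymm (S.cdist_le (Chain.nil x)) (S.cdist_nonneg x x)

theorem cdist_comm (x y : S.U) : S.cdist x y = S.cdist y x :=
  le_antisymm (S.le_cdist fun _ h => S.cdist_le h.symm) (S.le_cdist fun _ h => S.cdist_le h.symm)

theorem cdist_triangle (x y z : S.U) : S.cdist x z ≤ S.cdist x y + S.cdist y z := by
  have h1 : ∀ L, S.Chain x y L → S.cdist x z - L ≤ S.cdist y z := by
    intro L hL
    apply S.le_cdist
    intro M hM
    have := S.cdist_le (hL.trans hM)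
    linarith
  have h2 : S.cdist x z - S.cdist y z ≤ S.cdist x y := by
    apply S.le_cdist
    intro L hL
    have := h1 L hL
    linarith
  linarith

theorem dist_fold_le_cdist (x y : S.U) : dist (S.fold x) (S.fold y) ≤ S.cdist x y :=
  S.le_cdist fun _ h => h.dist_fold_le

theorem cdist_pt (g : G) (p q : Q) : S.cdist (S.pt g p) (S.pt g q) = dist p q := by
  apply le_antisymm (S.cdist_le (S.chain_single g p q))
  have := S.dist_fold_le_cdist (S.pt g p) (S.pt g q)
  simpa using this

theorem exists_chain_of_cdist_lt {x y : S.U} {r : ℝ} (h : S.cdist x y < r) :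
    ∃ L, S.Chain x y L ∧ L < r :=
  exists_lt_of_csInf_lt (S.exists_chain x y) h

variable {S}

/-- Short chains starting near the point `p` of the cell `g` stay in the cells `g * k`,
`k ∈ S.St p`. -/
theorem Chain.star {p : Q} {δ : ℝ} (hδ : ∀ q : Q, dist p q < δ → S.St q ≤ S.St p) (g : G)
    {x y : S.U} {L : ℝ} (h : S.Chain x y L) :
    ∀ (k : G) (r : Q), k ∈ S.St p → x = S.pt (g * k) r → dist p r + L < δ →
      ∃ k' ∈ S.St p, y = S.pt (g * k') (S.fold y) := by
  induction h with
  | nil x =>
    intro k r hk hx _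
    exact ⟨k, hk, by rw [hx, fold_pt]⟩
  | cons g0 a b y L hc ih =>
    intro k r hk hx hL
    rw [pt_eq_pt] at hx
    obtain ⟨rfl, hx⟩ := hx
    have hL0 := hc.nonneg
    have hab : 0 ≤ dist a b := dist_nonneg
    have h1 : S.St a ≤ S.St p := hδ a (by linarith)
    have h2 : g⁻¹ * g0 ∈ S.St p := by
      have h3 := (S.St p).mul_mem hk ((S.St p).inv_mem (h1 hx))
      have h4 : k * (g0⁻¹ * (g * k))⁻¹ = g⁻¹ * g0 := by group
      rwa [h4] at h3
    refine ih (g⁻¹ * g0) b h2 (by rw [mul_inv_cancel_left]) ?_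
    have := dist_triangle p a b
    linarith

variable (S)

theorem cdist_star {p : Q} {δ : ℝ} (hδ : ∀ q : Q, dist p q < δ → S.St q ≤ S.St p) (g : G)
    (y : S.U) (h : S.cdist (S.pt g p) y < δ) :
    ∃ k ∈ S.St p, y = S.pt (g * k) (S.fold y) ∧ S.cdist (S.pt g p) y = dist p (S.fold y) := by
  obtain ⟨L, hL, hlt⟩ := S.exists_chain_of_cdist_lt h
  obtain ⟨k, hk, hy⟩ := hL.star hδ g 1 p (S.St p).one_mem (by rw [mul_one])
    (by rw [dist_self, zero_add]; exact hlt)
  refine ⟨k, hk, hy, ?_⟩
  have h1 : S.pt g p = S.pt (g * k) p := by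
    rw [pt_eq_pt]
    exact ⟨rfl, by simpa using hk⟩
  rw [h1]
  nth_rw 1 [hy]
  exact S.cdist_pt _ _ _

theorem eq_of_cdist_eq_zero {x y : S.U} (h : S.cdist x y = 0) : x = y := by
  obtain ⟨g, p, rfl⟩ := S.exists_rep x
  obtain ⟨δ, hδ, hδ'⟩ := S.usc p
  obtain ⟨k, hk, hy, hd⟩ := S.cdist_star hδ' g y (by rw [h]; exact hδ)
  rw [h] at hd
  have h1 : p = S.fold y := eq_of_dist_eq_zero hd.symm
  rw [hy, pt_eq_pt]
  exact ⟨h1, by simpa using hk⟩

noncomputable instance : MetricSpace S.U where
  dist := S.cdist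
  dist_self := S.cdist_self
  dist_comm := S.cdist_comm
  dist_triangle := S.cdist_triangle
  eq_of_dist_eq_zero := S.eq_of_cdist_eq_zero

theorem dist_eq_cdist (x y : S.U) : dist x y = S.cdist x y := rfl

theorem dist_le_of_chain {x y : S.U} {L : ℝ} (h : S.Chain x y L) : dist x y ≤ L := S.cdist_le h

theorem le_dist_of_chain {x y : S.U} {r : ℝ} (h : ∀ L, S.Chain x y L → r ≤ L) : r ≤ dist x y :=
  S.le_cdist h

theorem exists_chain_lt {x y : S.U} {r : ℝ} (h : dist x y < r) : ∃ L, S.Chain x y L ∧ L < r :=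
  S.exists_chain_of_cdist_lt h

/-- The cells are isometrically embedded. -/
@[simp] theorem dist_pt (g : G) (p q : Q) : dist (S.pt g p) (S.pt g q) = dist p q :=
  S.cdist_pt g p q

theorem isometry_pt (g : G) : Isometry (S.pt g) := Isometry.of_dist_eq (S.dist_pt g)

theorem dist_fold_le (x y : S.U) : dist (S.fold x) (S.fold y) ≤ dist x y :=
  S.dist_fold_le_cdist x y

theorem lipschitz_fold : LipschitzWith 1 S.fold :=
  LipschitzWith.of_dist_le_mul fun x y => by simpa using S.dist_fold_le x y

theorem continuous_fold : Continuous S.fold := S.lipschitz_fold.continuous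

@[simp] theorem fold_smul (g : G) (x : S.U) : S.fold (g • x) = S.fold x := by
  obtain ⟨h, p, rfl⟩ := S.exists_rep x
  simp

instance : IsIsometricSMul G S.U where
  isometry_smul k := by
    apply Isometry.of_dist_eq
    intro x y
    apply le_antisymm
    · exact S.le_dist_of_chain fun L hL => S.dist_le_of_chain (hL.smul k)
    · apply S.le_dist_of_chain
      intro L hL
      have := hL.smul k⁻¹
      rw [inv_smul_smul, inv_smul_smul] at this
      exact S.dist_le_of_chain this

/-- **Star lemma.** A point at distance less than `δ` from the point `p` of the cell `g` lies in a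
cell `g * k` with `k ∈ S.St p`, where `δ` is such that `S.St q ≤ S.St p` for `dist p q < δ`. -/
theorem star {p : Q} {δ : ℝ} (hδ : ∀ q : Q, dist p q < δ → S.St q ≤ S.St p) (g : G)
    (y : S.U) (h : dist (S.pt g p) y < δ) :
    ∃ k ∈ S.St p, y = S.pt (g * k) (S.fold y) ∧ dist (S.pt g p) y = dist p (S.fold y) :=
  S.cdist_star hδ g y h

theorem pt_mul_mem {g k : G} {p : Q} (hk : k ∈ S.St p) : S.pt (g * k) p = S.pt g p := by
  rw [eq_comm, pt_eq_pt]
  exact ⟨rfl, by simpa using hk⟩

/-- The stabiliser of a point. -/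
theorem smul_pt_eq_iff (k g : G) (p : Q) : k • S.pt g p = S.pt g p ↔ g⁻¹ * k * g ∈ S.St p := by
  rw [smul_pt, eq_comm, pt_eq_pt, mul_assoc]
  simp

/-- The retraction onto the cell `g`. -/
def retr (g : G) (x : S.U) : S.U := S.pt g (S.fold x)

theorem dist_retr_le (g : G) (x y : S.U) : dist (S.retr g x) (S.retr g y) ≤ dist x y := by
  unfold retr
  rw [dist_pt]
  exact S.dist_fold_le x y

end StabSys

end Pool.Agent.FlatClosing
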