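import Mathlib

/-!
# From an isometrically embedded planar region to a grid of squares (FLATGRID)

`FoldSq X Γ`: a metric space `X` covered by unit squares `q g`, `g : Γ`, with a global folding map
`(cs, ct) : X → [0,1]²`.  We analyse isometric maps `f` from a closed half-plane `U ⊆ ℝ²` to `X`.
-/

set_option autoImplicit false

namespace Pool.Agent.FlatClosing

open Set Filter Topology

/-- Squares with a global folding map. -/
structure FoldSq (X : Type*) [MetricSpace X] (Γ : Type*) where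
  /-- the charts, used for `s, t ∈ [0,1]` -/
  q : Γ → ℝ → ℝ → X
  /-- first folding coordinate -/
  cs : X → ℝ
  /-- second folding coordinate -/
  ct : X → ℝ
  cs_cont : Continuous cs
  ct_cont : Continuous ct
  cs_q : ∀ g, ∀ s ∈ Icc (0:ℝ) 1, ∀ t ∈ Icc (0:ℝ) 1, cs (q g s t) = s
  ct_q : ∀ g, ∀ s ∈ Icc (0:ℝ) 1, ∀ t ∈ Icc (0:ℝ) 1, ct (q g s t) = t
  dist_q : ∀ g, ∀ s ∈ Icc (0:ℝ) 1, ∀ t ∈ Icc (0:ℝ) 1, ∀ s' ∈ Icc (0:ℝ) 1, ∀ t' ∈ Icc (0:ℝ) 1,
    dist (q g s t) (q g s' t') ^ 2 = (s - s') ^ 2 + (t - t') ^ 2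
  cover : ∀ x, cs x ∈ Icc (0:ℝ) 1 ∧ ct x ∈ Icc (0:ℝ) 1 ∧ ∃ g, q g (cs x) (ct x) = x
  isOpen_sq : ∀ g, IsOpen {x | ∃ s ∈ Ioo (0:ℝ) 1, ∃ t ∈ Ioo (0:ℝ) 1, q g s t = x}
  disj : ∀ g h, ∀ s ∈ Ioo (0:ℝ) 1, ∀ t ∈ Ioo (0:ℝ) 1, q g s t = q h s t → g = h
  locfin : ∀ x, ∃ r > 0, {g | ∃ s ∈ Icc (0:ℝ) 1, ∃ t ∈ Icc (0:ℝ) 1, dist (q g s t) x < r}.Finite

/-- affine form -/
def AF (a b c : ℝ) (w : ℝ × ℝ) : ℝ := a * w.1 + b * w.2 + c

theorem AF_continuous (a b c : ℝ) : Continuous (AF a b c) := by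
  unfold AF; fun_prop

/-- The closed half-plane `α x + β y ≥ γ`. -/
def HP (α β γ : ℝ) : Set (ℝ × ℝ) := {w | γ ≤ α * w.1 + β * w.2}

/-- The open half-plane `α x + β y > γ`. -/
def HPo (α β γ : ℝ) : Set (ℝ × ℝ) := {w | γ < α * w.1 + β * w.2}

/-- `f` is an isometric embedding of `U` (Euclidean metric) into `X`. -/
def IsoOn {X : Type*} [MetricSpace X] (f : ℝ × ℝ → X) (U : Set (ℝ × ℝ)) : Prop :=
  ∀ w ∈ U, ∀ z ∈ U, dist (f w) (f z) ^ 2 = (w.1 - z.1) ^ 2 + (w.2 - z.2) ^ 2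

variable {X : Type*} [MetricSpace X] {Γ : Type*}

theorem isOpen_HPo (α β γ : ℝ) : IsOpen (HPo α β γ) := by
  unfold HPo
  exact isOpen_lt continuous_const (by fun_prop)

theorem isClosed_HP (α β γ : ℝ) : IsClosed (HP α β γ) := by
  unfold HP
  exact isClosed_le continuous_const (by fun_prop)

theorem HPo_subset (α β γ : ℝ) : HPo α β γ ⊆ HP α β γ := by
  intro w h
  exact le_of_lt (show γ < α * w.1 + β * w.2 from h)

theorem IsoOn.continuousOn {f : ℝ × ℝ → X} {U : Set (ℝ × ℝ)} (hf : IsoOn f U) :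
    ContinuousOn f U := by
  rw [Metric.continuousOn_iff]
  intro b hb ε hε
  refine ⟨ε / 2, by positivity, fun a ha hab => ?_⟩
  have h1 := hf a ha b hb
  rw [Prod.dist_eq, max_lt_iff, Real.dist_eq, Real.dist_eq] at hab
  have h2 : (a.1 - b.1) ^ 2 < (ε / 2) ^ 2 := by
    rw [← sq_abs]; exact pow_lt_pow_left₀ hab.1 (abs_nonneg _) two_ne_zero
  have h3 : (a.2 - b.2) ^ 2 < (ε / 2) ^ 2 := by
    rw [← sq_abs]; exact pow_lt_pow_left₀ hab.2 (abs_nonneg _) two_ne_zero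
  have h4 : dist (f a) (f b) ^ 2 < ε ^ 2 := by nlinarith
  exact lt_of_pow_lt_pow_left₀ 2 hε.le h4

namespace FoldSq

variable (D : FoldSq X Γ)

/-- `x` lies in the open square `g`. -/
def InSq (g : Γ) (x : X) : Prop := ∃ s ∈ Ioo (0:ℝ) 1, ∃ t ∈ Ioo (0:ℝ) 1, D.q g s t = x

theorem InSq.eq {D : FoldSq X Γ} {g : Γ} {x : X} (h : D.InSq g x) :
    D.cs x ∈ Ioo (0:ℝ) 1 ∧ D.ct x ∈ Ioo (0:ℝ) 1 ∧ D.q g (D.cs x) (D.ct x) = x := by
  obtain ⟨s, hs, t, ht, rfl⟩ := h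
  rw [D.cs_q g s (Ioo_subset_Icc_self hs) t (Ioo_subset_Icc_self ht),
    D.ct_q g s (Ioo_subset_Icc_self hs) t (Ioo_subset_Icc_self ht)]
  exact ⟨hs, ht, rfl⟩

theorem InSq.unique {D : FoldSq X Γ} {g h : Γ} {x : X} (hg : D.InSq g x) (hh : D.InSq h x) :
    g = h := by
  obtain ⟨h1, h2, h3⟩ := hg.eq
  obtain ⟨-, -, h6⟩ := hh.eq
  exact D.disj g h _ h1 _ h2 (h3.trans h6.symm)

theorem isOpen_InSq (g : Γ) : IsOpen {x | D.InSq g x} := D.isOpen_sq g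

/-- If a point is not in an open square then one of its fold coordinates is `0` or `1`. -/
theorem boundary_of_not_inSq {x : X} (h : ∀ g, ¬ D.InSq g x) :
    D.cs x = 0 ∨ D.cs x = 1 ∨ D.ct x = 0 ∨ D.ct x = 1 := by
  obtain ⟨h1, h2, g, hg⟩ := D.cover x
  by_contra hc
  push Not at hc
  obtain ⟨c1, c2, c3, c4⟩ := hc
  refine h g ⟨D.cs x, ⟨lt_of_le_of_ne h1.1 (Ne.symm c1), lt_of_le_of_ne h1.2 c2⟩, D.ct x,
    ⟨lt_of_le_of_ne h2.1 (Ne.symm c3), lt_of_le_of_ne h2.2 c4⟩, hg⟩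

theorem q_cont (g : Γ) : ContinuousOn (fun p : ℝ × ℝ => D.q g p.1 p.2) (Icc 0 1 ×ˢ Icc 0 1) :=
  IsoOn.continuousOn (f := fun p : ℝ × ℝ => D.q g p.1 p.2)
    (fun _ hw _ hz => D.dist_q g _ hw.1 _ hw.2 _ hz.1 _ hz.2)

end FoldSq

/-! ### Collinearity on the 1-skeleton -/

/-- Three points of the plane with the pairwise distances of three reals are collinear. -/
theorem cross_eq_zero {w1 w2 w3 : ℝ × ℝ} {r1 r2 r3 : ℝ}
    (h12 : (w1.1 - w2.1) ^ 2 + (w1.2 - w2.2) ^ 2 = (r1 - r2) ^ 2)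
    (h13 : (w1.1 - w3.1) ^ 2 + (w1.2 - w3.2) ^ 2 = (r1 - r3) ^ 2)
    (h23 : (w2.1 - w3.1) ^ 2 + (w2.2 - w3.2) ^ 2 = (r2 - r3) ^ 2) :
    (w2.1 - w1.1) * (w3.2 - w1.2) - (w2.2 - w1.2) * (w3.1 - w1.1) = 0 := by
  have hin : (w2.1 - w1.1) * (w3.1 - w1.1) + (w2.2 - w1.2) * (w3.2 - w1.2) =
      (r2 - r1) * (r3 - r1) := by nlinarith
  have key : ((w2.1 - w1.1) * (w3.2 - w1.2) - (w2.2 - w1.2) * (w3.1 - w1.1)) ^ 2 =
      ((w1.1 - w2.1) ^ 2 + (w1.2 - w2.2) ^ 2) * ((w1.1 - w3.1) ^ 2 + (w1.2 - w3.2) ^ 2) -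
      ((w2.1 - w1.1) * (w3.1 - w1.1) + (w2.2 - w1.2) * (w3.2 - w1.2)) ^ 2 := by ring
  rw [h12, h13, hin] at key
  have : ((w2.1 - w1.1) * (w3.2 - w1.2) - (w2.2 - w1.2) * (w3.1 - w1.1)) ^ 2 = 0 := by
    rw [key]; ring
  exact pow_eq_zero_iff two_ne_zero |>.mp this

/-- In every nonempty open part of `U` there is a point mapped into an open square. -/
theorem exists_inSq (D : FoldSq X Γ) {f : ℝ × ℝ → X} {U : Set (ℝ × ℝ)} (hf : IsoOn f U)
    {O : Set (ℝ × ℝ)} (hO : IsOpen O) (hOU : O ⊆ U) {w0 : ℝ × ℝ} (hw0 : w0 ∈ O) :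
    ∃ w ∈ O, ∃ g, D.InSq g (f w) := by
  by_contra hc
  push Not at hc
  -- local finiteness
  obtain ⟨r, hr, hfin⟩ := D.locfin (f w0)
  -- points on a small parabola
  let P : ℝ → ℝ × ℝ := fun t => (w0.1 + t, w0.2 + t ^ 2)
  have hPc : Continuous P := by
    change Continuous (fun t : ℝ => (w0.1 + t, w0.2 + t ^ 2)); fun_prop
  have hP0 : P 0 = w0 := by
    change (w0.1 + 0, w0.2 + 0 ^ 2) = w0
    ext <;> simp
  have hmemO : ∀ᶠ t in 𝓝 (0:ℝ), P t ∈ O := by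
    apply hPc.continuousAt.eventually_mem
    rw [hP0]; exact hO.mem_nhds hw0
  have hnear : ∀ᶠ t in 𝓝 (0:ℝ), dist (f (P t)) (f w0) < r := by
    have hc1 : ContinuousAt f w0 :=
      (hf.continuousOn).continuousAt (mem_of_superset (hO.mem_nhds hw0) hOU)
    have hc2 : ContinuousAt (fun t => f (P t)) 0 := by
      apply ContinuousAt.comp (f := P) (g := f)
      · rw [hP0]; exact hc1
      · exact hPc.continuousAt
    have := (Metric.continuousAt_iff.mp hc2) r hr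
    obtain ⟨δ, hδ, h⟩ := this
    refine Filter.mem_of_superset (Metric.ball_mem_nhds _ hδ) (fun t ht => ?_)
    have := h ht
    rwa [hP0] at this
  obtain ⟨δ, hδ, hball⟩ := Metric.eventually_nhds_iff.mp (hmemO.and hnear)
  -- every point of the parabola piece lies on a side of a square of a finite set
  let F : Set (Γ × Fin 4) := {g | ∃ s ∈ Icc (0:ℝ) 1, ∃ t ∈ Icc (0:ℝ) 1,
    dist (D.q g s t) (f w0) < r} ×ˢ univ
  have hFfin : F.Finite := hfin.prod (Set.finite_univ)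
  have hcov : ∀ t ∈ Ioo (0:ℝ) δ, ∃ p ∈ F, (D.q p.1 (D.cs (f (P t))) (D.ct (f (P t))) = f (P t)) ∧
      ((p.2 = 0 ∧ D.cs (f (P t)) = 0) ∨ (p.2 = 1 ∧ D.cs (f (P t)) = 1) ∨
      (p.2 = 2 ∧ D.ct (f (P t)) = 0) ∨ (p.2 = 3 ∧ D.ct (f (P t)) = 1)) := by
    intro t ht
    have hdt : dist t 0 < δ := by
      rw [Real.dist_eq, sub_zero, abs_of_pos ht.1]; exact ht.2
    obtain ⟨h1, h2⟩ := hball hdt
    obtain ⟨c1, c2, g, hg⟩ := D.cover (f (P t))
    have hgF : g ∈ {g | ∃ s ∈ Icc (0:ℝ) 1, ∃ t ∈ Icc (0:ℝ) 1,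
        dist (D.q g s t) (f w0) < r} := ⟨_, c1, _, c2, by rw [hg]; exact h2⟩
    rcases D.boundary_of_not_inSq (hc (P t) h1) with h | h | h | h
    · exact ⟨(g, 0), ⟨hgF, trivial⟩, hg, Or.inl ⟨rfl, h⟩⟩
    · exact ⟨(g, 1), ⟨hgF, trivial⟩, hg, Or.inr (Or.inl ⟨rfl, h⟩)⟩
    · exact ⟨(g, 2), ⟨hgF, trivial⟩, hg, Or.inr (Or.inr (Or.inl ⟨rfl, h⟩))⟩
    · exact ⟨(g, 3), ⟨hgF, trivial⟩, hg, Or.inr (Or.inr (Or.inr ⟨rfl, h⟩))⟩
  have : Nonempty Γ := ⟨(D.cover (f w0)).2.2.choose⟩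
  choose! pk hpkF hpk using hcov
  -- pigeonhole
  have hinf : (Ioo (0:ℝ) δ).Infinite := Ioo_infinite hδ
  obtain ⟨p, hp⟩ : ∃ p, ({t ∈ Ioo (0:ℝ) δ | pk t = p}).Infinite := by
    by_contra hcon
    push Not at hcon
    apply hinf
    have : Ioo (0:ℝ) δ = ⋃ p ∈ F, {t ∈ Ioo (0:ℝ) δ | pk t = p} := by
      ext t
      simp only [mem_iUnion, Set.mem_ofPred_eq, exists_prop]
      constructor
      · intro ht; exact ⟨pk t, hpkF t ht, ht, rfl⟩
      · rintro ⟨_, _, ht, _⟩; exact ht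
    rw [this]
    exact hFfin.biUnion (fun p _ => hcon p)
  obtain ⟨T, hTsub, hTcard⟩ := hp.exists_subset_card_eq 3
  obtain ⟨t1, t2, t3, h12, h13, h23, rfl⟩ := Finset.card_eq_three.mp hTcard
  have m1 : t1 ∈ {t ∈ Ioo (0:ℝ) δ | pk t = p} := hTsub (by simp)
  have m2 : t2 ∈ {t ∈ Ioo (0:ℝ) δ | pk t = p} := hTsub (by simp)
  have m3 : t3 ∈ {t ∈ Ioo (0:ℝ) δ | pk t = p} := hTsub (by simp)
  obtain ⟨m1, e1⟩ := m1
  obtain ⟨m2, e2⟩ := m2
  obtain ⟨m3, e3⟩ := m3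
  have k1 := hpk t1 m1
  have k2 := hpk t2 m2
  have k3 := hpk t3 m3
  rw [e1] at k1
  rw [e2] at k2
  rw [e3] at k3
  obtain ⟨q1, s1⟩ := k1
  obtain ⟨q2, s2⟩ := k2
  obtain ⟨q3, s3⟩ := k3
  have hU : ∀ t ∈ Ioo (0:ℝ) δ, P t ∈ U := fun t ht => hOU (hball (by
    rw [Real.dist_eq, sub_zero, abs_of_pos ht.1]; exact ht.2)).1
  have C := fun x => D.cover (f x)
  -- distances
  have dd : ∀ a b, a ∈ Ioo (0:ℝ) δ → b ∈ Ioo (0:ℝ) δ →
      D.q p.1 (D.cs (f (P a))) (D.ct (f (P a))) = f (P a) →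
      D.q p.1 (D.cs (f (P b))) (D.ct (f (P b))) = f (P b) →
      ((P a).1 - (P b).1) ^ 2 + ((P a).2 - (P b).2) ^ 2 =
      (D.cs (f (P a)) - D.cs (f (P b))) ^ 2 + (D.ct (f (P a)) - D.ct (f (P b))) ^ 2 := by
    intro a b ha hb hqa hqb
    rw [← hf _ (hU a ha) _ (hU b hb), ← D.dist_q p.1 _ (C (P a)).1 _ (C (P a)).2.1 _ (C (P b)).1 _
      (C (P b)).2.1, hqa, hqb]
  have d12 := dd t1 t2 m1 m2 q1 q2
  have d13 := dd t1 t3 m1 m3 q1 q3
  have d23 := dd t2 t3 m2 m3 q2 q3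
  have hcross : ((P t2).1 - (P t1).1) * ((P t3).2 - (P t1).2) -
      ((P t2).2 - (P t1).2) * ((P t3).1 - (P t1).1) = 0 := by
    rcases s1 with ⟨a1, b1⟩ | ⟨a1, b1⟩ | ⟨a1, b1⟩ | ⟨a1, b1⟩
    · have b2 : D.cs (f (P t2)) = 0 := by
        rcases s2 with ⟨a, b⟩ | ⟨a, b⟩ | ⟨a, b⟩ | ⟨a, b⟩
        · exact b
        · exact absurd (a1.symm.trans a) (by decide)
        · exact absurd (a1.symm.trans a) (by decide)
        · exact absurd (a1.symm.trans a) (by decide)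
      have b3 : D.cs (f (P t3)) = 0 := by
        rcases s3 with ⟨a, b⟩ | ⟨a, b⟩ | ⟨a, b⟩ | ⟨a, b⟩
        · exact b
        · exact absurd (a1.symm.trans a) (by decide)
        · exact absurd (a1.symm.trans a) (by decide)
        · exact absurd (a1.symm.trans a) (by decide)
      rw [b1, b2] at d12
      rw [b1, b3] at d13
      rw [b2, b3] at d23
      exact cross_eq_zero (r1 := D.ct (f (P t1))) (r2 := D.ct (f (P t2)))
        (r3 := D.ct (f (P t3))) (by linarith) (by linarith) (by linarith)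
    · have b2 : D.cs (f (P t2)) = 1 := by
        rcases s2 with ⟨a, b⟩ | ⟨a, b⟩ | ⟨a, b⟩ | ⟨a, b⟩
        · exact absurd (a1.symm.trans a) (by decide)
        · exact b
        · exact absurd (a1.symm.trans a) (by decide)
        · exact absurd (a1.symm.trans a) (by decide)
      have b3 : D.cs (f (P t3)) = 1 := by
        rcases s3 with ⟨a, b⟩ | ⟨a, b⟩ | ⟨a, b⟩ | ⟨a, b⟩
        · exact absurd (a1.symm.trans a) (by decide)
        · exact b
        · exact absurd (a1.symm.trans a) (by decide)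
        · exact absurd (a1.symm.trans a) (by decide)
      rw [b1, b2] at d12
      rw [b1, b3] at d13
      rw [b2, b3] at d23
      exact cross_eq_zero (r1 := D.ct (f (P t1))) (r2 := D.ct (f (P t2)))
        (r3 := D.ct (f (P t3))) (by linarith) (by linarith) (by linarith)
    · have b2 : D.ct (f (P t2)) = 0 := by
        rcases s2 with ⟨a, b⟩ | ⟨a, b⟩ | ⟨a, b⟩ | ⟨a, b⟩
        · exact absurd (a1.symm.trans a) (by decide)
        · exact absurd (a1.symm.trans a) (by decide)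
        · exact b
        · exact absurd (a1.symm.trans a) (by decide)
      have b3 : D.ct (f (P t3)) = 0 := by
        rcases s3 with ⟨a, b⟩ | ⟨a, b⟩ | ⟨a, b⟩ | ⟨a, b⟩
        · exact absurd (a1.symm.trans a) (by decide)
        · exact absurd (a1.symm.trans a) (by decide)
        · exact b
        · exact absurd (a1.symm.trans a) (by decide)
      rw [b1, b2] at d12
      rw [b1, b3] at d13
      rw [b2, b3] at d23
      exact cross_eq_zero (r1 := D.cs (f (P t1))) (r2 := D.cs (f (P t2)))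
        (r3 := D.cs (f (P t3))) (by linarith) (by linarith) (by linarith)
    · have b2 : D.ct (f (P t2)) = 1 := by
        rcases s2 with ⟨a, b⟩ | ⟨a, b⟩ | ⟨a, b⟩ | ⟨a, b⟩
        · exact absurd (a1.symm.trans a) (by decide)
        · exact absurd (a1.symm.trans a) (by decide)
        · exact absurd (a1.symm.trans a) (by decide)
        · exact b
      have b3 : D.ct (f (P t3)) = 1 := by
        rcases s3 with ⟨a, b⟩ | ⟨a, b⟩ | ⟨a, b⟩ | ⟨a, b⟩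
        · exact absurd (a1.symm.trans a) (by decide)
        · exact absurd (a1.symm.trans a) (by decide)
        · exact absurd (a1.symm.trans a) (by decide)
        · exact b
      rw [b1, b2] at d12
      rw [b1, b3] at d13
      rw [b2, b3] at d23
      exact cross_eq_zero (r1 := D.cs (f (P t1))) (r2 := D.cs (f (P t2)))
        (r3 := D.cs (f (P t3))) (by linarith) (by linarith) (by linarith)
  have hcr : (t2 - t1) * (t3 - t1) * (t3 - t2) = 0 := by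
    have e : ((w0.1 + t2) - (w0.1 + t1)) * ((w0.2 + t3 ^ 2) - (w0.2 + t1 ^ 2)) -
      ((w0.2 + t2 ^ 2) - (w0.2 + t1 ^ 2)) * ((w0.1 + t3) - (w0.1 + t1)) = 0 := hcross
    nlinarith
  rcases mul_eq_zero.mp hcr with h | h
  · rcases mul_eq_zero.mp h with h | h
    · exact h12 (by linarith)
    · exact h13 (by linarith)
  · exact h23 (by linarith)

/-! ### Cells -/

/-- `f⁻¹(open square g) ∩ U` is the full open unit square `0 < φ, ψ < 1` of `U`, with fold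
coordinates `φ`, `ψ` (affine orthonormal forms). -/
structure IsCell (D : FoldSq X Γ) (f : ℝ × ℝ → X) (U : Set (ℝ × ℝ)) (g : Γ)
    (φ ψ : ℝ × ℝ → ℝ) : Prop where
  aff : ∃ a b c a' b' c' : ℝ, φ = AF a b c ∧ ψ = AF a' b' c' ∧ a ^ 2 + b ^ 2 = 1 ∧
    a' ^ 2 + b' ^ 2 = 1 ∧ a * a' + b * b' = 0
  ne : ∃ w ∈ interior U, φ w ∈ Ioo (0:ℝ) 1 ∧ ψ w ∈ Ioo (0:ℝ) 1
  eq : ∀ w ∈ U, φ w ∈ Icc (0:ℝ) 1 → ψ w ∈ Icc (0:ℝ) 1 → f w = D.q g (φ w) (ψ w)
  coord : ∀ w ∈ U, D.InSq g (f w) → D.cs (f w) = φ w ∧ D.ct (f w) = ψ w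

/-- An isometric map on a set containing a corner frame is affine orthonormal. -/
theorem frame {F G : ℝ × ℝ → ℝ} {R : Set (ℝ × ℝ)}
    (hiso : ∀ w ∈ R, ∀ z ∈ R, (F w - F z) ^ 2 + (G w - G z) ^ 2 =
      (w.1 - z.1) ^ 2 + (w.2 - z.2) ^ 2)
    {w1 : ℝ × ℝ} {r : ℝ} (hr : 0 < r) (h1 : w1 ∈ R) (h2 : (w1.1 + r, w1.2) ∈ R)
    (h3 : (w1.1, w1.2 + r) ∈ R) :
    ∃ a b c a' b' c' : ℝ, a ^ 2 + b ^ 2 = 1 ∧ a' ^ 2 + b' ^ 2 = 1 ∧ a * a' + b * b' = 0 ∧
      ∀ w ∈ R, F w = AF a b c w ∧ G w = AF a' b' c' w := by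
  set a := (F (w1.1 + r, w1.2) - F w1) / r with ha
  set a' := (G (w1.1 + r, w1.2) - G w1) / r with ha'
  set b := (F (w1.1, w1.2 + r) - F w1) / r with hb
  set b' := (G (w1.1, w1.2 + r) - G w1) / r with hb'
  have ea : F (w1.1 + r, w1.2) = F w1 + r * a := by rw [ha]; field_simp; ring
  have ea' : G (w1.1 + r, w1.2) = G w1 + r * a' := by rw [ha']; field_simp; ring
  have eb : F (w1.1, w1.2 + r) = F w1 + r * b := by rw [hb]; field_simp; ring
  have eb' : G (w1.1, w1.2 + r) = G w1 + r * b' := by rw [hb']; field_simp; ring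
  have i12 := hiso _ h2 _ h1
  have i13 := hiso _ h3 _ h1
  have i23 := hiso _ h2 _ h3
  rw [ea, ea'] at i12
  rw [eb, eb'] at i13
  rw [ea, ea', eb, eb'] at i23
  simp only at i12 i13 i23
  have hr2 : r ^ 2 ≠ 0 := by positivity
  have n1 : a ^ 2 + a' ^ 2 = 1 := by
    have : r ^ 2 * (a ^ 2 + a' ^ 2) = r ^ 2 * 1 := by linarith
    exact mul_left_cancel₀ hr2 this
  have n2 : b ^ 2 + b' ^ 2 = 1 := by
    have : r ^ 2 * (b ^ 2 + b' ^ 2) = r ^ 2 * 1 := by linarith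
    exact mul_left_cancel₀ hr2 this
  have n3 : a * b + a' * b' = 0 := by
    have : r ^ 2 * (a * b + a' * b') = r ^ 2 * 0 := by
      linear_combination (i12 + i13 - i23) / 2
    exact mul_left_cancel₀ hr2 this
  have m1 : a ^ 2 + b ^ 2 = 1 := by
    have h5 : a * b = - (a' * b') := by linarith
    have h6 : (a * b) ^ 2 = (a' * b') ^ 2 := by rw [h5]; ring
    have h7 : a' ^ 2 = 1 - a ^ 2 := by linarith
    have h8 : b' ^ 2 = 1 - b ^ 2 := by linarith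
    have h9 : (a * b) ^ 2 = (1 - a ^ 2) * (1 - b ^ 2) := by rw [h6, mul_pow, h7, h8]
    nlinarith
  have m2 : a' ^ 2 + b' ^ 2 = 1 := by linarith
  have m3 : a * a' + b * b' = 0 := by
    have h5 : a * b = - (a' * b') := by linarith
    have h7 : a' ^ 2 = b ^ 2 := by linarith
    have h8 : b' ^ 2 = a ^ 2 := by linarith
    have : (a * a' + b * b') ^ 2 = 0 := by
      have e : (a * a' + b * b') ^ 2 = a ^ 2 * a' ^ 2 + b ^ 2 * b' ^ 2 + 2 * (a * b) * (a' * b') := by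
        ring
      rw [e, h7, h8]
      have h9 : a' * b' = - (a * b) := by linarith
      rw [h9]; ring
    exact pow_eq_zero_iff two_ne_zero |>.mp this
  refine ⟨a, b, F w1 - a * w1.1 - b * w1.2, a', b', G w1 - a' * w1.1 - b' * w1.2, m1, m2, m3, ?_⟩
  intro w hw
  have j1 := hiso _ hw _ h1
  have j2 := hiso _ hw _ h2
  have j3 := hiso _ hw _ h3
  rw [ea, ea'] at j2
  rw [eb, eb'] at j3
  simp only at j2 j3
  set X' := F w - F w1 with hX
  set Y' := G w - G w1 with hY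
  have k2 : (X' - r * a) ^ 2 + (Y' - r * a') ^ 2 =
      (w.1 - w1.1 - r) ^ 2 + (w.2 - w1.2) ^ 2 := by
    rw [hX, hY]; linarith
  have k3 : (X' - r * b) ^ 2 + (Y' - r * b') ^ 2 =
      (w.1 - w1.1) ^ 2 + (w.2 - w1.2 - r) ^ 2 := by
    rw [hX, hY]; linarith
  have l2 : a * X' + a' * Y' = w.1 - w1.1 := by
    have : r * (a * X' + a' * Y') = r * (w.1 - w1.1) := by
      linear_combination (j1 - k2 + r ^ 2 * n1) / 2
    exact mul_left_cancel₀ hr.ne' this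
  have l3 : b * X' + b' * Y' = w.2 - w1.2 := by
    have : r * (b * X' + b' * Y') = r * (w.2 - w1.2) := by
      linear_combination (j1 - k3 + r ^ 2 * n2) / 2
    exact mul_left_cancel₀ hr.ne' this
  have hX' : X' = a * (w.1 - w1.1) + b * (w.2 - w1.2) := by
    rw [← l2, ← l3]
    have : a * (a * X' + a' * Y') + b * (b * X' + b' * Y') =
      (a ^ 2 + b ^ 2) * X' + (a * a' + b * b') * Y' := by ring
    rw [this, m1, m3]; ring
  have hY' : Y' = a' * (w.1 - w1.1) + b' * (w.2 - w1.2) := by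
    rw [← l2, ← l3]
    have : a' * (a * X' + a' * Y') + b' * (b * X' + b' * Y') =
      (a * a' + b * b') * X' + (a' ^ 2 + b' ^ 2) * Y' := by ring
    rw [this, m2, m3]; ring
  unfold AF
  constructor
  · linarith
  · linarith

theorem seg_cont (w z : ℝ × ℝ) : Continuous (fun τ : ℝ => (w.1 + τ * (z.1 - w.1),
    w.2 + τ * (z.2 - w.2))) := by fun_prop

theorem AF_seg (a b c : ℝ) (w z : ℝ × ℝ) (τ : ℝ) :
    AF a b c (w.1 + τ * (z.1 - w.1), w.2 + τ * (z.2 - w.2)) =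
    (1 - τ) * AF a b c w + τ * AF a b c z := by
  unfold AF; ring

theorem seg_mem {U : Set (ℝ × ℝ)} (hU : Convex ℝ U) {w z : ℝ × ℝ} (hw : w ∈ U) (hz : z ∈ U)
    {τ : ℝ} (hτ : τ ∈ Icc (0:ℝ) 1) : (w.1 + τ * (z.1 - w.1), w.2 + τ * (z.2 - w.2)) ∈ U := by
  have := hU hw hz (a := 1 - τ) (b := τ) (by linarith [hτ.2]) hτ.1 (by ring)
  convert this using 1
  ext
  · simp; ring
  · simp; ring

/-- A point mapped into the open square `g` generates a cell. -/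
theorem cell_of_point (D : FoldSq X Γ) {f : ℝ × ℝ → X} {U : Set (ℝ × ℝ)} (hf : IsoOn f U)
    (hconv : Convex ℝ U) (hne : (interior U).Nonempty) {w0 : ℝ × ℝ} (hw0 : w0 ∈ U) {g : Γ}
    (hg : D.InSq g (f w0)) : ∃ φ ψ, IsCell D f U g φ ψ := by
  have hfc := hf.continuousOn
  -- a box in the interior
  have hrel : {w | D.InSq g (f w)} ∈ 𝓝[U] w0 :=
    (hfc w0 hw0).preimage_mem_nhdsWithin ((D.isOpen_InSq g).mem_nhds hg)
  obtain ⟨V, hVo, hV0, hVs⟩ := mem_nhdsWithin.mp hrel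
  have hcl : w0 ∈ closure (interior U) := by
    rw [hconv.closure_interior_eq_closure_of_nonempty_interior hne]
    exact subset_closure hw0
  obtain ⟨w1, hw1V, hw1U⟩ := mem_closure_iff.mp hcl V hVo hV0
  have hopen : IsOpen (V ∩ interior U) := hVo.inter isOpen_interior
  obtain ⟨r, hr, hball⟩ := Metric.isOpen_iff.mp hopen w1 ⟨hw1V, hw1U⟩
  let R : Set (ℝ × ℝ) := {w | w ∈ U ∧ D.InSq g (f w)}
  have hbR : Metric.ball w1 r ⊆ R := fun w hw =>
    ⟨interior_subset (hball hw).2, hVs ⟨(hball hw).1, interior_subset (hball hw).2⟩⟩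
  have hiso : ∀ w ∈ R, ∀ z ∈ R, (D.cs (f w) - D.cs (f z)) ^ 2 + (D.ct (f w) - D.ct (f z)) ^ 2 =
      (w.1 - z.1) ^ 2 + (w.2 - z.2) ^ 2 := by
    intro w hw z hz
    obtain ⟨a1, a2, a3⟩ := hw.2.eq
    obtain ⟨b1, b2, b3⟩ := hz.2.eq
    rw [← hf w hw.1 z hz.1, ← D.dist_q g _ (Ioo_subset_Icc_self a1) _ (Ioo_subset_Icc_self a2) _
      (Ioo_subset_Icc_self b1) _ (Ioo_subset_Icc_self b2), a3, b3]
  obtain ⟨a, b, c, a', b', c', n1, n2, n3, hco⟩ := frame hiso (r := r / 2) (by positivity)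
    (hbR (Metric.mem_ball_self hr))
    (hbR (by
      rw [Metric.mem_ball, Prod.dist_eq]
      simp only [dist_self]
      rw [Real.dist_eq, add_sub_cancel_left, abs_of_pos (by positivity : 0 < r / 2)]
      exact max_lt (by linarith) hr))
    (hbR (by
      rw [Metric.mem_ball, Prod.dist_eq]
      simp only [dist_self]
      rw [Real.dist_eq, add_sub_cancel_left, abs_of_pos (by positivity : 0 < r / 2)]
      exact max_lt hr (by linarith)))
  have hw1R := hbR (Metric.mem_ball_self hr)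
  obtain ⟨e1, e2⟩ := hco w1 hw1R
  obtain ⟨q1, q2, q3⟩ := hw1R.2.eq
  rw [e1] at q1
  rw [e2] at q2
  -- continuity of the comparison along segments
  have hclosed : ∀ w z : ℝ × ℝ, w ∈ U → z ∈ U → AF a b c w ∈ Icc (0:ℝ) 1 →
      AF a' b' c' w ∈ Icc (0:ℝ) 1 → AF a b c z ∈ Icc (0:ℝ) 1 → AF a' b' c' z ∈ Icc (0:ℝ) 1 →
      IsClosed {τ | τ ∈ Icc (0:ℝ) 1 ∧ f (w.1 + τ * (z.1 - w.1), w.2 + τ * (z.2 - w.2)) =
        D.q g (AF a b c (w.1 + τ * (z.1 - w.1), w.2 + τ * (z.2 - w.2)))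
          (AF a' b' c' (w.1 + τ * (z.1 - w.1), w.2 + τ * (z.2 - w.2)))} := by
    intro w z hw hz p1 p2 p3 p4
    have hm : ∀ τ ∈ Icc (0:ℝ) 1, (w.1 + τ * (z.1 - w.1), w.2 + τ * (z.2 - w.2)) ∈ U :=
      fun τ hτ => seg_mem hconv hw hz hτ
    have c1 : ContinuousOn (fun τ : ℝ => f (w.1 + τ * (z.1 - w.1), w.2 + τ * (z.2 - w.2)))
        (Icc 0 1) := hfc.comp (seg_cont w z).continuousOn hm
    have c2 : ContinuousOn (fun τ : ℝ =>
        D.q g (AF a b c (w.1 + τ * (z.1 - w.1), w.2 + τ * (z.2 - w.2)))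
          (AF a' b' c' (w.1 + τ * (z.1 - w.1), w.2 + τ * (z.2 - w.2)))) (Icc 0 1) := by
      have hin : ContinuousOn (fun τ : ℝ =>
        ((AF a b c (w.1 + τ * (z.1 - w.1), w.2 + τ * (z.2 - w.2)),
          AF a' b' c' (w.1 + τ * (z.1 - w.1), w.2 + τ * (z.2 - w.2))) : ℝ × ℝ)) (Icc 0 1) :=
        (((AF_continuous a b c).comp (seg_cont w z)).prodMk
          ((AF_continuous a' b' c').comp (seg_cont w z))).continuousOn
      refine (D.q_cont g).comp hin ?_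
      intro τ hτ
      refine ⟨?_, ?_⟩
      · change AF a b c _ ∈ Icc (0:ℝ) 1
        rw [AF_seg]
        exact ⟨by nlinarith [hτ.1, hτ.2, p1.1, p3.1], by nlinarith [hτ.1, hτ.2, p1.2, p3.2]⟩
      · change AF a' b' c' _ ∈ Icc (0:ℝ) 1
        rw [AF_seg]
        exact ⟨by nlinarith [hτ.1, hτ.2, p2.1, p4.1], by nlinarith [hτ.1, hτ.2, p2.2, p4.2]⟩
    have c3 := continuous_dist.comp_continuousOn (c1.prodMk c2)
    have := c3.preimage_isClosed_of_isClosed isClosed_Icc (isClosed_singleton (x := (0:ℝ)))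
    convert this using 1
    ext τ
    simp only [mem_inter_iff, mem_preimage, mem_singleton_iff, Function.comp_apply, dist_eq_zero,
      Set.mem_ofPred_eq]
  -- the open square
  have hopenSq : ∀ w ∈ U, AF a b c w ∈ Ioo (0:ℝ) 1 → AF a' b' c' w ∈ Ioo (0:ℝ) 1 →
      D.InSq g (f w) ∧ f w = D.q g (AF a b c w) (AF a' b' c' w) := by
    intro w hw hp hq
    let A : Set ℝ := {τ | f (w1.1 + τ * (w.1 - w1.1), w1.2 + τ * (w.2 - w1.2)) =
        D.q g (AF a b c (w1.1 + τ * (w.1 - w1.1), w1.2 + τ * (w.2 - w1.2)))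
          (AF a' b' c' (w1.1 + τ * (w.1 - w1.1), w1.2 + τ * (w.2 - w1.2)))}
    have hmI : ∀ τ ∈ Icc (0:ℝ) 1,
        AF a b c (w1.1 + τ * (w.1 - w1.1), w1.2 + τ * (w.2 - w1.2)) ∈ Ioo (0:ℝ) 1 ∧
        AF a' b' c' (w1.1 + τ * (w.1 - w1.1), w1.2 + τ * (w.2 - w1.2)) ∈ Ioo (0:ℝ) 1 := by
      intro τ hτ
      rw [AF_seg, AF_seg]
      have hcx : ∀ x y : ℝ, x ∈ Ioo (0:ℝ) 1 → y ∈ Ioo (0:ℝ) 1 →
          (1 - τ) * x + τ * y ∈ Ioo (0:ℝ) 1 := fun x y hx hy =>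
        (convex_Ioo (0:ℝ) 1) hx hy (by linarith [hτ.2]) hτ.1 (by ring)
      exact ⟨hcx _ _ q1 hp, hcx _ _ q2 hq⟩
    have hsub : Icc (0:ℝ) 1 ⊆ A := by
      apply IsClosed.Icc_subset_of_forall_mem_nhdsWithin
      · have := hclosed w1 w hw1R.1 hw (Ioo_subset_Icc_self q1) (Ioo_subset_Icc_self q2)
          (Ioo_subset_Icc_self hp) (Ioo_subset_Icc_self hq)
        convert this using 1
        ext τ
        exact and_comm
      · change f _ = D.q g _ _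
        simp only [zero_mul, add_zero]
        rw [← e1, ← e2]; exact q3.symm
      · rintro τ ⟨hτA, hτ⟩
        have hτI : τ ∈ Icc (0:ℝ) 1 := Ico_subset_Icc_self hτ
        have hin : D.InSq g (f (w1.1 + τ * (w.1 - w1.1), w1.2 + τ * (w.2 - w1.2))) :=
          ⟨_, (hmI τ hτI).1, _, (hmI τ hτI).2, hτA.symm⟩
        have cc : ContinuousWithinAt (fun τ : ℝ =>
            f (w1.1 + τ * (w.1 - w1.1), w1.2 + τ * (w.2 - w1.2))) (Icc 0 1) τ :=
          (hfc.comp (seg_cont w1 w).continuousOn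
            (fun τ hτ => seg_mem hconv hw1R.1 hw hτ)) τ hτI
        have hnb := cc.preimage_mem_nhdsWithin ((D.isOpen_InSq g).mem_nhds hin)
        have hle : 𝓝[>] τ ≤ 𝓝[Icc 0 1] τ := by
          rw [← nhdsWithin_Ioo_eq_nhdsGT hτ.2]
          exact nhdsWithin_mono _ (fun x hx => ⟨hτ.1.trans hx.1.le, hx.2.le⟩)
        have h1 := hle hnb
        have h2 : Ioo τ 1 ∈ 𝓝[>] τ := Ioo_mem_nhdsGT hτ.2
        filter_upwards [h1, h2] with σ hσ hσI
        have hσU : (w1.1 + σ * (w.1 - w1.1), w1.2 + σ * (w.2 - w1.2)) ∈ U :=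
          seg_mem hconv hw1R.1 hw ⟨hτ.1.trans hσI.1.le, hσI.2.le⟩
        obtain ⟨s1, s2⟩ := hco _ (show _ ∈ R from ⟨hσU, hσ⟩)
        have s3 := (show D.InSq g _ from hσ).eq.2.2
        rw [s1, s2] at s3
        exact s3.symm
    have h1 := hsub (show (1:ℝ) ∈ Icc (0:ℝ) 1 by simp)
    change f _ = D.q g _ _ at h1
    have ew : (w1.1 + 1 * (w.1 - w1.1), w1.2 + 1 * (w.2 - w1.2)) = w := by
      ext <;> simp
    rw [ew] at h1
    exact ⟨⟨_, hp, _, hq, h1.symm⟩, h1⟩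
  refine ⟨AF a b c, AF a' b' c', ⟨a, b, c, a', b', c', rfl, rfl, n1, n2, n3⟩,
    ⟨w1, hw1U, q1, q2⟩, ?_, fun w hw hin => hco w ⟨hw, hin⟩⟩
  intro w hw hp hq
  have hc := hclosed w w1 hw hw1R.1 hp hq (Ioo_subset_Icc_self q1) (Ioo_subset_Icc_self q2)
  have h0 : (0:ℝ) ∈ closure {τ | τ ∈ Icc (0:ℝ) 1 ∧
      f (w.1 + τ * (w1.1 - w.1), w.2 + τ * (w1.2 - w.2)) =
        D.q g (AF a b c (w.1 + τ * (w1.1 - w.1), w.2 + τ * (w1.2 - w.2)))
          (AF a' b' c' (w.1 + τ * (w1.1 - w.1), w.2 + τ * (w1.2 - w.2)))} := by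
    refine closure_mono (s := Ioo (0:ℝ) 1) ?_ ?_
    · intro τ hτ
      refine ⟨Ioo_subset_Icc_self hτ, ?_⟩
      refine (hopenSq _ (seg_mem hconv hw hw1R.1 (Ioo_subset_Icc_self hτ)) ?_ ?_).2
      · rw [AF_seg]
        exact ⟨by nlinarith [hτ.1, hτ.2, hp.1, q1.1], by nlinarith [hτ.1, hτ.2, hp.2, q1.2]⟩
      · rw [AF_seg]
        exact ⟨by nlinarith [hτ.1, hτ.2, hq.1, q2.1], by nlinarith [hτ.1, hτ.2, hq.2, q2.2]⟩
    · rw [closure_Ioo (by norm_num)]; simp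
  rw [hc.closure_eq] at h0
  have h1 := h0.2
  have ew : (w.1 + 0 * (w1.1 - w.1), w.2 + 0 * (w1.2 - w.2)) = w := by
    ext <;> simp
  rw [ew] at h1
  exact h1

end Pool.Agent.FlatClosing
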