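import Pool.Agent.FlatClosing.FlatGrid

/-!
# FLATGRID, part 2: neighbouring cells
-/

set_option autoImplicit false

namespace Pool.Agent.FlatClosing

open Set Filter Topology

variable {X : Type*} [MetricSpace X] {Γ : Type*}

theorem ortho_cols {a b a' b' : ℝ} (n1 : a ^ 2 + b ^ 2 = 1) (n2 : a' ^ 2 + b' ^ 2 = 1)
    (n3 : a * a' + b * b' = 0) :
    a ^ 2 + a' ^ 2 = 1 ∧ b ^ 2 + b' ^ 2 = 1 ∧ a * b + a' * b' = 0 := by
  have m1 : a ^ 2 + a' ^ 2 = 1 := by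
    have h5 : a * a' = - (b * b') := by linarith
    have h6 : (a * a') ^ 2 = (b * b') ^ 2 := by rw [h5]; ring
    have h7 : b ^ 2 = 1 - a ^ 2 := by linarith
    have h8 : b' ^ 2 = 1 - a' ^ 2 := by linarith
    have h9 : (a * a') ^ 2 = (1 - a ^ 2) * (1 - a' ^ 2) := by rw [h6, mul_pow, h7, h8]
    nlinarith
  have m2 : b ^ 2 + b' ^ 2 = 1 := by linarith
  refine ⟨m1, m2, ?_⟩
  have h7 : b ^ 2 = a' ^ 2 := by linarith
  have h8 : b' ^ 2 = a ^ 2 := by linarith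
  have : (a * b + a' * b') ^ 2 = 0 := by
    have e : (a * b + a' * b') ^ 2 = a ^ 2 * b ^ 2 + a' ^ 2 * b' ^ 2 + 2 * (a * a') * (b * b') := by
      ring
    rw [e, h7, h8]
    have h9 : b * b' = - (a * a') := by linarith
    rw [h9]; ring
  exact pow_eq_zero_iff two_ne_zero |>.mp this

/-- Two cells agreeing at two points of the line `φ = 0`, on different sides of it, are mirror
images (algebraic part). -/
theorem mirror_alg {a b c a' b' c' p q r p' q' r' : ℝ} {z1 z2 : ℝ × ℝ}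
    (n1 : a ^ 2 + b ^ 2 = 1) (n2 : a' ^ 2 + b' ^ 2 = 1) (n3 : a * a' + b * b' = 0)
    (m1 : p ^ 2 + q ^ 2 = 1) (m2 : p' ^ 2 + q' ^ 2 = 1)
    {τ : ℝ} (hτ : τ ≠ 0) (hz : z2.1 = z1.1 + τ * a') (hz' : z2.2 = z1.2 + τ * b')
    (h0 : AF a b c z1 = 0) (h1 : AF p q r z1 = 0) (h2 : AF p q r z2 = 0)
    (h3 : AF p' q' r' z1 = AF a' b' c' z1) (h4 : AF p' q' r' z2 = AF a' b' c' z2) :
    (∀ w, AF p' q' r' w = AF a' b' c' w) ∧
    ((∀ w, AF p q r w = AF a b c w) ∨ (∀ w, AF p q r w = - AF a b c w)) := by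
  obtain ⟨k1, k2, k3⟩ := ortho_cols n1 n2 n3
  unfold AF at *
  have e1 : p * a' + q * b' = 0 := by
    have : τ * (p * a' + q * b') = τ * 0 := by
      rw [hz, hz'] at h2; linarith
    exact mul_left_cancel₀ hτ this
  have e2 : p' * a' + q' * b' = 1 := by
    have : τ * (p' * a' + q' * b') = τ * 1 := by
      rw [hz, hz'] at h4
      linear_combination h4 - h3 + τ * n2
    exact mul_left_cancel₀ hτ this
  have e3 : (p' - a') ^ 2 + (q' - b') ^ 2 = 0 := by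
    linear_combination m2 + n2 - 2 * e2
  have e4 : p' = a' := by
    have h6 : (p' - a') ^ 2 = 0 :=
      le_antisymm (by linarith [sq_nonneg (q' - b')]) (sq_nonneg _)
    linarith [pow_eq_zero_iff two_ne_zero |>.mp h6]
  have e5 : q' = b' := by
    have h6 : (q' - b') ^ 2 = 0 :=
      le_antisymm (by linarith [sq_nonneg (p' - a')]) (sq_nonneg _)
    linarith [pow_eq_zero_iff two_ne_zero |>.mp h6]
  subst e4 e5
  have er : r' = c' := by linarith
  subst er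
  refine ⟨fun w => rfl, ?_⟩
  have f1 : p = (p * a + q * b) * a := by
    have : p = (p * a + q * b) * a + (p * p' + q * q') * p' := by
      have h : (p * a + q * b) * a + (p * p' + q * q') * p' =
        p * (a ^ 2 + p' ^ 2) + q * (a * b + p' * q') := by ring
      rw [h, k1, k3]; ring
    rw [e1] at this; linarith
  have f2 : q = (p * a + q * b) * b := by
    have : q = (p * a + q * b) * b + (p * p' + q * q') * q' := by
      have h : (p * a + q * b) * b + (p * p' + q * q') * q' =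
        q * (b ^ 2 + q' ^ 2) + p * (a * b + p' * q') := by ring
      rw [h, k2, k3]; ring
    rw [e1] at this; linarith
  set l := p * a + q * b with hl
  have f3 : l ^ 2 = 1 := by
    have : p ^ 2 + q ^ 2 = l ^ 2 * (a ^ 2 + b ^ 2) := by
      rw [f1, f2]; ring
    rw [m1, n1] at this; linarith
  have f4 : l = 1 ∨ l = -1 := by
    have : (l - 1) * (l + 1) = 0 := by linarith [f3]
    rcases mul_eq_zero.mp this with h | h
    · left; linarith
    · right; linarith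
  rcases f4 with h | h
  · left
    intro w
    rw [h] at f1 f2
    have : r = c := by
      rw [f1, f2] at h1; linarith
    rw [f1, f2, this]; ring
  · right
    intro w
    rw [h] at f1 f2
    have : r = - c := by
      rw [f1, f2] at h1; linarith
    rw [f1, f2, this]; ring

/-- The cell on the other side of the side `φ = 0`. -/
theorem IsCell.left {D : FoldSq X Γ} {f : ℝ × ℝ → X} {U : Set (ℝ × ℝ)} (hf : IsoOn f U)
    (hconv : Convex ℝ U) {g : Γ} {φ ψ : ℝ × ℝ → ℝ} (hcell : IsCell D f U g φ ψ)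
    {w0 : ℝ × ℝ} (hw0 : w0 ∈ interior U) (h0 : φ w0 = 0) (h1 : ψ w0 ∈ Ioo (0:ℝ) 1) :
    ∃ g', IsCell D f U g' (fun w => - φ w) ψ := by
  obtain ⟨a, b, c, a', b', c', hφ, hψ, n1, n2, n3⟩ := hcell.aff
  subst hφ hψ
  have hfc := hf.continuousOn
  obtain ⟨r, hr, hfin⟩ := D.locfin (f w0)
  have hfat : ∀ w ∈ interior U, ContinuousAt f w := fun w hw =>
    hfc.continuousAt (mem_interior_iff_mem_nhds.mp hw)
  -- a box
  have hnb : interior U ∩ {w | dist (f w) (f w0) < r} ∈ 𝓝 w0 := by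
    refine inter_mem (isOpen_interior.mem_nhds hw0) ?_
    exact (hfat w0 hw0).preimage_mem_nhds (Metric.ball_mem_nhds _ hr)
  obtain ⟨ε, hε, hball⟩ := Metric.mem_nhds_iff.mp hnb
  let y : ℝ → ℝ → ℝ × ℝ := fun τ δ => (w0.1 + τ * a' - δ * a, w0.2 + τ * b' - δ * b)
  have hyφ : ∀ τ δ, AF a b c (y τ δ) = - δ := by
    intro τ δ
    have e : AF a b c (y τ δ) = AF a b c w0 + τ * (a * a' + b * b') - δ * (a ^ 2 + b ^ 2) := by
      simp only [AF, y]; ring
    rw [e, h0, n3, n1]; ring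
  have hyψ : ∀ τ δ, AF a' b' c' (y τ δ) = AF a' b' c' w0 + τ := by
    intro τ δ
    have e : AF a' b' c' (y τ δ) = AF a' b' c' w0 + τ * (a' ^ 2 + b' ^ 2)
        - δ * (a * a' + b * b') := by
      simp only [AF, y]; ring
    rw [e, n2, n3]; ring
  have ha : |a| ≤ 1 := abs_le.mpr ⟨by nlinarith [sq_nonneg b], by nlinarith [sq_nonneg b]⟩
  have hb : |b| ≤ 1 := abs_le.mpr ⟨by nlinarith [sq_nonneg a], by nlinarith [sq_nonneg a]⟩
  have ha' : |a'| ≤ 1 := abs_le.mpr ⟨by nlinarith [sq_nonneg b'], by nlinarith [sq_nonneg b']⟩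
  have hb' : |b'| ≤ 1 := abs_le.mpr ⟨by nlinarith [sq_nonneg a'], by nlinarith [sq_nonneg a']⟩
  have hyball : ∀ τ δ, |τ| < ε / 2 → |δ| < ε / 2 → y τ δ ∈ Metric.ball w0 ε := by
    intro τ δ hτ hδ
    have key : ∀ u v : ℝ, |u| ≤ 1 → |v| ≤ 1 → |τ * u - δ * v| < ε := by
      intro u v hu hv
      calc |τ * u - δ * v| ≤ |τ * u| + |δ * v| := abs_sub _ _
        _ = |τ| * |u| + |δ| * |v| := by rw [abs_mul, abs_mul]
        _ ≤ |τ| * 1 + |δ| * 1 := by gcongr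
        _ < ε := by linarith
    rw [Metric.mem_ball, Prod.dist_eq, max_lt_iff, Real.dist_eq, Real.dist_eq]
    refine ⟨?_, ?_⟩
    · have e : (y τ δ).1 - w0.1 = τ * a' - δ * a := by simp only [y]; ring
      rw [e]; exact key _ _ ha' ha
    · have e : (y τ δ).2 - w0.2 = τ * b' - δ * b := by simp only [y]; ring
      rw [e]; exact key _ _ hb' hb
  let R' : Γ → Set (ℝ × ℝ) := fun h => {w | w ∈ Metric.ball w0 ε ∧ AF a b c w < 0 ∧
    D.InSq h (f w)}
  set F : Set Γ := {g | ∃ s ∈ Icc (0:ℝ) 1, ∃ t ∈ Icc (0:ℝ) 1, dist (D.q g s t) (f w0) < r} with hF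
  have hε2 : 0 < ε / 2 := by positivity
  have hcl : ∀ τ ∈ Ioo (0:ℝ) (min (ε / 2) (1 - AF a' b' c' w0)),
      ∃ h ∈ F, y τ 0 ∈ closure (R' h) := by
    intro τ hτ
    have hτ1 : |τ| < ε / 2 := by
      rw [abs_of_pos hτ.1]; exact lt_of_lt_of_le hτ.2 (min_le_left _ _)
    have hmem : y τ 0 ∈ closure (⋃ h ∈ F, R' h) := by
      rw [mem_closure_iff]
      intro O hO hyO
      -- choose δ small
      have hcont : Continuous (fun δ : ℝ => y τ δ) := by
        simp only [y]; fun_prop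
      have hev : ∀ᶠ δ in 𝓝[>] (0:ℝ), y τ δ ∈ O := by
        apply Filter.Eventually.filter_mono nhdsWithin_le_nhds
        exact hcont.continuousAt.eventually_mem (hO.mem_nhds hyO)
      have hev2 : ∀ᶠ δ in 𝓝[>] (0:ℝ), δ ∈ Ioo (0:ℝ) (ε / 2) := Ioo_mem_nhdsGT hε2
      obtain ⟨δ, hδO, hδ⟩ := (hev.and hev2).exists
      have hopen : IsOpen (O ∩ Metric.ball w0 ε ∩ {w | AF a b c w < 0}) :=
        (hO.inter Metric.isOpen_ball).inter
          (isOpen_lt (AF_continuous a b c) continuous_const)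
      have hin : y τ δ ∈ O ∩ Metric.ball w0 ε ∩ {w | AF a b c w < 0} := by
        refine ⟨⟨hδO, hyball τ δ hτ1 (by rw [abs_of_pos hδ.1]; exact hδ.2)⟩, ?_⟩
        change AF a b c (y τ δ) < 0
        rw [hyφ]; linarith [hδ.1]
      obtain ⟨w, hw, h, hh⟩ := exists_inSq D hf hopen
        (fun w hw => interior_subset (hball hw.1.2).1) hin
      refine ⟨w, hw.1.1, ?_⟩
      simp only [mem_iUnion]
      refine ⟨h, ?_, hw.1.2, hw.2, hh⟩
      obtain ⟨s, hs, t, ht, hst⟩ := hh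
      exact ⟨s, Ioo_subset_Icc_self hs, t, Ioo_subset_Icc_self ht, by
        rw [hst]; exact (hball hw.1.2).2⟩
    rw [hfin.closure_biUnion] at hmem
    simp only [mem_iUnion] at hmem
    obtain ⟨h, hh, hm⟩ := hmem
    exact ⟨h, hh, hm⟩
  have hpos : 0 < min (ε / 2) (1 - AF a' b' c' w0) := lt_min hε2 (by linarith [h1.2])
  have : Nonempty Γ := ⟨g⟩
  choose! k hkF hk using hcl
  obtain ⟨τ1, hτ1, τ2, hτ2, hne, heq⟩ :=
    (Ioo_infinite hpos).exists_ne_map_eq_of_mapsTo (f := k) (t := F) (fun τ hτ => hkF τ hτ) hfin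
  set h := k τ1 with hh
  have hz1 := hk τ1 hτ1
  have hz2 := hk τ2 hτ2
  rw [← heq] at hz2
  -- a cell for h
  obtain ⟨w', hw'⟩ : (R' h).Nonempty := by
    rw [← closure_nonempty_iff]; exact ⟨_, hz1⟩
  have hw'U : w' ∈ U := interior_subset (hball hw'.1).1
  obtain ⟨φ', ψ', hcell'⟩ := cell_of_point D hf hconv ⟨w0, hw0⟩ hw'U hw'.2.2
  obtain ⟨p, q, s, p', q', s', hφ', hψ', m1, m2, m3⟩ := hcell'.aff
  subst hφ' hψ'
  -- values at the two points
  have hval : ∀ τ ∈ Ioo (0:ℝ) (min (ε / 2) (1 - AF a' b' c' w0)), y τ 0 ∈ closure (R' h) →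
      AF p q s (y τ 0) = 0 ∧ AF p' q' s' (y τ 0) = AF a' b' c' (y τ 0) := by
    intro τ hτ hc
    have hτ1 : |τ| < ε / 2 := by
      rw [abs_of_pos hτ.1]; exact lt_of_lt_of_le hτ.2 (min_le_left _ _)
    have hyb := hyball τ 0 hτ1 (by simpa using hε2)
    have hyU := (hball hyb).1
    have hyψ' := hyψ τ 0
    have hyI : AF a' b' c' (y τ 0) ∈ Icc (0:ℝ) 1 := by
      rw [hyψ']
      have := lt_of_lt_of_le hτ.2 (min_le_right _ _)
      exact ⟨by linarith [h1.1, hτ.1], by linarith⟩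
    have hyφ' : AF a b c (y τ 0) = 0 := by rw [hyφ]; simp
    have hfy := hcell.eq (y τ 0) (interior_subset hyU) (by rw [hyφ']; simp) hyI
    rw [hyφ'] at hfy
    obtain ⟨u, hu, hulim⟩ := mem_closure_iff_seq_limit.mp hc
    have hfl : Tendsto (fun n => f (u n)) atTop (𝓝 (f (y τ 0))) := (hfat _ hyU).tendsto.comp hulim
    have c1 : Tendsto (fun n => D.cs (f (u n))) atTop (𝓝 (D.cs (f (y τ 0)))) :=
      (D.cs_cont.tendsto _).comp hfl
    have c2 : Tendsto (fun n => D.ct (f (u n))) atTop (𝓝 (D.ct (f (y τ 0)))) :=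
      (D.ct_cont.tendsto _).comp hfl
    have d1 : Tendsto (fun n => AF p q s (u n)) atTop (𝓝 (AF p q s (y τ 0))) :=
      ((AF_continuous p q s).tendsto _).comp hulim
    have d2 : Tendsto (fun n => AF p' q' s' (u n)) atTop (𝓝 (AF p' q' s' (y τ 0))) :=
      ((AF_continuous p' q' s').tendsto _).comp hulim
    have e1 : (fun n => D.cs (f (u n))) = fun n => AF p q s (u n) := by
      funext n
      exact (hcell'.coord (u n) (interior_subset (hball (hu n).1).1) (hu n).2.2).1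
    have e2 : (fun n => D.ct (f (u n))) = fun n => AF p' q' s' (u n) := by
      funext n
      exact (hcell'.coord (u n) (interior_subset (hball (hu n).1).1) (hu n).2.2).2
    rw [e1] at c1
    rw [e2] at c2
    have g1 := tendsto_nhds_unique d1 c1
    have g2 := tendsto_nhds_unique d2 c2
    rw [hfy] at g1 g2
    rw [D.cs_q g 0 (by simp) _ hyI] at g1
    rw [D.ct_q g 0 (by simp) _ hyI] at g2
    exact ⟨g1, g2⟩
  obtain ⟨v1, v2⟩ := hval τ1 hτ1 hz1
  obtain ⟨v3, v4⟩ := hval τ2 hτ2 hz2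
  obtain ⟨r1, r2⟩ := mirror_alg (z1 := y τ1 0) (z2 := y τ2 0) (τ := τ2 - τ1) (c := c) (c' := c')
    n1 n2 n3 m1 m2 (sub_ne_zero.mpr (Ne.symm hne)) (by simp only [y]; ring)
    (by simp only [y]; ring) (by rw [hyφ]; simp) v1 v3 v2 v4
  have hψe : AF p' q' s' = AF a' b' c' := funext r1
  refine ⟨h, ?_⟩
  rcases r2 with r2 | r2
  · exfalso
    have h5 := (hcell'.coord w' hw'U hw'.2.2).1
    have h6 := hw'.2.2.eq.1
    rw [h5, r2 w'] at h6
    exact absurd h6.1 (not_lt.mpr hw'.2.1.le)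
  · have hφe : (fun w => - AF a b c w) = AF p q s := by
      funext w; rw [r2 w]
    rw [hφe, ← hψe]
    exact hcell'

/-! ### Symmetries of the square -/

/-- reflect the first coordinate -/
def FoldSq.flip (D : FoldSq X Γ) : FoldSq X Γ where
  q g s t := D.q g (1 - s) t
  cs x := 1 - D.cs x
  ct := D.ct
  cs_cont := continuous_const.sub D.cs_cont
  ct_cont := D.ct_cont
  cs_q g s hs t ht := by
    rw [D.cs_q g (1 - s) ⟨by linarith [hs.2], by linarith [hs.1]⟩ t ht]; ring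
  ct_q g s hs t ht := D.ct_q g (1 - s) ⟨by linarith [hs.2], by linarith [hs.1]⟩ t ht
  dist_q g s hs t ht s' hs' t' ht' := by
    rw [D.dist_q g (1 - s) ⟨by linarith [hs.2], by linarith [hs.1]⟩ t ht (1 - s')
      ⟨by linarith [hs'.2], by linarith [hs'.1]⟩ t' ht']
    ring
  cover x := by
    obtain ⟨h1, h2, g, hg⟩ := D.cover x
    refine ⟨⟨by linarith [h1.2], by linarith [h1.1]⟩, h2, g, ?_⟩
    rw [sub_sub_cancel]; exact hg
  isOpen_sq g := by
    have := D.isOpen_sq g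
    convert this using 1
    ext x
    constructor
    · rintro ⟨s, hs, t, ht, h⟩
      exact ⟨1 - s, ⟨by linarith [hs.2], by linarith [hs.1]⟩, t, ht, h⟩
    · rintro ⟨s, hs, t, ht, h⟩
      exact ⟨1 - s, ⟨by linarith [hs.2], by linarith [hs.1]⟩, t, ht, by
        rw [sub_sub_cancel]; exact h⟩
  disj g h s hs t ht e := D.disj g h (1 - s) ⟨by linarith [hs.2], by linarith [hs.1]⟩ t ht e
  locfin x := by
    obtain ⟨r, hr, h⟩ := D.locfin x
    refine ⟨r, hr, h.subset ?_⟩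
    rintro g ⟨s, hs, t, ht, hd⟩
    exact ⟨1 - s, ⟨by linarith [hs.2], by linarith [hs.1]⟩, t, ht, hd⟩

/-- exchange the coordinates -/
def FoldSq.swap (D : FoldSq X Γ) : FoldSq X Γ where
  q g s t := D.q g t s
  cs := D.ct
  ct := D.cs
  cs_cont := D.ct_cont
  ct_cont := D.cs_cont
  cs_q g s hs t ht := D.ct_q g t ht s hs
  ct_q g s hs t ht := D.cs_q g t ht s hs
  dist_q g s hs t ht s' hs' t' ht' := by
    rw [D.dist_q g t ht s hs t' ht' s' hs']; ring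
  cover x := by
    obtain ⟨h1, h2, g, hg⟩ := D.cover x
    exact ⟨h2, h1, g, hg⟩
  isOpen_sq g := by
    have := D.isOpen_sq g
    convert this using 1
    ext x
    constructor
    · rintro ⟨s, hs, t, ht, h⟩
      exact ⟨t, ht, s, hs, h⟩
    · rintro ⟨s, hs, t, ht, h⟩
      exact ⟨t, ht, s, hs, h⟩
  disj g h s hs t ht e := D.disj g h t ht s hs e
  locfin x := by
    obtain ⟨r, hr, h⟩ := D.locfin x
    refine ⟨r, hr, h.subset ?_⟩
    rintro g ⟨s, hs, t, ht, hd⟩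
    exact ⟨t, ht, s, hs, hd⟩

theorem InSq_flip {D : FoldSq X Γ} {g : Γ} {x : X} : D.flip.InSq g x ↔ D.InSq g x := by
  constructor
  · rintro ⟨s, hs, t, ht, h⟩
    exact ⟨1 - s, ⟨by linarith [hs.2], by linarith [hs.1]⟩, t, ht, h⟩
  · rintro ⟨s, hs, t, ht, h⟩
    refine ⟨1 - s, ⟨by linarith [hs.2], by linarith [hs.1]⟩, t, ht, ?_⟩
    change D.q g (1 - (1 - s)) t = x
    rw [sub_sub_cancel]; exact h

theorem InSq_swap {D : FoldSq X Γ} {g : Γ} {x : X} : D.swap.InSq g x ↔ D.InSq g x := by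
  constructor
  · rintro ⟨s, hs, t, ht, h⟩
    exact ⟨t, ht, s, hs, h⟩
  · rintro ⟨s, hs, t, ht, h⟩
    exact ⟨t, ht, s, hs, h⟩

theorem one_sub_mem_Ioo {s : ℝ} : 1 - s ∈ Ioo (0:ℝ) 1 ↔ s ∈ Ioo (0:ℝ) 1 :=
  ⟨fun h => ⟨by linarith [h.2], by linarith [h.1]⟩, fun h => ⟨by linarith [h.2], by linarith [h.1]⟩⟩

theorem one_sub_mem_Icc {s : ℝ} : 1 - s ∈ Icc (0:ℝ) 1 ↔ s ∈ Icc (0:ℝ) 1 :=
  ⟨fun h => ⟨by linarith [h.2], by linarith [h.1]⟩, fun h => ⟨by linarith [h.2], by linarith [h.1]⟩⟩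

theorem IsCell.flip {D : FoldSq X Γ} {f : ℝ × ℝ → X} {U : Set (ℝ × ℝ)} {g : Γ}
    {φ ψ : ℝ × ℝ → ℝ} (h : IsCell D f U g φ ψ) : IsCell D.flip f U g (fun w => 1 - φ w) ψ where
  aff := by
    obtain ⟨a, b, c, a', b', c', rfl, rfl, n1, n2, n3⟩ := h.aff
    refine ⟨-a, -b, 1 - c, a', b', c', ?_, rfl, by rw [neg_sq, neg_sq]; exact n1, n2, by linarith⟩
    funext w; unfold AF; ring
  ne := by
    obtain ⟨w, hw, h1, h2⟩ := h.ne
    exact ⟨w, hw, one_sub_mem_Ioo.mpr h1, h2⟩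
  eq w hw h1 h2 := by
    have := h.eq w hw (one_sub_mem_Icc.mp h1) h2
    rw [this]
    change _ = D.q g (1 - (1 - φ w)) (ψ w)
    rw [sub_sub_cancel]
  coord w hw hin := by
    obtain ⟨h1, h2⟩ := h.coord w hw (InSq_flip.mp hin)
    refine ⟨?_, h2⟩
    change 1 - D.cs (f w) = _
    rw [h1]

theorem IsCell.unflip {D : FoldSq X Γ} {f : ℝ × ℝ → X} {U : Set (ℝ × ℝ)} {g : Γ}
    {φ ψ : ℝ × ℝ → ℝ} (h : IsCell D.flip f U g φ ψ) : IsCell D f U g (fun w => 1 - φ w) ψ where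
  aff := by
    obtain ⟨a, b, c, a', b', c', rfl, rfl, n1, n2, n3⟩ := h.aff
    refine ⟨-a, -b, 1 - c, a', b', c', ?_, rfl, by rw [neg_sq, neg_sq]; exact n1, n2, by linarith⟩
    funext w; unfold AF; ring
  ne := by
    obtain ⟨w, hw, h1, h2⟩ := h.ne
    exact ⟨w, hw, one_sub_mem_Ioo.mpr h1, h2⟩
  eq w hw h1 h2 := by
    have := h.eq w hw (one_sub_mem_Icc.mp h1) h2
    rw [this]
    rfl
  coord w hw hin := by
    obtain ⟨h1, h2⟩ := h.coord w hw (InSq_flip.mpr hin)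
    refine ⟨?_, h2⟩
    change 1 - D.cs (f w) = _ at h1
    linarith

theorem IsCell.swap {D : FoldSq X Γ} {f : ℝ × ℝ → X} {U : Set (ℝ × ℝ)} {g : Γ}
    {φ ψ : ℝ × ℝ → ℝ} (h : IsCell D f U g φ ψ) : IsCell D.swap f U g ψ φ where
  aff := by
    obtain ⟨a, b, c, a', b', c', rfl, rfl, n1, n2, n3⟩ := h.aff
    exact ⟨a', b', c', a, b, c, rfl, rfl, n2, n1, by linarith⟩
  ne := by
    obtain ⟨w, hw, h1, h2⟩ := h.ne
    exact ⟨w, hw, h2, h1⟩
  eq w hw h1 h2 := h.eq w hw h2 h1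
  coord w hw hin := by
    obtain ⟨h1, h2⟩ := h.coord w hw (InSq_swap.mp hin)
    exact ⟨h2, h1⟩

theorem IsCell.unswap {D : FoldSq X Γ} {f : ℝ × ℝ → X} {U : Set (ℝ × ℝ)} {g : Γ}
    {φ ψ : ℝ × ℝ → ℝ} (h : IsCell D.swap f U g ψ φ) : IsCell D f U g φ ψ where
  aff := by
    obtain ⟨a, b, c, a', b', c', rfl, rfl, n1, n2, n3⟩ := h.aff
    exact ⟨a', b', c', a, b, c, rfl, rfl, n2, n1, by linarith⟩
  ne := by
    obtain ⟨w, hw, h1, h2⟩ := h.ne
    exact ⟨w, hw, h2, h1⟩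
  eq w hw h1 h2 := h.eq w hw h2 h1
  coord w hw hin := by
    obtain ⟨h1, h2⟩ := h.coord w hw (InSq_swap.mpr hin)
    exact ⟨h2, h1⟩

theorem IsCell.right {D : FoldSq X Γ} {f : ℝ × ℝ → X} {U : Set (ℝ × ℝ)} (hf : IsoOn f U)
    (hconv : Convex ℝ U) {g : Γ} {φ ψ : ℝ × ℝ → ℝ} (hcell : IsCell D f U g φ ψ)
    {w0 : ℝ × ℝ} (hw0 : w0 ∈ interior U) (h0 : φ w0 = 1) (h1 : ψ w0 ∈ Ioo (0:ℝ) 1) :
    ∃ g', IsCell D f U g' (fun w => 2 - φ w) ψ := by
  obtain ⟨g', h⟩ := hcell.flip.left hf hconv hw0 (by simp [h0]) h1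
  refine ⟨g', ?_⟩
  have := h.unflip
  convert this using 1
  funext w; ring

theorem IsCell.bottom {D : FoldSq X Γ} {f : ℝ × ℝ → X} {U : Set (ℝ × ℝ)} (hf : IsoOn f U)
    (hconv : Convex ℝ U) {g : Γ} {φ ψ : ℝ × ℝ → ℝ} (hcell : IsCell D f U g φ ψ)
    {w0 : ℝ × ℝ} (hw0 : w0 ∈ interior U) (h0 : ψ w0 = 0) (h1 : φ w0 ∈ Ioo (0:ℝ) 1) :
    ∃ g', IsCell D f U g' φ (fun w => - ψ w) := by
  obtain ⟨g', h⟩ := hcell.swap.left hf hconv hw0 h0 h1
  exact ⟨g', h.unswap⟩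

theorem IsCell.top {D : FoldSq X Γ} {f : ℝ × ℝ → X} {U : Set (ℝ × ℝ)} (hf : IsoOn f U)
    (hconv : Convex ℝ U) {g : Γ} {φ ψ : ℝ × ℝ → ℝ} (hcell : IsCell D f U g φ ψ)
    {w0 : ℝ × ℝ} (hw0 : w0 ∈ interior U) (h0 : ψ w0 = 1) (h1 : φ w0 ∈ Ioo (0:ℝ) 1) :
    ∃ g', IsCell D f U g' φ (fun w => 2 - ψ w) := by
  obtain ⟨g', h⟩ := hcell.swap.right hf hconv hw0 h0 h1
  exact ⟨g', h.unswap⟩

end Pool.Agent.FlatClosing
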