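import Pool.Agent.FlatClosing.FlatGrid2

/-!
# FLATGRID, part 3: the grid of cells of a half-plane
-/

set_option autoImplicit false

namespace Pool.Agent.FlatClosing

open Set Filter Topology

variable {X : Type*} [MetricSpace X] {Γ : Type*}

/-- fold coordinate on the interval `[i, i+1]` -/
noncomputable def trc (i : ℤ) (x : ℝ) : ℝ := if Even i then x - i else i + 1 - x

theorem trc_mem_Ioo {i : ℤ} {x : ℝ} : trc i x ∈ Ioo (0:ℝ) 1 ↔ x ∈ Ioo (i:ℝ) (i + 1) := by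
  unfold trc
  split_ifs <;> constructor <;> intro h <;> constructor <;> linarith [h.1, h.2]

theorem trc_mem_Icc {i : ℤ} {x : ℝ} : trc i x ∈ Icc (0:ℝ) 1 ↔ x ∈ Icc (i:ℝ) (i + 1) := by
  unfold trc
  split_ifs <;> constructor <;> intro h <;> constructor <;> linarith [h.1, h.2]

theorem trc_add_one (i : ℤ) (x : ℝ) :
    trc (i + 1) x = if Even i then 2 - trc i x else - trc i x := by
  unfold trc
  by_cases h : Even i
  · have h' : ¬ Even (i + 1) := by
      rw [Int.not_even_iff_odd]; exact h.add_one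
    rw [if_neg h', if_pos h, if_pos h]; push_cast; ring
  · have h' : Even (i + 1) := by
      rw [Int.not_even_iff_odd] at h; exact h.add_one
    rw [if_pos h', if_neg h, if_neg h]; push_cast; ring

theorem trc_sub_one (i : ℤ) (x : ℝ) :
    trc (i - 1) x = if Even i then - trc i x else 2 - trc i x := by
  unfold trc
  by_cases h : Even i
  · have h' : ¬ Even (i - 1) := by
      rw [Int.even_sub_one, not_not]; exact h
    rw [if_neg h', if_pos h, if_pos h]; push_cast; ring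
  · have h' : Even (i - 1) := by
      rw [Int.even_sub_one]; exact h
    rw [if_pos h', if_neg h, if_neg h]; push_cast; ring

theorem trc_right (i : ℤ) : trc i (i + 1) = if Even i then 1 else 0 := by
  unfold trc; split_ifs <;> ring

theorem trc_left (i : ℤ) : trc i i = if Even i then 0 else 1 := by
  unfold trc; split_ifs <;> ring

/-- `g` is the cell of the unit square `(i, j)` of the integer grid. -/
def GC (D : FoldSq X Γ) (f : ℝ × ℝ → X) (U : Set (ℝ × ℝ)) (g : Γ) (i j : ℤ) : Prop :=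
  IsCell D f U g (fun w => trc i w.1) (fun w => trc j w.2)

section steps

variable {D : FoldSq X Γ} {f : ℝ × ℝ → X} {U : Set (ℝ × ℝ)}

theorem GC.right (hf : IsoOn f U) (hconv : Convex ℝ U) {g : Γ} {i j : ℤ} (h : GC D f U g i j)
    {w0 : ℝ × ℝ} (hw0 : w0 ∈ interior U) (h1 : w0.1 = i + 1)
    (h2 : w0.2 ∈ Ioo (j:ℝ) (j + 1)) : ∃ g', GC D f U g' (i + 1) j := by
  unfold GC at *
  have h2' : trc j w0.2 ∈ Ioo (0:ℝ) 1 := trc_mem_Ioo.mpr h2
  by_cases hi : Even i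
  · obtain ⟨g', h'⟩ := IsCell.right hf hconv h hw0 (by simp only [h1]; rw [trc_right, if_pos hi]) h2'
    refine ⟨g', ?_⟩
    convert h' using 1
    funext w; rw [trc_add_one, if_pos hi]
  · obtain ⟨g', h'⟩ := IsCell.left hf hconv h hw0 (by simp only [h1]; rw [trc_right, if_neg hi]) h2'
    refine ⟨g', ?_⟩
    convert h' using 1
    funext w; rw [trc_add_one, if_neg hi]

theorem GC.left (hf : IsoOn f U) (hconv : Convex ℝ U) {g : Γ} {i j : ℤ} (h : GC D f U g i j)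
    {w0 : ℝ × ℝ} (hw0 : w0 ∈ interior U) (h1 : w0.1 = i)
    (h2 : w0.2 ∈ Ioo (j:ℝ) (j + 1)) : ∃ g', GC D f U g' (i - 1) j := by
  unfold GC at *
  have h2' : trc j w0.2 ∈ Ioo (0:ℝ) 1 := trc_mem_Ioo.mpr h2
  by_cases hi : Even i
  · obtain ⟨g', h'⟩ := IsCell.left hf hconv h hw0 (by simp only [h1]; rw [trc_left, if_pos hi]) h2'
    refine ⟨g', ?_⟩
    convert h' using 1
    funext w; rw [trc_sub_one, if_pos hi]
  · obtain ⟨g', h'⟩ := IsCell.right hf hconv h hw0 (by simp only [h1]; rw [trc_left, if_neg hi]) h2'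
    refine ⟨g', ?_⟩
    convert h' using 1
    funext w; rw [trc_sub_one, if_neg hi]

theorem GC.up (hf : IsoOn f U) (hconv : Convex ℝ U) {g : Γ} {i j : ℤ} (h : GC D f U g i j)
    {w0 : ℝ × ℝ} (hw0 : w0 ∈ interior U) (h1 : w0.2 = j + 1)
    (h2 : w0.1 ∈ Ioo (i:ℝ) (i + 1)) : ∃ g', GC D f U g' i (j + 1) := by
  unfold GC at *
  have h2' : trc i w0.1 ∈ Ioo (0:ℝ) 1 := trc_mem_Ioo.mpr h2
  by_cases hi : Even j
  · obtain ⟨g', h'⟩ := IsCell.top hf hconv h hw0 (by simp only [h1]; rw [trc_right, if_pos hi]) h2'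
    refine ⟨g', ?_⟩
    convert h' using 1
    funext w; rw [trc_add_one, if_pos hi]
  · obtain ⟨g', h'⟩ := IsCell.bottom hf hconv h hw0
      (by simp only [h1]; rw [trc_right, if_neg hi]) h2'
    refine ⟨g', ?_⟩
    convert h' using 1
    funext w; rw [trc_add_one, if_neg hi]

theorem GC.down (hf : IsoOn f U) (hconv : Convex ℝ U) {g : Γ} {i j : ℤ} (h : GC D f U g i j)
    {w0 : ℝ × ℝ} (hw0 : w0 ∈ interior U) (h1 : w0.2 = j)
    (h2 : w0.1 ∈ Ioo (i:ℝ) (i + 1)) : ∃ g', GC D f U g' i (j - 1) := by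
  unfold GC at *
  have h2' : trc i w0.1 ∈ Ioo (0:ℝ) 1 := trc_mem_Ioo.mpr h2
  by_cases hi : Even j
  · obtain ⟨g', h'⟩ := IsCell.bottom hf hconv h hw0
      (by simp only [h1]; rw [trc_left, if_pos hi]) h2'
    refine ⟨g', ?_⟩
    convert h' using 1
    funext w; rw [trc_sub_one, if_pos hi]
  · obtain ⟨g', h'⟩ := IsCell.top hf hconv h hw0 (by simp only [h1]; rw [trc_left, if_neg hi]) h2'
    refine ⟨g', ?_⟩
    convert h' using 1
    funext w; rw [trc_sub_one, if_neg hi]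

end steps

theorem HPo_subset_interior (α β γ : ℝ) : HPo α β γ ⊆ interior (HP α β γ) :=
  interior_maximal (HPo_subset α β γ) (isOpen_HPo α β γ)

theorem convex_HP (α β γ : ℝ) : Convex ℝ (HP α β γ) := by
  intro w hw z hz s t hs ht hst
  change γ ≤ α * (s • w + t • z).1 + β * (s • w + t • z).2
  have h1 : γ ≤ α * w.1 + β * w.2 := hw
  have h2 : γ ≤ α * z.1 + β * z.2 := hz
  simp only [Prod.fst_add, Prod.smul_fst, Prod.snd_add, Prod.smul_snd, smul_eq_mul]
  have : α * (s * w.1 + t * z.1) + β * (s * w.2 + t * z.2) =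
      s * (α * w.1 + β * w.2) + t * (α * z.1 + β * z.2) := by ring
  rw [this]
  have e : γ = s * γ + t * γ := by rw [← add_mul, hst, one_mul]
  nlinarith [mul_le_mul_of_nonneg_left h1 hs, mul_le_mul_of_nonneg_left h2 ht]

/-- near the upper end of an interval -/
theorem exists_near {α γ : ℝ} {j : ℤ} {β : ℝ} (h : γ < α + β * (j + 1)) :
    ∃ y ∈ Ioo (j:ℝ) (j + 1), γ < α + β * y := by
  have hc : Continuous (fun y : ℝ => α + β * y) := by fun_prop
  have hev : ∀ᶠ y in 𝓝[<] ((j:ℝ) + 1), γ < α + β * y := by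
    apply Filter.Eventually.filter_mono nhdsWithin_le_nhds
    exact hc.continuousAt.eventually (lt_mem_nhds h)
  have hev2 : ∀ᶠ y in 𝓝[<] ((j:ℝ) + 1), y ∈ Ioo (j:ℝ) (j + 1) := Ioo_mem_nhdsLT (by linarith)
  obtain ⟨y, h1, h2⟩ := (hev.and hev2).exists
  exact ⟨y, h2, h1⟩

section grid

variable {D : FoldSq X Γ} {f : ℝ × ℝ → X} {α β γ : ℝ}

theorem grid_h (hf : IsoOn f (HP α β γ)) {i j : ℤ}
    (hS : γ < α * (i + 1) + β * (j + 1)) :
    (∃ g, GC D f (HP α β γ) g i j) ↔ (∃ g, GC D f (HP α β γ) g (i + 1) j) := by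
  obtain ⟨y, hy, hlt⟩ := exists_near hS
  have hw : ((i:ℝ) + 1, y) ∈ interior (HP α β γ) := HPo_subset_interior α β γ hlt
  constructor
  · rintro ⟨g, h⟩
    exact h.right hf (convex_HP _ _ _) hw rfl hy
  · rintro ⟨g, h⟩
    obtain ⟨g', h'⟩ := h.left hf (convex_HP _ _ _) hw (by push_cast; rfl) hy
    rw [add_sub_cancel_right] at h'
    exact ⟨g', h'⟩

theorem grid_v (hf : IsoOn f (HP α β γ)) {i j : ℤ}
    (hS : γ < α * (i + 1) + β * (j + 1)) :
    (∃ g, GC D f (HP α β γ) g i j) ↔ (∃ g, GC D f (HP α β γ) g i (j + 1)) := by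
  obtain ⟨x, hx, hlt⟩ := exists_near (α := β * (j + 1)) (γ := γ) (j := i) (β := α) (by linarith)
  have hw : (x, (j:ℝ) + 1) ∈ interior (HP α β γ) := HPo_subset_interior α β γ (by
    change γ < α * x + β * ((j:ℝ) + 1); linarith)
  constructor
  · rintro ⟨g, h⟩
    exact h.up hf (convex_HP _ _ _) hw rfl hx
  · rintro ⟨g, h⟩
    obtain ⟨g', h'⟩ := h.down hf (convex_HP _ _ _) hw (by push_cast; rfl) hx
    rw [add_sub_cancel_right] at h'
    exact ⟨g', h'⟩

theorem grid_h' (hf : IsoOn f (HP α β γ)) (hα : 0 ≤ α) (n : ℕ) {i j : ℤ}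
    (hS : γ < α * (i + 1) + β * (j + 1)) :
    (∃ g, GC D f (HP α β γ) g i j) ↔ (∃ g, GC D f (HP α β γ) g (i + n) j) := by
  induction n with
  | zero => simp
  | succ n ih =>
    rw [ih, grid_h hf (by push_cast; nlinarith [mul_nonneg hα (Nat.cast_nonneg (α := ℝ) n)])]
    push_cast
    rw [add_assoc]

theorem grid_v' (hf : IsoOn f (HP α β γ)) (hβ : 0 ≤ β) (n : ℕ) {i j : ℤ}
    (hS : γ < α * (i + 1) + β * (j + 1)) :
    (∃ g, GC D f (HP α β γ) g i j) ↔ (∃ g, GC D f (HP α β γ) g i (j + n)) := by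
  induction n with
  | zero => simp
  | succ n ih =>
    rw [ih, grid_v hf (by push_cast; nlinarith [mul_nonneg hβ (Nat.cast_nonneg (α := ℝ) n)])]
    push_cast
    rw [add_assoc]

/-- All squares meeting the open half-plane are cells, once one is. -/
theorem grid_all (hf : IsoOn f (HP α β γ)) (hα : 0 ≤ α) (hβ : 0 ≤ β) {i0 j0 : ℤ} {g0 : Γ}
    (h0 : GC D f (HP α β γ) g0 i0 j0) {i j : ℤ} (hS : γ < α * (i + 1) + β * (j + 1)) :
    ∃ g, GC D f (HP α β γ) g i j := by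
  have hS0 : γ < α * (i0 + 1) + β * (j0 + 1) := by
    obtain ⟨w, hw, h1, h2⟩ := h0.ne
    have h1' := trc_mem_Ioo.mp h1
    have h2' := trc_mem_Ioo.mp h2
    have hw0 : w ∈ HP α β γ := interior_subset hw
    have hw' : γ ≤ α * w.1 + β * w.2 := hw0
    by_contra hc
    push Not at hc
    have e1 : α * w.1 ≤ α * (i0 + 1) := mul_le_mul_of_nonneg_left h1'.2.le hα
    have e2 : β * w.2 ≤ β * (j0 + 1) := mul_le_mul_of_nonneg_left h2'.2.le hβ
    have f1 : α * w.1 = α * (i0 + 1) := by linarith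
    have f2 : β * w.2 = β * (j0 + 1) := by linarith
    have f3 : α = 0 := by
      by_contra hne
      have := mul_left_cancel₀ hne f1
      linarith [h1'.2]
    have f4 : β = 0 := by
      by_contra hne
      have := mul_left_cancel₀ hne f2
      linarith [h2'.2]
    rw [f3, f4] at hc hw'
    -- the half-plane is everything; then the claim `hS` is contradictory
    rw [f3, f4] at hS
    linarith
  obtain ⟨n, hn⟩ : ∃ n : ℕ, max i i0 = i0 + n := ⟨(max i i0 - i0).toNat, by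
    have := le_max_right i i0; omega⟩
  obtain ⟨n', hn'⟩ : ∃ n : ℕ, max i i0 = i + n := ⟨(max i i0 - i).toNat, by
    have := le_max_left i i0; omega⟩
  obtain ⟨m, hm⟩ : ∃ n : ℕ, max j j0 = j0 + n := ⟨(max j j0 - j0).toNat, by
    have := le_max_right j j0; omega⟩
  obtain ⟨m', hm'⟩ : ∃ n : ℕ, max j j0 = j + n := ⟨(max j j0 - j).toNat, by
    have := le_max_left j j0; omega⟩
  have s1 := (grid_h' hf hα n hS0).mp ⟨g0, h0⟩
  rw [← hn] at s1
  have hS1 : γ < α * ((max i i0 : ℤ) + 1) + β * (j0 + 1) := by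
    have : ((i0 : ℤ) : ℝ) ≤ ((max i i0 : ℤ) : ℝ) := by exact_mod_cast le_max_right i i0
    nlinarith
  have s2 := (grid_v' hf hβ m hS1).mp s1
  rw [← hm, hm'] at s2
  have hS2 : γ < α * ((max i i0 : ℤ) + 1) + β * (j + 1) := by
    have : ((i : ℤ) : ℝ) ≤ ((max i i0 : ℤ) : ℝ) := by exact_mod_cast le_max_left i i0
    nlinarith
  have s3 := (grid_v' hf hβ m' hS2).mpr s2
  rw [hn'] at s3
  exact (grid_h' hf hα n' hS).mpr s3

end grid

/-! ### Change of coordinates -/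

/-- affine map `(x, y) ↦ (a x + a' y + k₁, b x + b' y + k₂)` -/
def BB (a b a' b' k1 k2 : ℝ) (w : ℝ × ℝ) : ℝ × ℝ :=
  (a * w.1 + a' * w.2 + k1, b * w.1 + b' * w.2 + k2)

theorem BB_continuous (a b a' b' k1 k2 : ℝ) : Continuous (BB a b a' b' k1 k2) := by
  unfold BB; fun_prop

section coord

variable {a b a' b' k1 k2 : ℝ}

theorem BB_dist (n1 : a ^ 2 + b ^ 2 = 1) (n2 : a' ^ 2 + b' ^ 2 = 1) (n3 : a * a' + b * b' = 0)
    (w z : ℝ × ℝ) : ((BB a b a' b' k1 k2 w).1 - (BB a b a' b' k1 k2 z).1) ^ 2 +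
      ((BB a b a' b' k1 k2 w).2 - (BB a b a' b' k1 k2 z).2) ^ 2 =
      (w.1 - z.1) ^ 2 + (w.2 - z.2) ^ 2 := by
  unfold BB
  have e : (a * w.1 + a' * w.2 + k1 - (a * z.1 + a' * z.2 + k1)) ^ 2 +
      (b * w.1 + b' * w.2 + k2 - (b * z.1 + b' * z.2 + k2)) ^ 2 =
      (a ^ 2 + b ^ 2) * (w.1 - z.1) ^ 2 + (a' ^ 2 + b' ^ 2) * (w.2 - z.2) ^ 2 +
      2 * (a * a' + b * b') * (w.1 - z.1) * (w.2 - z.2) := by ring
  simp only
  rw [e, n1, n2, n3]; ring

theorem IsoOn.comp_BB {f : ℝ × ℝ → X} {U : Set (ℝ × ℝ)} (hf : IsoOn f U)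
    (n1 : a ^ 2 + b ^ 2 = 1) (n2 : a' ^ 2 + b' ^ 2 = 1) (n3 : a * a' + b * b' = 0) :
    IsoOn (fun w => f (BB a b a' b' k1 k2 w)) (BB a b a' b' k1 k2 ⁻¹' U) := by
  intro w hw z hz
  rw [hf _ hw _ hz, BB_dist n1 n2 n3]

theorem IsCell.comp_BB {D : FoldSq X Γ} {f : ℝ × ℝ → X} {U : Set (ℝ × ℝ)} {g : Γ}
    {φ ψ : ℝ × ℝ → ℝ} (h : IsCell D f U g φ ψ)
    (n1 : a ^ 2 + b ^ 2 = 1) (n2 : a' ^ 2 + b' ^ 2 = 1) (n3 : a * a' + b * b' = 0) :
    IsCell D (fun w => f (BB a b a' b' k1 k2 w)) (BB a b a' b' k1 k2 ⁻¹' U) g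
      (fun w => φ (BB a b a' b' k1 k2 w)) (fun w => ψ (BB a b a' b' k1 k2 w)) where
  aff := by
    obtain ⟨p, q, r, p', q', r', rfl, rfl, m1, m2, m3⟩ := h.aff
    obtain ⟨c1, c2, c3⟩ := ortho_cols n1 n2 n3
    refine ⟨p * a + q * b, p * a' + q * b', p * k1 + q * k2 + r, p' * a + q' * b,
      p' * a' + q' * b', p' * k1 + q' * k2 + r', ?_, ?_, ?_, ?_, ?_⟩
    · funext w; unfold AF BB; ring
    · funext w; unfold AF BB; ring
    · have : (p * a + q * b) ^ 2 + (p * a' + q * b') ^ 2 = p ^ 2 * (a ^ 2 + a' ^ 2) +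
        q ^ 2 * (b ^ 2 + b' ^ 2) + 2 * p * q * (a * b + a' * b') := by ring
      rw [this, c1, c2, c3]; linarith
    · have : (p' * a + q' * b) ^ 2 + (p' * a' + q' * b') ^ 2 = p' ^ 2 * (a ^ 2 + a' ^ 2) +
        q' ^ 2 * (b ^ 2 + b' ^ 2) + 2 * p' * q' * (a * b + a' * b') := by ring
      rw [this, c1, c2, c3]; linarith
    · have : (p * a + q * b) * (p' * a + q' * b) + (p * a' + q * b') * (p' * a' + q' * b') =
        p * p' * (a ^ 2 + a' ^ 2) + q * q' * (b ^ 2 + b' ^ 2) +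
        (p * q' + q * p') * (a * b + a' * b') := by ring
      rw [this, c1, c2, c3]; linarith
  ne := by
    obtain ⟨w, hw, h1, h2⟩ := h.ne
    obtain ⟨c1, c2, c3⟩ := ortho_cols n1 n2 n3
    have hB : BB a b a' b' k1 k2 (a * (w.1 - k1) + b * (w.2 - k2),
        a' * (w.1 - k1) + b' * (w.2 - k2)) = w := by
      unfold BB
      ext
      · have : a * (a * (w.1 - k1) + b * (w.2 - k2)) + a' * (a' * (w.1 - k1) + b' * (w.2 - k2)) + k1
          = (a ^ 2 + a' ^ 2) * (w.1 - k1) + (a * b + a' * b') * (w.2 - k2) + k1 := by ring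
        simp only
        rw [this, c1, c3]; ring
      · have : b * (a * (w.1 - k1) + b * (w.2 - k2)) + b' * (a' * (w.1 - k1) + b' * (w.2 - k2)) + k2
          = (a * b + a' * b') * (w.1 - k1) + (b ^ 2 + b' ^ 2) * (w.2 - k2) + k2 := by ring
        simp only
        rw [this, c2, c3]; ring
    refine ⟨(a * (w.1 - k1) + b * (w.2 - k2), a' * (w.1 - k1) + b' * (w.2 - k2)), ?_, ?_, ?_⟩
    · apply preimage_interior_subset_interior_preimage (BB_continuous a b a' b' k1 k2)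
      change BB a b a' b' k1 k2 _ ∈ interior U
      rw [hB]; exact hw
    · simp only [hB]; exact h1
    · simp only [hB]; exact h2
  eq w hw h1 h2 := h.eq _ hw h1 h2
  coord w hw hin := h.coord _ hw hin

end coord

/-- **The grid of a half-plane.** -/
theorem exists_grid (D : FoldSq X Γ) {f : ℝ × ℝ → X} (hf : IsoOn f (HP 0 1 0)) :
    ∃ a b a' b' k1 k2 : ℝ, a ^ 2 + b ^ 2 = 1 ∧ a' ^ 2 + b' ^ 2 = 1 ∧ a * a' + b * b' = 0 ∧
      0 ≤ b ∧ 0 ≤ b' ∧
      IsoOn (fun w => f (BB a b a' b' k1 k2 w)) (HP b b' (-k2)) ∧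
      ∀ i j : ℤ, -k2 < b * (i + 1) + b' * (j + 1) →
        ∃ g, GC D (fun w => f (BB a b a' b' k1 k2 w)) (HP b b' (-k2)) g i j := by
  have hone : ((0:ℝ), (1:ℝ)) ∈ HPo 0 1 0 := by
    change (0:ℝ) < 0 * 0 + 1 * 1; norm_num
  have hne : (interior (HP 0 1 0)).Nonempty := ⟨_, HPo_subset_interior 0 1 0 hone⟩
  obtain ⟨w, hw, g, hg⟩ := exists_inSq D hf (isOpen_HPo 0 1 0) (HPo_subset 0 1 0) hone
  obtain ⟨φ, ψ, hcell⟩ := cell_of_point D hf (convex_HP 0 1 0) hne (HPo_subset _ _ _ hw) hg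
  obtain ⟨p, q, r, p', q', r', rfl, rfl, n1, n2, n3⟩ := hcell.aff
  -- signs
  obtain ⟨e, i0, he, heq, hei⟩ : ∃ (e : ℝ) (i0 : ℤ), e ^ 2 = 1 ∧ 0 ≤ e * q ∧
      ∀ s, trc i0 s = e * s := by
    rcases le_total 0 q with h | h
    · exact ⟨1, 0, by norm_num, by linarith, fun s => by simp [trc]⟩
    · exact ⟨-1, -1, by norm_num, by linarith, fun s => by
        have : ¬ Even (-1 : ℤ) := by decide
        simp [trc]⟩
  obtain ⟨e', j0, he', heq', hej⟩ : ∃ (e : ℝ) (i0 : ℤ), e ^ 2 = 1 ∧ 0 ≤ e * q' ∧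
      ∀ s, trc i0 s = e * s := by
    rcases le_total 0 q' with h | h
    · exact ⟨1, 0, by norm_num, by linarith, fun s => by simp [trc]⟩
    · exact ⟨-1, -1, by norm_num, by linarith, fun s => by
        have : ¬ Even (-1 : ℤ) := by decide
        simp [trc]⟩
  set a := e * p with ha
  set b := e * q with hb
  set a' := e' * p' with ha'
  set b' := e' * q' with hb'
  set k1 := -(p * r + p' * r') with hk1
  set k2 := -(q * r + q' * r') with hk2
  have m1 : a ^ 2 + b ^ 2 = 1 := by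
    rw [ha, hb, mul_pow, mul_pow, he]; linarith
  have m2 : a' ^ 2 + b' ^ 2 = 1 := by
    rw [ha', hb', mul_pow, mul_pow, he']; linarith
  have m3 : a * a' + b * b' = 0 := by
    have : a * a' + b * b' = e * e' * (p * p' + q * q') := by
      rw [ha, hb, ha', hb']; ring
    rw [this, n3, mul_zero]
  have hpre : BB a b a' b' k1 k2 ⁻¹' HP 0 1 0 = HP b b' (-k2) := by
    ext w
    change (0 ≤ 0 * (BB a b a' b' k1 k2 w).1 + 1 * (BB a b a' b' k1 k2 w).2) ↔
      (-k2 ≤ b * w.1 + b' * w.2)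
    simp only [BB]
    constructor <;> intro h <;> linarith
  have hiso := hf.comp_BB (k1 := k1) (k2 := k2) m1 m2 m3
  have hc := hcell.comp_BB (k1 := k1) (k2 := k2) m1 m2 m3
  rw [hpre] at hiso hc
  refine ⟨a, b, a', b', k1, k2, m1, m2, m3, heq, heq', hiso, ?_⟩
  intro i j hS
  refine grid_all hiso heq heq' (i0 := i0) (j0 := j0) (g0 := g) ?_ hS
  unfold GC
  convert hc using 1
  · funext w
    rw [hei]
    simp only [AF, BB]
    have : p * (a * w.1 + a' * w.2 + k1) + q * (b * w.1 + b' * w.2 + k2) + r =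
        e * (p ^ 2 + q ^ 2) * w.1 + e' * (p * p' + q * q') * w.2
        - r * (p ^ 2 + q ^ 2) - r' * (p * p' + q * q') + r := by
      rw [ha, hb, ha', hb', hk1, hk2]; ring
    rw [this, n1, n3]; ring
  · funext w
    rw [hej]
    simp only [AF, BB]
    have : p' * (a * w.1 + a' * w.2 + k1) + q' * (b * w.1 + b' * w.2 + k2) + r' =
        e * (p * p' + q * q') * w.1 + e' * (p' ^ 2 + q' ^ 2) * w.2
        - r * (p * p' + q * q') - r' * (p' ^ 2 + q' ^ 2) + r' := by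
      rw [ha, hb, ha', hb', hk1, hk2]; ring
    rw [this, n2, n3]; ring

end Pool.Agent.FlatClosing
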