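import Pool.Agent.FlatClosing.FlatGrid3
import Pool.Agent.FlatClosing.Dev
import Pool.Agent.FlatClosing.Flat

/-!
# FLATGRID, part 4: half-planes in the square complex of a double amalgam
-/

set_option autoImplicit false

namespace Pool.Agent.FlatClosing

open Set Filter Topology

/-- point of the unit square -/
noncomputable def sqp (s t : ℝ) : Sq :=
  WithLp.toLp 2 (projIcc 0 1 zero_le_one s, projIcc 0 1 zero_le_one t)

theorem sqp_fst {s t : ℝ} (hs : s ∈ Icc (0:ℝ) 1) : ((sqp s t).fst : ℝ) = s := by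
  simp [sqp, projIcc_of_mem zero_le_one hs]

theorem sqp_snd {s t : ℝ} (ht : t ∈ Icc (0:ℝ) 1) : ((sqp s t).snd : ℝ) = t := by
  simp [sqp, projIcc_of_mem zero_le_one ht]

theorem sqp_eta (p : Sq) : sqp p.fst p.snd = p := by
  unfold sqp
  rw [projIcc_val, projIcc_val]
  rfl

theorem pos_mid {s : ℝ} (hs : s ∈ Ioo (0:ℝ) 1) : pos s = .mid := by
  simp [pos, not_le.mpr hs.1, not_le.mpr hs.2]

theorem pos_zero : pos 0 = .lo := by simp [pos]

theorem pos_one : pos 1 = .hi := by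
  have : ¬ (1:ℝ) ≤ 0 := by norm_num
  simp [pos, this]

variable {G : Type} [Group G] (D : DoubleAmalg G)

theorem sqSys_St (p : Sq) : D.sqSys.St p = D.St (pos p.fst) (pos p.snd) := rfl

theorem St_mid_mid : D.St .mid .mid = ⊥ := D.triv

theorem fst_sub_le (p q : Sq) : |(p.fst : ℝ) - q.fst| ≤ dist p q := by
  rw [l2_dist, ← Real.dist_eq, ← Subtype.dist_eq]
  exact Real.le_sqrt_of_sq_le (by nlinarith [sq_nonneg (dist p.snd q.snd)])

theorem snd_sub_le (p q : Sq) : |(p.snd : ℝ) - q.snd| ≤ dist p q := by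
  rw [l2_dist, ← Real.dist_eq, ← Subtype.dist_eq]
  exact Real.le_sqrt_of_sq_le (by nlinarith [sq_nonneg (dist p.fst q.fst)])

/-- The square complex of a double amalgam as a `FoldSq`. -/
noncomputable def foldSq : FoldSq D.X G where
  q g s t := D.sqSys.pt g (sqp s t)
  cs x := (D.sqSys.fold x).fst
  ct x := (D.sqSys.fold x).snd
  cs_cont := by
    have h : Continuous (fun p : Sq => (p.fst : ℝ)) :=
      continuous_subtype_val.comp (WithLp.prod_continuous_ofLp 2 _ _).fst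
    exact h.comp D.sqSys.continuous_fold
  ct_cont := by
    have h : Continuous (fun p : Sq => (p.snd : ℝ)) :=
      continuous_subtype_val.comp (WithLp.prod_continuous_ofLp 2 _ _).snd
    exact h.comp D.sqSys.continuous_fold
  cs_q g s hs t _ := by rw [StabSys.fold_pt]; exact sqp_fst hs
  ct_q g s _ t ht := by rw [StabSys.fold_pt]; exact sqp_snd ht
  dist_q g s hs t ht s' hs' t' ht' := by
    rw [StabSys.dist_pt, l2_dist, Real.sq_sqrt (by positivity), Subtype.dist_eq, Subtype.dist_eq,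
      Real.dist_eq, Real.dist_eq, sq_abs, sq_abs, sqp_fst hs, sqp_fst hs', sqp_snd ht, sqp_snd ht']
  cover x := by
    refine ⟨(D.sqSys.fold x).fst.2, (D.sqSys.fold x).snd.2, ?_⟩
    obtain ⟨g, p, rfl⟩ := D.sqSys.exists_rep x
    refine ⟨g, ?_⟩
    rw [StabSys.fold_pt, sqp_eta]
  isOpen_sq g := by
    rw [Metric.isOpen_iff]
    rintro x ⟨s, hs, t, ht, rfl⟩
    have hs' := Ioo_subset_Icc_self hs
    have ht' := Ioo_subset_Icc_self ht
    have hbot : D.sqSys.St (sqp s t) = ⊥ := by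
      rw [sqSys_St, sqp_fst hs', sqp_snd ht', pos_mid hs, pos_mid ht, St_mid_mid]
    obtain ⟨δ, hδ, husc⟩ := D.sqSys.usc (sqp s t)
    refine ⟨min δ (min (min s (1 - s)) (min t (1 - t))), lt_min hδ (lt_min
      (lt_min hs.1 (by linarith [hs.2])) (lt_min ht.1 (by linarith [ht.2]))), fun y hy => ?_⟩
    rw [Metric.mem_ball, dist_comm] at hy
    obtain ⟨k, hk, hyk, hd⟩ := D.sqSys.star husc g y (lt_of_lt_of_le hy (min_le_left _ _))
    rw [hbot, Subgroup.mem_bot] at hk
    rw [hk, mul_one] at hyk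
    rw [hd] at hy
    have h1 := lt_of_le_of_lt (fst_sub_le (sqp s t) (D.sqSys.fold y))
      (lt_of_lt_of_le hy ((min_le_right _ _).trans (min_le_left _ _)))
    have h2 := lt_of_le_of_lt (snd_sub_le (sqp s t) (D.sqSys.fold y))
      (lt_of_lt_of_le hy ((min_le_right _ _).trans (min_le_right _ _)))
    rw [sqp_fst hs', abs_lt] at h1
    rw [sqp_snd ht', abs_lt] at h2
    have a1 := min_le_left s (1 - s)
    have a2 := min_le_right s (1 - s)
    have a3 := min_le_left t (1 - t)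
    have a4 := min_le_right t (1 - t)
    refine ⟨(D.sqSys.fold y).fst, ⟨by linarith [h1.2], by linarith [h1.1]⟩,
      (D.sqSys.fold y).snd, ⟨by linarith [h2.2], by linarith [h2.1]⟩, ?_⟩
    rw [sqp_eta]; exact hyk.symm
  disj g h s hs t ht e := by
    rw [StabSys.pt_eq_pt] at e
    have hs' := Ioo_subset_Icc_self hs
    have ht' := Ioo_subset_Icc_self ht
    have hbot : D.sqSys.St (sqp s t) = ⊥ := by
      rw [sqSys_St, sqp_fst hs', sqp_snd ht', pos_mid hs, pos_mid ht, St_mid_mid]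
    have := e.2
    rw [hbot, Subgroup.mem_bot] at this
    exact inv_mul_eq_one.mp this
  locfin x := by
    obtain ⟨g, p, rfl⟩ := D.sqSys.exists_rep x
    obtain ⟨δ, hδ, husc⟩ := D.sqSys.usc p
    refine ⟨δ, hδ, ?_⟩
    have hfin : Finite (D.sqSys.St p) := D.fin (pos p.fst) (pos p.snd)
    have hfin' : ((fun k => g * k) '' (D.sqSys.St p : Set G)).Finite := by
      apply Set.Finite.image
      exact Set.toFinite _
    refine hfin'.subset ?_
    rintro h ⟨s, hs, t, ht, hd⟩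
    rw [dist_comm] at hd
    obtain ⟨k, hk, hyk, hd'⟩ := D.sqSys.star husc g _ hd
    rw [StabSys.fold_pt] at hyk hd'
    rw [StabSys.pt_eq_pt] at hyk
    rw [hd'] at hd
    have h1 := husc _ hd hyk.2
    refine ⟨g⁻¹ * h, ?_, by simp⟩
    have := (D.sqSys.St p).mul_mem hk ((D.sqSys.St p).inv_mem h1)
    have e : k * (h⁻¹ * (g * k))⁻¹ = g⁻¹ * h := by group
    rw [e] at this
    exact this

theorem foldSq_q_eq {g h : G} {s t : ℝ} (hs : s ∈ Icc (0:ℝ) 1) (ht : t ∈ Icc (0:ℝ) 1)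
    (e : (foldSq D).q g s t = (foldSq D).q h s t) : g⁻¹ * h ∈ D.St (pos s) (pos t) := by
  have := (StabSys.pt_eq_pt _).mp e
  have h2 := this.2
  rw [sqSys_St, sqp_fst hs, sqp_snd ht] at h2
  exact h2

theorem foldSq_smul_q (k g : G) (s t : ℝ) :
    k • (foldSq D).q g s t = (foldSq D).q (k * g) s t := rfl

theorem foldSq_cs_smul (k : G) (x : D.X) : (foldSq D).cs (k • x) = (foldSq D).cs x := by
  change (((D.sqSys.fold (k • x)).fst : I01) : ℝ) = _
  rw [StabSys.fold_smul]; rfl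

theorem foldSq_ct_smul (k : G) (x : D.X) : (foldSq D).ct (k • x) = (foldSq D).ct x := by
  change (((D.sqSys.fold (k • x)).snd : I01) : ℝ) = _
  rw [StabSys.fold_smul]; rfl

theorem trc_shift {i a : ℤ} (ha : Even a) (x : ℝ) : trc (i + a) (x + a) = trc i x := by
  unfold trc
  have : Even (i + a) ↔ Even i := by
    rw [Int.even_add]
    exact ⟨fun h => h.mpr ha, fun h => ⟨fun _ => ha, fun _ => h⟩⟩
  by_cases h : Even i
  · rw [if_pos h, if_pos (this.mpr h)]; push_cast; ring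
  · rw [if_neg h, if_neg (fun h' => h (this.mp h'))]; push_cast; ring

theorem pos_trc_self (i : ℤ) : pos (trc i i) = par i := by
  rw [trc_left]
  by_cases h : Even i
  · rw [if_pos h, par_even h, pos_zero]
  · rw [if_neg h, par_odd h, pos_one]

theorem par_shift {i a : ℤ} (ha : Even a) : par (i + a) = par i := by
  unfold par
  have : Even (i + a) ↔ Even i := by
    rw [Int.even_add]
    exact ⟨fun h => h.mpr ha, fun h => ⟨fun _ => ha, fun _ => h⟩⟩
  by_cases h : Even i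
  · rw [if_pos h, if_pos (this.mpr h)]
  · rw [if_neg h, if_neg (fun h' => h (this.mp h'))]

/-- zeros of the fold coordinate -/
theorem even_of_trc_floor {x : ℝ} (h : trc ⌊x⌋ x = 0) : Even ⌊x⌋ ∧ x = ⌊x⌋ := by
  unfold trc at h
  by_cases hi : Even ⌊x⌋
  · rw [if_pos hi] at h
    exact ⟨hi, by linarith⟩
  · rw [if_neg hi] at h
    have := Int.lt_floor_add_one x
    linarith

section core

variable {D} {F : ℝ × ℝ → D.X} {α β γ : ℝ} {τ : ℤ → ℤ → G}

/-- hypotheses for the analysis of the grid of a half-plane -/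
structure GridHyp (D : DoubleAmalg G) (F : ℝ × ℝ → D.X) (α β γ : ℝ) (τ : ℤ → ℤ → G) :
    Prop where
  hα : 0 ≤ α
  hβ : 0 ≤ β
  hn : α ^ 2 + β ^ 2 = 1
  cell : ∀ i j : ℤ, γ < α * (i + 1) + β * (j + 1) →
    GC (foldSq D) F (HP α β γ) (τ i j) i j

theorem GridHyp.pos (H : GridHyp D F α β γ τ) : 0 < α + β := by
  have h1 := H.hα
  have h2 := H.hβ
  have h3 := H.hn
  rcases lt_or_eq_of_le h1 with h | h
  · linarith
  · rcases lt_or_eq_of_le h2 with h' | h'
    · linarith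
    · rw [← h, ← h'] at h3; norm_num at h3

theorem GridHyp.floor_mem (H : GridHyp D F α β γ τ) {w : ℝ × ℝ} (hw : w ∈ HP α β γ) :
    γ < α * ((⌊w.1⌋ : ℤ) + 1) + β * ((⌊w.2⌋ : ℤ) + 1) := by
  have h1 := H.hα
  have h2 := H.hβ
  have hw' : γ ≤ α * w.1 + β * w.2 := hw
  have l1 := Int.lt_floor_add_one w.1
  have l2 := Int.lt_floor_add_one w.2
  have hp := H.pos
  rcases lt_or_eq_of_le h1 with h | h
  · have e1 : α * w.1 < α * (⌊w.1⌋ + 1) := mul_lt_mul_of_pos_left l1 h
    have e2 : β * w.2 ≤ β * (⌊w.2⌋ + 1) := mul_le_mul_of_nonneg_left l2.le h2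
    linarith
  · have hβ : 0 < β := by linarith
    have e2 : β * w.2 < β * (⌊w.2⌋ + 1) := mul_lt_mul_of_pos_left l2 hβ
    have e1 : α * w.1 ≤ α * (⌊w.1⌋ + 1) := mul_le_mul_of_nonneg_left l1.le h1
    linarith

theorem GridHyp.eq (H : GridHyp D F α β γ τ) {w : ℝ × ℝ} (hw : w ∈ HP α β γ) {i j : ℤ}
    (hS : γ < α * (i + 1) + β * (j + 1)) (h1 : w.1 ∈ Icc (i:ℝ) (i + 1))
    (h2 : w.2 ∈ Icc (j:ℝ) (j + 1)) :
    F w = (foldSq D).q (τ i j) (trc i w.1) (trc j w.2) :=
  (H.cell i j hS).eq w hw (trc_mem_Icc.mpr h1) (trc_mem_Icc.mpr h2)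

theorem floor_mem_Icc (x : ℝ) : x ∈ Icc ((⌊x⌋ : ℤ) : ℝ) ((⌊x⌋ : ℤ) + 1) :=
  ⟨Int.floor_le x, (Int.lt_floor_add_one x).le⟩

theorem GridHyp.eq_floor (H : GridHyp D F α β γ τ) {w : ℝ × ℝ} (hw : w ∈ HP α β γ) :
    F w = (foldSq D).q (τ ⌊w.1⌋ ⌊w.2⌋) (trc ⌊w.1⌋ w.1) (trc ⌊w.2⌋ w.2) :=
  H.eq hw (H.floor_mem hw) (floor_mem_Icc _) (floor_mem_Icc _)

theorem GridHyp.cs_floor (H : GridHyp D F α β γ τ) {w : ℝ × ℝ} (hw : w ∈ HP α β γ) :
    (foldSq D).cs (F w) = trc ⌊w.1⌋ w.1 := by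
  rw [H.eq_floor hw, (foldSq D).cs_q _ _ (trc_mem_Icc.mpr (floor_mem_Icc _)) _
    (trc_mem_Icc.mpr (floor_mem_Icc _))]

theorem GridHyp.ct_floor (H : GridHyp D F α β γ τ) {w : ℝ × ℝ} (hw : w ∈ HP α β γ) :
    (foldSq D).ct (F w) = trc ⌊w.2⌋ w.2 := by
  rw [H.eq_floor hw, (foldSq D).ct_q _ _ (trc_mem_Icc.mpr (floor_mem_Icc _)) _
    (trc_mem_Icc.mpr (floor_mem_Icc _))]

theorem trc_pred_self (i : ℤ) : trc (i - 1) i = trc i i := by
  have h := trc_sub_one i (i:ℝ)
  rw [h, trc_left]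
  by_cases hi : Even i
  · rw [if_pos hi, if_pos hi]; ring
  · rw [if_neg hi, if_neg hi]; ring

/-- the grid is a combinatorial flat -/
theorem GridHyp.flat (H : GridHyp D F α β γ τ) :
    IsFlatOn D {z : ℤ × ℤ | γ < α * (z.1 + 1) + β * (z.2 + 1)} τ where
  h x y h1 h2 := by
    have h1' : γ < α * (((x - 1 : ℤ) : ℝ) + 1) + β * ((y:ℝ) + 1) := h1
    have h2' : γ < α * ((x:ℝ) + 1) + β * ((y:ℝ) + 1) := h2
    have h3 : γ < α * (x:ℝ) + β * ((y:ℝ) + 1) := by
      have : ((x - 1 : ℤ) : ℝ) + 1 = x := by push_cast; ring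
      rw [this] at h1'; exact h1'
    obtain ⟨t, ht, hlt⟩ := exists_near (j := y) h3
    have hw : ((x:ℝ), t) ∈ HP α β γ := HPo_subset _ _ _ hlt
    have e1 := H.eq (i := x - 1) (j := y) hw h1'
      ⟨by push_cast; linarith, by push_cast; linarith⟩
      (Ioo_subset_Icc_self ht)
    have e2 := H.eq (i := x) (j := y) hw h2' ⟨le_rfl, by simp only; linarith⟩
      (Ioo_subset_Icc_self ht)
    simp only at e1 e2
    rw [trc_pred_self] at e1
    constructor
    · have := foldSq_q_eq D (trc_mem_Icc.mpr (show (x:ℝ) ∈ Icc (x:ℝ) (x + 1) from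
        ⟨le_rfl, by linarith⟩)) (trc_mem_Icc.mpr (Ioo_subset_Icc_self ht)) (e1.symm.trans e2)
      rw [pos_trc_self, pos_mid (trc_mem_Ioo.mpr ht)] at this
      exact this
    · intro hc
      have hc' : τ (x - 1) y = τ x y := inv_mul_eq_one.mp hc
      have c1 := H.cell (x - 1) y h1'
      have c2 := H.cell x y h2'
      obtain ⟨w, hwU, hw1, hw2⟩ := c1.ne
      have hwU' := interior_subset hwU
      have e := c1.eq w hwU' (Ioo_subset_Icc_self hw1) (Ioo_subset_Icc_self hw2)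
      have hin : (foldSq D).InSq (τ x y) (F w) := by
        rw [← hc']
        exact ⟨_, hw1, _, hw2, e.symm⟩
      have c3 := (c2.coord w hwU' hin).1
      have c4 := hin.eq.1
      rw [c3] at c4
      have c5 := trc_mem_Ioo.mp c4
      have c6 := trc_mem_Ioo.mp hw1
      have c7 := c6.2
      have c8 := c5.1
      push_cast at c7
      linarith
  v x y h1 h2 := by
    have h1' : γ < α * ((x:ℝ) + 1) + β * (((y - 1 : ℤ) : ℝ) + 1) := h1
    have h2' : γ < α * ((x:ℝ) + 1) + β * ((y:ℝ) + 1) := h2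
    have h3 : γ < β * (y:ℝ) + α * ((x:ℝ) + 1) := by
      have : ((y - 1 : ℤ) : ℝ) + 1 = y := by push_cast; ring
      rw [this] at h1'; linarith
    obtain ⟨t, ht, hlt⟩ := exists_near (j := x) h3
    have hw : (t, (y:ℝ)) ∈ HP α β γ := HPo_subset _ _ _ (by
      change γ < α * t + β * y; linarith)
    have e1 := H.eq (i := x) (j := y - 1) hw h1' (Ioo_subset_Icc_self ht)
      ⟨by push_cast; linarith, by push_cast; linarith⟩
    have e2 := H.eq (i := x) (j := y) hw h2' (Ioo_subset_Icc_self ht)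
      ⟨le_rfl, by simp only; linarith⟩
    simp only at e1 e2
    rw [trc_pred_self] at e1
    constructor
    · have := foldSq_q_eq D (trc_mem_Icc.mpr (Ioo_subset_Icc_self ht))
        (trc_mem_Icc.mpr (show (y:ℝ) ∈ Icc (y:ℝ) (y + 1) from
        ⟨le_rfl, by linarith⟩)) (e1.symm.trans e2)
      rw [pos_trc_self, pos_mid (trc_mem_Ioo.mpr ht)] at this
      exact this
    · intro hc
      have hc' : τ x (y - 1) = τ x y := inv_mul_eq_one.mp hc
      have c1 := H.cell x (y - 1) h1'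
      have c2 := H.cell x y h2'
      obtain ⟨w, hwU, hw1, hw2⟩ := c1.ne
      have hwU' := interior_subset hwU
      have e := c1.eq w hwU' (Ioo_subset_Icc_self hw1) (Ioo_subset_Icc_self hw2)
      have hin : (foldSq D).InSq (τ x y) (F w) := by
        rw [← hc']
        exact ⟨_, hw1, _, hw2, e.symm⟩
      have c3 := (c2.coord w hwU' hin).2
      have c4 := hin.eq.2.1
      rw [c3] at c4
      have c5 := trc_mem_Ioo.mp c4
      have c6 := trc_mem_Ioo.mp hw2
      have c7 := c6.2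
      have c8 := c5.1
      push_cast at c7
      linarith

end core

end Pool.Agent.FlatClosing
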