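import Pool.Agent.FlatClosing.FlatGrid4

/-!
# FLATGRID, part 5: the half-plane bounded by an axis, three cases
-/

set_option autoImplicit false

namespace Pool.Agent.FlatClosing

open Set Filter Topology

section core

variable {G : Type} [Group G] {D : DoubleAmalg G} {F : ℝ × ℝ → D.X} {α β γ : ℝ}
  {τ : ℤ → ℤ → G}

/-- the element `g` moves the boundary line by the vector `(d₁, d₂)` -/
structure ShiftHyp (D : DoubleAmalg G) (F : ℝ × ℝ → D.X) (α β γ : ℝ) (g : G) (d1 d2 : ℝ) :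
    Prop where
  par : α * d1 + β * d2 = 0
  ne : d1 ≠ 0 ∨ d2 ≠ 0
  eq : ∀ w : ℝ × ℝ, α * w.1 + β * w.2 = γ → g • F w = F (w.1 + d1, w.2 + d2)

variable {g : G} {d1 d2 : ℝ}

theorem mem_HP_of_eq {w : ℝ × ℝ} (h : α * w.1 + β * w.2 = γ) : w ∈ HP α β γ :=
  le_of_eq h.symm

theorem ShiftHyp.mem (S : ShiftHyp D F α β γ g d1 d2) {w : ℝ × ℝ}
    (h : α * w.1 + β * w.2 = γ) : (w.1 + d1, w.2 + d2) ∈ HP α β γ := by
  change γ ≤ α * (w.1 + d1) + β * (w.2 + d2)
  have := S.par
  linarith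

theorem even_d1 (H : GridHyp D F α β γ τ) (S : ShiftHyp D F α β γ g d1 d2) (hβ : 0 < β) :
    ∃ a : ℤ, Even a ∧ d1 = a := by
  have hw : α * ((0:ℝ), γ / β).1 + β * ((0:ℝ), γ / β).2 = γ := by
    simp only; field_simp; ring
  have h1 := H.cs_floor (mem_HP_of_eq hw)
  have h2 := H.cs_floor (S.mem hw)
  have h3 := S.eq _ hw
  rw [← h3, foldSq_cs_smul, h1] at h2
  simp only [Int.floor_zero, zero_add] at h2
  have h4 : trc 0 (0:ℝ) = 0 := by simp [trc]
  rw [h4] at h2
  obtain ⟨h5, h6⟩ := even_of_trc_floor h2.symm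
  exact ⟨⌊d1⌋, h5, h6⟩

theorem even_d2 (H : GridHyp D F α β γ τ) (S : ShiftHyp D F α β γ g d1 d2) (hα : 0 < α) :
    ∃ b : ℤ, Even b ∧ d2 = b := by
  have hw : α * (γ / α, (0:ℝ)).1 + β * (γ / α, (0:ℝ)).2 = γ := by
    simp only; field_simp; ring
  have h1 := H.ct_floor (mem_HP_of_eq hw)
  have h2 := H.ct_floor (S.mem hw)
  have h3 := S.eq _ hw
  rw [← h3, foldSq_ct_smul, h1] at h2
  simp only [Int.floor_zero, zero_add] at h2
  have h4 : trc 0 (0:ℝ) = 0 := by simp [trc]
  rw [h4] at h2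
  obtain ⟨h5, h6⟩ := even_of_trc_floor h2.symm
  exact ⟨⌊d2⌋, h5, h6⟩

/-- the cells crossed by the boundary line -/
theorem crossed (H : GridHyp D F α β γ τ) {a b : ℤ} (ha : Even a) (hb : Even b)
    (S : ShiftHyp D F α β γ g a b) {i j : ℤ} (h1 : α * i + β * j < γ)
    (h2 : γ < α * (i + 1) + β * (j + 1)) : τ (i + a) (j + b) = g * τ i j := by
  have hp := H.pos
  set t := (γ - α * i - β * j) / (α + β) with ht
  have ht0 : 0 < t := div_pos (by linarith) hp
  have ht1 : t < 1 := by rw [ht, div_lt_one hp]; linarith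
  have hte : (α + β) * t = γ - α * i - β * j := by rw [ht]; field_simp
  have hw : α * ((i:ℝ) + t, (j:ℝ) + t).1 + β * ((i:ℝ) + t, (j:ℝ) + t).2 = γ := by
    simp only; nlinarith
  have e1 := H.eq (mem_HP_of_eq hw) h2 (show (i:ℝ) + t ∈ Icc (i:ℝ) (i + 1) from
    ⟨by linarith, by linarith⟩) (show (j:ℝ) + t ∈ Icc (j:ℝ) (j + 1) from
    ⟨by linarith, by linarith⟩)
  have h2' : γ < α * (((i + a : ℤ) : ℝ) + 1) + β * (((j + b : ℤ) : ℝ) + 1) := by
    have := S.par
    push_cast; nlinarith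
  have e2 := H.eq (S.mem hw) h2' (show (i:ℝ) + t + a ∈ Icc (((i + a : ℤ) : ℝ)) (((i + a : ℤ) : ℝ) + 1)
    from ⟨by push_cast; linarith, by push_cast; linarith⟩)
    (show (j:ℝ) + t + b ∈ Icc (((j + b : ℤ) : ℝ)) (((j + b : ℤ) : ℝ) + 1)
    from ⟨by push_cast; linarith, by push_cast; linarith⟩)
  have e3 := S.eq _ hw
  simp only at e1 e2 e3
  rw [trc_shift ha, trc_shift hb] at e2
  rw [e1, e2, foldSq_smul_q] at e3
  exact ((foldSq D).disj _ _ _ (trc_mem_Ioo.mpr ⟨by linarith, by linarith⟩) _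
    (trc_mem_Ioo.mpr ⟨by linarith, by linarith⟩) e3).symm

theorem inf_triv {x : G} {i j : Pos} (h1 : x ∈ D.St i .mid) (h2 : x ∈ D.St .mid j) : x = 1 := by
  have : x ∈ D.K false .mid ⊓ D.K true .mid := ⟨h2.1, h1.2⟩
  rw [D.triv] at this
  exact this

/-- slanted boundary: everything is periodic -/
theorem slanted (H : GridHyp D F α β γ τ) (hα : 0 < α) (hβ : 0 < β) {a b : ℤ} (ha : Even a)
    (hb : Even b) (S : ShiftHyp D F α β γ g a b) :
    ∀ i j : ℤ, γ < α * (i + 1) + β * (j + 1) → τ (i + a) (j + b) = g * τ i j := by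
  have hμ : 0 < min α β := lt_min hα hβ
  have hμ1 := min_le_left α β
  have hμ2 := min_le_right α β
  have hflat := H.flat
  have key : ∀ n : ℕ, ∀ i j : ℤ, α * i + β * j < γ + n * min α β →
      γ < α * (i + 1) + β * (j + 1) → τ (i + a) (j + b) = g * τ i j := by
    intro n
    induction n with
    | zero =>
      intro i j h1 h2
      exact crossed H ha hb S (by simpa using h1) h2
    | succ n ih =>
      intro i j h1 h2
      rcases lt_or_ge (α * i + β * j) γ with h | h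
      · exact crossed H ha hb S h h2
      · push_cast at h1
        have s1 : γ < α * (((i - 1 : ℤ) : ℝ) + 1) + β * ((j:ℝ) + 1) := by push_cast; nlinarith
        have s2 : γ < α * ((i:ℝ) + 1) + β * (((j - 1 : ℤ) : ℝ) + 1) := by push_cast; nlinarith
        have i1 := ih (i - 1) j (by push_cast; nlinarith) s1
        have i2 := ih i (j - 1) (by push_cast; nlinarith) s2
        have hpar := S.par
        have t1 : γ < α * ((((i + a) - 1 : ℤ) : ℝ) + 1) + β * (((j + b : ℤ) : ℝ) + 1) := by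
          push_cast at s1 ⊢; nlinarith
        have t2 : γ < α * (((i + a : ℤ) : ℝ) + 1) + β * ((((j + b) - 1 : ℤ) : ℝ) + 1) := by
          push_cast at s2 ⊢; nlinarith
        have t3 : γ < α * (((i + a : ℤ) : ℝ) + 1) + β * (((j + b : ℤ) : ℝ) + 1) := by
          push_cast at h2 ⊢; nlinarith
        have f1 := (hflat.h i j s1 h2).1
        have f2 := (hflat.v i j s2 h2).1
        have f3 := (hflat.h (i + a) (j + b) t1 t3).1
        have f4 := (hflat.v (i + a) (j + b) t2 t3).1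
        rw [par_shift ha] at f3
        rw [par_shift hb] at f4
        have r1 : i + a - 1 = i - 1 + a := by ring
        have r2 : j + b - 1 = j - 1 + b := by ring
        rw [r1, i1] at f3
        rw [r2, i2] at f4
        have g1 : (g * τ i j)⁻¹ * τ (i + a) (j + b) ∈ D.St (par i) .mid := by
          have := (D.St (par i) .mid).mul_mem ((D.St (par i) .mid).inv_mem f1) f3
          have e : ((τ (i - 1) j)⁻¹ * τ i j)⁻¹ * ((g * τ (i - 1) j)⁻¹ * τ (i + a) (j + b)) =
            (g * τ i j)⁻¹ * τ (i + a) (j + b) := by group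
          rwa [e] at this
        have g2 : (g * τ i j)⁻¹ * τ (i + a) (j + b) ∈ D.St .mid (par j) := by
          have := (D.St .mid (par j)).mul_mem ((D.St .mid (par j)).inv_mem f2) f4
          have e : ((τ i (j - 1))⁻¹ * τ i j)⁻¹ * ((g * τ i (j - 1))⁻¹ * τ (i + a) (j + b)) =
            (g * τ i j)⁻¹ * τ (i + a) (j + b) := by group
          rwa [e] at this
        exact (inv_mul_eq_one.mp (inf_triv g1 g2)).symm
  intro i j hij
  obtain ⟨n, hn⟩ := exists_nat_gt ((α * i + β * j - γ) / min α β)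
  refine key n i j ?_ hij
  rw [div_lt_iff₀ hμ] at hn
  linarith

end core

/-- slanted case -/
def FGSlanted {G : Type} [Group G] (D : DoubleAmalg G) (g : G) : Prop :=
  ∃ (τ : ℤ → ℤ → G) (a b : ℤ) (n1 n2 C : ℝ), 0 < n1 ∧ 0 < n2 ∧ Even a ∧ Even b ∧ a ≠ 0 ∧ b ≠ 0 ∧
    n1 * a + n2 * b = 0 ∧ IsFlatOn D {z : ℤ × ℤ | C ≤ n1 * z.1 + n2 * z.2} τ ∧
    ∀ x y : ℤ, C ≤ n1 * x + n2 * y → τ (x + a) (y + b) = g * τ x y

/-- horizontal case -/
def FGHorizontal {G : Type} [Group G] (D : DoubleAmalg G) (g : G) : Prop :=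
  ∃ (τ : ℤ → ℤ → G) (y0 a : ℤ), Even a ∧ a ≠ 0 ∧ IsFlatOn D {z : ℤ × ℤ | y0 ≤ z.2} τ ∧
    ∀ x : ℤ, (τ (x + a) y0)⁻¹ * (g * τ x y0) ∈ D.St .mid (par y0)

/-- vertical case -/
def FGVertical {G : Type} [Group G] (D : DoubleAmalg G) (g : G) : Prop :=
  ∃ (τ : ℤ → ℤ → G) (x0 b : ℤ), Even b ∧ b ≠ 0 ∧ IsFlatOn D {z : ℤ × ℤ | x0 ≤ z.1} τ ∧
    ∀ y : ℤ, (τ x0 (y + b))⁻¹ * (g * τ x0 y) ∈ D.St (par x0) .mid

section final

variable {G : Type} [Group G] {D : DoubleAmalg G} {F : ℝ × ℝ → D.X} {α β γ : ℝ}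
  {τ : ℤ → ℤ → G} {g : G} {d1 d2 : ℝ}

theorem K_pos_trc (e : Bool) (x : ℝ) : D.K e (pos (trc ⌊x⌋ x)) ≤ D.K e (par ⌊x⌋) := by
  have h1 := Int.floor_le x
  have h2 := Int.lt_floor_add_one x
  rcases eq_or_lt_of_le h1 with h | h
  · have : trc ⌊x⌋ x = trc ⌊x⌋ ((⌊x⌋ : ℤ) : ℝ) := by rw [h]
    rw [this, pos_trc_self]
  · rw [pos_mid (trc_mem_Ioo.mpr ⟨h, h2⟩)]
    exact D.K_mid_le e _

theorem three_cases (H : GridHyp D F α β γ τ) (S : ShiftHyp D F α β γ g d1 d2) :
    FGSlanted D g ∨ FGHorizontal D g ∨ FGVertical D g := by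
  have hα := H.hα
  have hβ := H.hβ
  have hn := H.hn
  have hpar := S.par
  rcases lt_or_eq_of_le hα with h | h
  · rcases lt_or_eq_of_le hβ with h' | h'
    · -- slanted
      left
      obtain ⟨a, ha, rfl⟩ := even_d1 H S h'
      obtain ⟨b, hb, rfl⟩ := even_d2 H S h
      refine ⟨τ, a, b, α, β, γ, h, h', ha, hb, ?_, ?_, hpar, ?_, ?_⟩
      · rintro rfl
        rcases S.ne with h1 | h1
        · exact h1 (by simp)
        · apply h1
          have : β * (b:ℝ) = 0 := by simpa using hpar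
          exact (mul_eq_zero.mp this).resolve_left h'.ne'
      · rintro rfl
        rcases S.ne with h1 | h1
        · apply h1
          have : α * (a:ℝ) = 0 := by simpa using hpar
          exact (mul_eq_zero.mp this).resolve_left h.ne'
        · exact h1 (by simp)
      · refine H.flat.mono ?_
        rintro ⟨x, y⟩ hxy
        have hxy' : γ ≤ α * x + β * y := hxy
        change γ < α * ((x:ℝ) + 1) + β * ((y:ℝ) + 1)
        nlinarith
      · intro x y hxy
        exact slanted H h h' ha hb S x y (by nlinarith)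
    · -- vertical boundary
      right; right
      have hα1 : α = 1 := by
        rw [← h'] at hn
        nlinarith
      subst hα1
      subst h'
      have hd1 : d1 = 0 := by linarith
      subst hd1
      obtain ⟨b, hb, rfl⟩ := even_d2 H S h
      have hb0 : b ≠ 0 := by
        rintro rfl
        rcases S.ne with h1 | h1
        · exact h1 rfl
        · exact h1 (by simp)
      have hmem : ∀ x y : ℤ, ⌊γ⌋ ≤ x → γ < 1 * ((x:ℝ) + 1) + 0 * ((y:ℝ) + 1) := by
        intro x y hx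
        have h1 := Int.lt_floor_add_one γ
        have h2 : ((⌊γ⌋ : ℤ) : ℝ) ≤ x := by exact_mod_cast hx
        linarith
      refine ⟨τ, ⌊γ⌋, b, hb, hb0, H.flat.mono (fun z hz => hmem z.1 z.2 hz), fun y => ?_⟩
      have hw : (1:ℝ) * (γ, (y:ℝ) + 1 / 2).1 + 0 * (γ, (y:ℝ) + 1 / 2).2 = γ := by
        simp only; ring
      have e1 := H.eq (i := ⌊γ⌋) (j := y) (mem_HP_of_eq hw) (hmem _ _ le_rfl) (floor_mem_Icc γ)
        (show (y:ℝ) + 1 / 2 ∈ Icc (y:ℝ) (y + 1) from ⟨by linarith, by linarith⟩)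
      have e2 := H.eq (i := ⌊γ⌋) (j := y + b) (S.mem hw) (hmem _ _ le_rfl)
        (show γ + 0 ∈ Icc _ _ from by rw [add_zero]; exact floor_mem_Icc γ)
        (show (y:ℝ) + 1 / 2 + b ∈ Icc (((y + b : ℤ) : ℝ)) (((y + b : ℤ) : ℝ) + 1) from
          ⟨by push_cast; linarith, by push_cast; linarith⟩)
      have e3 := S.eq _ hw
      simp only at e1 e2 e3
      rw [trc_shift hb, add_zero] at e2
      rw [add_zero] at e3
      rw [e1, e2, foldSq_smul_q] at e3
      have e4 := foldSq_q_eq D (trc_mem_Icc.mpr (floor_mem_Icc γ))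
        (trc_mem_Icc.mpr (show (y:ℝ) + 1 / 2 ∈ Icc (y:ℝ) (y + 1) from
          ⟨by linarith, by linarith⟩)) e3.symm
      rw [pos_mid (s := trc y _) (trc_mem_Ioo.mpr ⟨by linarith, by linarith⟩)] at e4
      exact ⟨K_pos_trc false γ e4.1, e4.2⟩
  · -- horizontal boundary
    right; left
    have hβ1 : β = 1 := by
      rw [← h] at hn
      nlinarith
    subst hβ1
    subst h
    have hd2 : d2 = 0 := by linarith
    subst hd2
    obtain ⟨a, ha, rfl⟩ := even_d1 H S one_pos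
    have ha0 : a ≠ 0 := by
      rintro rfl
      rcases S.ne with h1 | h1
      · exact h1 (by simp)
      · exact h1 rfl
    have hmem : ∀ x y : ℤ, ⌊γ⌋ ≤ y → γ < 0 * ((x:ℝ) + 1) + 1 * ((y:ℝ) + 1) := by
      intro x y hx
      have h1 := Int.lt_floor_add_one γ
      have h2 : ((⌊γ⌋ : ℤ) : ℝ) ≤ y := by exact_mod_cast hx
      linarith
    refine ⟨τ, ⌊γ⌋, a, ha, ha0, H.flat.mono (fun z hz => hmem z.1 z.2 hz), fun x => ?_⟩
    have hw : (0:ℝ) * ((x:ℝ) + 1 / 2, γ).1 + 1 * ((x:ℝ) + 1 / 2, γ).2 = γ := by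
      simp only; ring
    have e1 := H.eq (i := x) (j := ⌊γ⌋) (mem_HP_of_eq hw) (hmem _ _ le_rfl)
      (show (x:ℝ) + 1 / 2 ∈ Icc (x:ℝ) (x + 1) from ⟨by linarith, by linarith⟩) (floor_mem_Icc γ)
    have e2 := H.eq (i := x + a) (j := ⌊γ⌋) (S.mem hw) (hmem _ _ le_rfl)
      (show (x:ℝ) + 1 / 2 + a ∈ Icc (((x + a : ℤ) : ℝ)) (((x + a : ℤ) : ℝ) + 1) from
        ⟨by push_cast; linarith, by push_cast; linarith⟩)
      (show γ + 0 ∈ Icc _ _ from by rw [add_zero]; exact floor_mem_Icc γ)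
    have e3 := S.eq _ hw
    simp only at e1 e2 e3
    rw [trc_shift ha, add_zero] at e2
    rw [add_zero] at e3
    rw [e1, e2, foldSq_smul_q] at e3
    have e4 := foldSq_q_eq D (trc_mem_Icc.mpr (show (x:ℝ) + 1 / 2 ∈ Icc (x:ℝ) (x + 1) from
        ⟨by linarith, by linarith⟩)) (trc_mem_Icc.mpr (floor_mem_Icc γ)) e3.symm
    rw [pos_mid (s := trc x _) (trc_mem_Ioo.mpr ⟨by linarith, by linarith⟩)] at e4
    exact ⟨e4.1, K_pos_trc true γ e4.2⟩

end final

/-- **FLATGRID.** An isometrically embedded half-plane whose boundary line is translated by `g`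
gives a combinatorial flat with a periodic boundary. -/
theorem flat_grid {G : Type} [Group G] (D : DoubleAmalg G) (g : G) (f : ℝ × ℝ → D.X)
    (hf : IsoOn f (HP 0 1 0)) (l : ℝ) (hl : l ≠ 0)
    (hg : ∀ x : ℝ, g • f (x, 0) = f (x + l, 0)) :
    FGSlanted D g ∨ FGHorizontal D g ∨ FGVertical D g := by
  classical
  obtain ⟨a, b, a', b', k1, k2, n1, n2, n3, hb, hb', hiso, hcells⟩ := exists_grid (foldSq D) hf
  obtain ⟨c1, c2, c3⟩ := ortho_cols n1 n2 n3
  let τ : ℤ → ℤ → G := fun i j => if h : -k2 < b * (i + 1) + b' * (j + 1) then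
    (hcells i j h).choose else 1
  have H : GridHyp D (fun w => f (BB a b a' b' k1 k2 w)) b b' (-k2) τ := by
    refine ⟨hb, hb', c2, fun i j h => ?_⟩
    simp only [τ, dif_pos h]
    exact (hcells i j h).choose_spec
  have S : ShiftHyp D (fun w => f (BB a b a' b' k1 k2 w)) b b' (-k2) g (a * l) (a' * l) := by
    refine ⟨?_, ?_, ?_⟩
    · have : b * (a * l) + b' * (a' * l) = (a * b + a' * b') * l := by ring
      rw [this, c3, zero_mul]
    · by_contra hc
      push Not at hc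
      obtain ⟨h1, h2⟩ := hc
      have e1 := (mul_eq_zero.mp h1).resolve_right hl
      have e2 := (mul_eq_zero.mp h2).resolve_right hl
      rw [e1, e2] at c1
      norm_num at c1
    · intro w hw
      have e1 : BB a b a' b' k1 k2 w = (a * w.1 + a' * w.2 + k1, 0) := by
        unfold BB
        rw [hw]
        ext
        · rfl
        · simp
      have e2 : BB a b a' b' k1 k2 (w.1 + a * l, w.2 + a' * l) =
          (a * w.1 + a' * w.2 + k1 + l, 0) := by
        unfold BB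
        ext
        · have : a * (w.1 + a * l) + a' * (w.2 + a' * l) + k1 =
            a * w.1 + a' * w.2 + k1 + (a ^ 2 + a' ^ 2) * l := by ring
          simp only
          rw [this, c1, one_mul]
        · have : b * (w.1 + a * l) + b' * (w.2 + a' * l) + k2 =
            (b * w.1 + b' * w.2) + k2 + (a * b + a' * b') * l := by ring
          simp only
          rw [this, c3, hw]; ring
      rw [e1, e2, hg]
  exact three_cases H S

end Pool.Agent.FlatClosing
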