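import Pool.Agent.FlatClosing.FlatGrid
import Pool.Agent.FlatClosing.Proper

/-!
# The square complex of a double amalgam as a folded square complex (MP_ef842e_al)
-/

set_option autoImplicit false

namespace Pool.Agent.FlatClosing

open Set Filter Topology

/-- the point of the unit square with the given real coordinates (clamped) -/
noncomputable def sqp (s t : ℝ) : Sq :=
  WithLp.toLp 2 (Set.projIcc (0 : ℝ) 1 zero_le_one s, Set.projIcc (0 : ℝ) 1 zero_le_one t)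

theorem sqp_fst {s t : ℝ} (hs : s ∈ Icc (0 : ℝ) 1) : ((sqp s t).fst : ℝ) = s := by
  change ((Set.projIcc (0 : ℝ) 1 zero_le_one s : I01) : ℝ) = s
  rw [Set.projIcc_of_mem _ hs]

theorem sqp_snd {s t : ℝ} (ht : t ∈ Icc (0 : ℝ) 1) : ((sqp s t).snd : ℝ) = t := by
  change ((Set.projIcc (0 : ℝ) 1 zero_le_one t : I01) : ℝ) = t
  rw [Set.projIcc_of_mem _ ht]

theorem sqp_coe (p : Sq) : sqp (p.fst : ℝ) (p.snd : ℝ) = p := by
  unfold sqp
  rw [Set.projIcc_val, Set.projIcc_val]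
  rfl

theorem dist_sqp_sq {s t s' t' : ℝ} (hs : s ∈ Icc (0 : ℝ) 1) (ht : t ∈ Icc (0 : ℝ) 1)
    (hs' : s' ∈ Icc (0 : ℝ) 1) (ht' : t' ∈ Icc (0 : ℝ) 1) :
    dist (sqp s t) (sqp s' t') ^ 2 = (s - s') ^ 2 + (t - t') ^ 2 := by
  rw [l2_dist, Real.sq_sqrt (by positivity), Subtype.dist_eq, Subtype.dist_eq, sqp_fst hs,
    sqp_fst hs', sqp_snd ht, sqp_snd ht', Real.dist_eq, Real.dist_eq, sq_abs, sq_abs]

theorem continuous_fst_Sq : Continuous fun p : Sq => (p.fst : ℝ) := by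
  have h1 : Continuous fun p : Sq => p.fst :=
    continuous_fst.comp (WithLp.homeomorphProd 2 unitInterval unitInterval).continuous
  exact continuous_subtype_val.comp h1

theorem continuous_snd_Sq : Continuous fun p : Sq => (p.snd : ℝ) := by
  have h1 : Continuous fun p : Sq => p.snd :=
    continuous_snd.comp (WithLp.homeomorphProd 2 unitInterval unitInterval).continuous
  exact continuous_subtype_val.comp h1

theorem pos_mid {s : ℝ} (hs : s ∈ Ioo (0 : ℝ) 1) : pos s = .mid := by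
  unfold pos
  rw [if_neg (not_le.mpr hs.1), if_neg (not_le.mpr hs.2)]

namespace DoubleAmalg

variable {G : Type} [Group G] (D : DoubleAmalg G)

theorem St_open {p : Sq} (h1 : (p.fst : ℝ) ∈ Ioo (0 : ℝ) 1) (h2 : (p.snd : ℝ) ∈ Ioo (0 : ℝ) 1) :
    D.sqSys.St p = ⊥ := by
  change D.K false (pos p.fst) ⊓ D.K true (pos p.snd) = ⊥
  rw [pos_mid h1, pos_mid h2]
  exact D.triv

/-- the folded square complex structure -/
noncomputable def foldSq : FoldSq D.X G where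
  q g s t := D.sqSys.pt g (sqp s t)
  cs x := ((D.sqSys.fold x).fst : ℝ)
  ct x := ((D.sqSys.fold x).snd : ℝ)
  cs_cont := continuous_fst_Sq.comp D.sqSys.continuous_fold
  ct_cont := continuous_snd_Sq.comp D.sqSys.continuous_fold
  cs_q g s hs t _ := by rw [StabSys.fold_pt]; exact sqp_fst hs
  ct_q g s _ t ht := by rw [StabSys.fold_pt]; exact sqp_snd ht
  dist_q g s hs t ht s' hs' t' ht' := by
    rw [StabSys.dist_pt]; exact dist_sqp_sq hs ht hs' ht'
  cover x := by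
    obtain ⟨g, p, rfl⟩ := D.sqSys.exists_rep x
    refine ⟨(p.fst).2, (p.snd).2, g, ?_⟩
    rw [StabSys.fold_pt, sqp_coe]
  isOpen_sq g := by
    have h1 : {x : D.X | ∃ s ∈ Ioo (0:ℝ) 1, ∃ t ∈ Ioo (0:ℝ) 1, D.sqSys.pt g (sqp s t) = x} =
        D.sqSys.pt g '' {p : Sq | (p.fst : ℝ) ∈ Ioo (0 : ℝ) 1 ∧ (p.snd : ℝ) ∈ Ioo (0 : ℝ) 1} := by
      ext x
      constructor
      · rintro ⟨s, hs, t, ht, rfl⟩
        refine ⟨sqp s t, ⟨?_, ?_⟩, rfl⟩
        · rw [sqp_fst (Ioo_subset_Icc_self hs)]; exact hs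
        · rw [sqp_snd (Ioo_subset_Icc_self ht)]; exact ht
      · rintro ⟨p, ⟨h1, h2⟩, rfl⟩
        exact ⟨p.fst, h1, p.snd, h2, by rw [sqp_coe]⟩
    rw [h1]
    apply D.sqSys.isOpen_image_pt
    · exact (isOpen_Ioo.preimage continuous_fst_Sq).inter (isOpen_Ioo.preimage continuous_snd_Sq)
    · rintro p ⟨h1, h2⟩
      exact D.St_open h1 h2
  disj g h s hs t ht e := by
    rw [StabSys.pt_eq_pt] at e
    have h1 := e.2
    rw [D.St_open (by rw [sqp_fst (Ioo_subset_Icc_self hs)]; exact hs)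
      (by rw [sqp_snd (Ioo_subset_Icc_self ht)]; exact ht), Subgroup.mem_bot] at h1
    exact (inv_mul_eq_one.mp h1)
  locfin x := by
    obtain ⟨t, ht, hfin⟩ := D.locallyFinite_X x
    obtain ⟨r, hr, hsub⟩ := Metric.mem_nhds_iff.mp ht
    refine ⟨r, hr, hfin.subset ?_⟩
    rintro g ⟨s, _, u, _, hd⟩
    exact ⟨D.sqSys.pt g (sqp s u), D.sqSys.pt_mem_cell g _, hsub hd⟩

theorem foldSq_q (g : G) (s t : ℝ) : D.foldSq.q g s t = D.sqSys.pt g (sqp s t) := rfl

/-- equality of points of two squares -/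
theorem foldSq_q_eq {g h : G} {s t : ℝ} (hs : s ∈ Icc (0 : ℝ) 1) (ht : t ∈ Icc (0 : ℝ) 1) :
    D.foldSq.q g s t = D.foldSq.q h s t ↔ g⁻¹ * h ∈ D.K false (pos s) ⊓ D.K true (pos t) := by
  rw [foldSq_q, foldSq_q, StabSys.pt_eq_pt]
  have : D.sqSys.St (sqp s t) = D.K false (pos s) ⊓ D.K true (pos t) := by
    change D.K false (pos ((sqp s t).fst : ℝ)) ⊓ D.K true (pos ((sqp s t).snd : ℝ)) = _
    rw [sqp_fst hs, sqp_snd ht]
  rw [this]
  simp

theorem smul_foldSq_q (k g : G) (s t : ℝ) : k • D.foldSq.q g s t = D.foldSq.q (k * g) s t := rfl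

end DoubleAmalg

end Pool.Agent.FlatClosing
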