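import Pool.Agent.FlatClosing.Periodic
import Pool.Agent.FlatClosing.Realise

/-!
# Letter patterns of periodic half-flats (MP_ef842e, helper84)
-/

set_option autoImplicit false

namespace Pool.Agent.FlatClosing

variable {G : Type} [Group G] {D : DoubleAmalg G} (R : Realisation D)

theorem stepV_periodic {τ : ℤ → ℤ → G} {x₀ c : ℤ} {h : G}
    (H : ∀ y, τ x₀ (y + c) = h * τ x₀ y) (y : ℤ) : stepV τ x₀ (y + c) = stepV τ x₀ y := by
  unfold stepV
  have e : y + c - 1 = y - 1 + c := by ring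
  rw [e, H, H]
  group

theorem stepH_periodic {τ : ℤ → ℤ → G} {y₀ c : ℤ} {h : G}
    (H : ∀ x, τ (x + c) y₀ = h * τ x y₀) (x : ℤ) : stepH τ (x + c) y₀ = stepH τ x y₀ := by
  unfold stepH
  have e : x + c - 1 = x - 1 + c := by ring
  rw [e, H, H]
  group

/-- vertical boundary: pattern on the half-plane `x₀ ≤ x` whose first column is periodic -/
theorem vert_letters {τ : ℤ → ℤ → G} {x₀ : ℤ} (hτ : IsFlatOn D {z | x₀ ≤ z.1} τ) {g : G} {b : ℤ}
    (hb : Even b) (hb0 : b ≠ 0)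
    (hg : ∀ y, (τ x₀ (y + b))⁻¹ * g * τ x₀ y ∈ D.St (par x₀) .mid) :
    ∃ K : ℤ, K ≠ 0 ∧
      Pat ldata (fun x => x₀ ≤ x) (fun _ => True) (R.ltL τ) (R.ltR τ) (R.ltB τ) (R.ltT τ) ∧
      ∀ n, R.ltB τ x₀ (n + K) = R.ltB τ x₀ n ∧ R.ltT τ x₀ (n + K) = R.ltT τ x₀ n := by
  obtain ⟨N, hN, hper⟩ := vert_exact hτ hb hg
  obtain ⟨b', rfl⟩ := hb
  refine ⟨N * b', mul_ne_zero (by exact_mod_cast hN.ne') (by omega), ?_, ?_⟩
  · apply R.pat (A := fun x => x₀ ≤ x) (B := fun _ => True)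
    · refine hτ.mono ?_
      rintro z ⟨hz, -⟩
      exact hz
    · intro x y h1 h2
      exact le_trans h1 h2
    · intro x y _ _
      trivial
  · intro n
    constructor
    · unfold Realisation.ltB
      have e : 2 * (n + N * b') = 2 * n + N * (b' + b') := by ring
      rw [e, stepV_periodic hper]
    · unfold Realisation.ltT
      have e : 2 * (n + N * b') + 1 = 2 * n + 1 + N * (b' + b') := by ring
      rw [e, stepV_periodic hper]

/-- horizontal boundary: pattern on the half-plane `y₀ ≤ y` whose first row is periodic -/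
theorem horiz_letters {τ : ℤ → ℤ → G} {y₀ : ℤ} (hτ : IsFlatOn D {z | y₀ ≤ z.2} τ) {g : G} {a : ℤ}
    (ha : Even a) (ha0 : a ≠ 0)
    (hg : ∀ x, (τ (x + a) y₀)⁻¹ * g * τ x y₀ ∈ D.St .mid (par y₀)) :
    ∃ K : ℤ, K ≠ 0 ∧
      Pat ldata (fun _ => True) (fun y => y₀ ≤ y) (R.ltL τ) (R.ltR τ) (R.ltB τ) (R.ltT τ) ∧
      ∀ m, R.ltL τ (m + K) y₀ = R.ltL τ m y₀ ∧ R.ltR τ (m + K) y₀ = R.ltR τ m y₀ := by
  obtain ⟨N, hN, hper⟩ := horiz_exact hτ ha hg
  obtain ⟨a', rfl⟩ := ha
  refine ⟨N * a', mul_ne_zero (by exact_mod_cast hN.ne') (by omega), ?_, ?_⟩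
  · apply R.pat (A := fun _ => True) (B := fun y => y₀ ≤ y)
    · refine hτ.mono ?_
      rintro z ⟨-, hz⟩
      exact hz
    · intro x y _ _
      trivial
    · intro x y h1 h2
      exact le_trans h1 h2
  · intro m
    constructor
    · unfold Realisation.ltL
      have e : 2 * (m + N * a') = 2 * m + N * (a' + a') := by ring
      rw [e, stepH_periodic hper]
    · unfold Realisation.ltR
      have e : 2 * (m + N * a') + 1 = 2 * m + 1 + N * (a' + a') := by ring
      rw [e, stepH_periodic hper]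

include R in
/-- slanted boundary: periodic pattern on the whole plane (`2 a'`, `2 b'` is the period) -/
theorem slanted_letters {n₁ n₂ C : ℝ} (h1 : n₁ ≠ 0) (h2 : n₂ ≠ 0) {τ : ℤ → ℤ → G}
    (hτ : IsFlatOn D {z | C ≤ n₁ * z.1 + n₂ * z.2} τ) {g : G} {a b : ℤ} (ha : Even a) (hb : Even b)
    (hab : n₁ * a + n₂ * b = 0) (h0 : a ≠ 0 ∨ b ≠ 0)
    (hper : ∀ x y : ℤ, C ≤ n₁ * x + n₂ * y → τ (x + a) (y + b) = g * τ x y) :
    ∃ (a' b' : ℤ) (l : ℤ → ℤ → E73) (r : ℤ → ℤ → ℤ) (β t : ℤ → ℤ → E73), (a' ≠ 0 ∨ b' ≠ 0) ∧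
      Pat ldata (fun _ => True) (fun _ => True) l r β t ∧
      (∀ m j, l (m + a') (j + 2 * b') = l m j) ∧ (∀ m j, r (m + a') (j + 2 * b') = r m j) ∧
      (∀ i n, β (i + 2 * a') (n + b') = β i n) ∧ (∀ i n, t (i + 2 * a') (n + b') = t i n) := by
  obtain ⟨σ, k, hσ, hσp⟩ := slanted_limit h1 h2 hτ hab hper
  obtain ⟨a', rfl⟩ := ha
  obtain ⟨b', rfl⟩ := hb
  have hH : ∀ x y, stepH σ (x + (a' + a')) (y + (b' + b')) = stepH σ x y := by
    intro x y
    unfold stepH
    have e : x + (a' + a') - 1 = x - 1 + (a' + a') := by ring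
    rw [e, hσp, hσp]
    group
  have hV : ∀ x y, stepV σ (x + (a' + a')) (y + (b' + b')) = stepV σ x y := by
    intro x y
    unfold stepV
    have e : y + (b' + b') - 1 = y - 1 + (b' + b') := by ring
    rw [e, hσp, hσp]
    group
  refine ⟨a', b', R.ltL σ, R.ltR σ, R.ltB σ, R.ltT σ, by omega, ?_, ?_, ?_, ?_, ?_⟩
  · apply R.pat (A := fun _ => True) (B := fun _ => True)
    · exact hσ.mono (Set.subset_univ _)
    · intro x y _ _
      trivial
    · intro x y _ _
      trivial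
  · intro m j
    unfold Realisation.ltL
    have e : 2 * (m + a') = 2 * m + (a' + a') := by ring
    have e2 : j + 2 * b' = j + (b' + b') := by ring
    rw [e, e2, hH]
  · intro m j
    unfold Realisation.ltR
    have e : 2 * (m + a') + 1 = 2 * m + 1 + (a' + a') := by ring
    have e2 : j + 2 * b' = j + (b' + b') := by ring
    rw [e, e2, hH]
  · intro i n
    unfold Realisation.ltB
    have e : 2 * (n + b') = 2 * n + (b' + b') := by ring
    have e2 : i + 2 * a' = i + (a' + a') := by ring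
    rw [e, e2, hV]
  · intro i n
    unfold Realisation.ltT
    have e : 2 * (n + b') + 1 = 2 * n + 1 + (b' + b') := by ring
    have e2 : i + 2 * a' = i + (a' + a') := by ring
    rw [e, e2, hV]

end Pool.Agent.FlatClosing
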