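import Pool.Agent.FlatClosing.AlgC
import Pool.Agent.FlatClosing.HalfLetters
import Pool.Agent.FlatClosing.Descent

/-!
# No periodic half-flats in the square complex of the finite data (MP_ef842e, helper84)
-/

set_option autoImplicit false

namespace Pool.Agent.FlatClosing

open _root_.FlatClosing

/-- the concrete double amalgam is built from the finite data -/
noncomputable def realDD : Realisation DD where
  fA := fA
  fB := fB
  fC := fC
  fD := fD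
  injA := fA_injective
  injB := fB_injective
  injC := fC_injective
  injD := fD_injective
  eb e := (fB_iota e).symm
  el e := (fD_iotaD e).symm
  er m := (fC_kappaC' m).symm
  et e := (fC_iotaD e).symm
  St_b g := by
    rw [St_b]
    exact ⟨fun ⟨e, he⟩ => ⟨e, he.symm⟩, fun ⟨e, he⟩ => ⟨e, he.symm⟩⟩
  St_l g := by
    rw [St_l]
    exact ⟨fun ⟨e, he⟩ => ⟨e, he.symm⟩, fun ⟨e, he⟩ => ⟨e, he.symm⟩⟩
  St_r g := by
    rw [St_r]
    exact ⟨fun ⟨e, he⟩ => ⟨e, he.symm⟩, fun ⟨e, he⟩ => ⟨e, he.symm⟩⟩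
  St_t g := by
    rw [St_t]
    exact ⟨fun ⟨e, he⟩ => ⟨e, he.symm⟩, fun ⟨e, he⟩ => ⟨e, he.symm⟩⟩

/-- no half-flat with vertical boundary, periodic up to the stabilisers of the boundary edges -/
theorem no_vertical {τ : ℤ → ℤ → GG} {x₀ : ℤ} (hτ : IsFlatOn DD {z | x₀ ≤ z.1} τ) {g : GG} {b : ℤ}
    (hb : Even b) (hb0 : b ≠ 0)
    (hg : ∀ y, (τ x₀ (y + b))⁻¹ * (g * τ x₀ y) ∈ DD.St (par x₀) .mid) : False := by
  obtain ⟨K, hK, hP, h1⟩ := vert_letters realDD hτ hb hb0 (fun y => by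
    rw [mul_assoc]; exact hg y)
  exact hK (cols_aperiodic (D := ldata) (p := x₀)
    ⟨_, _, _, _, hP, fun n => (h1 n).1, fun n => (h1 n).2⟩)

/-- no half-flat with horizontal boundary, periodic up to the stabilisers of the boundary
edges -/
theorem no_horizontal {τ : ℤ → ℤ → GG} {y₀ : ℤ} (hτ : IsFlatOn DD {z | y₀ ≤ z.2} τ) {g : GG}
    {a : ℤ} (ha : Even a) (ha0 : a ≠ 0)
    (hg : ∀ x, (τ (x + a) y₀)⁻¹ * (g * τ x y₀) ∈ DD.St .mid (par y₀)) : False := by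
  obtain ⟨K, hK, hP, h1⟩ := horiz_letters realDD hτ ha ha0 (fun y => by
    rw [mul_assoc]; exact hg y)
  exact hK (rows_aperiodic (D := ldata) (q := y₀)
    ⟨_, _, _, _, hP, fun n => (h1 n).1, fun n => (h1 n).2⟩)

/-- no periodic half-flat with slanted boundary -/
theorem no_slanted {n₁ n₂ C : ℝ} (h1 : n₁ ≠ 0) (h2 : n₂ ≠ 0) {τ : ℤ → ℤ → GG}
    (hτ : IsFlatOn DD {z | C ≤ n₁ * z.1 + n₂ * z.2} τ) {g : GG} {a b : ℤ} (ha : Even a)
    (hb : Even b) (hab : n₁ * a + n₂ * b = 0) (h0 : a ≠ 0 ∨ b ≠ 0)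
    (hper : ∀ x y : ℤ, C ≤ n₁ * x + n₂ * y → τ (x + a) (y + b) = g * τ x y) : False := by
  obtain ⟨a', b', l, r, β, t, h3, hP, hl, hr, hβ, ht⟩ :=
    slanted_letters realDD h1 h2 hτ ha hb hab h0 hper
  have h4 := plane_aperiodic (D := ldata) (a := a') (b' := b') ⟨l, r, β, t, hP, hl, hr, hβ, ht⟩
  rcases h3 with h3 | h3
  · exact h3 h4.1
  · exact h3 h4.2

end Pool.Agent.FlatClosing
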