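import Pool.Agent.FlatClosing.FlatGrid5
import Pool.Agent.FlatClosing.AsmTools
import Pool.Agent.FlatClosing.NoHalf

/-!
# No axis bounds a flat half-plane (MP_ef842e_al)
-/

set_option autoImplicit false

namespace Pool.Agent.FlatClosing

open Set _root_.FlatClosing

/-- from maps on the half-plane to maps on `ℝ × ℝ` -/
theorem isoOn_of_isometry {X : Type} [MetricSpace X] {f : HalfPlane → X} (hf : Isometry f) :
    IsoOn (fun w : ℝ × ℝ => f (hp w.1 (max w.2 0) (le_max_right _ _))) (HP 0 1 0) := by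
  intro w hw z hz
  have hw' : (0:ℝ) ≤ 0 * w.1 + 1 * w.2 := hw
  have hz' : (0:ℝ) ≤ 0 * z.1 + 1 * z.2 := hz
  have h1 : max w.2 0 = w.2 := max_eq_left (by linarith)
  have h2 : max z.2 0 = z.2 := max_eq_left (by linarith)
  simp only
  rw [hf.dist_eq, hp_dist, Real.sq_sqrt (by positivity), h1, h2]

theorem no_axis_halfplane (g : GG) (γ : ℝ → DD.X) (hγ : IsAxis g γ) : ¬ BoundsHalfPlane γ := by
  intro hb
  obtain ⟨f, l, hf, hl, hg⟩ := hb.normalise hγ
  rcases flat_grid DD g _ (isoOn_of_isometry hf) l hl.ne' (by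
    intro x
    have e : ∀ x : ℝ, hp x (max (0:ℝ) 0) (le_max_right _ _) = hp x 0 le_rfl := by
      intro x
      simp only [max_self]
    simp only
    rw [e, e]
    exact hg x) with h | h | h
  · obtain ⟨τ, a, b, n1, n2, C, h1, h2, ha, hb, ha0, hb0, hab, hflat, hper⟩ := h
    exact no_slanted h1.ne' h2.ne' hflat ha hb hab (Or.inl ha0) hper
  · obtain ⟨τ, y0, a, ha, ha0, hflat, hper⟩ := h
    exact no_horizontal hflat ha ha0 hper
  · obtain ⟨τ, x0, b, hb, hb0, hflat, hper⟩ := h
    exact no_vertical hflat hb hb0 hper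

end Pool.Agent.FlatClosing
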