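import Pool.Agent.FlatClosing.Core

/-!
# Reduced words and half-spaces of an internal amalgam

`Wd K f l n g`: `g` is a product of `n` letters, alternately from `K lo \ K hi` and
`K hi \ K lo`; the first letter is of type `f`, the last one of type `l`
(`false` = `lo`, `true` = `hi`).
-/

set_option autoImplicit false

namespace Pool.Agent.FlatClosing

variable {G : Type} [Group G]

/-- the subgroup of the given type -/
def side (P Q : Subgroup G) : Bool → Subgroup G
  | false => P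
  | true => Q

theorem inf_le_side (P Q : Subgroup G) (i : Bool) : P ⊓ Q ≤ side P Q i := by
  cases i
  · exact inf_le_left
  · exact inf_le_right

theorem side_inf_side (P Q : Subgroup G) {i j : Bool} (h : i ≠ j) {x : G}
    (hi : x ∈ side P Q i) (hj : x ∈ side P Q j) : x ∈ P ⊓ Q := by
  cases i <;> cases j
  · exact absurd rfl h
  · exact ⟨hi, hj⟩
  · exact ⟨hj, hi⟩
  · exact absurd rfl h

/-- reduced words with the types of the first and the last letter -/
inductive Wd (P Q : Subgroup G) : Bool → Bool → ℕ → G → Prop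
  | one (i : Bool) (x : G) (hx : x ∈ side P Q i) (hx' : x ∉ P ⊓ Q) : Wd P Q i i 1 x
  | cons (i l : Bool) (n : ℕ) (x g : G) (hx : x ∈ side P Q i) (hx' : x ∉ P ⊓ Q)
      (h : Wd P Q (!i) l n g) : Wd P Q i l (n + 1) (x * g)

namespace Wd

variable {P Q : Subgroup G}

theorem pos {f l : Bool} {n : ℕ} {g : G} (h : Wd P Q f l n g) : 0 < n := by
  cases h
  · exact one_pos
  · exact Nat.succ_pos _

theorem mul_left {f l : Bool} {n : ℕ} {g m : G} (h : Wd P Q f l n g) (hm : m ∈ P ⊓ Q) :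
    Wd P Q f l n (m * g) := by
  cases h with
  | one i x hx hx' =>
    exact one f _ ((side P Q f).mul_mem (inf_le_side P Q f hm) hx)
      (fun h => hx' ((Subgroup.mul_mem_cancel_left _ hm).mp h))
  | cons i l n x g hx hx' h =>
    rw [← mul_assoc]
    exact cons f l n _ g ((side P Q f).mul_mem (inf_le_side P Q f hm) hx)
      (fun h => hx' ((Subgroup.mul_mem_cancel_left _ hm).mp h)) h

theorem mul_right {f l : Bool} {n : ℕ} {g m : G} (h : Wd P Q f l n g) (hm : m ∈ P ⊓ Q) :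
    Wd P Q f l n (g * m) := by
  induction h with
  | one i x hx hx' =>
    exact one i _ ((side P Q i).mul_mem hx (inf_le_side P Q i hm))
      (fun h => hx' ((Subgroup.mul_mem_cancel_right _ hm).mp h))
  | cons i l n x g hx hx' h ih =>
    rw [mul_assoc]
    exact cons i l n x _ hx hx' ih

/-- left multiplication by a letter of the same type as the first one -/
theorem mul_letter_same {f l : Bool} {n : ℕ} {g x : G} (h : Wd P Q f l n g)
    (hx : x ∈ side P Q f) : x * g ∈ P ⊓ Q ∨ Wd P Q f l n (x * g) ∨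
      ∃ n', Wd P Q (!f) l n' (x * g) := by
  cases h with
  | one i y hy hy' =>
    by_cases h1 : x * g ∈ P ⊓ Q
    · exact Or.inl h1
    · exact Or.inr (Or.inl (one f _ ((side P Q f).mul_mem hx hy) h1))
  | cons i l n y g hy hy' h =>
    rw [← mul_assoc]
    by_cases h1 : x * y ∈ P ⊓ Q
    · exact Or.inr (Or.inr ⟨n, h.mul_left h1⟩)
    · exact Or.inr (Or.inl (cons f l n _ g ((side P Q f).mul_mem hx hy) h1 h))

/-- left multiplication by a letter of the other type -/
theorem mul_letter_other {f l : Bool} {n : ℕ} {g x : G} (h : Wd P Q f l n g)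
    (hx : x ∈ side P Q (!f)) (hx' : x ∉ P ⊓ Q) : Wd P Q (!f) l (n + 1) (x * g) := by
  refine cons (!f) l n x g hx hx' ?_
  rw [Bool.not_not]
  exact h

theorem snoc {f l : Bool} {n : ℕ} {g x : G} (h : Wd P Q f l n g) (hx : x ∈ side P Q (!l))
    (hx' : x ∉ P ⊓ Q) : Wd P Q f (!l) (n + 1) (g * x) := by
  induction h with
  | one i y hy hy' => exact cons i (!i) 1 y x hy hy' (one (!i) x hx hx')
  | cons i l n y g hy hy' h ih =>
    rw [mul_assoc]
    exact cons i (!l) (n + 1) y _ hy hy' (ih hx)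

theorem unsnoc {f l : Bool} {n : ℕ} {g : G} (h : Wd P Q f l n g) :
    (n = 1 ∧ f = l ∧ g ∈ side P Q l ∧ g ∉ P ⊓ Q) ∨
      ∃ n' g' x, n = n' + 1 ∧ Wd P Q f (!l) n' g' ∧ x ∈ side P Q l ∧ x ∉ P ⊓ Q ∧ g = g' * x := by
  induction h with
  | one i y hy hy' => exact Or.inl ⟨rfl, rfl, hy, hy'⟩
  | cons i l n y g hy hy' h ih =>
    right
    rcases ih with ⟨h1, h2, h3, h4⟩ | ⟨n', g', x, h1, h2, h3, h4, h5⟩
    · refine ⟨1, y, g, by omega, ?_, h3, h4, rfl⟩
      rw [← h2, Bool.not_not]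
      exact one i y hy hy'
    · exact ⟨n' + 1, y * g', x, by omega, cons i (!l) n' y g' hy hy' h2, h3, h4, by
        rw [h5, mul_assoc]⟩

/-- concatenation -/
theorem append {f l f' l' : Bool} {n m : ℕ} {g h : G} (hg : Wd P Q f l n g)
    (hh : Wd P Q f' l' m h) (hne : f' = !l) : Wd P Q f l' (n + m) (g * h) := by
  induction hg with
  | one i y hy hy' =>
    subst hne
    rw [Nat.add_comm]
    exact cons i l' m y h hy hy' hh
  | cons i l n y g hy hy' h1 ih =>
    have h2 := cons i l' (n + m) y _ hy hy' (ih hne)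
    rw [mul_assoc]
    have h3 : n + 1 + m = n + m + 1 := by omega
    rw [h3]
    exact h2

/-- the inverse -/
theorem inv {f l : Bool} {n : ℕ} {g : G} (h : Wd P Q f l n g) : Wd P Q l f n g⁻¹ := by
  induction h with
  | one i y hy hy' => exact one i _ ((side P Q i).inv_mem hy) (fun h => hy' ((P ⊓ Q).inv_mem_iff.mp h))
  | cons i l n y g hy hy' h ih =>
    rw [mul_inv_rev]
    have h1 := ih.snoc (x := y⁻¹) (by rw [Bool.not_not]; exact (side P Q i).inv_mem hy)
      (fun h => hy' ((P ⊓ Q).inv_mem_iff.mp h))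
    rw [Bool.not_not] at h1
    exact h1

end Wd

section Amalg

variable {P Q : Subgroup G} (hPQ : IsAmalg P Q)
include hPQ

/-- a reduced word is not in `P ⊓ Q` -/
theorem Wd.notMem {f l : Bool} {n : ℕ} {g : G} (h : Wd P Q f l n g) : g ∉ P ⊓ Q := by
  have key : ∀ {f l : Bool} {n : ℕ} {g : G}, Wd P Q f l n g → ∃ w : List G, w.prod = g ∧
      Alt P Q w ∧ ∃ x w', w = x :: w' ∧ x ∈ side P Q f := by
    intro f l n g h
    induction h with
    | one i x hx hx' =>
      refine ⟨[x], by simp, ⟨?_, by simp⟩, x, [], rfl, hx⟩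
      intro y hy
      rw [List.mem_singleton] at hy
      subst hy
      cases i
      · exact Or.inl ⟨hx, fun h => hx' ⟨hx, h⟩⟩
      · exact Or.inr ⟨hx, fun h => hx' ⟨h, hx⟩⟩
    | cons i l n x g hx hx' h ih =>
      obtain ⟨w, hw, hw', y, w', rfl, hy⟩ := ih
      refine ⟨x :: y :: w', by simp only [List.prod_cons] at hw ⊢; rw [hw], ⟨?_, ?_⟩, x, _, rfl, hx⟩
      · intro z hz
        rw [List.mem_cons] at hz
        rcases hz with rfl | hz
        · cases i
          · exact Or.inl ⟨hx, fun h => hx' ⟨hx, h⟩⟩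
          · exact Or.inr ⟨hx, fun h => hx' ⟨h, hx⟩⟩
        · exact hw'.1 z hz
      · rw [List.isChain_cons_cons]
        refine ⟨?_, hw'.2⟩
        cases i
        · exact Or.inl ⟨hx, hy⟩
        · exact Or.inr ⟨hx, hy⟩
  obtain ⟨w, hw, hw', x, w', hxw, _⟩ := key h
  rw [← hw]
  exact hPQ.alt w hw' (by rw [hxw]; simp)

/-- every element is in `P ⊓ Q` or a reduced word -/
theorem mem_or_wd (g : G) : g ∈ P ⊓ Q ∨ ∃ f l n, Wd P Q f l n g := by
  have hg : g ∈ Subgroup.closure ((P : Set G) ∪ Q) := by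
    rw [← Subgroup.sup_eq_closure, hPQ.sup]
    exact Subgroup.mem_top g
  have step : ∀ x ∈ (P : Set G) ∪ Q, ∀ h : G, (h ∈ P ⊓ Q ∨ ∃ f l n, Wd P Q f l n h) →
      (x * h ∈ P ⊓ Q ∨ ∃ f l n, Wd P Q f l n (x * h)) := by
    intro x hx h hh
    obtain ⟨i, hi⟩ : ∃ i, x ∈ side P Q i := by
      rcases hx with hx | hx
      · exact ⟨false, hx⟩
      · exact ⟨true, hx⟩
    rcases hh with hh | ⟨f, l, n, hh⟩
    · by_cases h1 : x * h ∈ P ⊓ Q
      · exact Or.inl h1
      · exact Or.inr ⟨i, i, 1, Wd.one i _ ((side P Q i).mul_mem hi (inf_le_side P Q i hh)) h1⟩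
    · by_cases hif : i = f
      · subst hif
        rcases hh.mul_letter_same hi with h1 | h1 | ⟨n', h1⟩
        · exact Or.inl h1
        · exact Or.inr ⟨_, _, _, h1⟩
        · exact Or.inr ⟨_, _, _, h1⟩
      · have hif' : i = !f := by
          cases i <;> cases f <;> simp_all
        by_cases h1 : x ∈ P ⊓ Q
        · exact Or.inr ⟨_, _, _, hh.mul_left h1⟩
        · exact Or.inr ⟨_, _, _, hh.mul_letter_other (hif' ▸ hi) h1⟩
  refine Subgroup.closure_induction_left (p := fun g _ => g ∈ P ⊓ Q ∨ ∃ f l n, Wd P Q f l n g)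
    ?_ ?_ ?_ hg
  · exact Or.inl (Subgroup.one_mem _)
  · intro x hx y _ hy
    exact step x hx y hy
  · intro x hx y _ hy
    refine step x⁻¹ ?_ y hy
    rcases hx with hx | hx
    · exact Or.inl (P.inv_mem hx)
    · exact Or.inr (Q.inv_mem hx)

/-- words whose first letters are of different types -/
theorem Wd.ne_of_first {f l f' l' : Bool} {n n' : ℕ} {g g' : G} (h : Wd P Q f l n g)
    (h' : Wd P Q f' l' n' g') (hne : f ≠ f') : g⁻¹ * g' ∉ P ⊓ Q := by
  have h1 := h.inv.append h' (by cases f <;> cases f' <;> simp_all)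
  exact h1.notMem hPQ

/-- uniqueness of the type of the first letter and of the length -/
theorem Wd.unique {f l f' l' : Bool} {n n' : ℕ} {g g' : G} (h : Wd P Q f l n g)
    (h' : Wd P Q f' l' n' g') (hm : g⁻¹ * g' ∈ P ⊓ Q) : f = f' ∧ n = n' := by
  have hf : f = f' := by
    by_contra hne
    exact h.ne_of_first hPQ h' hne hm
  refine ⟨hf, ?_⟩
  induction h generalizing f' l' n' g' with
  | one i x hx hx' =>
    subst hf
    cases h' with
    | one _ y hy hy' => rfl
    | cons _ l n y g hy hy' h =>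
      exfalso
      rw [← mul_assoc] at hm
      by_cases h1 : x⁻¹ * y ∈ P ⊓ Q
      · exact h.notMem hPQ ((Subgroup.mul_mem_cancel_left _ h1).mp hm)
      · exact (Wd.cons i _ _ _ g ((side P Q i).mul_mem ((side P Q i).inv_mem hx) hy) h1 h).notMem
          hPQ hm
  | cons i l n x g hx hx' h ih =>
    subst hf
    cases h' with
    | one _ y hy hy' =>
      exfalso
      have hm' : g'⁻¹ * (x * g) ∈ P ⊓ Q := by
        have := (P ⊓ Q).inv_mem hm
        rwa [mul_inv_rev, inv_inv] at this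
      rw [← mul_assoc] at hm'
      by_cases h1 : g'⁻¹ * x ∈ P ⊓ Q
      · exact h.notMem hPQ ((Subgroup.mul_mem_cancel_left _ h1).mp hm')
      · exact (Wd.cons i l n _ g ((side P Q i).mul_mem ((side P Q i).inv_mem hy) hx) h1 h).notMem
          hPQ hm'
    | cons _ l' n' y g' hy hy' h' =>
      by_cases h1 : x⁻¹ * y ∈ P ⊓ Q
      · have h2 : g⁻¹ * ((x⁻¹ * y) * g') ∈ P ⊓ Q := by
          have : (x * g)⁻¹ * (y * g') = g⁻¹ * ((x⁻¹ * y) * g') := by group
          rwa [this] at hm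
        have := ih (h'.mul_left h1) h2 rfl
        omega
      · exfalso
        have h2 : g⁻¹ * ((x⁻¹ * y) * g') ∈ P ⊓ Q := by
          have : (x * g)⁻¹ * (y * g') = g⁻¹ * ((x⁻¹ * y) * g') := by group
          rwa [this] at hm
        have h3 := Wd.cons i l' n' _ g' ((side P Q i).mul_mem ((side P Q i).inv_mem hx) hy) h1 h'
        exact h.ne_of_first hPQ h3 (by simp) h2

/-! ### Half-spaces -/

omit hPQ in
/-- the half-space of the elements whose reduced form starts with a letter of type `i` -/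
def Half (P Q : Subgroup G) (i : Bool) : Set G := {g | ∃ l n, Wd P Q i l n g}

theorem half_disjoint {i : Bool} {g : G} (h : g ∈ Half P Q i) : g ∉ P ⊓ Q := by
  obtain ⟨l, n, h⟩ := h
  exact h.notMem hPQ

theorem half_trichotomy (g : G) : g ∈ P ⊓ Q ∨ ∃ i, g ∈ Half P Q i := by
  rcases mem_or_wd hPQ g with h | ⟨f, l, n, h⟩
  · exact Or.inl h
  · exact Or.inr ⟨f, l, n, h⟩

theorem half_ne {i j : Bool} {g : G} (hi : g ∈ Half P Q i) (hj : g ∈ Half P Q j) : i = j := by
  obtain ⟨l, n, hi⟩ := hi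
  obtain ⟨l', n', hj⟩ := hj
  exact (hi.unique hPQ hj (by rw [inv_mul_cancel]; exact Subgroup.one_mem _)).1

omit hPQ in
theorem side_sub_half {i : Bool} {x : G} (hx : x ∈ side P Q i) (hx' : x ∉ P ⊓ Q) :
    x ∈ Half P Q i := ⟨i, 1, Wd.one i x hx hx'⟩

/-- ping-pong -/
theorem half_mul {i : Bool} {x g : G} (hx : x ∈ side P Q i) (hx' : x ∉ P ⊓ Q)
    (hg : g ∉ Half P Q i) : x * g ∈ Half P Q i := by
  rcases half_trichotomy hPQ g with h | ⟨j, l, n, h⟩
  · exact ⟨i, 1, Wd.one i _ ((side P Q i).mul_mem hx (inf_le_side P Q i h))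
      (fun h1 => hx' ((Subgroup.mul_mem_cancel_right _ h).mp h1))⟩
  · have hij : j = !i := by
      have : j ≠ i := fun h1 => hg ⟨l, n, h1 ▸ h⟩
      cases i <;> cases j <;> simp_all
    subst hij
    exact ⟨l, n + 1, Wd.cons i l n x g hx hx' h⟩

omit hPQ in
theorem half_mul_right {i : Bool} {g m : G} (hg : g ∈ Half P Q i) (hm : m ∈ P ⊓ Q) :
    g * m ∈ Half P Q i := by
  obtain ⟨l, n, h⟩ := hg
  exact ⟨l, n, h.mul_right hm⟩

omit hPQ in
/-- the boundary of a half-space with respect to right multiplication -/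
theorem half_boundary {i j : Bool} {g z : G} (hg : g ∈ Half P Q i) (hz : z ∈ side P Q j)
    (hgz : g * z ∉ Half P Q i) : j = i ∧ g ∈ side P Q i := by
  obtain ⟨l, n, h⟩ := hg
  induction h with
  | one i x hx hx' =>
    refine ⟨?_, hx⟩
    by_contra hne
    have hj : j = !i := by cases i <;> cases j <;> simp_all
    subst hj
    by_cases h1 : z ∈ P ⊓ Q
    · exact hgz (half_mul_right (side_sub_half hx hx') h1)
    · exact hgz ⟨!i, 2, Wd.cons i (!i) 1 x z hx hx' (Wd.one (!i) z hz h1)⟩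
  | cons i l n x g hx hx' h ih =>
    exfalso
    apply hgz
    rw [mul_assoc]
    by_cases h1 : g * z ∈ Half P Q (!i)
    · obtain ⟨l', n', h1⟩ := h1
      exact ⟨l', n' + 1, Wd.cons i l' n' x _ hx hx' h1⟩
    · obtain ⟨h2, h3⟩ := ih h1
      subst h2
      have h4 : g * z ∈ side P Q (!i) := (side P Q (!i)).mul_mem h3 hz
      by_cases h5 : g * z ∈ P ⊓ Q
      · exact half_mul_right (side_sub_half hx hx') h5
      · exact absurd (side_sub_half h4 h5) h1

/-! ### Outward walls -/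

omit hPQ in
/-- `Out n g i`: the strip `g` has depth `n` and its wall of type `i` is not the one through
which the base strip is reached. -/
def Out (P Q : Subgroup G) (n : ℕ) (g : G) (i : Bool) : Prop :=
  (n = 0 ∧ g = 1) ∨ ∃ f, Wd P Q f (!i) n g

omit hPQ in
theorem Out.mul {n : ℕ} {g x : G} {i : Bool} (h : Out P Q n g i) (hx : x ∈ side P Q i)
    (hx' : x ∉ P ⊓ Q) : Out P Q (n + 1) (g * x) (!i) := by
  rcases h with ⟨rfl, rfl⟩ | ⟨f, h⟩
  · refine Or.inr ⟨i, ?_⟩
    rw [one_mul, Bool.not_not]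
    exact Wd.one i x hx hx'
  · refine Or.inr ⟨f, ?_⟩
    have := h.snoc (x := x) (by rw [Bool.not_not]; exact hx) hx'
    exact this

omit hPQ in
/-- depth at most `n` -/
def Lev (P Q : Subgroup G) (n : ℕ) : Set G := {g | g ∈ P ⊓ Q ∨ ∃ f l m, m ≤ n ∧ Wd P Q f l m g}

omit hPQ in
theorem Lev.mono {n m : ℕ} (h : n ≤ m) : Lev P Q n ⊆ Lev P Q m := by
  rintro g (hg | ⟨f, l, k, hk, hg⟩)
  · exact Or.inl hg
  · exact Or.inr ⟨f, l, k, by omega, hg⟩

theorem exists_lev (g : G) : ∃ n, g ∈ Lev P Q n := by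
  rcases mem_or_wd hPQ g with h | ⟨f, l, n, h⟩
  · exact ⟨0, Or.inl h⟩
  · exact ⟨n, Or.inr ⟨f, l, n, le_rfl, h⟩⟩

omit hPQ in
theorem Out.mem_lev {n : ℕ} {g : G} {i : Bool} (h : Out P Q n g i) : g ∈ Lev P Q n := by
  rcases h with ⟨rfl, rfl⟩ | ⟨f, h⟩
  · exact Or.inl (Subgroup.one_mem _)
  · exact Or.inr ⟨f, _, n, le_rfl, h⟩

/-- beyond an outward wall the depth is larger -/
theorem Out.notMem_half {n : ℕ} {g h : G} {i : Bool} (hg : Out P Q n g i) (hh : h ∈ Lev P Q n) :
    g⁻¹ * h ∉ Half P Q i := by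
  rintro ⟨l, m, hw⟩
  have h1 : ∃ f, Wd P Q f l (n + m) h := by
    rcases hg with ⟨rfl, rfl⟩ | ⟨f, hg⟩
    · rw [inv_one, one_mul] at hw
      exact ⟨i, by rwa [Nat.zero_add]⟩
    · refine ⟨f, ?_⟩
      have := hg.append hw (by rw [Bool.not_not])
      rwa [mul_inv_cancel_left] at this
  obtain ⟨f, h1⟩ := h1
  have hm := hw.pos
  rcases hh with hh | ⟨f', l', k, hk, hh⟩
  · exact h1.notMem hPQ hh
  · have := (h1.unique hPQ hh (by rw [inv_mul_cancel]; exact Subgroup.one_mem _)).2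
    omega

omit hPQ in
/-- the strips of depth `n + 1` -/
theorem exists_out_of_lev {n : ℕ} {h : G} (hh : h ∈ Lev P Q (n + 1)) :
    h ∈ Lev P Q n ∨ ∃ g i x, Out P Q n g i ∧ x ∈ side P Q i ∧ x ∉ P ⊓ Q ∧ h = g * x := by
  rcases hh with hh | ⟨f, l, m, hm, hh⟩
  · exact Or.inl (Or.inl hh)
  · rcases Nat.lt_or_ge n m with h1 | h1
    · right
      have hmn : m = n + 1 := by omega
      subst hmn
      rcases hh.unsnoc with ⟨h2, h3, h4, h5⟩ | ⟨n', g', x, h2, h3, h4, h5, h6⟩
      · have : n = 0 := by omega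
        exact ⟨1, l, h, Or.inl ⟨this, rfl⟩, h4, h5, by rw [one_mul]⟩
      · have : n = n' := by omega
        subst this
        exact ⟨g', l, x, Or.inr ⟨f, h3⟩, h4, h5, h6⟩
    · exact Or.inl (Or.inr ⟨f, l, m, h1, hh⟩)

end Amalg

end Pool.Agent.FlatClosing
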