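import Pool.Agent.FlatClosing.Dev
import Pool.Agent.FlatClosing.HalfSp
import Pool.Agent.CNGlue.Star

/-!
# Level gluing

Let `S : StabSys G Q` and `s : Q → ℝ` be such that `S.St p ≤ K (pos (s p))` for an internal
amalgam `G = K lo *_{K mid} K hi`. The space `S.U` is the union of the strips
`strip K g = {pt h p | g⁻¹ h ∈ K mid}`; two strips are glued along walls
`wall K s i g = {pt h p | g⁻¹ h ∈ K (ip i), pos (s p) = ip i}`.

`geoCN_univ_of_level`: if strips and walls are `GeoCN` and their intersections are convex,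
then the whole space is `GeoCN`.
-/

set_option autoImplicit false

namespace Pool.Agent.FlatClosing

open Set Pool.Agent.CNGlue

/-- the end of the unit interval of the given type -/
def ip : Bool → Pos
  | false => .lo
  | true => .hi

section Amalg

variable {G : Type} [Group G] {P R : Subgroup G}

theorem Lev.mul_right {n : ℕ} {g m : G} (hg : g ∈ Lev P R n) (hm : m ∈ P ⊓ R) :
    g * m ∈ Lev P R n := by
  rcases hg with hg | ⟨f, l, k, hk, hg⟩
  · exact Or.inl (Subgroup.mul_mem _ hg hm)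
  · exact Or.inr ⟨f, l, k, hk, hg.mul_right hm⟩

theorem lev_zero : Lev P R 0 = (P ⊓ R : Subgroup G) := by
  ext g
  constructor
  · rintro (hg | ⟨f, l, k, hk, hg⟩)
    · exact hg
    · have := hg.pos
      omega
  · intro hg
    exact Or.inl hg

end Amalg

/-- A level function for a stabiliser system. -/
structure LevelSys {G : Type} [Group G] {Q : Type} [MetricSpace Q] (S : StabSys G Q)
    (K : Pos → Subgroup G) (s : Q → ℝ) : Prop where
  mid : K .mid = K .lo ⊓ K .hi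
  amalg : IsAmalg (K .lo) (K .hi)
  le : ∀ p, S.St p ≤ K (pos (s p))

namespace StabSys

variable {G : Type} [Group G] {Q : Type} [MetricSpace Q] (S : StabSys G Q)
variable (K : Pos → Subgroup G) (s : Q → ℝ)

/-- the strip of `g` -/
def strip (g : G) : Set S.U := {x | ∃ h p, x = S.pt h p ∧ g⁻¹ * h ∈ K .mid}

/-- the wall of type `i` of the strip `g` -/
def wall (i : Bool) (g : G) : Set S.U :=
  {x | ∃ h p, x = S.pt h p ∧ g⁻¹ * h ∈ K (ip i) ∧ pos (s p) = ip i}

/-- the part of the wall of type `i` which is contained in the strip `g` -/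
def gate (i : Bool) (g : G) : Set S.U :=
  {x | ∃ h p, x = S.pt h p ∧ g⁻¹ * h ∈ K .mid ∧ pos (s p) = ip i}

end StabSys

theorem side_eq {G : Type} [Group G] (K : Pos → Subgroup G) (i : Bool) :
    side (K .lo) (K .hi) i = K (ip i) := by
  cases i <;> rfl

/-- A property `Φ` of subsets of a metric space which is stable under gluing along sets with the
property `Ψ`. -/
structure Gluing {X : Type} [MetricSpace X] (Φ Ψ : Set X → Prop) : Prop where
  star : ∀ {ι : Type} {B : Set X} {P : ι → Set X}, Φ B → (∀ i, Φ (P i)) → (∀ i, Ψ (P i ∩ B)) →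
    (∀ i, ∀ x ∈ B, ∀ y ∈ P i, ∃ a ∈ P i ∩ B, dist x y = dist x a + dist a y) →
    (∀ i j, i ≠ j → ∀ x ∈ P j, ∀ y ∈ P i, ∃ a ∈ P i ∩ B, dist x y = dist x a + dist a y) →
    Φ (B ∪ ⋃ i, P i)
  map : ∀ {f : X → X} {A : Set X}, Isometry f → Φ A → Φ (f '' A)
  map' : ∀ {f : X → X} {A : Set X}, Isometry f → Ψ A → Ψ (f '' A)
  union : ∀ {A : ℕ → Set X}, Monotone A → (∀ n, Φ (A n)) → Φ (⋃ n, A n)

theorem gluing_geoCN {X : Type} [MetricSpace X] :
    Gluing (GeoCN : Set X → Prop) (GeoConv : Set X → Prop) where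
  star := star_glue
  map hf hA := hA.image hf
  map' hf hA := hA.image hf
  union hA h := GeoCN.iUnion (directed_of_isDirected_le hA) h

namespace LevelSys

variable {G : Type} [Group G] {Q : Type} [MetricSpace Q] {S : StabSys G Q}
variable {K : Pos → Subgroup G} {s : Q → ℝ} (H : LevelSys S K s)

include H

theorem mid_le (i : Bool) : K .mid ≤ K (ip i) := by
  rw [H.mid]
  cases i
  · exact inf_le_left
  · exact inf_le_right

theorem mid_le' (j : Pos) : K .mid ≤ K j := by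
  cases j
  · exact H.mid_le false
  · exact le_rfl
  · exact H.mid_le true

theorem strip_inter_wall (i : Bool) (g : G) :
    S.strip K g ∩ S.wall K s i g = S.gate K s i g := by
  ext x
  constructor
  · rintro ⟨⟨h, p, rfl, hh⟩, h', p', he, _, hp⟩
    rw [StabSys.pt_eq_pt] at he
    exact ⟨h, p, rfl, hh, by rw [he.1]; exact hp⟩
  · rintro ⟨h, p, rfl, hh, hp⟩
    exact ⟨⟨h, p, rfl, hh⟩, h, p, rfl, H.mid_le i hh, hp⟩

omit H in
theorem smul_strip (k g : G) : (fun x => k • x) '' S.strip K g = S.strip K (k * g) := by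
  ext x
  constructor
  · rintro ⟨_, ⟨h, p, rfl, hh⟩, rfl⟩
    refine ⟨k * h, p, rfl, ?_⟩
    rwa [mul_inv_rev, mul_assoc, inv_mul_cancel_left]
  · rintro ⟨h, p, rfl, hh⟩
    refine ⟨S.pt (k⁻¹ * h) p, ⟨_, _, rfl, ?_⟩, ?_⟩
    · rwa [mul_inv_rev, mul_assoc] at hh
    · simp

omit H in
theorem smul_wall (i : Bool) (k g : G) :
    (fun x => k • x) '' S.wall K s i g = S.wall K s i (k * g) := by
  ext x
  constructor
  · rintro ⟨_, ⟨h, p, rfl, hh, hp⟩, rfl⟩
    refine ⟨k * h, p, rfl, ?_, hp⟩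
    rwa [mul_inv_rev, mul_assoc, inv_mul_cancel_left]
  · rintro ⟨h, p, rfl, hh, hp⟩
    refine ⟨S.pt (k⁻¹ * h) p, ⟨_, _, rfl, ?_, hp⟩, ?_⟩
    · rwa [mul_inv_rev, mul_assoc] at hh
    · simp

omit H in
theorem smul_gate (i : Bool) (k g : G) :
    (fun x => k • x) '' S.gate K s i g = S.gate K s i (k * g) := by
  ext x
  constructor
  · rintro ⟨_, ⟨h, p, rfl, hh, hp⟩, rfl⟩
    refine ⟨k * h, p, rfl, ?_, hp⟩
    rwa [mul_inv_rev, mul_assoc, inv_mul_cancel_left]
  · rintro ⟨h, p, rfl, hh, hp⟩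
    refine ⟨S.pt (k⁻¹ * h) p, ⟨_, _, rfl, ?_, hp⟩, ?_⟩
    · rwa [mul_inv_rev, mul_assoc] at hh
    · simp

omit H in
theorem wall_eq {i : Bool} {g g' : G} (h : g⁻¹ * g' ∈ K (ip i)) :
    S.wall K s i g = S.wall K s i g' := by
  ext x
  constructor
  · rintro ⟨k, p, rfl, hk, hp⟩
    refine ⟨k, p, rfl, ?_, hp⟩
    have := (K (ip i)).mul_mem ((K (ip i)).inv_mem h) hk
    rwa [mul_inv_rev, inv_inv, mul_assoc, mul_inv_cancel_left] at this
  · rintro ⟨k, p, rfl, hk, hp⟩
    refine ⟨k, p, rfl, ?_, hp⟩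
    have := (K (ip i)).mul_mem h hk
    rwa [mul_assoc, mul_inv_cancel_left] at this

omit H in
theorem strip_eq {g g' : G} (h : g⁻¹ * g' ∈ K .mid) : S.strip K g = S.strip K g' := by
  ext x
  constructor
  · rintro ⟨k, p, rfl, hk⟩
    refine ⟨k, p, rfl, ?_⟩
    have := (K .mid).mul_mem ((K .mid).inv_mem h) hk
    rwa [mul_inv_rev, inv_inv, mul_assoc, mul_inv_cancel_left] at this
  · rintro ⟨k, p, rfl, hk⟩
    refine ⟨k, p, rfl, ?_⟩
    have := (K .mid).mul_mem h hk
    rwa [mul_assoc, mul_inv_cancel_left] at this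

/-! ### Crossing -/

/-- A point lying on both sides lies in the gate. -/
theorem mem_gate_of_both {i : Bool} {h h' : G} {p p' : Q}
    (hh : h ∈ Half (K .lo) (K .hi) i) (hh' : h' ∉ Half (K .lo) (K .hi) i)
    (he : S.pt h p = S.pt h' p') : S.pt h' p' ∈ S.gate K s i 1 := by
  rw [StabSys.pt_eq_pt] at he
  obtain ⟨rfl, he⟩ := he
  have h1 := H.le p he
  have h2 : h * (h⁻¹ * h') = h' := mul_inv_cancel_left _ _
  have key : ∀ j : Bool, pos (s p) = ip j → S.pt h' p ∈ S.gate K s i 1 := by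
    intro j hj
    rw [hj, ← side_eq K] at h1
    obtain ⟨h3, h4⟩ := half_boundary hh h1 (by rw [h2]; exact hh')
    subst h3
    refine ⟨h', p, rfl, ?_, hj⟩
    rw [inv_one, one_mul, H.mid]
    by_contra h5
    apply hh'
    have h6 : h' ∈ side (K .lo) (K .hi) j := by
      rw [← h2]
      exact Subgroup.mul_mem _ h4 h1
    exact side_sub_half h6 h5
  rcases hp : pos (s p) with _ | _ | _
  · exact key false hp
  · exfalso
    rw [hp, H.mid] at h1
    apply hh'
    rw [← h2]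
    exact half_mul_right hh h1
  · exact key true hp

/-- A chain from the near side to the far side meets the gate. -/
theorem chain_crossing {i : Bool} {x y : S.U} {L : ℝ} (hc : S.Chain x y L)
    (hx : ∃ h p, x = S.pt h p ∧ h ∉ Half (K .lo) (K .hi) i)
    (hy : (∃ h p, y = S.pt h p ∧ h ∈ Half (K .lo) (K .hi) i) ∨ y ∈ S.gate K s i 1) :
    ∃ a ∈ S.gate K s i 1, dist x a + dist a y ≤ L := by
  induction hc with
  | nil x =>
    refine ⟨x, ?_, by simp⟩
    rcases hy with ⟨h, p, hy, hh⟩ | hy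
    · obtain ⟨h', p', hx, hh'⟩ := hx
      rw [hx]
      exact H.mem_gate_of_both hh hh' (by rw [← hx, hy])
    · exact hy
  | cons g p q y L hc ih =>
    by_cases hg : g ∈ Half (K .lo) (K .hi) i
    · obtain ⟨h', p', hx, hh'⟩ := hx
      refine ⟨S.pt g p, ?_, ?_⟩
      · rw [hx]
        exact H.mem_gate_of_both hg hh' hx
      · rw [dist_self, zero_add]
        exact S.dist_le_of_chain (StabSys.Chain.cons g p q y L hc)
    · obtain ⟨a, ha, hle⟩ := ih ⟨g, q, rfl, hg⟩ hy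
      refine ⟨a, ha, ?_⟩
      have h1 := dist_triangle (S.pt g p) (S.pt g q) a
      rw [StabSys.dist_pt] at h1
      linarith

/-- The crossing property at the wall of type `i` of the base strip. -/
theorem crossing {i : Bool}
    (hmin : ∀ x y : S.U, (S.gate K s i 1).Nonempty → ∃ a ∈ S.gate K s i 1,
      ∀ b ∈ S.gate K s i 1, dist x a + dist a y ≤ dist x b + dist b y)
    {x y : S.U} (hx : ∃ h p, x = S.pt h p ∧ h ∉ Half (K .lo) (K .hi) i)
    (hy : (∃ h p, y = S.pt h p ∧ h ∈ Half (K .lo) (K .hi) i) ∨ y ∈ S.wall K s i 1) :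
    ∃ a ∈ S.gate K s i 1, dist x y = dist x a + dist a y := by
  have hy' : (∃ h p, y = S.pt h p ∧ h ∈ Half (K .lo) (K .hi) i) ∨ y ∈ S.gate K s i 1 := by
    rcases hy with hy | ⟨h, p, rfl, hh, hp⟩
    · exact Or.inl hy
    · rw [inv_one, one_mul] at hh
      by_cases h1 : h ∈ K .mid
      · exact Or.inr ⟨h, p, rfl, by rwa [inv_one, one_mul], hp⟩
      · rw [H.mid] at h1
        rw [← side_eq K] at hh
        exact Or.inl ⟨h, p, rfl, side_sub_half hh h1⟩
  obtain ⟨L, hL⟩ := S.exists_chain x y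
  obtain ⟨a₀, ha₀, _⟩ := H.chain_crossing hL hx hy'
  obtain ⟨a, ha, hle⟩ := hmin x y ⟨a₀, ha₀⟩
  refine ⟨a, ha, le_antisymm (dist_triangle _ _ _) ?_⟩
  apply S.le_dist_of_chain
  intro M hM
  obtain ⟨b, hb, hbM⟩ := H.chain_crossing hM hx hy'
  exact (hle b hb).trans hbM

/-- The crossing property at the wall of type `i` of the strip `g`. -/
theorem crossing_smul {i : Bool}
    (hmin : ∀ x y : S.U, (S.gate K s i 1).Nonempty → ∃ a ∈ S.gate K s i 1,
      ∀ b ∈ S.gate K s i 1, dist x a + dist a y ≤ dist x b + dist b y) (g : G)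
    {x y : S.U} (hx : ∃ h p, x = S.pt h p ∧ g⁻¹ * h ∉ Half (K .lo) (K .hi) i)
    (hy : (∃ h p, y = S.pt h p ∧ g⁻¹ * h ∈ Half (K .lo) (K .hi) i) ∨ y ∈ S.wall K s i g) :
    ∃ a ∈ S.gate K s i g, dist x y = dist x a + dist a y := by
  obtain ⟨a, ha, h⟩ := H.crossing hmin (x := g⁻¹ • x) (y := g⁻¹ • y) (by
      obtain ⟨h, p, rfl, hh⟩ := hx
      exact ⟨g⁻¹ * h, p, rfl, hh⟩) (by
      rcases hy with ⟨h, p, rfl, hh⟩ | ⟨h, p, rfl, hh, hp⟩
      · exact Or.inl ⟨g⁻¹ * h, p, rfl, hh⟩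
      · exact Or.inr ⟨g⁻¹ * h, p, rfl, by rwa [inv_one, one_mul], hp⟩)
  refine ⟨g • a, ?_, ?_⟩
  · obtain ⟨k, p, rfl, hk, hp⟩ := ha
    rw [inv_one, one_mul] at hk
    exact ⟨g * k, p, rfl, by rwa [inv_mul_cancel_left], hp⟩
  · have e1 : dist (g⁻¹ • x) (g⁻¹ • y) = dist x y := dist_smul _ _ _
    have e2 : dist (g⁻¹ • x) a = dist x (g • a) := by
      rw [← dist_smul g (g⁻¹ • x) a, smul_inv_smul]
    have e3 : dist a (g⁻¹ • y) = dist (g • a) y := by
      rw [← dist_smul g a (g⁻¹ • y), smul_inv_smul]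
    rw [e1, e2, e3] at h
    exact h

/-! ### The induction -/

/-- the union of the strips of depth at most `n` -/
def Reg (_H : LevelSys S K s) (n : ℕ) : Set S.U :=
  {x | ∃ h p, x = S.pt h p ∧ h ∈ Lev (K .lo) (K .hi) n}

/-- If two outward walls differ, the second one is on the near side of the first one. -/
theorem near_of_ne {n : ℕ} {g g' z : G} {i i' : Bool} (hg : Out (K .lo) (K .hi) n g i)
    (hg' : Out (K .lo) (K .hi) n g' i') (hz : z ∈ K (ip i'))
    (hne : S.wall K s i g ≠ S.wall K s i' g') :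
    g⁻¹ * (g' * z) ∉ Half (K .lo) (K .hi) i := by
  intro h1
  apply hne
  have h2 : g⁻¹ * g' ∉ Half (K .lo) (K .hi) i := hg.notMem_half H.amalg hg'.mem_lev
  have h3 : g⁻¹ * (g' * z) * z⁻¹ = g⁻¹ * g' := by group
  have h4 : z⁻¹ ∈ side (K .lo) (K .hi) i' := by
    rw [side_eq]
    exact (K (ip i')).inv_mem hz
  obtain ⟨h5, h6⟩ := half_boundary h1 h4 (by rw [h3]; exact h2)
  subst h5
  apply wall_eq
  rw [← side_eq K, ← h3]
  exact Subgroup.mul_mem _ h6 h4

/-- Attaching the outward walls. -/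
theorem glue_walls {Φ Ψ : Set S.U → Prop} (hΦ : Gluing Φ Ψ) (hw : ∀ i, Φ (S.wall K s i 1))
    (hg : ∀ i, Ψ (S.gate K s i 1)) (hmin : ∀ i, ∀ x y : S.U, (S.gate K s i 1).Nonempty → ∃ a ∈ S.gate K s i 1,
      ∀ b ∈ S.gate K s i 1, dist x a + dist a y ≤ dist x b + dist b y) {n : ℕ}
    (hR : Φ (H.Reg n)) :
    Φ (H.Reg n ∪ ⋃ V : {V : Set S.U // ∃ g i, Out (K .lo) (K .hi) n g i ∧
      V = S.wall K s i g}, (V : Set S.U)) := by
  have hgate : ∀ g i, Out (K .lo) (K .hi) n g i →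
      S.gate K s i g ⊆ S.wall K s i g ∩ H.Reg n := by
    rintro g i ho _ ⟨h, p, rfl, hh, hp⟩
    refine ⟨⟨h, p, rfl, H.mid_le i hh, hp⟩, h, p, rfl, ?_⟩
    rw [← mul_inv_cancel_left g h]
    exact Lev.mul_right ho.mem_lev (by rwa [← H.mid])
  have hcr : ∀ g i, Out (K .lo) (K .hi) n g i → ∀ x ∈ H.Reg n, ∀ y ∈ S.wall K s i g,
      ∃ a ∈ S.gate K s i g, dist x y = dist x a + dist a y := by
    rintro g i ho _ ⟨h, p, rfl, hh⟩ y hy
    exact H.crossing_smul (hmin i) g ⟨h, p, rfl, ho.notMem_half H.amalg hh⟩ (Or.inr hy)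
  have hint : ∀ g i, Out (K .lo) (K .hi) n g i →
      S.wall K s i g ∩ H.Reg n = S.gate K s i g := by
    intro g i ho
    apply Subset.antisymm _ (hgate g i ho)
    rintro x ⟨hx, hx'⟩
    obtain ⟨a, ha, h⟩ := hcr g i ho x hx' x hx
    rw [dist_self] at h
    have h2 : dist x a = 0 := by
      have := dist_nonneg (x := x) (y := a)
      have := dist_nonneg (x := a) (y := x)
      linarith
    rw [dist_eq_zero.mp h2]
    exact ha
  refine hΦ.star hR ?_ ?_ ?_ ?_
  · rintro ⟨V, g, i, ho, rfl⟩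
    have := hΦ.map (isometry_smul S.U g) (hw i)
    rwa [smul_wall, mul_one] at this
  · rintro ⟨V, g, i, ho, rfl⟩
    rw [hint g i ho]
    have := hΦ.map' (isometry_smul S.U g) (hg i)
    rwa [smul_gate, mul_one] at this
  · rintro ⟨V, g, i, ho, rfl⟩ x hx y hy
    rw [hint g i ho]
    exact hcr g i ho x hx y hy
  · rintro ⟨V, g, i, ho, rfl⟩ ⟨V', g', i', ho', rfl⟩ hne x hx y hy
    have hne' : S.wall K s i g ≠ S.wall K s i' g' := fun h => hne (Subtype.ext h)
    rw [hint g i ho]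
    obtain ⟨h, p, rfl, hh, hp⟩ := hx
    refine H.crossing_smul (hmin i) g ⟨h, p, rfl, ?_⟩ (Or.inr hy)
    have := H.near_of_ne ho ho' hh hne'
    rwa [mul_inv_cancel_left] at this

/-- The region after attaching the outward walls. -/
theorem mem_walls {n : ℕ} {x : S.U} (hx : x ∈ H.Reg n ∪ ⋃ V : {V : Set S.U // ∃ g i,
    Out (K .lo) (K .hi) n g i ∧ V = S.wall K s i g}, (V : Set S.U)) {g : G} {i : Bool}
    (ho : Out (K .lo) (K .hi) n g i) :
    (∃ h p, x = S.pt h p ∧ g⁻¹ * h ∉ Half (K .lo) (K .hi) i) ∨ x ∈ S.wall K s i g := by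
  rcases hx with ⟨h, p, rfl, hh⟩ | hx
  · exact Or.inl ⟨h, p, rfl, ho.notMem_half H.amalg hh⟩
  · rw [mem_iUnion] at hx
    obtain ⟨⟨V, g', i', ho', rfl⟩, hx⟩ := hx
    by_cases hne : S.wall K s i g = S.wall K s i' g'
    · exact Or.inr (by rw [hne]; exact hx)
    · obtain ⟨h, p, rfl, hh, hp⟩ := hx
      refine Or.inl ⟨h, p, rfl, ?_⟩
      have := H.near_of_ne ho ho' hh hne
      rwa [mul_inv_cancel_left] at this

/-- Attaching the strips of the next depth. -/
theorem glue_strips {Φ Ψ : Set S.U → Prop} (hΦ : Gluing Φ Ψ) (hs : Φ (S.strip K 1))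
    (hg : ∀ i, Ψ (S.gate K s i 1)) (hmin : ∀ i, ∀ x y : S.U, (S.gate K s i 1).Nonempty → ∃ a ∈ S.gate K s i 1,
      ∀ b ∈ S.gate K s i 1, dist x a + dist a y ≤ dist x b + dist b y) {n : ℕ}
    (hR : Φ (H.Reg n ∪ ⋃ V : {V : Set S.U // ∃ g i, Out (K .lo) (K .hi) n g i ∧
      V = S.wall K s i g}, (V : Set S.U))) :
    Φ ((H.Reg n ∪ ⋃ V : {V : Set S.U // ∃ g i, Out (K .lo) (K .hi) n g i ∧
      V = S.wall K s i g}, (V : Set S.U)) ∪ ⋃ T : {T : Set S.U // ∃ g i x,
      Out (K .lo) (K .hi) n g i ∧ x ∈ K (ip i) ∧ x ∉ K .mid ∧ T = S.strip K (g * x)},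
      (T : Set S.U)) := by
  -- passing from the wall of `g` to the wall of `g * x`
  have hping : ∀ g i x h, x ∈ K (ip i) → x ∉ K .mid → g⁻¹ * h ∉ Half (K .lo) (K .hi) i →
      (g * x)⁻¹ * h ∈ Half (K .lo) (K .hi) i := by
    intro g i x h hx hx' hh
    rw [mul_inv_rev, mul_assoc]
    refine half_mul H.amalg ?_ ?_ hh
    · rw [side_eq]; exact (K (ip i)).inv_mem hx
    · intro h1
      apply hx'
      rw [H.mid]
      exact (Subgroup.inv_mem_iff _).mp h1
  have hwall : ∀ g i x, x ∈ K (ip i) → S.wall K s i g = S.wall K s i (g * x) := by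
    intro g i x hx
    exact wall_eq (by rwa [inv_mul_cancel_left])
  have hgate : ∀ g i x, Out (K .lo) (K .hi) n g i → x ∈ K (ip i) →
      S.gate K s i (g * x) ⊆ S.strip K (g * x) ∩ (H.Reg n ∪ ⋃ V : {V : Set S.U // ∃ g i,
        Out (K .lo) (K .hi) n g i ∧ V = S.wall K s i g}, (V : Set S.U)) := by
    rintro g i x ho hx _ ⟨h, p, rfl, hh, hp⟩
    refine ⟨⟨h, p, rfl, hh⟩, Or.inr ?_⟩
    rw [mem_iUnion]
    refine ⟨⟨S.wall K s i g, g, i, ho, rfl⟩, ?_⟩
    change S.pt h p ∈ S.wall K s i g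
    rw [hwall g i x hx]
    exact ⟨h, p, rfl, H.mid_le i hh, hp⟩
  have hcr : ∀ g i x, x ∈ K (ip i) → x ∉ K .mid → ∀ y : S.U,
      ((∃ h p, y = S.pt h p ∧ g⁻¹ * h ∉ Half (K .lo) (K .hi) i) ∨ y ∈ S.wall K s i g) →
      ∀ z ∈ S.strip K (g * x), ∃ a ∈ S.gate K s i (g * x), dist y z = dist y a + dist a z := by
    intro g i x hx hx' y hy z hz
    obtain ⟨a, ha, h⟩ := H.crossing_smul (hmin i) (g * x) (x := z) (y := y) (by
      obtain ⟨h, p, rfl, hh⟩ := hz
      refine ⟨h, p, rfl, fun h1 => ?_⟩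
      exact half_disjoint H.amalg h1 (by rwa [← H.mid])) (by
      rcases hy with ⟨h, p, rfl, hh⟩ | hy
      · exact Or.inl ⟨h, p, rfl, hping g i x h hx hx' hh⟩
      · exact Or.inr (by rwa [← hwall g i x hx]))
    refine ⟨a, ha, ?_⟩
    rw [dist_comm y z, h, dist_comm z a, dist_comm a y, add_comm]
  have hint : ∀ g i x, Out (K .lo) (K .hi) n g i → x ∈ K (ip i) → x ∉ K .mid →
      S.strip K (g * x) ∩ (H.Reg n ∪ ⋃ V : {V : Set S.U // ∃ g i,
        Out (K .lo) (K .hi) n g i ∧ V = S.wall K s i g}, (V : Set S.U)) =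
      S.gate K s i (g * x) := by
    intro g i x ho hx hx'
    apply Subset.antisymm _ (hgate g i x ho hx)
    rintro y ⟨hy, hy'⟩
    obtain ⟨a, ha, h⟩ := hcr g i x hx hx' y (H.mem_walls hy' ho) y hy
    rw [dist_self] at h
    have h2 : dist y a = 0 := by
      have := dist_nonneg (x := y) (y := a)
      have := dist_nonneg (x := a) (y := y)
      linarith
    rw [dist_eq_zero.mp h2]
    exact ha
  refine hΦ.star hR ?_ ?_ ?_ ?_
  · rintro ⟨T, g, i, x, ho, hx, hx', rfl⟩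
    have := hΦ.map (isometry_smul S.U (g * x)) hs
    rwa [smul_strip, mul_one] at this
  · rintro ⟨T, g, i, x, ho, hx, hx', rfl⟩
    rw [hint g i x ho hx hx']
    have := hΦ.map' (isometry_smul S.U (g * x)) (hg i)
    rwa [smul_gate, mul_one] at this
  · rintro ⟨T, g, i, x, ho, hx, hx', rfl⟩ y hy z hz
    rw [hint g i x ho hx hx']
    exact hcr g i x hx hx' y (H.mem_walls hy ho) z hz
  · rintro ⟨T, g, i, x, ho, hx, hx', rfl⟩ ⟨T', g', i', x', ho', hy, hy', rfl⟩ hne y hyT z hz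
    have hne' : S.strip K (g * x) ≠ S.strip K (g' * x') := fun h => hne (Subtype.ext h)
    rw [hint g i x ho hx hx']
    change z ∈ S.strip K (g * x) at hz
    change y ∈ S.strip K (g' * x') at hyT
    obtain ⟨h, p, rfl, hh⟩ := hyT
    have hh' : g'⁻¹ * h ∈ K (ip i') := by
      have := (K (ip i')).mul_mem hy (H.mid_le i' hh)
      rwa [mul_inv_rev, mul_assoc, mul_inv_cancel_left] at this
    by_cases hW : S.wall K s i g = S.wall K s i' g' ∧ i = i' ∧ g⁻¹ * g' ∈ K (ip i)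
    · obtain ⟨_, rfl, hgg⟩ := hW
      -- both strips are attached to the same wall
      obtain ⟨a, ha, h2⟩ := H.crossing_smul (hmin i) (g * x) (x := z) (y := S.pt h p) (by
        obtain ⟨h, p, rfl, hh⟩ := hz
        refine ⟨h, p, rfl, fun h1 => ?_⟩
        exact half_disjoint H.amalg h1 (by rwa [← H.mid])) (by
        refine Or.inl ⟨h, p, rfl, ?_⟩
        apply side_sub_half
        · rw [side_eq]
          have := (K (ip i)).mul_mem ((K (ip i)).inv_mem hx)
            ((K (ip i)).mul_mem hgg hh')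
          rwa [mul_assoc, mul_inv_cancel_left, ← mul_assoc, ← mul_inv_rev] at this
        · intro h1
          apply hne'
          apply strip_eq
          rw [← H.mid] at h1
          have := (K .mid).mul_mem h1 ((K .mid).inv_mem hh)
          rwa [mul_inv_rev ((g' * x')⁻¹) h, inv_inv, mul_assoc, mul_inv_cancel_left] at this)
      refine ⟨a, ha, ?_⟩
      rw [dist_comm _ z, h2, dist_comm z a, dist_comm (S.pt h p) a, add_comm]
    · refine hcr g i x hx hx' _ (Or.inl ⟨h, p, rfl, ?_⟩) z hz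
      intro h1
      apply hW
      have h2 : g⁻¹ * g' ∉ Half (K .lo) (K .hi) i := ho.notMem_half H.amalg ho'.mem_lev
      have h3 : g⁻¹ * h * (g'⁻¹ * h)⁻¹ = g⁻¹ * g' := by group
      have h4 : (g'⁻¹ * h)⁻¹ ∈ side (K .lo) (K .hi) i' := by
        rw [side_eq]
        exact (K (ip i')).inv_mem hh'
      obtain ⟨h5, h6⟩ := half_boundary h1 h4 (by rw [h3]; exact h2)
      subst h5
      have h7 : g⁻¹ * g' ∈ K (ip i') := by
        rw [← side_eq K, ← h3]
        exact Subgroup.mul_mem _ h6 h4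
      exact ⟨wall_eq h7, rfl, h7⟩

theorem reg_succ (n : ℕ) :
    ((H.Reg n ∪ ⋃ V : {V : Set S.U // ∃ g i, Out (K .lo) (K .hi) n g i ∧
      V = S.wall K s i g}, (V : Set S.U)) ∪ ⋃ T : {T : Set S.U // ∃ g i x,
      Out (K .lo) (K .hi) n g i ∧ x ∈ K (ip i) ∧ x ∉ K .mid ∧ T = S.strip K (g * x)},
      (T : Set S.U)) = H.Reg (n + 1) := by
  apply Subset.antisymm
  · rintro x ((⟨h, p, rfl, hh⟩ | hx) | hx)
    · exact ⟨h, p, rfl, Lev.mono (Nat.le_succ n) hh⟩
    · rw [mem_iUnion] at hx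
      obtain ⟨⟨V, g, i, ho, rfl⟩, h, p, rfl, hh, hp⟩ := hx
      refine ⟨h, p, rfl, ?_⟩
      by_cases h1 : g⁻¹ * h ∈ K .lo ⊓ K .hi
      · have := Lev.mul_right (Lev.mono (Nat.le_succ n) ho.mem_lev) h1
        rwa [mul_inv_cancel_left] at this
      · rw [← side_eq K] at hh
        have := (ho.mul hh h1).mem_lev
        rwa [mul_inv_cancel_left] at this
    · rw [mem_iUnion] at hx
      obtain ⟨⟨T, g, i, x, ho, hx, hx', rfl⟩, h, p, rfl, hh⟩ := hx
      refine ⟨h, p, rfl, ?_⟩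
      rw [← side_eq K] at hx
      rw [H.mid] at hx' hh
      have := Lev.mul_right (ho.mul hx hx').mem_lev hh
      rwa [mul_inv_cancel_left] at this
  · rintro _ ⟨h, p, rfl, hh⟩
    rcases exists_out_of_lev hh with hh | ⟨g, i, x, ho, hx, hx', rfl⟩
    · exact Or.inl (Or.inl ⟨h, p, rfl, hh⟩)
    · refine Or.inr ?_
      rw [mem_iUnion]
      rw [side_eq] at hx
      rw [← H.mid] at hx'
      refine ⟨⟨S.strip K (g * x), g, i, x, ho, hx, hx', rfl⟩, g * x, p, rfl, ?_⟩
      rw [inv_mul_cancel]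
      exact Subgroup.one_mem _

theorem reg_zero : H.Reg 0 = S.strip K 1 := by
  ext x
  constructor
  · rintro ⟨h, p, rfl, hh⟩
    rw [lev_zero] at hh
    refine ⟨h, p, rfl, ?_⟩
    rw [inv_one, one_mul, H.mid]
    exact hh
  · rintro ⟨h, p, rfl, hh⟩
    rw [inv_one, one_mul, H.mid] at hh
    refine ⟨h, p, rfl, ?_⟩
    rw [lev_zero]
    exact hh

theorem reg_mono {n m : ℕ} (h : n ≤ m) : H.Reg n ⊆ H.Reg m := by
  rintro _ ⟨g, p, rfl, hg⟩
  exact ⟨g, p, rfl, Lev.mono h hg⟩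

theorem iUnion_reg : (⋃ n, H.Reg n) = univ := by
  rw [eq_univ_iff_forall]
  intro x
  obtain ⟨g, p, rfl⟩ := S.exists_rep x
  obtain ⟨n, hn⟩ := exists_lev H.amalg g
  rw [mem_iUnion]
  exact ⟨n, g, p, rfl, hn⟩

/-- **Level gluing**, general form. -/
theorem glue_univ {Φ Ψ : Set S.U → Prop} (hΦ : Gluing Φ Ψ) (hs : Φ (S.strip K 1))
    (hw : ∀ i, Φ (S.wall K s i 1)) (hg : ∀ i, Ψ (S.gate K s i 1))
    (hmin : ∀ i, ∀ x y : S.U, (S.gate K s i 1).Nonempty → ∃ a ∈ S.gate K s i 1,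
      ∀ b ∈ S.gate K s i 1, dist x a + dist a y ≤ dist x b + dist b y) :
    Φ (univ : Set S.U) := by
  have h1 : ∀ n, Φ (H.Reg n) := by
    intro n
    induction n with
    | zero => rw [H.reg_zero]; exact hs
    | succ n ih =>
      rw [← H.reg_succ]
      exact H.glue_strips hΦ hs hg hmin (H.glue_walls hΦ hw hg hmin ih)
  rw [← H.iUnion_reg]
  exact hΦ.union (fun n m h => H.reg_mono h) h1

/-- **Level gluing.** If the base strip and the walls of the base strip are `GeoCN`, and the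
gates are convex, then the whole space is `GeoCN`. -/
theorem geoCN_univ (hs : GeoCN (S.strip K 1)) (hw : ∀ i, GeoCN (S.wall K s i 1))
    (hg : ∀ i, GeoConv (S.gate K s i 1))
    (hmin : ∀ i, ∀ x y : S.U, (S.gate K s i 1).Nonempty → ∃ a ∈ S.gate K s i 1,
      ∀ b ∈ S.gate K s i 1, dist x a + dist a y ≤ dist x b + dist b y) :
    GeoCN (univ : Set S.U) := H.glue_univ gluing_geoCN hs hw hg hmin

/-! ### Closedness of the gates -/

omit H in
/-- The strips are closed. -/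
theorem isClosed_strip (g : G) : IsClosed (S.strip K g) := by
  rw [← isOpen_compl_iff, Metric.isOpen_iff]
  intro x hx
  obtain ⟨h, p, rfl⟩ := S.exists_rep x
  obtain ⟨δ, hδ, hδ'⟩ := S.usc p
  refine ⟨δ, hδ, ?_⟩
  intro y hy hy'
  apply hx
  rw [Metric.mem_ball, dist_comm] at hy
  obtain ⟨k, hk, hyk, hd⟩ := S.star hδ' h y hy
  obtain ⟨h', q, rfl, hh'⟩ := hy'
  rw [StabSys.fold_pt] at hyk hd
  rw [StabSys.pt_eq_pt] at hyk
  have h1 : S.St q ≤ S.St p := hδ' q (by rw [← hd]; exact hy)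
  have h2 : h⁻¹ * h' ∈ S.St p := by
    have h3 := (S.St p).mul_mem hk ((S.St p).inv_mem (h1 hyk.2))
    have h4 : k * (h'⁻¹ * (h * k))⁻¹ = h⁻¹ * h' := by group
    rwa [h4] at h3
  exact ⟨h', p, by rw [StabSys.pt_eq_pt]; exact ⟨rfl, h2⟩, hh'⟩

omit H in
/-- The gates are closed. -/
theorem isClosed_gate (hcont : Continuous s) (i : Bool) (g : G) :
    IsClosed (S.gate K s i g) := by
  have h1 : S.gate K s i g = S.strip K g ∩ S.fold ⁻¹' {p | pos (s p) = ip i} := by
    ext x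
    constructor
    · rintro ⟨h, p, rfl, hh, hp⟩
      exact ⟨⟨h, p, rfl, hh⟩, hp⟩
    · rintro ⟨⟨h, p, rfl, hh⟩, hp⟩
      exact ⟨h, p, rfl, hh, hp⟩
  rw [h1]
  refine (isClosed_strip g).inter (IsClosed.preimage S.continuous_fold ?_)
  cases i
  · have : {p | pos (s p) = ip false} = s ⁻¹' Iic 0 := by
      ext p
      simp only [mem_ofPred_eq, mem_preimage, mem_Iic, pos, ip]
      by_cases h2 : s p ≤ 0
      · simp [h2]
      · by_cases h3 : 1 ≤ s p
        · simp [h2, h3]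
        · simp [h2, h3]
    rw [this]
    exact isClosed_Iic.preimage hcont
  · have : {p | pos (s p) = ip true} = s ⁻¹' Ici 1 := by
      ext p
      simp only [mem_ofPred_eq, mem_preimage, mem_Ici, pos, ip]
      by_cases h2 : s p ≤ 0
      · have h3 : ¬ 1 ≤ s p := by linarith
        simp [h2, h3]
      · by_cases h3 : 1 ≤ s p
        · simp [h2, h3]
        · simp [h2, h3]
    rw [this]
    exact isClosed_Ici.preimage hcont

omit H in
/-- In a proper space the minimum over a closed nonempty set is attained. -/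
theorem exists_min_of_proper {Y : Type*} [MetricSpace Y] [ProperSpace Y] {A : Set Y}
    (hA : IsClosed A) (x y : Y) (hne : A.Nonempty) :
    ∃ a ∈ A, ∀ b ∈ A, dist x a + dist a y ≤ dist x b + dist b y := by
  obtain ⟨b₀, hb₀⟩ := hne
  have hcpt : IsCompact (A ∩ Metric.closedBall x (dist x b₀ + dist b₀ y)) :=
    (isCompact_closedBall x _).inter_left hA
  have hb₀' : b₀ ∈ A ∩ Metric.closedBall x (dist x b₀ + dist b₀ y) := by
    refine ⟨hb₀, ?_⟩
    rw [Metric.mem_closedBall, dist_comm]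
    linarith [dist_nonneg (x := b₀) (y := y)]
  have hf : ContinuousOn (fun b => dist x b + dist b y)
      (A ∩ Metric.closedBall x (dist x b₀ + dist b₀ y)) := by
    fun_prop
  obtain ⟨a, ha, hmin⟩ := hcpt.exists_isMinOn ⟨b₀, hb₀'⟩ hf
  refine ⟨a, ha.1, fun b hb => ?_⟩
  by_cases h1 : b ∈ Metric.closedBall x (dist x b₀ + dist b₀ y)
  · exact hmin ⟨hb, h1⟩
  · rw [Metric.mem_closedBall, not_le, dist_comm b x] at h1
    have h2 : dist x a + dist a y ≤ dist x b₀ + dist b₀ y := hmin hb₀'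
    have h3 := dist_nonneg (x := b) (y := y)
    linarith

/-- **Level gluing in a proper space.** -/
theorem geoCN_univ_of_proper [ProperSpace S.U] (hcont : Continuous s) (hs : GeoCN (S.strip K 1))
    (hw : ∀ i, GeoCN (S.wall K s i 1)) (hg : ∀ i, GeoConv (S.gate K s i 1)) :
    GeoCN (univ : Set S.U) :=
  H.geoCN_univ hs hw hg fun i x y hne => exists_min_of_proper (isClosed_gate hcont i 1) x y hne

end LevelSys

end Pool.Agent.FlatClosing
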