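import Pool.Agent.FlatClosing.Flat
import Pool.Agent.FlatClosing.HalfSp
import Pool.Agent.FlatClosing.Statement

/-!
# Non-hyperbolicity from arbitrarily large flat patches (MP_ef842e, helper29)

If a group with a double amalgam decomposition has arbitrarily large combinatorial flat patches,
then no word metric of it satisfies the four-point condition.
-/

set_option autoImplicit false

namespace Pool.Agent.FlatClosing

/-! ### Word length -/

section WordLength

variable {G : Type} [Group G] {S : Set G}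

theorem wl_exists (hS : Subgroup.closure S = ⊤) (g : G) :
    ∃ l : List G, (∀ x ∈ l, x ∈ S ∨ x⁻¹ ∈ S) ∧ l.prod = g := by
  have hg : g ∈ (Subgroup.closure S).toSubmonoid := by rw [hS]; exact Subgroup.mem_top g
  rw [Subgroup.closure_toSubmonoid] at hg
  obtain ⟨l, h1, h2⟩ := Submonoid.exists_list_of_mem_closure hg
  exact ⟨l, fun x hx => by simpa using h1 x hx, h2⟩

theorem wl_spec (hS : Subgroup.closure S = ⊤) (g : G) :
    ∃ l : List G, l.length = wordLength S g ∧ (∀ x ∈ l, x ∈ S ∨ x⁻¹ ∈ S) ∧ l.prod = g := by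
  have h : {n | ∃ l : List G, l.length = n ∧ (∀ x ∈ l, x ∈ S ∨ x⁻¹ ∈ S) ∧ l.prod = g}.Nonempty := by
    obtain ⟨l, h1, h2⟩ := wl_exists hS g
    exact ⟨l.length, l, rfl, h1, h2⟩
  exact Nat.sInf_mem h

theorem wl_le {l : List G} (h : ∀ x ∈ l, x ∈ S ∨ x⁻¹ ∈ S) : wordLength S l.prod ≤ l.length :=
  Nat.sInf_le ⟨l, rfl, h, rfl⟩

theorem wl_one : wordLength S (1 : G) = 0 := by
  have := wl_le (S := S) (l := ([] : List G)) (by simp)
  simpa using this

theorem wl_mul_le (hS : Subgroup.closure S = ⊤) (g h : G) :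
    wordLength S (g * h) ≤ wordLength S g + wordLength S h := by
  obtain ⟨l, h1, h2, h3⟩ := wl_spec hS g
  obtain ⟨m, h4, h5, h6⟩ := wl_spec hS h
  have := wl_le (S := S) (l := l ++ m) (by
    intro x hx
    rw [List.mem_append] at hx
    rcases hx with hx | hx
    · exact h2 x hx
    · exact h5 x hx)
  rw [List.prod_append, h3, h6, List.length_append, h1, h4] at this
  exact this

theorem wl_inv_le (hS : Subgroup.closure S = ⊤) (g : G) :
    wordLength S g⁻¹ ≤ wordLength S g := by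
  obtain ⟨l, h1, h2, h3⟩ := wl_spec hS g
  have h4 := wl_le (S := S) (l := (l.map (fun x => x⁻¹)).reverse) (by
    intro x hx
    rw [List.mem_reverse, List.mem_map] at hx
    obtain ⟨y, hy, rfl⟩ := hx
    rcases h2 y hy with h | h
    · right; simpa using h
    · left; exact h)
  rw [← List.prod_inv_reverse, h3, List.length_reverse, List.length_map, h1] at h4
  exact h4

theorem wl_inv (hS : Subgroup.closure S = ⊤) (g : G) :
    wordLength S g⁻¹ = wordLength S g := by
  apply le_antisymm (wl_inv_le hS g)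
  have := wl_inv_le hS g⁻¹
  rwa [inv_inv] at this

/-- a point on a geodesic -/
theorem wl_mid (hS : Subgroup.closure S = ⊤) (g : G) (k : ℕ) :
    ∃ h : G, wordLength S h ≤ k ∧ wordLength S (h⁻¹ * g) ≤ wordLength S g - k := by
  obtain ⟨l, h1, h2, h3⟩ := wl_spec hS g
  refine ⟨(l.take k).prod, ?_, ?_⟩
  · have := wl_le (S := S) (l := l.take k) (fun x hx => h2 x (List.mem_of_mem_take hx))
    refine this.trans ?_
    rw [List.length_take]
    exact min_le_left _ _
  · have h4 := wl_le (S := S) (l := l.drop k) (fun x hx => h2 x (List.mem_of_mem_drop hx))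
    have h5 : (l.take k).prod⁻¹ * g = (l.drop k).prod := by
      rw [← h3, ← List.prod_take_mul_prod_drop l k]
      group
    rw [h5]
    rw [List.length_drop, h1] at h4
    exact h4

/-- a finite set has bounded word length -/
theorem wl_bdd (F : Set G) (hF : F.Finite) : ∃ C : ℕ, ∀ x ∈ F, wordLength S x ≤ C := by
  obtain ⟨C, hC⟩ := (hF.image (wordLength S)).bddAbove
  exact ⟨C, fun x hx => hC ⟨x, hx, rfl⟩⟩

/-- The path lemma: in a four-point hyperbolic word metric, a path of length `≤ 2 ^ k` staying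
at distance `≥ r` from `w` has small Gromov product at `w` only if `r` is at most about
`k δ`. -/
theorem chain_gromov {δ : ℝ}
    (H : ∀ x y z w : G,
      (wordLength S (x⁻¹ * z) : ℝ) + wordLength S (y⁻¹ * w) ≤
      max ((wordLength S (x⁻¹ * y) : ℝ) + wordLength S (z⁻¹ * w))
        ((wordLength S (x⁻¹ * w) : ℝ) + wordLength S (y⁻¹ * z)) + δ)
    (w : G) (p : ℕ → G) (C r : ℝ) (hC : 0 ≤ C) :
    ∀ (k a b : ℕ), a ≤ b → b ≤ a + 2 ^ k →
      (∀ i, a ≤ i → i ≤ b → r ≤ wordLength S ((p i)⁻¹ * w)) →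
      (∀ i, a ≤ i → i < b → (wordLength S ((p i)⁻¹ * p (i + 1)) : ℝ) ≤ C) →
      2 * r - C - k * δ ≤ (wordLength S ((p a)⁻¹ * w) : ℝ) + wordLength S ((p b)⁻¹ * w)
        - wordLength S ((p a)⁻¹ * p b) := by
  intro k
  induction k with
  | zero =>
    intro a b hab hb h1 h2
    have ha := h1 a le_rfl hab
    have hb' := h1 b hab le_rfl
    simp only [pow_zero] at hb
    rcases Nat.eq_or_lt_of_le hab with h | h
    · subst h
      rw [inv_mul_cancel, wl_one]
      push_cast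
      linarith
    · have : b = a + 1 := by omega
      subst this
      have := h2 a le_rfl h
      push_cast
      linarith
  | succ k ih =>
    intro a b hab hb h1 h2
    obtain ⟨c, hac, hcb, hc1, hc2⟩ : ∃ c, a ≤ c ∧ c ≤ b ∧ c ≤ a + 2 ^ k ∧ b ≤ c + 2 ^ k := by
      rcases Nat.le_total b (a + 2 ^ k) with h | h
      · exact ⟨b, hab, le_rfl, h, Nat.le_add_right _ _⟩
      · refine ⟨a + 2 ^ k, Nat.le_add_right _ _, h, le_rfl, ?_⟩
        rw [pow_succ] at hb
        omega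
    have e1 := ih a c hac hc1 (fun i hi hi' => h1 i hi (hi'.trans hcb))
      (fun i hi hi' => h2 i hi (lt_of_lt_of_le hi' hcb))
    have e2 := ih c b hcb hc2 (fun i hi hi' => h1 i (hac.trans hi) hi')
      (fun i hi hi' => h2 i (hac.trans hi) hi')
    have e3 := H (p a) (p c) (p b) w
    push_cast
    rcases max_cases ((wordLength S ((p a)⁻¹ * p c) : ℝ) + wordLength S ((p b)⁻¹ * w))
        ((wordLength S ((p a)⁻¹ * w) : ℝ) + wordLength S ((p c)⁻¹ * p b)) with ⟨h, _⟩ | ⟨h, _⟩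
    · rw [h] at e3
      linarith
    · rw [h] at e3
      linarith

/-- consequence: a path between the ends of a geodesic passes near every point of it -/
theorem path_near {δ : ℝ} (hδ : 0 ≤ δ)
    (H : ∀ x y z w : G,
      (wordLength S (x⁻¹ * z) : ℝ) + wordLength S (y⁻¹ * w) ≤
      max ((wordLength S (x⁻¹ * y) : ℝ) + wordLength S (z⁻¹ * w))
        ((wordLength S (x⁻¹ * w) : ℝ) + wordLength S (y⁻¹ * z)) + δ)
    (w : G) (p : ℕ → G) (C : ℝ) (hC : 0 ≤ C) (k N : ℕ) (hN : N ≤ 2 ^ k)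
    (hw : (wordLength S ((p 0)⁻¹ * w) : ℝ) + wordLength S ((p N)⁻¹ * w) ≤
      wordLength S ((p 0)⁻¹ * p N))
    (hp : ∀ i < N, (wordLength S ((p i)⁻¹ * p (i + 1)) : ℝ) ≤ C) :
    ∃ i ≤ N, (wordLength S ((p i)⁻¹ * w) : ℝ) ≤ C + k * δ + 1 := by
  by_contra hcon
  push Not at hcon
  have h1 := chain_gromov H w p C (C + k * δ + 1) hC k 0 N (Nat.zero_le _) (by omega)
    (fun i _ hi => (hcon i hi).le) (fun i _ hi => hp i hi)
  have h2 : 0 ≤ (k : ℝ) * δ := by positivity
  linarith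

end WordLength

/-! ### Reduced length is Lipschitz -/

section Lev

variable {G : Type} [Group G] {P Q : Subgroup G}

theorem lev_mul_letter {i : Bool} {x h : G} {n : ℕ} (hx : x ∈ side P Q i) (hh : h ∈ Lev P Q n) :
    x * h ∈ Lev P Q (n + 1) := by
  rcases hh with hh | ⟨f, l, m, hm, hh⟩
  · have h1 : x * h ∈ side P Q i := (side P Q i).mul_mem hx (inf_le_side P Q i hh)
    by_cases h2 : x * h ∈ P ⊓ Q
    · exact Or.inl h2
    · exact Or.inr ⟨i, i, 1, by omega, Wd.one i _ h1 h2⟩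
  · by_cases hxE : x ∈ P ⊓ Q
    · exact Or.inr ⟨f, l, m, by omega, hh.mul_left hxE⟩
    by_cases hif : i = f
    · subst hif
      cases hh with
      | one _ y hy hy' =>
        have h1 : x * h ∈ side P Q i := (side P Q i).mul_mem hx hy
        by_cases h2 : x * h ∈ P ⊓ Q
        · exact Or.inl h2
        · exact Or.inr ⟨i, i, 1, by omega, Wd.one i _ h1 h2⟩
      | cons _ l m y g hy hy' hg =>
        rw [← mul_assoc]
        by_cases h2 : x * y ∈ P ⊓ Q
        · exact Or.inr ⟨!i, l, m, by omega, hg.mul_left h2⟩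
        · exact Or.inr ⟨i, l, m + 1, by omega,
            Wd.cons i l m _ g ((side P Q i).mul_mem hx hy) h2 hg⟩
    · have hif' : i = !f := by cases i <;> cases f <;> simp_all
      subst hif'
      exact Or.inr ⟨!f, l, m + 1, by omega, hh.mul_letter_other hx hxE⟩

theorem lev_mul {g h : G} {m n : ℕ} (hg : g ∈ Lev P Q m) (hh : h ∈ Lev P Q n) :
    g * h ∈ Lev P Q (m + n) := by
  rcases hg with hg | ⟨f, l, k, hk, hg⟩
  · rcases hh with hh | ⟨f, l, k, hk, hh⟩
    · exact Or.inl ((P ⊓ Q).mul_mem hg hh)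
    · exact Or.inr ⟨f, l, k, by omega, hh.mul_left hg⟩
  · refine Lev.mono (by omega : k + n ≤ m + n) ?_
    clear hk
    induction hg with
    | one i x hx hx' =>
      rw [Nat.add_comm]
      exact lev_mul_letter hx hh
    | cons i l k x g hx hx' hg ih =>
      rw [mul_assoc]
      have : k + 1 + n = k + n + 1 := by omega
      rw [this]
      exact lev_mul_letter hx ih

theorem lev_inv {g : G} {m : ℕ} (hg : g ∈ Lev P Q m) : g⁻¹ ∈ Lev P Q m := by
  rcases hg with hg | ⟨f, l, k, hk, hg⟩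
  · exact Or.inl ((P ⊓ Q).inv_mem hg)
  · exact Or.inr ⟨l, f, k, hk, hg.inv⟩

theorem lev_one : (1 : G) ∈ Lev P Q 0 := Or.inl (P ⊓ Q).one_mem

theorem le_of_lev (hPQ : IsAmalg P Q) {f l : Bool} {n m : ℕ} {g : G} (h : Wd P Q f l n g)
    (hg : g ∈ Lev P Q m) : n ≤ m := by
  rcases hg with hg | ⟨f', l', k, hk, hg⟩
  · exact absurd hg (h.notMem hPQ)
  · have := (h.unique hPQ hg (by rw [inv_mul_cancel]; exact (P ⊓ Q).one_mem)).2
    omega

/-- the reduced length is bounded by a multiple of the word length -/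
theorem lev_le_wl (hPQ : IsAmalg P Q) {S : Set G} (hSf : S.Finite)
    (hS : Subgroup.closure S = ⊤) :
    ∃ K : ℕ, ∀ g : G, g ∈ Lev P Q (K * wordLength S g) := by
  have h1 : ∀ x : G, ∃ n, x ∈ Lev P Q n := exists_lev hPQ
  choose n hn using h1
  obtain ⟨K, hK⟩ := (hSf.image n).bddAbove
  have hK' : ∀ x ∈ S, x ∈ Lev P Q K := fun x hx => Lev.mono (hK ⟨x, hx, rfl⟩) (hn x)
  refine ⟨K, fun g => ?_⟩
  obtain ⟨l, h2, h3, h4⟩ := wl_spec hS g
  rw [← h2, ← h4]
  clear h2 h4
  induction l with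
  | nil => simpa using lev_one
  | cons x l ih =>
    have h5 : x ∈ Lev P Q K := by
      rcases h3 x (by simp) with h | h
      · exact hK' x h
      · have := lev_inv (hK' _ h)
        rwa [inv_inv] at this
    have h6 := lev_mul h5 (ih (fun y hy => h3 y (by simp [hy])))
    rw [List.prod_cons, List.length_cons]
    have : K * (l.length + 1) = K + K * l.length := by ring
    rw [this]
    exact h6

end Lev

/-! ### Flat patches are undistorted -/

section FlatPatch

variable {G : Type} [Group G]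

theorem DoubleAmalg.swap_St (D : DoubleAmalg G) (i j : Pos) : D.swap.St i j = D.St j i := by
  unfold DoubleAmalg.St DoubleAmalg.swap
  simp only [Bool.not_false, Bool.not_true]
  exact inf_comm _ _

theorem IsFlatOn.swap {D : DoubleAmalg G} {U : Set (ℤ × ℤ)} {τ : ℤ → ℤ → G}
    (h : IsFlatOn D U τ) : IsFlatOn D.swap {z | (z.2, z.1) ∈ U} (fun x y => τ y x) := by
  constructor
  · intro x y h1 h2
    rw [D.swap_St]
    exact h.v y x h1 h2
  · intro x y h1 h2
    rw [D.swap_St]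
    exact h.h y x h1 h2

/-- type of the grid line number `x` as a Boolean -/
def ty (x : ℤ) : Bool := !decide (Even x)

theorem ty_succ (x : ℤ) : ty (x + 1) = !ty x := by
  unfold ty
  by_cases h : Even x
  · have h' : ¬ Even (x + 1) := by rw [Int.even_add_one]; simpa using h
    simp [h, h']
  · have h' : Even (x + 1) := by rw [Int.even_add_one]; exact h
    simp [h, h']

theorem side_ty (D : DoubleAmalg G) (a : Bool) (x : ℤ) :
    side (D.K a .lo) (D.K a .hi) (ty x) = D.K a (par x) := by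
  unfold ty par
  by_cases h : Even x
  · simp [h, side]
  · simp [h, side]

theorem flat_wd {D : DoubleAmalg G} {U : Set (ℤ × ℤ)} {τ : ℤ → ℤ → G} (h : IsFlatOn D U τ)
    (x y : ℤ) (n : ℕ) (hU : ∀ k : ℤ, 0 ≤ k → k ≤ n + 1 → (x + k, y) ∈ U) :
    Wd (D.K false .lo) (D.K false .hi) (ty (x + 1)) (ty (x + n + 1)) (n + 1)
      ((τ x y)⁻¹ * τ (x + n + 1) y) := by
  have letter : ∀ k : ℤ, 0 ≤ k → k ≤ n →
      (τ (x + k) y)⁻¹ * τ (x + k + 1) y ∈ side (D.K false .lo) (D.K false .hi) (ty (x + k + 1)) ∧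
      (τ (x + k) y)⁻¹ * τ (x + k + 1) y ∉ D.K false .lo ⊓ D.K false .hi := by
    intro k hk hk'
    have h1 := hU k hk (by omega)
    have h2 := hU (k + 1) (by omega) (by omega)
    rw [← add_assoc] at h2
    have h3 := h.h (x + k + 1) y (by simpa using h1) h2
    rw [add_sub_cancel_right] at h3
    rw [side_ty]
    refine ⟨h3.1.1, fun h4 => h3.2 ?_⟩
    rw [← D.mid_eq] at h4
    have h5 : (τ (x + k) y)⁻¹ * τ (x + k + 1) y ∈ D.K false .mid ⊓ D.K true .mid := ⟨h4, h3.1.2⟩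
    rw [D.triv] at h5
    exact Subgroup.mem_bot.1 h5
  induction n with
  | zero =>
    have h1 := letter 0 le_rfl (by simp)
    simp only [add_zero, Nat.cast_zero, zero_add] at h1 ⊢
    exact Wd.one _ _ h1.1 h1.2
  | succ n ih =>
    have h1 := letter (n + 1) (by positivity) (by push_cast; omega)
    have h2 := ih (fun k hk hk' => hU k hk (by push_cast at hk' ⊢; omega))
      (fun k hk hk' => letter k hk (by push_cast; omega))
    have e0 : x + ((n : ℤ) + 1) = x + n + 1 := by ring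
    rw [e0] at h1
    have e1 : (ty (x + (n : ℤ) + 1 + 1)) = !ty (x + n + 1) := ty_succ _
    have h3 := h2.snoc (x := (τ (x + n + 1) y)⁻¹ * τ (x + n + 1 + 1) y)
      (by rw [← e1]; exact h1.1) h1.2
    have e2 : (τ x y)⁻¹ * τ (x + n + 1) y * ((τ (x + n + 1) y)⁻¹ * τ (x + n + 1 + 1) y) =
        (τ x y)⁻¹ * τ (x + n + 1 + 1) y := by group
    rw [e2, ← e1] at h3
    have e3 : x + ((n + 1 : ℕ) : ℤ) + 1 = x + n + 1 + 1 := by push_cast; ring
    rw [e3]
    exact h3

/-- vertical moves stay in `K false mid` -/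
theorem flat_vert {D : DoubleAmalg G} {U : Set (ℤ × ℤ)} {τ : ℤ → ℤ → G} (h : IsFlatOn D U τ)
    (x y : ℤ) (n : ℕ) (hU : ∀ k : ℤ, 0 ≤ k → k ≤ n → (x, y + k) ∈ U) :
    (τ x y)⁻¹ * τ x (y + n) ∈ D.K false .mid := by
  induction n with
  | zero => simp
  | succ n ih =>
    have h1 := ih (fun k hk hk' => hU k hk (by push_cast; omega))
    have h2 := hU n (by positivity) (by push_cast; omega)
    have h3 := hU (n + 1) (by positivity) (by push_cast; omega)
    rw [← add_assoc] at h3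
    have h4 := (h.v x (y + n + 1) (by simpa using h2) h3).1.1
    rw [add_sub_cancel_right] at h4
    have e : (τ x y)⁻¹ * τ x (y + ((n + 1 : ℕ) : ℤ)) =
        ((τ x y)⁻¹ * τ x (y + n)) * ((τ x (y + n))⁻¹ * τ x (y + n + 1)) := by
      push_cast
      rw [← add_assoc]
      group
    rw [e]
    exact mul_mem h1 h4

/-- vertical moves in a rectangle, any direction -/
theorem flat_vert' {D : DoubleAmalg G} {a b : ℤ} {τ : ℤ → ℤ → G}
    (h : IsFlatOn D (Rect a b) τ) (x y y' : ℤ) (hx : 0 ≤ x) (hxa : x < a) (hy : 0 ≤ y)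
    (hyb : y < b) (hy' : 0 ≤ y') (hyb' : y' < b) :
    (τ x y)⁻¹ * τ x y' ∈ D.K false .mid := by
  rcases le_total y y' with h1 | h1
  · have h2 := flat_vert h x y (y' - y).toNat (fun k hk hk' => ⟨hx, hxa, by
      show 0 ≤ y + k
      omega, by
      show y + k < b
      omega⟩)
    have e : y + ((y' - y).toNat : ℤ) = y' := by omega
    rwa [e] at h2
  · have h2 := flat_vert h x y' (y - y').toNat (fun k hk hk' => ⟨hx, hxa, by
      show 0 ≤ y' + k
      omega, by
      show y' + k < b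
      omega⟩)
    have e : y' + ((y - y').toNat : ℤ) = y := by omega
    rw [e] at h2
    have h3 := inv_mem h2
    rwa [mul_inv_rev, inv_inv] at h3

theorem flat_lev_aux {D : DoubleAmalg G} {a b : ℤ} {τ : ℤ → ℤ → G}
    (h : IsFlatOn D (Rect a b) τ) {x y x' y' : ℤ} (hx : 0 ≤ x) (hxx : x < x') (hxa : x' < a)
    (hy : 0 ≤ y) (hyb : y < b) (hy' : 0 ≤ y') (hyb' : y' < b) {N : ℕ}
    (hN : (τ x y)⁻¹ * τ x' y' ∈ Lev (D.K false .lo) (D.K false .hi) N) : x' - x ≤ N := by
  have h1 := flat_wd h x y (x' - x - 1).toNat (fun k hk hk' => ⟨by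
    show 0 ≤ x + k
    omega, by
    show x + k < a
    omega, hy, hyb⟩)
  have e : x + ((x' - x - 1).toNat : ℤ) + 1 = x' := by omega
  rw [e] at h1
  have h2 := flat_vert' h x' y y' (by omega) hxa hy hyb hy' hyb'
  rw [D.mid_eq] at h2
  have h3 := h1.mul_right h2
  have e2 : (τ x y)⁻¹ * τ x' y * ((τ x' y)⁻¹ * τ x' y') = (τ x y)⁻¹ * τ x' y' := by group
  rw [e2] at h3
  have h4 := le_of_lev (D.amalg false) h3 hN
  omega

theorem flat_lev {D : DoubleAmalg G} {a b : ℤ} {τ : ℤ → ℤ → G}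
    (h : IsFlatOn D (Rect a b) τ) {x y x' y' : ℤ} (hz : (x, y) ∈ Rect a b)
    (hz' : (x', y') ∈ Rect a b) {N : ℕ}
    (hN : (τ x y)⁻¹ * τ x' y' ∈ Lev (D.K false .lo) (D.K false .hi) N) : |x' - x| ≤ N := by
  obtain ⟨h1, h2, h3, h4⟩ := hz
  obtain ⟨h5, h6, h7, h8⟩ := hz'
  simp only at h1 h2 h3 h4 h5 h6 h7 h8
  rcases lt_trichotomy x x' with hlt | heq | hlt
  · have := flat_lev_aux h h1 hlt h6 h3 h4 h7 h8 hN
    rw [abs_le]
    constructor <;> omega
  · subst heq
    simp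
  · have hN' := lev_inv hN
    rw [mul_inv_rev, inv_inv] at hN'
    have := flat_lev_aux h h5 hlt h2 h7 h8 h3 h4 hN'
    rw [abs_le]
    constructor <;> omega

theorem flat_lev_swap {D : DoubleAmalg G} {a b : ℤ} {τ : ℤ → ℤ → G}
    (h : IsFlatOn D (Rect a b) τ) {x y x' y' : ℤ} (hz : (x, y) ∈ Rect a b)
    (hz' : (x', y') ∈ Rect a b) {N : ℕ}
    (hN : (τ x y)⁻¹ * τ x' y' ∈ Lev (D.K true .lo) (D.K true .hi) N) : |y' - y| ≤ N := by
  have h1 : IsFlatOn D.swap (Rect b a) (fun x y => τ y x) := by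
    refine h.swap.mono ?_
    rintro z ⟨h1, h2, h3, h4⟩
    exact ⟨h3, h4, h1, h2⟩
  obtain ⟨h5, h6, h7, h8⟩ := hz
  obtain ⟨h9, h10, h11, h12⟩ := hz'
  exact flat_lev h1 (x := y) (y := x) (x' := y') (y' := x') ⟨h7, h8, h5, h6⟩
    ⟨h11, h12, h9, h10⟩ hN

/-- horizontal neighbours in a patch differ by an element of a fixed finite set -/
theorem flat_h_mem {D : DoubleAmalg G} {U : Set (ℤ × ℤ)} {τ : ℤ → ℤ → G} (h : IsFlatOn D U τ)
    {x y : ℤ} (h1 : (x, y) ∈ U) (h2 : (x + 1, y) ∈ U) :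
    (τ x y)⁻¹ * τ (x + 1) y ∈ D.St (par (x + 1)) .mid := by
  have h3 := (h.h (x + 1) y (by simpa using h1) h2).1
  rwa [add_sub_cancel_right] at h3

theorem flat_v_mem {D : DoubleAmalg G} {U : Set (ℤ × ℤ)} {τ : ℤ → ℤ → G} (h : IsFlatOn D U τ)
    {x y : ℤ} (h1 : (x, y) ∈ U) (h2 : (x, y + 1) ∈ U) :
    (τ x y)⁻¹ * τ x (y + 1) ∈ D.St .mid (par (y + 1)) := by
  have h3 := (h.v x (y + 1) (by simpa using h1) h2).1
  rwa [add_sub_cancel_right] at h3

/-- the union of all stabilisers is finite -/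
theorem stab_finite (D : DoubleAmalg G) : {g : G | ∃ i j, g ∈ D.St i j}.Finite := by
  have h : {g : G | ∃ i j, g ∈ D.St i j} =
      ⋃ i : Pos, ⋃ j : Pos, (D.St i j : Set G) := by
    ext g
    simp
  rw [h]
  have : Finite Pos := by
    refine Finite.of_surjective (fun n : Fin 3 => if n = 0 then Pos.lo else if n = 1 then Pos.mid
      else Pos.hi) ?_
    intro i
    cases i
    · exact ⟨0, by simp⟩
    · exact ⟨1, by simp⟩
    · exact ⟨2, by simp⟩
  refine Set.finite_iUnion (fun i => Set.finite_iUnion (fun j => ?_))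
  have h1 : Finite (D.St i j : Set G) := D.fin i j
  exact Set.toFinite _

/-- length of a vertical segment -/
theorem wl_vert {D : DoubleAmalg G} {S : Set G} (hS : Subgroup.closure S = ⊤) {C : ℕ}
    (hC : ∀ x ∈ {g : G | ∃ i j, g ∈ D.St i j}, wordLength S x ≤ C)
    {U : Set (ℤ × ℤ)} {τ : ℤ → ℤ → G} (h : IsFlatOn D U τ) (x : ℤ) (n : ℕ)
    (hU : ∀ k : ℤ, 0 ≤ k → k ≤ n → (x, k) ∈ U) :
    wordLength S ((τ x 0)⁻¹ * τ x n) ≤ C * n := by
  induction n with
  | zero => simp [wl_one]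
  | succ n ih =>
    have h1 := ih (fun k hk hk' => hU k hk (by push_cast; omega))
    have h2 := hC _ ⟨_, _, flat_v_mem h (hU n (by positivity) (by push_cast; omega))
      (hU (n + 1) (by positivity) (by push_cast; omega))⟩
    have e : (τ x 0)⁻¹ * τ x ((n + 1 : ℕ) : ℤ) =
        ((τ x 0)⁻¹ * τ x n) * ((τ x n)⁻¹ * τ x (n + 1)) := by
      push_cast
      group
    rw [e]
    have h3 := wl_mul_le hS ((τ x 0)⁻¹ * τ x n) ((τ x n)⁻¹ * τ x (n + 1))
    have : C * (n + 1) = C * n + C := by ring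
    omega

end FlatPatch

/-! ### The main theorem -/

theorem exists_pow_gt (α β : ℝ) : ∃ m : ℕ, α + β * m < 2 ^ m := by
  obtain ⟨k, hk⟩ := exists_nat_gt (|α| + 2 * |β|)
  refine ⟨2 * k, ?_⟩
  have h1 : (k : ℝ) + 1 ≤ 2 ^ k := by
    have := Nat.lt_two_pow_self (n := k)
    have h2 : k + 1 ≤ 2 ^ k := this
    exact_mod_cast h2
  have hk0 : (0 : ℝ) ≤ k := Nat.cast_nonneg k
  have h2 : ((k : ℝ) + 1) * (k + 1) ≤ 2 ^ (2 * k) := by
    rw [two_mul, pow_add]
    exact mul_le_mul h1 h1 (by linarith) (by positivity)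
  have h3 : α ≤ |α| := le_abs_self α
  have h4 : β ≤ |β| := le_abs_self β
  have h5 : 0 ≤ |α| := abs_nonneg α
  have h6 : 0 ≤ |β| := abs_nonneg β
  push_cast
  have h7 : β * (2 * k) ≤ 2 * |β| * k := by nlinarith
  have h8 : (|α| + 2 * |β|) * k ≤ k * k := mul_le_mul_of_nonneg_right hk.le hk0
  nlinarith

/-- the three other sides of the square `[0, n]²` -/
def around (n j : ℕ) : ℤ × ℤ :=
  if j ≤ n then (0, (j : ℤ)) else if j ≤ 2 * n then ((j : ℤ) - n, (n : ℤ))
    else ((n : ℤ), 3 * (n : ℤ) - j)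

theorem around_mem {n j : ℕ} (hj : j ≤ 3 * n) :
    around n j ∈ Rect ((n : ℤ) + 1) ((n : ℤ) + 1) := by
  unfold around
  split_ifs with h1 h2
  · refine ⟨le_rfl, ?_, ?_, ?_⟩ <;> simp only <;> omega
  · refine ⟨?_, ?_, ?_, ?_⟩ <;> simp only <;> omega
  · refine ⟨?_, ?_, ?_, ?_⟩ <;> simp only <;> omega

theorem around_step {n j : ℕ} (hj : j < 3 * n) :
    (around n (j + 1) = ((around n j).1, (around n j).2 + 1)) ∨
    (around n (j + 1) = ((around n j).1 + 1, (around n j).2)) ∨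
    (around n j = ((around n (j + 1)).1, (around n (j + 1)).2 + 1)) := by
  unfold around
  by_cases h1 : j + 1 ≤ n
  · left
    rw [if_pos h1, if_pos (by omega : j ≤ n)]
    push_cast
    rfl
  · by_cases h2 : j + 1 ≤ 2 * n
    · right; left
      rw [if_neg h1, if_pos h2]
      by_cases h3 : j ≤ n
      · have : j = n := by omega
        subst this
        simp
      · rw [if_neg h3, if_pos (by omega : j ≤ 2 * n)]
        ext
        · push_cast; ring
        · rfl
    · right; right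
      rw [if_neg h1, if_neg h2]
      by_cases h3 : j ≤ 2 * n
      · have h4 : j = 2 * n := by omega
        by_cases h5 : j ≤ n
        · omega
        · rw [if_neg h5, if_pos h3]
          subst h4
          ext
          · push_cast; ring
          · push_cast; ring
      · rw [if_neg (by omega : ¬ j ≤ n), if_neg h3]
        ext
        · rfl
        · push_cast; ring

/-- **Non-hyperbolicity.** -/
theorem not_hyperbolic {G : Type} [Group G] (D : DoubleAmalg G)
    (h : ∀ n : ℕ, ∃ τ : ℤ → ℤ → G, IsFlatOn D (Rect n n) τ) : ¬ IsHyperbolicGroup G := by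
  rintro ⟨S, hSf, hS, δ0, H0⟩
  obtain ⟨δ, hδ, H⟩ : ∃ δ : ℝ, 0 ≤ δ ∧ ∀ x y z w : G,
      (wordLength S (x⁻¹ * z) : ℝ) + wordLength S (y⁻¹ * w) ≤
      max ((wordLength S (x⁻¹ * y) : ℝ) + wordLength S (z⁻¹ * w))
        ((wordLength S (x⁻¹ * w) : ℝ) + wordLength S (y⁻¹ * z)) + δ :=
    ⟨max δ0 0, le_max_right _ _, fun x y z w => (H0 x y z w).trans (by
      have := le_max_left δ0 0
      linarith)⟩
  obtain ⟨K0, hK0⟩ := lev_le_wl (D.amalg false) hSf hS
  obtain ⟨K1, hK1⟩ := lev_le_wl (D.amalg true) hSf hS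
  obtain ⟨C, hC⟩ := wl_bdd (S := S) _ (stab_finite D)
  -- choice of the size
  obtain ⟨m, hm⟩ := exists_pow_gt
    (2 * K1 * (C + 1 + 2 * δ) + K0 * (2 * ((2 * C * K1 + 1) * (C + 1 + 2 * δ)) + 1))
    (2 * K1 * δ + K0 * (2 * ((2 * C * K1 + 1) * δ)))
  obtain ⟨B, hB⟩ : ∃ B : ℝ, B = (C : ℝ) + ((m + 2 : ℕ) : ℝ) * δ + 1 := ⟨_, rfl⟩
  have hB' : B = (C + 1 + 2 * δ) + δ * m := by rw [hB]; push_cast; ring
  have hB0 : 0 ≤ B := by
    rw [hB]
    positivity
  have hm1 : 2 * K1 * B + K0 * (2 * ((2 * C * K1 + 1) * B) + 1) < (2 : ℝ) ^ m := by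
    rw [hB']
    refine lt_of_eq_of_lt ?_ hm
    ring
  have hA1 : 0 ≤ 2 * K1 * B := by positivity
  have hA2 : 0 ≤ (K0 : ℝ) * (2 * ((2 * C * K1 + 1) * B) + 1) := by positivity
  obtain ⟨n, hn⟩ : ∃ n : ℕ, n = 2 ^ m := ⟨_, rfl⟩
  have hnR : (n : ℝ) = 2 ^ m := by rw [hn]; push_cast; rfl
  obtain ⟨τ, hτ⟩ := h (n + 1)
  have hτ' : IsFlatOn D (Rect ((n : ℤ) + 1) ((n : ℤ) + 1)) τ := by
    have e : ((n + 1 : ℕ) : ℤ) = (n : ℤ) + 1 := by push_cast; rfl
    rwa [e] at hτ
  clear hτ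
  -- letters have length at most `C`
  have hlet : ∀ x y : ℤ, (x, y) ∈ Rect ((n : ℤ) + 1) ((n : ℤ) + 1) →
      (x + 1, y) ∈ Rect ((n : ℤ) + 1) ((n : ℤ) + 1) →
      (wordLength S ((τ x y)⁻¹ * τ (x + 1) y) : ℝ) ≤ C := fun x y h1 h2 => by
    exact_mod_cast hC _ ⟨_, _, flat_h_mem hτ' h1 h2⟩
  have vlet : ∀ x y : ℤ, (x, y) ∈ Rect ((n : ℤ) + 1) ((n : ℤ) + 1) →
      (x, y + 1) ∈ Rect ((n : ℤ) + 1) ((n : ℤ) + 1) →
      (wordLength S ((τ x y)⁻¹ * τ x (y + 1)) : ℝ) ≤ C := fun x y h1 h2 => by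
    exact_mod_cast hC _ ⟨_, _, flat_v_mem hτ' h1 h2⟩
  -- the geodesic and its midpoint
  obtain ⟨L, hL⟩ : ∃ L : ℕ, L = wordLength S ((τ 0 0)⁻¹ * τ n 0) := ⟨_, rfl⟩
  obtain ⟨v, hv1, hv2⟩ := wl_mid hS ((τ 0 0)⁻¹ * τ n 0) (L / 2)
  rw [← hL] at hv2
  obtain ⟨w, hw⟩ : ∃ w : G, w = τ 0 0 * v := ⟨_, rfl⟩
  have e1 : (τ 0 0)⁻¹ * w = v := by rw [hw]; group
  have e2 : ((τ n 0)⁻¹ * w)⁻¹ = v⁻¹ * ((τ 0 0)⁻¹ * τ n 0) := by rw [hw]; group
  have hd1 : wordLength S ((τ 0 0)⁻¹ * w) ≤ L / 2 := by rw [e1]; exact hv1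
  have hd2 : wordLength S ((τ n 0)⁻¹ * w) ≤ L - L / 2 := by
    rw [← wl_inv hS, e2]; exact hv2
  have hd3 : L ≤ wordLength S ((τ 0 0)⁻¹ * w) + wordLength S ((τ n 0)⁻¹ * w) := by
    have h1 := wl_mul_le hS ((τ 0 0)⁻¹ * w) ((τ n 0)⁻¹ * w)⁻¹
    have e3 : (τ 0 0)⁻¹ * w * ((τ n 0)⁻¹ * w)⁻¹ = (τ 0 0)⁻¹ * τ n 0 := by group
    rw [e3, wl_inv hS, ← hL] at h1
    exact h1
  have hwR : (wordLength S ((τ 0 0)⁻¹ * w) : ℝ) + wordLength S ((τ n 0)⁻¹ * w) ≤
      wordLength S ((τ 0 0)⁻¹ * τ n 0) := by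
    have : wordLength S ((τ 0 0)⁻¹ * w) + wordLength S ((τ n 0)⁻¹ * w) ≤
      wordLength S ((τ 0 0)⁻¹ * τ n 0) := by rw [← hL]; omega
    exact_mod_cast this
  -- lower bound for `L`
  have hLn : (n : ℝ) ≤ K0 * L := by
    have h1 := flat_lev hτ' (x := 0) (y := 0) (x' := n) (y' := 0)
      ⟨le_rfl, by simp only; omega, le_rfl, by simp only; omega⟩
      ⟨by simp, by simp only; omega, le_rfl, by simp only; omega⟩ (hK0 _)
    rw [← hL, sub_zero, abs_of_nonneg (by positivity)] at h1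
    exact_mod_cast h1
  -- the bottom path
  obtain ⟨i, hi, hi'⟩ := path_near (S := S) hδ H w (fun i => τ i 0) C (Nat.cast_nonneg C) (m + 2) n
    (by rw [hn, pow_add]; omega) (by simpa using hwR) (by
      intro i hi
      have := hlet i 0 ⟨by simp, by simp only; omega, le_rfl, by simp only; omega⟩
        ⟨by simp only; omega, by simp only; omega, le_rfl, by simp only; omega⟩
      push_cast
      exact this)
  rw [← hB] at hi'
  -- the path around
  obtain ⟨j, hj, hj'⟩ := path_near (S := S) hδ H w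
    (fun j => τ (around n j).1 (around n j).2) C (Nat.cast_nonneg C) (m + 2) (3 * n)
    (by rw [hn, pow_add]; omega) (by
      have a0 : around n 0 = (0, 0) := by simp [around]
      have a1 : around n (3 * n) = ((n : ℤ), 0) := by
        have hn0 : 0 < n := by rw [hn]; positivity
        unfold around
        rw [if_neg (by omega), if_neg (by omega)]
        push_cast
        simp
      simp only [a0, a1]
      exact hwR) (by
      intro j hj
      have m1 := around_mem (n := n) (j := j) hj.le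
      have m2 := around_mem (n := n) (j := j + 1) hj
      rcases around_step hj with hs | hs | hs
      · simp only [hs]
        rw [hs] at m2
        exact vlet _ _ m1 m2
      · simp only [hs]
        rw [hs] at m2
        exact hlet _ _ m1 m2
      · rw [← wl_inv hS, mul_inv_rev, inv_inv]
        have h3 := vlet _ _ m2 (by rw [hs] at m1; exact m1)
        rw [hs]
        exact h3)
  rw [← hB] at hj'

  -- the two points are close
  have hclose : (wordLength S ((τ i 0)⁻¹ * τ (around n j).1 (around n j).2) : ℝ) ≤ 2 * B := by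
    have h1 := wl_mul_le hS ((τ i 0)⁻¹ * w) ((τ (around n j).1 (around n j).2)⁻¹ * w)⁻¹
    have e3 : (τ i 0)⁻¹ * w * ((τ (around n j).1 (around n j).2)⁻¹ * w)⁻¹ =
      (τ i 0)⁻¹ * τ (around n j).1 (around n j).2 := by group
    rw [e3, wl_inv hS] at h1
    have h2 : (wordLength S ((τ i 0)⁻¹ * τ (around n j).1 (around n j).2) : ℝ) ≤
      wordLength S ((τ i 0)⁻¹ * w) + wordLength S ((τ (around n j).1 (around n j).2)⁻¹ * w) := by
      exact_mod_cast h1
    linarith
  have hy : ((around n j).2 : ℝ) ≤ 2 * K1 * B := by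
    have h1 := flat_lev_swap hτ' (x := i) (y := 0) (x' := (around n j).1) (y' := (around n j).2)
      ⟨by simp, by simp only; omega, le_rfl, by simp only; omega⟩ (around_mem hj) (hK1 _)
    rw [sub_zero] at h1
    have h2 := (le_abs_self _).trans h1
    have h3 : ((around n j).2 : ℝ) ≤
        K1 * wordLength S ((τ i 0)⁻¹ * τ (around n j).1 (around n j).2) := by
      exact_mod_cast h2
    have h4 : (K1 : ℝ) * wordLength S ((τ i 0)⁻¹ * τ (around n j).1 (around n j).2) ≤
        K1 * (2 * B) := mul_le_mul_of_nonneg_left hclose (Nat.cast_nonneg _)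
    linarith
  have hK1' : (0 : ℝ) ≤ K1 := Nat.cast_nonneg _
  have hK0' : (0 : ℝ) ≤ K0 := Nat.cast_nonneg _
  have hC' : (0 : ℝ) ≤ C := Nat.cast_nonneg _
  -- common end of the argument
  have final : ∀ (x : ℤ) (k : ℕ), (x = 0 ∨ x = n) → k ≤ n → around n j = (x, (k : ℤ)) → False := by
    intro x k hx hk ha
    rw [ha] at hy hj'
    simp only at hy hj'
    have h1 := wl_vert hS hC hτ' x k (fun l hl hl' => ⟨by
      rcases hx with rfl | rfl <;> simp, by
      rcases hx with rfl | rfl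
      · simp only; omega
      · simp only; omega, by simpa using hl, by simp only; omega⟩)
    have h2 : wordLength S ((τ x 0)⁻¹ * w) ≤
        wordLength S ((τ x 0)⁻¹ * τ x k) + wordLength S ((τ x k)⁻¹ * w) := by
      have := wl_mul_le hS ((τ x 0)⁻¹ * τ x k) ((τ x k)⁻¹ * w)
      have e3 : (τ x 0)⁻¹ * τ x k * ((τ x k)⁻¹ * w) = (τ x 0)⁻¹ * w := by group
      rwa [e3] at this
    have h3 : L ≤ 2 * wordLength S ((τ x 0)⁻¹ * w) + 1 := by
      rcases hx with rfl | rfl <;> omega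
    have h4 : (L : ℝ) ≤ 2 * wordLength S ((τ x 0)⁻¹ * w) + 1 := by exact_mod_cast h3
    have h5 : (wordLength S ((τ x 0)⁻¹ * w) : ℝ) ≤
        wordLength S ((τ x 0)⁻¹ * τ x k) + wordLength S ((τ x k)⁻¹ * w) := by exact_mod_cast h2
    have h6 : (wordLength S ((τ x 0)⁻¹ * τ x k) : ℝ) ≤ C * k := by exact_mod_cast h1
    have h7 : (C : ℝ) * k ≤ C * (2 * K1 * B) := by
      refine mul_le_mul_of_nonneg_left ?_ hC'
      exact_mod_cast hy
    have h8 : (L : ℝ) ≤ 2 * ((2 * C * K1 + 1) * B) + 1 := by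
      have : 2 * ((2 * C * K1 + 1) * B) + 1 = 2 * (C * (2 * K1 * B) + B) + 1 := by ring
      rw [this]
      linarith
    have h9 : (n : ℝ) ≤ K0 * (2 * ((2 * C * K1 + 1) * B) + 1) :=
      hLn.trans (mul_le_mul_of_nonneg_left h8 hK0')
    rw [hnR] at h9
    linarith
  by_cases c1 : j ≤ n
  · exact final 0 j (Or.inl rfl) c1 (by unfold around; rw [if_pos c1])
  · by_cases c2 : j ≤ 2 * n
    · have ha : around n j = ((j : ℤ) - n, (n : ℤ)) := by
        unfold around; rw [if_neg c1, if_pos c2]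
      rw [ha] at hy
      simp only [Int.cast_natCast] at hy
      rw [hnR] at hy
      linarith
    · refine final n (3 * n - j) (Or.inr rfl) (by omega) ?_
      unfold around
      rw [if_neg c1, if_neg c2]
      ext
      · rfl
      · simp only; omega

end Pool.Agent.FlatClosing
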