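import Pool.Agent.FlatClosing.Flat

/-!
# Exact periodicity of boundary rows, and limits of flats (MP_ef842e, helper84)

* `vert_exact`, `horiz_exact` : if the boundary column (row) of a combinatorial half-flat is
  periodic up to the stabiliser of its boundary edge, then it is exactly periodic for a power;
* `slanted_limit` : a periodic flat on a slanted half-plane gives a periodic flat on the plane.
-/

set_option autoImplicit false

open scoped Pointwise

namespace Pool.Agent.FlatClosing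

variable {G : Type} [Group G] {D : DoubleAmalg G}

theorem St_inf_bot (D : DoubleAmalg G) {i j : Pos} {g : G} (h1 : g ∈ D.St i .mid)
    (h2 : g ∈ D.St .mid j) : g = 1 := by
  have h3 : g ∈ D.K false .mid ⊓ D.K true .mid := ⟨h2.1, h1.2⟩
  rw [D.triv] at h3
  exact Subgroup.mem_bot.1 h3

theorem par_add_even {x a : ℤ} (ha : Even a) : par (x + a) = par x := by
  simp [par, Int.even_add, ha]

/-- the gauge is multiplicative -/
theorem gauge_pow {H : Subgroup G} {σ : ℤ → G} {g : G} {b : ℤ}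
    (hg : ∀ y, (σ (y + b))⁻¹ * g * σ y ∈ H) (n : ℕ) (y : ℤ) :
    (σ (y + n * b))⁻¹ * g ^ n * σ y ∈ H := by
  induction n with
  | zero => simp [H.one_mem]
  | succ n ih =>
    have h1 := hg (y + n * b)
    have h2 := H.mul_mem h1 ih
    have e : y + ((n + 1 : ℕ) : ℤ) * b = y + n * b + b := by push_cast; ring
    rw [e]
    have e2 : (σ (y + n * b + b))⁻¹ * g ^ (n + 1) * σ y =
        (σ (y + n * b + b))⁻¹ * g * σ (y + n * b) * ((σ (y + n * b))⁻¹ * g ^ n * σ y) := by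
      rw [pow_succ']; group
    rw [e2]
    exact h2

/-- the boundary column of a half-flat is exactly periodic -/
theorem vert_exact {τ : ℤ → ℤ → G} {x₀ : ℤ} (hτ : IsFlatOn D {z | x₀ ≤ z.1} τ) {g : G} {b : ℤ}
    (hb : Even b)
    (hg : ∀ y, (τ x₀ (y + b))⁻¹ * g * τ x₀ y ∈ D.St (par x₀) .mid) :
    ∃ N : ℕ, 0 < N ∧ ∀ y, τ x₀ (y + N * b) = g ^ N * τ x₀ y := by
  have hfin : Finite (D.St (par x₀) .mid) := D.fin _ _
  have hpow := gauge_pow (H := D.St (par x₀) .mid) (σ := τ x₀) hg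
  -- pigeonhole
  let F : ℕ → D.St (par x₀) .mid := fun n =>
    ⟨(τ x₀ 0)⁻¹ * g ^ n * τ x₀ (-(n * b)), by
      have := hpow n (-(n * b))
      simpa using this⟩
  obtain ⟨n, m, hnm, hF⟩ := Finite.exists_ne_map_eq_of_infinite F
  wlog hlt : n < m generalizing n m with H
  · exact H m n hnm.symm hF.symm (lt_of_le_of_ne (not_lt.1 hlt) hnm.symm)
  have hF' : (τ x₀ 0)⁻¹ * g ^ n * τ x₀ (-(n * b)) = (τ x₀ 0)⁻¹ * g ^ m * τ x₀ (-(m * b)) :=
    congrArg Subtype.val hF
  have h1 : τ x₀ (-(n * b)) = g ^ (m - n) * τ x₀ (-(m * b)) := by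
    rw [mul_assoc, mul_assoc] at hF'
    have h2 := mul_left_cancel hF'
    have h3 : m = n + (m - n) := by omega
    have h4 : g ^ m = g ^ n * g ^ (m - n) := by rw [← pow_add, ← h3]
    rw [h4, mul_assoc] at h2
    exact mul_left_cancel h2
  obtain ⟨N, hN⟩ : ∃ N, N = m - n := ⟨_, rfl⟩
  rw [← hN] at h1
  refine ⟨N, by omega, ?_⟩
  -- the gauge of the power
  have hNb : Even ((N : ℤ) * b) := Even.mul_left hb _
  obtain ⟨w, hw⟩ : ∃ w : ℤ → G, ∀ y, w y = (τ x₀ (y + N * b))⁻¹ * g ^ N * τ x₀ y :=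
    ⟨_, fun _ => rfl⟩
  have hwH : ∀ y, w y ∈ D.St (par x₀) .mid := fun y => by rw [hw]; exact hpow N y
  have hw1 : w (-(m * b)) = 1 := by
    rw [hw]
    have e : -((m : ℤ) * b) + N * b = -(n * b) := by
      rw [hN, Nat.cast_sub hlt.le]; ring
    rw [e, h1]
    group
  have hv : ∀ y, (τ x₀ (y - 1))⁻¹ * τ x₀ y ∈ D.St .mid (par y) := fun y =>
    (hτ.v x₀ y (le_refl x₀) (le_refl x₀)).1
  have hrel : ∀ y, w (y - 1) * ((τ x₀ (y - 1))⁻¹ * τ x₀ y) =
      ((τ x₀ (y + N * b - 1))⁻¹ * τ x₀ (y + N * b)) * w y := by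
    intro y
    rw [hw, hw]
    have e : y - 1 + N * b = y + N * b - 1 := by ring
    rw [e]
    group
  have up : ∀ y, w (y - 1) = 1 → w y = 1 := by
    intro y h
    have h2 := hrel y
    rw [h, one_mul] at h2
    have h3 := hv (y + N * b)
    rw [par_add_even hNb] at h3
    apply St_inf_bot D (hwH y)
    have h4 : w y = ((τ x₀ (y + N * b - 1))⁻¹ * τ x₀ (y + N * b))⁻¹ *
        ((τ x₀ (y - 1))⁻¹ * τ x₀ y) := by
      rw [h2]; group
    rw [h4]
    exact (D.St .mid (par y)).mul_mem ((D.St .mid (par y)).inv_mem h3) (hv y)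
  have down : ∀ y, w y = 1 → w (y - 1) = 1 := by
    intro y h
    have h2 := hrel y
    rw [h, mul_one] at h2
    have h3 := hv (y + N * b)
    rw [par_add_even hNb] at h3
    apply St_inf_bot D (hwH (y - 1))
    have h4 : w (y - 1) = ((τ x₀ (y + N * b - 1))⁻¹ * τ x₀ (y + N * b)) *
        ((τ x₀ (y - 1))⁻¹ * τ x₀ y)⁻¹ := by
      rw [← h2]; group
    rw [h4]
    exact (D.St .mid (par y)).mul_mem h3 ((D.St .mid (par y)).inv_mem (hv y))
  have all1 : ∀ k : ℕ, w (-(m * b) + k) = 1 := by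
    intro k
    induction k with
    | zero => simpa using hw1
    | succ k ih =>
      apply up
      have e : -((m : ℤ) * b) + ((k + 1 : ℕ) : ℤ) - 1 = -(m * b) + k := by push_cast; ring
      rw [e]
      exact ih
  have all2 : ∀ k : ℕ, w (-(m * b) - k) = 1 := by
    intro k
    induction k with
    | zero => simpa using hw1
    | succ k ih =>
      have h := down _ ih
      have e : -((m : ℤ) * b) - ((k + 1 : ℕ) : ℤ) = -(m * b) - k - 1 := by push_cast; ring
      rw [e]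
      exact h
  intro y
  have hwy : w y = 1 := by
    rcases le_total (-((m : ℤ) * b)) y with h | h
    · have := all1 (y + m * b).toNat
      rw [Int.toNat_of_nonneg (by linarith)] at this
      have e : -((m : ℤ) * b) + (y + m * b) = y := by ring
      rwa [e] at this
    · have := all2 (-(m * b) - y).toNat
      rw [Int.toNat_of_nonneg (by linarith)] at this
      have e : -((m : ℤ) * b) - (-(m * b) - y) = y := by ring
      rwa [e] at this
  rw [hw] at hwy
  rw [mul_assoc, inv_mul_eq_one] at hwy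
  exact hwy

/-- transposition of a flat -/
theorem IsFlatOn.swap {U : Set (ℤ × ℤ)} {τ : ℤ → ℤ → G} (h : IsFlatOn D U τ) :
    IsFlatOn D.swap {z | (z.2, z.1) ∈ U} (fun x y => τ y x) where
  h x y h1 h2 := by
    have h3 := h.v y x h1 h2
    refine ⟨?_, h3.2⟩
    have h4 := h3.1
    exact ⟨h4.2, h4.1⟩
  v x y h1 h2 := by
    have h3 := h.h y x h1 h2
    refine ⟨?_, h3.2⟩
    have h4 := h3.1
    exact ⟨h4.2, h4.1⟩

/-- the boundary row of a half-flat is exactly periodic -/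
theorem horiz_exact {τ : ℤ → ℤ → G} {y₀ : ℤ} (hτ : IsFlatOn D {z | y₀ ≤ z.2} τ) {g : G} {a : ℤ}
    (ha : Even a)
    (hg : ∀ x, (τ (x + a) y₀)⁻¹ * g * τ x y₀ ∈ D.St .mid (par y₀)) :
    ∃ N : ℕ, 0 < N ∧ ∀ x, τ (x + N * a) y₀ = g ^ N * τ x y₀ := by
  have h1 := hτ.swap
  exact vert_exact (D := D.swap) (τ := fun x y => τ y x) (x₀ := y₀) h1 ha
    (fun y => ⟨(hg y).2, (hg y).1⟩)

/-- elements of `n`-fold products of a finite set -/
theorem ultra_const {α : Type} {S : Set α} (hS : S.Finite) (U : Ultrafilter ℕ) {f : ℕ → α}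
    (hf : ∀ᶠ n in (U : Filter ℕ), f n ∈ S) : ∃ v ∈ S, ∀ᶠ n in (U : Filter ℕ), f n = v := by
  have h1 : (⋃ v ∈ S, {n | f n = v}) ∈ U := by
    apply Filter.mem_of_superset hf
    intro n hn
    refine Set.mem_iUnion₂.2 ⟨f n, hn, rfl⟩
  rw [Ultrafilter.finite_biUnion_mem_iff hS] at h1
  obtain ⟨v, hv, h⟩ := h1
  exact ⟨v, hv, h⟩

/-- steps of a flat lie in a fixed finite set -/
theorem exists_step_set (D : DoubleAmalg G) : ∃ S : Set G, S.Finite ∧
    (∀ i, (D.St i .mid : Set G) ⊆ S) ∧ (∀ i, (D.St .mid i : Set G) ⊆ S) := by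
  have hfin : ∀ i j, (D.St i j : Set G).Finite := fun i j =>
    Set.finite_coe_iff.1 (D.fin i j)
  refine ⟨(⋃ i : Pos, (D.St i .mid : Set G)) ∪ ⋃ i : Pos, (D.St .mid i : Set G), ?_, ?_, ?_⟩
  · have hP : Finite Pos := by
      refine Finite.of_injective (β := Fin 3) (fun p => match p with | .lo => 0 | .mid => 1 | .hi => 2) ?_
      intro a b; cases a <;> cases b <;> simp
    exact Set.Finite.union (Set.finite_iUnion fun i => hfin _ _)
      (Set.finite_iUnion fun i => hfin _ _)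
  · intro i
    exact Set.subset_union_of_subset_left (Set.subset_iUnion (fun i : Pos => (D.St i .mid : Set G)) i) _
  · intro i
    exact Set.subset_union_of_subset_right (Set.subset_iUnion (fun i : Pos => (D.St .mid i : Set G)) i) _

/-- A periodic flat on a slanted half-plane gives a periodic flat on the whole plane. -/
theorem slanted_limit {n₁ n₂ C : ℝ} (h1 : n₁ ≠ 0) (h2 : n₂ ≠ 0) {τ : ℤ → ℤ → G}
    (hτ : IsFlatOn D {z | C ≤ n₁ * z.1 + n₂ * z.2} τ) {g : G} {a b : ℤ}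
    (hab : n₁ * a + n₂ * b = 0)
    (hper : ∀ x y : ℤ, C ≤ n₁ * x + n₂ * y → τ (x + a) (y + b) = g * τ x y) :
    ∃ (σ : ℤ → ℤ → G) (k : G), IsFlatOn D Set.univ σ ∧
      ∀ x y, σ (x + a) (y + b) = k * σ x y := by
  classical
  obtain ⟨w₁, w₂, hw₁, hw₂, hw⟩ : ∃ w₁ w₂ : ℤ, Even w₁ ∧ Even w₂ ∧ 0 < n₁ * w₁ + n₂ * w₂ := by
    rcases lt_or_gt_of_ne h1 with h3 | h3
    · exact ⟨-2, 0, by decide, by decide, by push_cast; nlinarith⟩
    · exact ⟨2, 0, by decide, by decide, by push_cast; nlinarith⟩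
  let U : Ultrafilter ℕ := Filter.hyperfilter ℕ
  have hU : ∀ p : ℕ → Prop, (∀ᶠ n in Filter.atTop, p n) → ∀ᶠ n in (U : Filter ℕ), p n := by
    intro p hp
    exact Nat.hyperfilter_le_atTop hp
  -- far points are in the region
  have hfar : ∀ x y : ℤ, ∀ᶠ n : ℕ in (U : Filter ℕ),
      C ≤ n₁ * ((x + n * w₁ : ℤ) : ℝ) + n₂ * ((y + n * w₂ : ℤ) : ℝ) := by
    intro x y
    apply hU
    obtain ⟨N, hN⟩ := exists_nat_gt ((C - n₁ * x - n₂ * y) / (n₁ * w₁ + n₂ * w₂))
    filter_upwards [Filter.eventually_ge_atTop N] with n hn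
    have h3 : ((N : ℝ)) ≤ n := by exact_mod_cast hn
    rw [div_lt_iff₀ hw] at hN
    push_cast
    nlinarith
  -- the translated flats
  obtain ⟨τn, hτn⟩ : ∃ τn : ℕ → ℤ → ℤ → G, ∀ n x y, τn n x y =
      (τ (n * w₁) (n * w₂))⁻¹ * τ (x + n * w₁) (y + n * w₂) := ⟨_, fun _ _ _ => rfl⟩
  have hH : ∀ x y : ℤ, ∀ᶠ n : ℕ in (U : Filter ℕ), (τn n (x - 1) y)⁻¹ * τn n x y ∈ D.St (par x) .mid ∧
      (τn n (x - 1) y)⁻¹ * τn n x y ≠ 1 := by
    intro x y
    filter_upwards [hfar (x - 1) y, hfar x y] with n h3 h4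
    have e : x - 1 + n * w₁ = x + n * w₁ - 1 := by ring
    rw [e] at h3
    have h5 := hτ.h (x + n * w₁) (y + n * w₂) h3 h4
    rw [par_add_even (Even.mul_left hw₁ _)] at h5
    have e2 : (τn n (x - 1) y)⁻¹ * τn n x y =
        (τ (x + n * w₁ - 1) (y + n * w₂))⁻¹ * τ (x + n * w₁) (y + n * w₂) := by
      rw [hτn, hτn, e]; group
    rw [e2]
    exact h5
  have hV : ∀ x y : ℤ, ∀ᶠ n : ℕ in (U : Filter ℕ), (τn n x (y - 1))⁻¹ * τn n x y ∈ D.St .mid (par y) ∧
      (τn n x (y - 1))⁻¹ * τn n x y ≠ 1 := by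
    intro x y
    filter_upwards [hfar x (y - 1), hfar x y] with n h3 h4
    have e : y - 1 + n * w₂ = y + n * w₂ - 1 := by ring
    rw [e] at h3
    have h5 := hτ.v (x + n * w₁) (y + n * w₂) h3 h4
    rw [par_add_even (Even.mul_left hw₂ _)] at h5
    have e2 : (τn n x (y - 1))⁻¹ * τn n x y =
        (τ (x + n * w₁) (y + n * w₂ - 1))⁻¹ * τ (x + n * w₁) (y + n * w₂) := by
      rw [hτn, hτn, e]; group
    rw [e2]
    exact h5
  -- finite range
  obtain ⟨S, hS, hS1, hS2⟩ := exists_step_set D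
  have hstepH : ∀ x y : ℤ, (∃ T : Set G, T.Finite ∧ ∀ᶠ n in (U : Filter ℕ), τn n (x - 1) y ∈ T) ↔
      (∃ T : Set G, T.Finite ∧ ∀ᶠ n in (U : Filter ℕ), τn n x y ∈ T) := by
    intro x y
    constructor
    · rintro ⟨T, hT, h⟩
      refine ⟨T * S, hT.mul hS, ?_⟩
      filter_upwards [h, hH x y] with n h3 h4
      refine ⟨_, h3, _, hS1 _ h4.1, ?_⟩
      group
    · rintro ⟨T, hT, h⟩
      refine ⟨T * S⁻¹, hT.mul hS.inv, ?_⟩
      filter_upwards [h, hH x y] with n h3 h4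
      refine ⟨_, h3, ((τn n (x - 1) y)⁻¹ * τn n x y)⁻¹, ?_, ?_⟩
      · rw [Set.mem_inv, inv_inv]
        exact hS1 _ h4.1
      · group
  have hstepV : ∀ x y : ℤ, (∃ T : Set G, T.Finite ∧ ∀ᶠ n in (U : Filter ℕ), τn n x (y - 1) ∈ T) ↔
      (∃ T : Set G, T.Finite ∧ ∀ᶠ n in (U : Filter ℕ), τn n x y ∈ T) := by
    intro x y
    constructor
    · rintro ⟨T, hT, h⟩
      refine ⟨T * S, hT.mul hS, ?_⟩
      filter_upwards [h, hV x y] with n h3 h4
      refine ⟨_, h3, _, hS2 _ h4.1, ?_⟩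
      group
    · rintro ⟨T, hT, h⟩
      refine ⟨T * S⁻¹, hT.mul hS.inv, ?_⟩
      filter_upwards [h, hV x y] with n h3 h4
      refine ⟨_, h3, ((τn n x (y - 1))⁻¹ * τn n x y)⁻¹, ?_, ?_⟩
      · rw [Set.mem_inv, inv_inv]
        exact hS2 _ h4.1
      · group
  have hfin : ∀ x y : ℤ, ∃ T : Set G, T.Finite ∧ ∀ᶠ n in (U : Filter ℕ), τn n x y ∈ T := by
    have h00 : ∃ T : Set G, T.Finite ∧ ∀ᶠ n in (U : Filter ℕ), τn n 0 0 ∈ T := by
      refine ⟨{1}, Set.finite_singleton _, Filter.Eventually.of_forall fun n => ?_⟩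
      rw [hτn]
      simp
    have hx : ∀ x : ℤ, ∃ T : Set G, T.Finite ∧ ∀ᶠ n in (U : Filter ℕ), τn n x 0 ∈ T := by
      intro x
      induction x using Int.induction_on with
      | zero => exact h00
      | succ k ih =>
        have h := hstepH (k + 1) 0
        simp only [add_sub_cancel_right] at h
        exact h.1 ih
      | pred k ih =>
        exact (hstepH (-k) 0).2 ih
    intro x y
    induction y using Int.induction_on with
    | zero => exact hx x
    | succ k ih =>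
      have h := hstepV x (k + 1)
      simp only [add_sub_cancel_right] at h
      exact h.1 ih
    | pred k ih =>
      exact (hstepV x (-k)).2 ih
  have hlim : ∀ x y : ℤ, ∃ v : G, ∀ᶠ n in (U : Filter ℕ), τn n x y = v := by
    intro x y
    obtain ⟨T, hT, h⟩ := hfin x y
    obtain ⟨v, -, hv⟩ := ultra_const hT U h
    exact ⟨v, hv⟩
  choose σ hσ using hlim
  refine ⟨σ, σ a b, ⟨?_, ?_⟩, ?_⟩
  · intro x y _ _
    obtain ⟨n, h3, h4, h5⟩ := ((hσ (x - 1) y).and ((hσ x y).and (hH x y))).exists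
    rw [← h3, ← h4]
    exact h5
  · intro x y _ _
    obtain ⟨n, h3, h4, h5⟩ := ((hσ x (y - 1)).and ((hσ x y).and (hV x y))).exists
    rw [← h3, ← h4]
    exact h5
  · intro x y
    obtain ⟨n, h3, h4, h5, h6, h7⟩ := ((hσ (x + a) (y + b)).and ((hσ x y).and
      ((hσ a b).and ((hfar x y).and (hfar 0 0))))).exists
    rw [← h3, ← h4, ← h5, hτn, hτn, hτn]
    have e1 := hper (x + n * w₁) (y + n * w₂) h6
    have e2 := hper (0 + n * w₁) (0 + n * w₂) h7
    have e3 : x + a + n * w₁ = x + n * w₁ + a := by ring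
    have e4 : y + b + n * w₂ = y + n * w₂ + b := by ring
    have e5 : a + n * w₁ = 0 + n * w₁ + a := by ring
    have e6 : b + n * w₂ = 0 + n * w₂ + b := by ring
    rw [e3, e4, e5, e6, e1, e2]
    simp only [zero_add]
    group

end Pool.Agent.FlatClosing
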