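import Pool.Agent.FlatClosing.Periodic
import Pool.Agent.FlatClosing.AlgC

/-!
# A combinatorial flat on the whole plane (MP_ef842e, helper84)

`exists_flat_univ` : arbitrarily large flat squares give a flat on the whole plane
(ultrafilter limit of the patches, centred at even points).
-/

set_option autoImplicit false

open scoped Pointwise

namespace Pool.Agent.FlatClosing

variable {G : Type} [Group G] {D : DoubleAmalg G}

/-- Arbitrarily large flat squares give a flat on the whole plane. -/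
theorem exists_flat_univ (hpatch : ∀ n : ℕ, ∃ τ : ℤ → ℤ → G, IsFlatOn D (Rect n n) τ) :
    ∃ σ : ℤ → ℤ → G, IsFlatOn D Set.univ σ ∧ σ 0 0 = 1 := by
  classical
  let U : Ultrafilter ℕ := Filter.hyperfilter ℕ
  have hU : ∀ p : ℕ → Prop, (∀ᶠ n in Filter.atTop, p n) → ∀ᶠ n in (U : Filter ℕ), p n := by
    intro p hp
    exact Nat.hyperfilter_le_atTop hp
  choose τ hτ using fun n : ℕ => hpatch (4 * n + 1)
  -- centre `(2 n, 2 n)`
  have hfar : ∀ x y : ℤ, ∀ᶠ n : ℕ in (U : Filter ℕ),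
      ((x + 2 * n, y + 2 * n) : ℤ × ℤ) ∈ Rect ((4 * n + 1 : ℕ) : ℤ) ((4 * n + 1 : ℕ) : ℤ) := by
    intro x y
    apply hU
    filter_upwards [Filter.eventually_ge_atTop (x.natAbs + y.natAbs)] with n hn
    have h1 : (x.natAbs : ℤ) + y.natAbs ≤ n := by exact_mod_cast hn
    have h2 := abs_le.1 (le_of_eq (Int.abs_eq_natAbs x))
    have h3 := abs_le.1 (le_of_eq (Int.abs_eq_natAbs y))
    refine ⟨?_, ?_, ?_, ?_⟩ <;> push_cast <;> linarith [h2.1, h2.2, h3.1, h3.2]
  obtain ⟨τn, hτn⟩ : ∃ τn : ℕ → ℤ → ℤ → G, ∀ n x y, τn n x y =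
      (τ n (2 * n) (2 * n))⁻¹ * τ n (x + 2 * n) (y + 2 * n) := ⟨_, fun _ _ _ => rfl⟩
  have hH : ∀ x y : ℤ, ∀ᶠ n : ℕ in (U : Filter ℕ), (τn n (x - 1) y)⁻¹ * τn n x y ∈ D.St (par x) .mid ∧
      (τn n (x - 1) y)⁻¹ * τn n x y ≠ 1 := by
    intro x y
    filter_upwards [hfar (x - 1) y, hfar x y] with n h3 h4
    have e : x - 1 + 2 * n = x + 2 * n - 1 := by ring
    rw [e] at h3
    have h5 := (hτ n).h (x + 2 * n) (y + 2 * n) h3 h4
    rw [par_add_even (even_two_mul _)] at h5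
    have e2 : (τn n (x - 1) y)⁻¹ * τn n x y =
        (τ n (x + 2 * n - 1) (y + 2 * n))⁻¹ * τ n (x + 2 * n) (y + 2 * n) := by
      rw [hτn, hτn, e]; group
    rw [e2]
    exact h5
  have hV : ∀ x y : ℤ, ∀ᶠ n : ℕ in (U : Filter ℕ), (τn n x (y - 1))⁻¹ * τn n x y ∈ D.St .mid (par y) ∧
      (τn n x (y - 1))⁻¹ * τn n x y ≠ 1 := by
    intro x y
    filter_upwards [hfar x (y - 1), hfar x y] with n h3 h4
    have e : y - 1 + 2 * n = y + 2 * n - 1 := by ring
    rw [e] at h3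
    have h5 := (hτ n).v (x + 2 * n) (y + 2 * n) h3 h4
    rw [par_add_even (even_two_mul _)] at h5
    have e2 : (τn n x (y - 1))⁻¹ * τn n x y =
        (τ n (x + 2 * n) (y + 2 * n - 1))⁻¹ * τ n (x + 2 * n) (y + 2 * n) := by
      rw [hτn, hτn, e]; group
    rw [e2]
    exact h5
  obtain ⟨S, hS, hS1, hS2⟩ := exists_step_set D
  have hstepH : ∀ x y : ℤ, (∃ T : Set G, T.Finite ∧ ∀ᶠ n in (U : Filter ℕ), τn n (x - 1) y ∈ T) ↔
      (∃ T : Set G, T.Finite ∧ ∀ᶠ n in (U : Filter ℕ), τn n x y ∈ T) := by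
    intro x y
    constructor
    · rintro ⟨T, hT, h⟩
      refine ⟨T * S, hT.mul hS, ?_⟩
      filter_upwards [h, hH x y] with n h3 h4
      refine ⟨_, h3, _, hS1 _ h4.1, ?_⟩
      group
    · rintro ⟨T, hT, h⟩
      refine ⟨T * S⁻¹, hT.mul hS.inv, ?_⟩
      filter_upwards [h, hH x y] with n h3 h4
      refine ⟨_, h3, ((τn n (x - 1) y)⁻¹ * τn n x y)⁻¹, ?_, ?_⟩
      · rw [Set.mem_inv, inv_inv]
        exact hS1 _ h4.1
      · group
  have hstepV : ∀ x y : ℤ, (∃ T : Set G, T.Finite ∧ ∀ᶠ n in (U : Filter ℕ), τn n x (y - 1) ∈ T) ↔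
      (∃ T : Set G, T.Finite ∧ ∀ᶠ n in (U : Filter ℕ), τn n x y ∈ T) := by
    intro x y
    constructor
    · rintro ⟨T, hT, h⟩
      refine ⟨T * S, hT.mul hS, ?_⟩
      filter_upwards [h, hV x y] with n h3 h4
      refine ⟨_, h3, _, hS2 _ h4.1, ?_⟩
      group
    · rintro ⟨T, hT, h⟩
      refine ⟨T * S⁻¹, hT.mul hS.inv, ?_⟩
      filter_upwards [h, hV x y] with n h3 h4
      refine ⟨_, h3, ((τn n x (y - 1))⁻¹ * τn n x y)⁻¹, ?_, ?_⟩
      · rw [Set.mem_inv, inv_inv]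
        exact hS2 _ h4.1
      · group
  have hfin : ∀ x y : ℤ, ∃ T : Set G, T.Finite ∧ ∀ᶠ n in (U : Filter ℕ), τn n x y ∈ T := by
    have h00 : ∃ T : Set G, T.Finite ∧ ∀ᶠ n in (U : Filter ℕ), τn n 0 0 ∈ T := by
      refine ⟨{1}, Set.finite_singleton _, Filter.Eventually.of_forall fun n => ?_⟩
      rw [hτn]
      simp
    have hx : ∀ x : ℤ, ∃ T : Set G, T.Finite ∧ ∀ᶠ n in (U : Filter ℕ), τn n x 0 ∈ T := by
      intro x
      induction x using Int.induction_on with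
      | zero => exact h00
      | succ k ih =>
        have h := hstepH (k + 1) 0
        simp only [add_sub_cancel_right] at h
        exact h.1 ih
      | pred k ih =>
        exact (hstepH (-k) 0).2 ih
    intro x y
    induction y using Int.induction_on with
    | zero => exact hx x
    | succ k ih =>
      have h := hstepV x (k + 1)
      simp only [add_sub_cancel_right] at h
      exact h.1 ih
    | pred k ih =>
      exact (hstepV x (-k)).2 ih
  have hlim : ∀ x y : ℤ, ∃ v : G, ∀ᶠ n in (U : Filter ℕ), τn n x y = v := by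
    intro x y
    obtain ⟨T, hT, h⟩ := hfin x y
    obtain ⟨v, -, hv⟩ := ultra_const hT U h
    exact ⟨v, hv⟩
  choose σ hσ using hlim
  refine ⟨σ, ⟨?_, ?_⟩, ?_⟩
  · intro x y _ _
    obtain ⟨n, h3, h4, h5⟩ := ((hσ (x - 1) y).and ((hσ x y).and (hH x y))).exists
    rw [← h3, ← h4]
    exact h5
  · intro x y _ _
    obtain ⟨n, h3, h4, h5⟩ := ((hσ x (y - 1)).and ((hσ x y).and (hV x y))).exists
    rw [← h3, ← h4]
    exact h5
  · obtain ⟨n, h3⟩ := (hσ 0 0).exists
    rw [← h3, hτn]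
    simp

/-- The square complex of the concrete group contains a flat on the whole plane. -/
theorem exists_flat_DD : ∃ σ : ℤ → ℤ → _root_.FlatClosing.GG,
    IsFlatOn _root_.FlatClosing.DD Set.univ σ ∧ σ 0 0 = 1 :=
  exists_flat_univ _root_.FlatClosing.SS.exists_patch

end Pool.Agent.FlatClosing
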