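import Mathlib
import Pool.Agent.FlatClosing.Descent

/-!
# MP_ef842e: patterns on slanted half planes (helper74)

A letter pattern on a region which eventually swallows every square when pushed horizontally,
and which is periodic there, gives (ultrafilter limit) a periodic pattern on the plane.
-/

set_option autoImplicit false

namespace Pool.Agent.FlatClosing

open Filter

/-- A letter pattern on an arbitrary region `S` of squares. -/
structure RPat {V E : Type} [Group V] [Group E] (D : LData V E) (S : ℤ → ℤ → Prop)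
    (l : ℤ → ℤ → E) (r : ℤ → ℤ → ℤ) (b t : ℤ → ℤ → E) : Prop where
  l_ne : ∀ m j, S (2 * m - 1) j → S (2 * m) j → l m j ≠ 1
  r_sg : ∀ m j, S (2 * m) j → S (2 * m + 1) j → r m j = 1 ∨ r m j = -1
  b_ne : ∀ i n, S i (2 * n - 1) → S i (2 * n) → b i n ≠ 1
  t_ne : ∀ i n, S i (2 * n) → S i (2 * n + 1) → t i n ≠ 1
  relA : ∀ m n, S (2 * m - 1) (2 * n - 1) → S (2 * m) (2 * n - 1) → S (2 * m - 1) (2 * n) →
    S (2 * m) (2 * n) →
    D.ka (l m (2 * n - 1)) * D.io (b (2 * m) n) = D.io (b (2 * m - 1) n) * D.ka (l m (2 * n))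
  relBs : ∀ m n, S (2 * m) (2 * n - 1) → S (2 * m + 1) (2 * n - 1) → S (2 * m) (2 * n) →
    S (2 * m + 1) (2 * n) → r m (2 * n - 1) = r m (2 * n)
  relB : ∀ m n, S (2 * m) (2 * n - 1) → S (2 * m + 1) (2 * n - 1) → S (2 * m) (2 * n) →
    S (2 * m + 1) (2 * n) →
    b (2 * m + 1) n = (D.R ^ (-(r m (2 * n)))) (b (2 * m) n)
  relC : ∀ m n, S (2 * m) (2 * n) → S (2 * m + 1) (2 * n) → S (2 * m) (2 * n + 1) →
    S (2 * m + 1) (2 * n + 1) →
    D.ka D.c' ^ (r m (2 * n)) * D.io (D.M (t (2 * m + 1) n)) =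
      D.io (D.M (t (2 * m) n)) * D.ka D.c' ^ (r m (2 * n + 1))
  relD : ∀ m n, S (2 * m - 1) (2 * n) → S (2 * m) (2 * n) → S (2 * m - 1) (2 * n + 1) →
    S (2 * m) (2 * n + 1) →
    D.io (D.M (l m (2 * n))) * D.ka (t (2 * m) n) =
      D.ka (t (2 * m - 1) n) * D.io (D.M (l m (2 * n + 1)))

theorem exists_ulim {α : Type} [Finite α] (f : ℕ → α) :
    ∃ e, ∀ᶠ k : ℕ in (hyperfilter ℕ : Filter ℕ), f k = e := by
  obtain ⟨e, he⟩ := Ultrafilter.eq_pure_of_finite ((hyperfilter ℕ).map f)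
  refine ⟨e, ?_⟩
  have h1 : {e} ∈ (hyperfilter ℕ).map f := by
    rw [he]
    exact rfl
  exact h1

theorem ev_of_atTop {p : ℕ → Prop} (h : ∀ᶠ k in atTop, p k) :
    ∀ᶠ k : ℕ in (hyperfilter ℕ : Filter ℕ), p k :=
  h.filter_mono Nat.hyperfilter_le_atTop

variable {V E : Type} [Group V] [Group E] [Finite E] {D : LData V E}

theorem RPat.planePer {S : ℤ → ℤ → Prop} {l : ℤ → ℤ → E} {r : ℤ → ℤ → ℤ} {b t : ℤ → ℤ → E}
    (h : RPat D S l r b t) {s : ℤ} (hS : ∀ i j, ∀ᶠ k : ℕ in atTop, S (i + 2 * (s * k)) j)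
    {a b' : ℤ}
    (h1 : ∀ m j, S (2 * m - 1) j → S (2 * m) j → l (m + a) (j + 2 * b') = l m j)
    (h2 : ∀ m j, S (2 * m) j → S (2 * m + 1) j → r (m + a) (j + 2 * b') = r m j)
    (h3 : ∀ i n, S i (2 * n - 1) → S i (2 * n) → b (i + 2 * a) (n + b') = b i n)
    (h4 : ∀ i n, S i (2 * n) → S i (2 * n + 1) → t (i + 2 * a) (n + b') = t i n) :
    PlanePer D a b' := by
  classical
  -- regions
  have S0 : ∀ i j, ∀ᶠ k : ℕ in (hyperfilter ℕ : Filter ℕ), S (i + 2 * (s * k)) j :=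
    fun i j => ev_of_atTop (hS i j)
  have Se : ∀ m j, ∀ᶠ k : ℕ in (hyperfilter ℕ : Filter ℕ), S (2 * (m + s * k)) j := fun m j => by
    filter_upwards [S0 (2 * m) j] with k hk
    rwa [show 2 * (m + s * k) = 2 * m + 2 * (s * k) by ring]
  have Sm : ∀ m j, ∀ᶠ k : ℕ in (hyperfilter ℕ : Filter ℕ), S (2 * (m + s * k) - 1) j := fun m j => by
    filter_upwards [S0 (2 * m - 1) j] with k hk
    rwa [show 2 * (m + s * k) - 1 = 2 * m - 1 + 2 * (s * k) by ring]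
  have Sp : ∀ m j, ∀ᶠ k : ℕ in (hyperfilter ℕ : Filter ℕ), S (2 * (m + s * k) + 1) j := fun m j => by
    filter_upwards [S0 (2 * m + 1) j] with k hk
    rwa [show 2 * (m + s * k) + 1 = 2 * m + 1 + 2 * (s * k) by ring]
  -- limits
  have e1 : ∀ m j, ∃ e, ∀ᶠ k : ℕ in (hyperfilter ℕ : Filter ℕ), l (m + s * k) j = e :=
    fun m j => exists_ulim (fun k : ℕ => l (m + s * k) j)
  have e2 : ∀ m j, ∃ e : ℤ, (e = 1 ∨ e = -1) ∧
      ∀ᶠ k : ℕ in (hyperfilter ℕ : Filter ℕ), r (m + s * k) j = e := by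
    intro m j
    obtain ⟨e, he⟩ := exists_ulim (fun k : ℕ => decide (r (m + s * k) j = 1))
    have h5 : ∀ᶠ k : ℕ in (hyperfilter ℕ : Filter ℕ), r (m + s * k) j = 1 ∨ r (m + s * k) j = -1 := by
      filter_upwards [Se m j, Sp m j] with k hk hk'
      exact h.r_sg _ _ hk hk'
    cases e
    · refine ⟨-1, Or.inr rfl, ?_⟩
      filter_upwards [he, h5] with k hk hk'
      rcases hk' with h6 | h6
      · simp [h6] at hk
      · exact h6
    · refine ⟨1, Or.inl rfl, ?_⟩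
      filter_upwards [he] with k hk
      simpa using hk
  have e3 : ∀ i n, ∃ e, ∀ᶠ k : ℕ in (hyperfilter ℕ : Filter ℕ), b (i + 2 * (s * k)) n = e :=
    fun i n => exists_ulim (fun k : ℕ => b (i + 2 * (s * k)) n)
  have e4 : ∀ i n, ∃ e, ∀ᶠ k : ℕ in (hyperfilter ℕ : Filter ℕ), t (i + 2 * (s * k)) n = e :=
    fun i n => exists_ulim (fun k : ℕ => t (i + 2 * (s * k)) n)
  choose L hL using e1
  choose Rr hR1 hR using e2
  choose Bb hB using e3
  choose Tt hT using e4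
  have iE : ∀ m k : ℤ, 2 * m + 2 * (s * k) = 2 * (m + s * k) := fun m k => by ring
  have iM : ∀ m k : ℤ, 2 * m - 1 + 2 * (s * k) = 2 * (m + s * k) - 1 := fun m k => by ring
  have iP : ∀ m k : ℤ, 2 * m + 1 + 2 * (s * k) = 2 * (m + s * k) + 1 := fun m k => by ring
  refine ⟨L, Rr, Bb, Tt, ⟨?_, ?_, ?_, ?_, ?_, ?_, ?_, ?_, ?_⟩, ?_, ?_, ?_, ?_⟩
  · intro m j _ _
    obtain ⟨k, hk, hk1, hk2⟩ := ((hL m j).and ((Sm m j).and (Se m j))).exists
    rw [← hk]
    exact h.l_ne _ _ hk1 hk2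
  · intro m j _ _
    exact hR1 m j
  · intro i n _ _
    obtain ⟨k, hk, hk1, hk2⟩ := ((hB i n).and ((S0 i _).and (S0 i _))).exists
    rw [← hk]
    exact h.b_ne _ _ hk1 hk2
  · intro i n _ _
    obtain ⟨k, hk, hk1, hk2⟩ := ((hT i n).and ((S0 i _).and (S0 i _))).exists
    rw [← hk]
    exact h.t_ne _ _ hk1 hk2
  · intro m n _ _
    obtain ⟨k, hk, hk1, hk2, hk3, s1, s2, s3, s4⟩ :=
      ((hL m (2 * n - 1)).and ((hB (2 * m) n).and ((hB (2 * m - 1) n).and ((hL m (2 * n)).and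
        ((Sm m (2 * n - 1)).and ((Se m (2 * n - 1)).and ((Sm m (2 * n)).and
          (Se m (2 * n))))))))).exists
    rw [← hk, ← hk1, ← hk2, ← hk3, iE, iM]
    exact h.relA _ _ s1 s2 s3 s4
  · intro m n _ _
    obtain ⟨k, hk, hk1, s1, s2, s3, s4⟩ :=
      ((hR m (2 * n - 1)).and ((hR m (2 * n)).and
        ((Se m (2 * n - 1)).and ((Sp m (2 * n - 1)).and ((Se m (2 * n)).and
          (Sp m (2 * n))))))).exists
    rw [← hk, ← hk1]
    exact h.relBs _ _ s1 s2 s3 s4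
  · intro m n _ _
    obtain ⟨k, hk, hk1, hk2, s1, s2, s3, s4⟩ :=
      ((hR m (2 * n)).and ((hB (2 * m) n).and ((hB (2 * m + 1) n).and
        ((Se m (2 * n - 1)).and ((Sp m (2 * n - 1)).and ((Se m (2 * n)).and
          (Sp m (2 * n)))))))).exists
    rw [← hk, ← hk1, ← hk2, iE, iP]
    exact h.relB _ _ s1 s2 s3 s4
  · intro m n _ _
    obtain ⟨k, hk, hk1, hk2, hk3, s1, s2, s3, s4⟩ :=
      ((hR m (2 * n)).and ((hT (2 * m + 1) n).and ((hT (2 * m) n).and ((hR m (2 * n + 1)).and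
        ((Se m (2 * n)).and ((Sp m (2 * n)).and ((Se m (2 * n + 1)).and
          (Sp m (2 * n + 1))))))))).exists
    rw [← hk, ← hk1, ← hk2, ← hk3, iE, iP]
    exact h.relC _ _ s1 s2 s3 s4
  · intro m n _ _
    obtain ⟨k, hk, hk1, hk2, hk3, s1, s2, s3, s4⟩ :=
      ((hL m (2 * n)).and ((hT (2 * m) n).and ((hT (2 * m - 1) n).and ((hL m (2 * n + 1)).and
        ((Sm m (2 * n)).and ((Se m (2 * n)).and ((Sm m (2 * n + 1)).and
          (Se m (2 * n + 1))))))))).exists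
    rw [← hk, ← hk1, ← hk2, ← hk3, iE, iM]
    exact h.relD _ _ s1 s2 s3 s4
  · intro m j
    obtain ⟨k, hk, hk1, s1, s2⟩ :=
      ((hL m j).and ((hL (m + a) (j + 2 * b')).and ((Sm m j).and (Se m j)))).exists
    rw [← hk, ← hk1, ← h1 _ _ s1 s2]
    congr 1; ring
  · intro m j
    obtain ⟨k, hk, hk1, s1, s2⟩ :=
      ((hR m j).and ((hR (m + a) (j + 2 * b')).and ((Se m j).and (Sp m j)))).exists
    rw [← hk, ← hk1, ← h2 _ _ s1 s2]
    congr 1; ring
  · intro i n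
    obtain ⟨k, hk, hk1, s1, s2⟩ :=
      ((hB i n).and ((hB (i + 2 * a) (n + b')).and ((S0 i (2 * n - 1)).and
        (S0 i (2 * n))))).exists
    rw [← hk, ← hk1, ← h3 _ _ s1 s2]
    congr 1; ring
  · intro i n
    obtain ⟨k, hk, hk1, s1, s2⟩ :=
      ((hT i n).and ((hT (i + 2 * a) (n + b')).and ((S0 i (2 * n)).and
        (S0 i (2 * n + 1))))).exists
    rw [← hk, ← hk1, ← h4 _ _ s1 s2]
    congr 1; ring

/-- **No periodic pattern on a slanted half plane** (more generally, on a region which swallows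
every square when pushed horizontally). -/
theorem slanted_aperiodic {S : ℤ → ℤ → Prop} {l : ℤ → ℤ → E} {r : ℤ → ℤ → ℤ} {b t : ℤ → ℤ → E}
    (h : RPat D S l r b t) {s : ℤ} (hS : ∀ i j, ∀ᶠ k : ℕ in atTop, S (i + 2 * (s * k)) j)
    {a b' : ℤ}
    (h1 : ∀ m j, S (2 * m - 1) j → S (2 * m) j → l (m + a) (j + 2 * b') = l m j)
    (h2 : ∀ m j, S (2 * m) j → S (2 * m + 1) j → r (m + a) (j + 2 * b') = r m j)
    (h3 : ∀ i n, S i (2 * n - 1) → S i (2 * n) → b (i + 2 * a) (n + b') = b i n)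
    (h4 : ∀ i n, S i (2 * n) → S i (2 * n + 1) → t (i + 2 * a) (n + b') = t i n) :
    a = 0 ∧ b' = 0 :=
  plane_aperiodic (h.planePer hS h1 h2 h3 h4)

end Pool.Agent.FlatClosing
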