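import Pool.Agent.FlatClosing.Dev
import Pool.Agent.FlatClosing.Proper

/-!
# Strips and walls of the square complex: the product formula (MP_ef842e_al)

* `D.co a p` : coordinate of `p : Sq` in direction `a` (`false` = first, `true` = second);
* `D.pi a : D.X → D.T a` : the projection to the tree in direction `a`;
* `D.dist_sq_ge` : `dist_T0 ^ 2 + dist_T1 ^ 2 ≤ dist ^ 2`;
* `StabSys.ChainIn` : chains all of whose cells lie in a given set of group elements;
* `D.lift` : a chain of `D.T (!a)` with cells in `g * K a i` lifts to `D.X` with linear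
  `a`-coordinate.
-/

set_option autoImplicit false

namespace Pool.Agent.FlatClosing

/-- coordinate in direction `a` -/
def co (a : Bool) (p : Sq) : I01 := bif a then p.snd else p.fst

/-- the point with coordinate `u` in direction `a` and `v` in the other direction -/
def mkSq (a : Bool) (u v : I01) : Sq := bif a then WithLp.toLp 2 (v, u) else WithLp.toLp 2 (u, v)

@[simp] theorem co_mkSq (a : Bool) (u v : I01) : co a (mkSq a u v) = u := by
  cases a <;> rfl

@[simp] theorem co_not_mkSq (a : Bool) (u v : I01) : co (!a) (mkSq a u v) = v := by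
  cases a <;> rfl

theorem mkSq_co (a : Bool) (p : Sq) : mkSq a (co a p) (co (!a) p) = p := by
  cases a <;> rfl

theorem dist_Sq (a : Bool) (p q : Sq) : dist p q =
    Real.sqrt (dist (co a p) (co a q) ^ 2 + dist (co (!a) p) (co (!a) q) ^ 2) := by
  rw [l2_dist]
  cases a
  · rfl
  · rw [add_comm]; rfl

theorem dist_mkSq (a : Bool) (u v u' v' : I01) : dist (mkSq a u v) (mkSq a u' v') =
    Real.sqrt (dist u u' ^ 2 + dist v v' ^ 2) := by
  rw [dist_Sq a]; simp

/-- Minkowski in the plane -/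
theorem sqrt_add_le (a b c d : ℝ) :
    Real.sqrt ((a + c) ^ 2 + (b + d) ^ 2) ≤ Real.sqrt (a ^ 2 + b ^ 2) + Real.sqrt (c ^ 2 + d ^ 2) := by
  apply Real.sqrt_le_iff.mpr
  refine ⟨by positivity, ?_⟩
  have h1 := Real.sq_sqrt (by positivity : 0 ≤ a ^ 2 + b ^ 2)
  have h2 := Real.sq_sqrt (by positivity : 0 ≤ c ^ 2 + d ^ 2)
  have h3 : a * c + b * d ≤ Real.sqrt (a ^ 2 + b ^ 2) * Real.sqrt (c ^ 2 + d ^ 2) := by
    rw [← Real.sqrt_mul (by positivity)]
    apply Real.le_sqrt_of_sq_le
    nlinarith [sq_nonneg (a * d - b * c)]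
  nlinarith

/-- proportional legs -/
theorem sqrt_add_eq {x l m : ℝ} (hl : 0 ≤ l) (hm : 0 ≤ m) (h : 0 < l + m) :
    Real.sqrt ((x * (l / (l + m))) ^ 2 + l ^ 2) + Real.sqrt ((x * (m / (l + m))) ^ 2 + m ^ 2) =
      Real.sqrt (x ^ 2 + (l + m) ^ 2) := by
  have e1 : (x * (l / (l + m))) ^ 2 + l ^ 2 = (l / (l + m)) ^ 2 * (x ^ 2 + (l + m) ^ 2) := by
    field_simp
  have e2 : (x * (m / (l + m))) ^ 2 + m ^ 2 = (m / (l + m)) ^ 2 * (x ^ 2 + (l + m) ^ 2) := by
    field_simp
  rw [e1, e2, Real.sqrt_mul (by positivity), Real.sqrt_mul (by positivity),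
    Real.sqrt_sq (by positivity), Real.sqrt_sq (by positivity), ← add_mul, ← add_div,
    div_self h.ne', one_mul]

namespace StabSys

variable {G : Type} [Group G] {Q : Type} [MetricSpace Q] (S : StabSys G Q)

/-- Chains with all cells in `C`. -/
inductive ChainIn (C : Set G) : S.U → S.U → ℝ → Prop
  | nil (x : S.U) : ChainIn C x x 0
  | cons (g : G) (hg : g ∈ C) (p q : Q) (y : S.U) (L : ℝ) (h : ChainIn C (S.pt g q) y L) :
      ChainIn C (S.pt g p) y (dist p q + L)

variable {S}

theorem ChainIn.chain {C : Set G} {x y : S.U} {L : ℝ} (h : S.ChainIn C x y L) :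
    S.Chain x y L := by
  induction h with
  | nil x => exact Chain.nil x
  | cons g hg p q y L _ ih => exact Chain.cons g p q y L ih

theorem ChainIn.nonneg {C : Set G} {x y : S.U} {L : ℝ} (h : S.ChainIn C x y L) : 0 ≤ L :=
  h.chain.nonneg

theorem ChainIn.trans {C : Set G} {x y z : S.U} {L M : ℝ} (h : S.ChainIn C x y L)
    (h' : S.ChainIn C y z M) : S.ChainIn C x z (L + M) := by
  induction h with
  | nil x => simpa using h'
  | cons g hg p q y L _ ih =>
    rw [add_assoc]
    exact ChainIn.cons g hg p q _ _ (ih h')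

variable (S)

theorem chainIn_single {C : Set G} {g : G} (hg : g ∈ C) (p q : Q) :
    S.ChainIn C (S.pt g p) (S.pt g q) (dist p q) := by
  have := ChainIn.cons (S := S) g hg p q _ _ (ChainIn.nil (S.pt g q))
  simpa using this

variable {S}

theorem ChainIn.mono {C C' : Set G} (hC : C ⊆ C') {x y : S.U} {L : ℝ} (h : S.ChainIn C x y L) :
    S.ChainIn C' x y L := by
  induction h with
  | nil x => exact ChainIn.nil x
  | cons g hg p q y L _ ih => exact ChainIn.cons g (hC hg) p q y L ih

end StabSys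

namespace DoubleAmalg

variable {G : Type} [Group G] (D : DoubleAmalg G)

theorem sqSys_St (a : Bool) (p : Sq) :
    D.sqSys.St p = D.K a (pos (co a p)) ⊓ D.K (!a) (pos (co (!a) p)) := by
  cases a
  · rfl
  · rw [inf_comm]; rfl

theorem treeSys_St (a : Bool) (s : I01) : (D.treeSys a).St s = D.K a (pos s) := rfl

/-- the projection to the tree in direction `a` -/
noncomputable def pi (a : Bool) : D.X → D.T a :=
  Quotient.map (fun x : G × Sq => (x.1, co a x.2)) (by
    rintro ⟨g, p⟩ ⟨h, q⟩ ⟨hpq, hg⟩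
    simp only at hpq hg
    subst hpq
    refine ⟨rfl, ?_⟩
    simp only
    rw [D.sqSys_St a] at hg
    exact hg.1)

@[simp] theorem pi_pt (a : Bool) (g : G) (p : Sq) :
    D.pi a (D.sqSys.pt g p) = (D.treeSys a).pt g (co a p) := rfl

theorem pi_smul (a : Bool) (g : G) (x : D.X) : D.pi a (g • x) = g • D.pi a x := by
  obtain ⟨h, p, rfl⟩ := D.sqSys.exists_rep x
  rfl

theorem exists_legs (a : Bool) {x y : D.X} {L : ℝ} (h : D.sqSys.Chain x y L) :
    ∃ A B : ℝ, (D.treeSys a).Chain (D.pi a x) (D.pi a y) A ∧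
      (D.treeSys (!a)).Chain (D.pi (!a) x) (D.pi (!a) y) B ∧ Real.sqrt (A ^ 2 + B ^ 2) ≤ L := by
  induction h with
  | nil x => exact ⟨0, 0, StabSys.Chain.nil _, StabSys.Chain.nil _, by simp⟩
  | cons g p q y L _ ih =>
    obtain ⟨A, B, hA, hB, hAB⟩ := ih
    refine ⟨dist (co a p) (co a q) + A, dist (co (!a) p) (co (!a) q) + B,
      StabSys.Chain.cons g _ _ _ _ hA, StabSys.Chain.cons g _ _ _ _ hB, ?_⟩
    rw [dist_Sq a]
    exact (sqrt_add_le _ _ _ _).trans (by linarith)

/-- The distance of the square complex dominates the product distance of the two trees. -/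
theorem sqrt_dist_le (a : Bool) (x y : D.X) :
    Real.sqrt (dist (D.pi a x) (D.pi a y) ^ 2 + dist (D.pi (!a) x) (D.pi (!a) y) ^ 2) ≤
      dist x y := by
  apply D.sqSys.le_dist_of_chain
  intro L hL
  obtain ⟨A, B, hA, hB, hAB⟩ := D.exists_legs a hL
  refine le_trans (Real.sqrt_le_sqrt ?_) hAB
  have h1 := (D.treeSys a).dist_le_of_chain hA
  have h2 := (D.treeSys (!a)).dist_le_of_chain hB
  gcongr

theorem dist_sq_ge (a : Bool) (x y : D.X) :
    dist (D.pi a x) (D.pi a y) ^ 2 + dist (D.pi (!a) x) (D.pi (!a) y) ^ 2 ≤ dist x y ^ 2 := by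
  have := D.sqrt_dist_le a x y
  rw [Real.sqrt_le_left dist_nonneg] at this
  exact this

theorem dist_pi_le (a : Bool) (x y : D.X) : dist (D.pi a x) (D.pi a y) ≤ dist x y := by
  have h1 := D.dist_sq_ge a x y
  exact le_of_sq_le_sq (by nlinarith [sq_nonneg (dist (D.pi (!a) x) (D.pi (!a) y))]) dist_nonneg

theorem continuous_pi (a : Bool) : Continuous (D.pi a) :=
  (LipschitzWith.of_dist_le_mul (K := 1) fun x y => by simpa using D.dist_pi_le a x y).continuous

/-- distance of the `a`-coordinates -/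
theorem dist_co_le (a : Bool) (x y : D.X) :
    dist (co a (D.sqSys.fold x)) (co a (D.sqSys.fold y)) ≤ dist (D.pi a x) (D.pi a y) := by
  obtain ⟨g, p, rfl⟩ := D.sqSys.exists_rep x
  obtain ⟨h, q, rfl⟩ := D.sqSys.exists_rep y
  exact (D.treeSys a).dist_fold_le ((D.treeSys a).pt g (co a p)) ((D.treeSys a).pt h (co a q))

/-- the coset `g * K a i` -/
def coset (a : Bool) (i : Pos) (g : G) : Set G := {h | g⁻¹ * h ∈ D.K a i}

theorem mem_coset_self (a : Bool) (i : Pos) (g : G) : g ∈ D.coset a i g := by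
  simp [coset]

theorem coset_div {a : Bool} {i : Pos} {g h k : G} (h1 : h ∈ D.coset a i g)
    (h2 : k ∈ D.coset a i g) : h⁻¹ * k ∈ D.K a i := by
  have := (D.K a i).mul_mem ((D.K a i).inv_mem h1) h2
  simpa [mul_assoc] using this

/-- interpolation in the unit interval -/
noncomputable def interp (u v : I01) (t : I01) : I01 :=
  ⟨(1 - (t : ℝ)) * u + t * v, by
    have h1 := u.2.1; have h2 := v.2.1; have h3 := t.2.1; have h4 := t.2.2
    have : 0 ≤ (1 - (t : ℝ)) * u := mul_nonneg (by linarith) h1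
    have : 0 ≤ (t : ℝ) * v := mul_nonneg h3 h2
    linarith, by
    have h1 := u.2.2; have h2 := v.2.2; have h3 := t.2.1; have h4 := t.2.2
    have : (1 - (t : ℝ)) * u ≤ (1 - (t : ℝ)) * 1 := mul_le_mul_of_nonneg_left h1 (by linarith)
    have : (t : ℝ) * v ≤ t * 1 := mul_le_mul_of_nonneg_left h2 h3
    linarith⟩

theorem dist_interp_left (u v t : I01) : dist u (interp u v t) = dist u v * t := by
  rw [Subtype.dist_eq, Subtype.dist_eq, Real.dist_eq, Real.dist_eq]
  have : (u : ℝ) - (interp u v t : I01) = (u - v) * t := by simp only [interp]; ring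
  rw [this, abs_mul, abs_of_nonneg t.2.1]

theorem dist_interp_right (u v t : I01) : dist (interp u v t) v = dist u v * (1 - t) := by
  rw [Subtype.dist_eq, Subtype.dist_eq, Real.dist_eq, Real.dist_eq]
  have : ((interp u v t : I01) : ℝ) - v = (u - v) * (1 - t) := by simp only [interp]; ring
  have h1 : 0 ≤ 1 - (t : ℝ) := by linarith [t.2.2]
  rw [this, abs_mul, abs_of_nonneg h1]

/-- A chain of `D.T (!a)` inside the coset `g * K a i` lifts to `D.X`. -/
theorem lift {a : Bool} {i : Pos} {g : G} {x y : D.T (!a)} {L : ℝ}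
    (hc : (D.treeSys (!a)).ChainIn (D.coset a i g) x y L) :
    ∀ (g1 h : G) (s t u v : I01), g1 ∈ D.coset a i g → h ∈ D.coset a i g →
      x = (D.treeSys (!a)).pt g1 s → y = (D.treeSys (!a)).pt h t →
      (∀ w : I01, min (u : ℝ) v ≤ w → (w : ℝ) ≤ max u v → D.K a i ≤ D.K a (pos w)) →
      dist (D.sqSys.pt g1 (mkSq a u s)) (D.sqSys.pt h (mkSq a v t)) ≤
        Real.sqrt (dist u v ^ 2 + L ^ 2) := by
  have glue : ∀ (g1 g2 : G) (s w : I01), g1 ∈ D.coset a i g → g2 ∈ D.coset a i g →
      (D.treeSys (!a)).pt g1 s = (D.treeSys (!a)).pt g2 s → D.K a i ≤ D.K a (pos w) →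
      D.sqSys.pt g1 (mkSq a w s) = D.sqSys.pt g2 (mkSq a w s) := by
    intro g1 g2 s w h1 h2 h3 h4
    rw [StabSys.pt_eq_pt] at h3 ⊢
    refine ⟨rfl, ?_⟩
    rw [D.sqSys_St a, co_mkSq, co_not_mkSq]
    exact ⟨h4 (D.coset_div h1 h2), h3.2⟩
  induction hc with
  | nil x =>
    intro g1 h s t u v hg1 hh hx hy hw
    subst hx
    have hst : s = t := ((StabSys.pt_eq_pt _).mp hy).1
    subst hst
    rw [← glue g1 h s v hg1 hh hy (hw v (min_le_right _ _) (le_max_right _ _))]
    rw [StabSys.dist_pt, dist_mkSq, dist_self]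
  | cons g0 hg0 p q y L hc ih =>
    intro g1 h s t u v hg1 hh hx hy hw
    have hps : p = s := ((StabSys.pt_eq_pt _).mp hx).1
    subst hps
    have hu := hw u (min_le_left _ _) (le_max_left _ _)
    rw [← glue g0 g1 p u hg0 hg1 hx hu]
    have hL := hc.nonneg
    rcases eq_or_lt_of_le (add_nonneg (dist_nonneg (x := p) (y := q)) hL) with h0 | h0
    · have hpq : dist p q = 0 := by linarith [dist_nonneg (x := p) (y := q)]
      have hL0 : L = 0 := by linarith [dist_nonneg (x := p) (y := q)]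
      have h1 := ih g0 h q t u v hg0 hh rfl hy hw
      rw [eq_of_dist_eq_zero hpq]
      rw [dist_self, zero_add]
      exact h1
    · -- the intermediate coordinate
      set τ : I01 := ⟨dist p q / (dist p q + L), by positivity, by
        rw [div_le_one h0]; linarith⟩ with hτ
      set w := interp u v τ with hwdef
      have hτ' : (τ : ℝ) = dist p q / (dist p q + L) := rfl
      have hwval : (w : ℝ) = (1 - (τ : ℝ)) * u + τ * v := rfl
      have hτ0 := τ.2.1
      have hτ1 := τ.2.2
      have hw1 : min (u : ℝ) v ≤ w := by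
        rcases le_total (u : ℝ) v with huv | huv
        · rw [min_eq_left huv, hwval]; nlinarith
        · rw [min_eq_right huv, hwval]; nlinarith
      have hw2 : (w : ℝ) ≤ max (u : ℝ) v := by
        rcases le_total (u : ℝ) v with huv | huv
        · rw [max_eq_right huv, hwval]; nlinarith
        · rw [max_eq_left huv, hwval]; nlinarith
      have h1 := ih g0 h q t w v hg0 hh rfl hy (by
        intro z hz1 hz2
        refine hw z (le_trans ?_ hz1) (hz2.trans ?_)
        · exact le_min hw1 (min_le_right _ _)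
        · exact max_le hw2 (le_max_right _ _))
      have h2 : dist (D.sqSys.pt g0 (mkSq a u p)) (D.sqSys.pt g0 (mkSq a w q)) =
          Real.sqrt (dist u w ^ 2 + dist p q ^ 2) := by
        rw [StabSys.dist_pt, dist_mkSq]
      refine (dist_triangle _ (D.sqSys.pt g0 (mkSq a w q)) _).trans ?_
      rw [h2]
      refine (add_le_add le_rfl h1).trans (le_of_eq ?_)
      rw [hwdef, dist_interp_left, dist_interp_right]
      have e : 1 - (τ : ℝ) = L / (dist p q + L) := by
        rw [hτ']; field_simp; ring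
      rw [e, hτ']
      exact sqrt_add_eq dist_nonneg hL h0

/-- `C`-convexity of the coset: the distance in the tree `D.T (!a)` between points of cells in
`g * K a i` is the infimum over the chains inside this coset. -/
def CosetConvex (a : Bool) (i : Pos) : Prop :=
  ∀ (g h : G) (s t : I01), h ∈ D.coset a i g → ∀ ε : ℝ, 0 < ε →
    ∃ L, (D.treeSys (!a)).ChainIn (D.coset a i g) ((D.treeSys (!a)).pt g s)
      ((D.treeSys (!a)).pt h t) L ∧
      L < dist ((D.treeSys (!a)).pt g s) ((D.treeSys (!a)).pt h t) + ε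

/-- The product formula. -/
theorem dist_formula {a : Bool} {i : Pos} (hconv : D.CosetConvex a i) {g h : G}
    (hh : h ∈ D.coset a i g) (s t u v : I01)
    (hw : ∀ w : I01, min (u : ℝ) v ≤ w → (w : ℝ) ≤ max u v → D.K a i ≤ D.K a (pos w)) :
    dist (D.sqSys.pt g (mkSq a u s)) (D.sqSys.pt h (mkSq a v t)) =
      Real.sqrt (dist u v ^ 2 + dist ((D.treeSys (!a)).pt g s) ((D.treeSys (!a)).pt h t) ^ 2) := by
  apply le_antisymm
  · set d := dist ((D.treeSys (!a)).pt g s) ((D.treeSys (!a)).pt h t) with hd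
    have key : ∀ ε : ℝ, 0 < ε → dist (D.sqSys.pt g (mkSq a u s)) (D.sqSys.pt h (mkSq a v t)) ≤
        Real.sqrt (dist u v ^ 2 + d ^ 2) + ε := by
      intro ε hε
      obtain ⟨L, hL, hlt⟩ := hconv g h s t hh ε hε
      have h1 := D.lift hL g h s t u v (D.mem_coset_self a i g) hh rfl rfl hw
      refine h1.trans ?_
      have hL0 := hL.nonneg
      have hd0 : 0 ≤ d := dist_nonneg
      calc Real.sqrt (dist u v ^ 2 + L ^ 2) ≤ Real.sqrt ((dist u v + 0) ^ 2 + (d + ε) ^ 2) := by
            apply Real.sqrt_le_sqrt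
            rw [add_zero]
            have : L ≤ d + ε := hlt.le
            gcongr
        _ ≤ Real.sqrt (dist u v ^ 2 + d ^ 2) + Real.sqrt (0 ^ 2 + ε ^ 2) := sqrt_add_le _ _ _ _
        _ = Real.sqrt (dist u v ^ 2 + d ^ 2) + ε := by
            rw [zero_pow two_ne_zero, zero_add, Real.sqrt_sq hε.le]
    exact le_of_forall_pos_le_add key
  · have h1 := D.sqrt_dist_le a (D.sqSys.pt g (mkSq a u s)) (D.sqSys.pt h (mkSq a v t))
    refine le_trans (Real.sqrt_le_sqrt ?_) h1
    have h2 := D.dist_co_le a (D.sqSys.pt g (mkSq a u s)) (D.sqSys.pt h (mkSq a v t))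
    simp only [StabSys.fold_pt, co_mkSq, pi_pt, co_not_mkSq] at h2 ⊢
    have h3 : 0 ≤ dist u v := dist_nonneg
    gcongr

end DoubleAmalg

end Pool.Agent.FlatClosing
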