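import Pool.Agent.FlatClosing.Strip
import Pool.Agent.CNGlue.Constr

/-!
# Strips and walls of the square complex satisfy the CAT(0) inequality (MP_ef842e_al)

Under the hypotheses `GeoCN (univ : Set (D.T (!a)))` and `D.CosetExact a i` (the tree distance
between cells of `g * K a i` is realised by a chain inside this coset) the pieces
`D.piece a i J g` (`J` a `GeoCN` set of admissible `a`-coordinates) are `GeoCN`:
strips (`i = mid`, `J = univ`), walls (`i = lo`, `J = {0}`; `i = hi`, `J = {1}`) and the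
intersections of strips and walls (`i = mid`, `J = {0}` or `{1}`).
-/

set_option autoImplicit false

namespace Pool.Agent.FlatClosing

open Pool.Agent.CNGlue Set

theorem geoCN_of_image {X Y : Type} [MetricSpace X] [MetricSpace Y] {f : X → Y} {S : Set X}
    (hf : ∀ x ∈ S, ∀ y ∈ S, dist (f x) (f y) = dist x y) (h : GeoCN (f '' S)) : GeoCN S := by
  classical
  rcases S.eq_empty_or_nonempty with rfl | ⟨x0, hx0⟩
  · exact geoCN_empty
  have : Nonempty X := ⟨x0⟩
  have hinj : InjOn f S := by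
    intro x hx y hy hxy
    have := hf x hx y hy
    rw [hxy, dist_self] at this
    exact dist_eq_zero.mp this.symm
  have hleft : ∀ x ∈ S, Function.invFunOn f S (f x) = x := fun x hx => hinj.leftInvOn_invFunOn hx
  have h1 := GeoCN.image_of_isometryOn (f := Function.invFunOn f S) (S := f '' S) (by
    rintro _ ⟨x, hx, rfl⟩ _ ⟨y, hy, rfl⟩
    rw [hleft x hx, hleft y hy, hf x hx y hy]) h
  have h2 : Function.invFunOn f S '' (f '' S) = S := by
    ext x
    constructor
    · rintro ⟨_, ⟨y, hy, rfl⟩, rfl⟩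
      rw [hleft y hy]; exact hy
    · intro hx
      exact ⟨f x, ⟨x, hx, rfl⟩, hleft x hx⟩
  rwa [h2] at h1

theorem geoCN_I01 : GeoCN (univ : Set I01) := by
  have h1 := GeoCN.image_of_isometryOn (f := Set.projIcc (0 : ℝ) 1 zero_le_one)
    (S := Icc (0 : ℝ) 1) (by
    intro x hx y hy
    rw [Subtype.dist_eq, Set.projIcc_of_mem _ hx, Set.projIcc_of_mem _ hy]) (geoCN_Icc 0 1)
  have h2 : Set.projIcc (0 : ℝ) 1 zero_le_one '' Icc (0 : ℝ) 1 = univ := by
    ext x
    simp only [mem_univ, iff_true]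
    exact ⟨x, x.2, Set.projIcc_val _ x⟩
  rwa [h2] at h1

theorem geoCN_of_geoConv {X : Type} [MetricSpace X] {S T : Set X} (hST : S ⊆ T) (hT : GeoCN T)
    (hS : GeoConv S) : GeoCN S := by
  intro x hx y hy
  obtain ⟨γ, h1, h2⟩ := hS x hx y hy
  exact ⟨γ, h1, h2, fun p hp =>
    hT.stew (hST hx) (hST hy) h1 (fun t ht => hST (h2 t ht)) (hST hp)⟩

/-- A chain which realises the distance gives a geodesic through its cells. -/
theorem StabSys.ChainIn.exists_geod {G : Type} [Group G] {Q : Type} [MetricSpace Q]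
    {S : StabSys G Q} (hQ : GeoConv (univ : Set Q)) {C : Set G} {x y : S.U} {L : ℝ}
    (h : S.ChainIn C x y L) : (∃ g ∈ C, x ∈ S.cell g) → dist x y = L →
    ∃ γ : ℝ → S.U, IsGeod γ x y ∧ ∀ t ∈ Icc (0 : ℝ) 1, ∃ g ∈ C, γ t ∈ S.cell g := by
  induction h with
  | nil x =>
    intro hx _
    exact ⟨fun _ => x, IsGeod.refl x, fun _ _ => hx⟩
  | cons g hg p q y L hc ih =>
    intro _ hd
    have h1 : dist (S.pt g q) y ≤ L := S.dist_le_of_chain hc.chain
    have h2 : dist (S.pt g q) y = L := by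
      apply le_antisymm h1
      have := dist_triangle (S.pt g p) (S.pt g q) y
      rw [S.dist_pt] at this
      linarith
    obtain ⟨β, hβ, hβC⟩ := ih ⟨g, hg, S.pt_mem_cell g q⟩ h2
    obtain ⟨α, hα, _⟩ := hQ p (mem_univ _) q (mem_univ _)
    have hα' : IsGeod (fun t => S.pt g (α t)) (S.pt g p) (S.pt g q) := hα.map (S.isometry_pt g)
    obtain ⟨γ, hγ, hγ'⟩ := exists_concat (by rw [hd, S.dist_pt, h2]) hα' hβ
    refine ⟨γ, hγ, fun t ht => ?_⟩
    rcases hγ' t ht with ⟨s, hs, e, _⟩ | ⟨s, hs, e, _⟩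
    · rw [e]
      exact ⟨g, hg, S.pt_mem_cell _ _⟩
    · rw [e]
      exact hβC s hs

namespace DoubleAmalg

variable {G : Type} [Group G] (D : DoubleAmalg G)

/-- exactness: the tree distance is realised by a chain inside the coset -/
def CosetExact (a : Bool) (i : Pos) : Prop :=
  ∀ (g h : G) (s t : I01), h ∈ D.coset a i g →
    (D.treeSys (!a)).ChainIn (D.coset a i g) ((D.treeSys (!a)).pt g s)
      ((D.treeSys (!a)).pt h t) (dist ((D.treeSys (!a)).pt g s) ((D.treeSys (!a)).pt h t))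

variable {D}

theorem CosetExact.convex {a : Bool} {i : Pos} (h : D.CosetExact a i) : D.CosetConvex a i :=
  fun g k s t hk ε hε => ⟨_, h g k s t hk, by linarith⟩

theorem coset_eq {a : Bool} {i : Pos} {g h : G} (hh : h ∈ D.coset a i g) :
    D.coset a i h = D.coset a i g := by
  ext k
  constructor
  · intro hk
    have := (D.K a i).mul_mem hh hk
    simpa [coset, mul_assoc] using this
  · intro hk
    exact D.coset_div hh hk

variable (D)

/-- the subtree of `D.T (!a)` formed by the cells of `g * K a i` -/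
def subtree (a : Bool) (i : Pos) (g : G) : Set (D.T (!a)) :=
  {y | ∃ h ∈ D.coset a i g, y ∈ (D.treeSys (!a)).cell h}

variable {D}

theorem geoConv_subtree {a : Bool} {i : Pos} (h : D.CosetExact a i) (g : G) :
    GeoConv (D.subtree a i g) := by
  rintro x ⟨h1, hh1, ⟨s, rfl⟩⟩ y ⟨h2, hh2, ⟨t, rfl⟩⟩
  have hc := h h1 h2 s t (D.coset_div hh1 hh2)
  obtain ⟨γ, hγ, hγ'⟩ := hc.exists_geod geoCN_I01.geoConv
    ⟨h1, D.mem_coset_self a i h1, StabSys.pt_mem_cell _ _ _⟩ rfl
  refine ⟨γ, hγ, fun r hr => ?_⟩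
  obtain ⟨k, hk, e⟩ := hγ' r hr
  rw [coset_eq hh1] at hk
  exact ⟨k, hk, e⟩

theorem geoCN_subtree {a : Bool} {i : Pos} (h : D.CosetExact a i)
    (hT : GeoCN (univ : Set (D.T (!a)))) (g : G) : GeoCN (D.subtree a i g) :=
  geoCN_of_geoConv (subset_univ _) hT (geoConv_subtree h g)

variable (D)

/-- the map to the product of the unit interval and the tree -/
noncomputable def psi (a : Bool) (x : D.X) : WithLp 2 (I01 × D.T (!a)) :=
  WithLp.toLp 2 (co a (D.sqSys.fold x), D.pi (!a) x)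

/-- the part of the cells of `g * K a i` with `a`-coordinate in `J` -/
def piece (a : Bool) (i : Pos) (J : Set I01) (g : G) : Set D.X :=
  {x | ∃ h ∈ D.coset a i g, ∃ p : Sq, co a p ∈ J ∧ x = D.sqSys.pt h p}

/-- `J` is an admissible set of `a`-coordinates for `K a i` -/
def Adm (a : Bool) (i : Pos) (J : Set I01) : Prop :=
  ∀ u ∈ J, ∀ v ∈ J, ∀ w : I01, min (u : ℝ) v ≤ w → (w : ℝ) ≤ max u v →
    D.K a i ≤ D.K a (pos w)

variable {D}

theorem adm_mid (a : Bool) (J : Set I01) : D.Adm a .mid J :=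
  fun _ _ _ _ _ _ _ => D.K_mid_le a _

theorem adm_singleton (a : Bool) {i : Pos} {u : I01} (hu : pos u = i) : D.Adm a i {u} := by
  intro v hv w hw z h1 h2
  rw [mem_singleton_iff] at hv hw
  subst hv
  subst hw
  rw [min_self] at h1
  rw [max_self] at h2
  have h3 : (z : ℝ) = w := le_antisymm h2 h1
  rw [h3, hu]

theorem dist_psi {a : Bool} {i : Pos} {J : Set I01} (hE : D.CosetExact a i) (hJ : D.Adm a i J)
    {g : G} {x y : D.X} (hx : x ∈ D.piece a i J g) (hy : y ∈ D.piece a i J g) :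
    dist (D.psi a x) (D.psi a y) = dist x y := by
  obtain ⟨h1, hh1, p, hp, rfl⟩ := hx
  obtain ⟨h2, hh2, q, hq, rfl⟩ := hy
  have h := D.dist_formula hE.convex (D.coset_div hh1 hh2) (co (!a) p) (co (!a) q) (co a p)
    (co a q) (hJ _ hp _ hq)
  rw [mkSq_co, mkSq_co] at h
  rw [h, l2_dist]
  rfl

theorem psi_image {a : Bool} {i : Pos} (J : Set I01) (g : G) :
    D.psi a '' D.piece a i J g = {z | z.fst ∈ J ∧ z.snd ∈ D.subtree a i g} := by
  ext z
  constructor
  · rintro ⟨_, ⟨h, hh, p, hp, rfl⟩, rfl⟩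
    exact ⟨hp, h, hh, co (!a) p, rfl⟩
  · rintro ⟨hz1, h, hh, t, ht⟩
    refine ⟨D.sqSys.pt h (mkSq a z.fst t), ⟨h, hh, mkSq a z.fst t, ?_, rfl⟩, ?_⟩
    · rw [co_mkSq]; exact hz1
    · have e1 : D.psi a (D.sqSys.pt h (mkSq a z.fst t)) =
          WithLp.toLp 2 (z.fst, (D.treeSys (!a)).pt h t) := by
        unfold psi
        rw [StabSys.fold_pt, pi_pt, co_mkSq, co_not_mkSq]
      rw [e1, ht]
      rfl

/-- **The pieces are `GeoCN`.** -/
theorem geoCN_piece {a : Bool} {i : Pos} {J : Set I01} (hE : D.CosetExact a i)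
    (hT : GeoCN (univ : Set (D.T (!a)))) (hJ : D.Adm a i J) (hJ' : GeoCN J) (g : G) :
    GeoCN (D.piece a i J g) := by
  apply geoCN_of_image (f := D.psi a) (fun x hx y hy => dist_psi hE hJ hx hy)
  rw [psi_image]
  exact hJ'.prod (geoCN_subtree hE hT g)

end DoubleAmalg

end Pool.Agent.FlatClosing
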