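import Pool.Agent.FlatClosing.Level
import Pool.Agent.FlatClosing.Strip

/-!
# The trees of an internal amalgam

`TreeSys S K` : `S : StabSys G I01` is the stabiliser system of the tree of the amalgam
`G = K lo *_{K mid} K hi`. For `H : TreeSys S K`:
* `H.geoCN_univ` : the tree is `GeoCN` (so CAT(0));
* `H.fourPt_univ` : the tree is `0`-hyperbolic;
* `H.dist_of_mid`, `H.dist_of_wd` : the distance in terms of reduced words;
* `H.exists_tight` : two points in cells of a subgroup generated by its intersections with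
  `K lo` and `K hi` are joined by a chain of cells of this subgroup of length equal to the
  distance; `H.geoCN_sub` : the union of these cells is `GeoCN`.
-/

set_option autoImplicit false

namespace Pool.Agent.FlatClosing

open Set Pool.Agent.CNGlue

/-! ### Generic star gluing -/

/-- Star gluing for a property which is stable under gluing of two pieces and under directed
unions. -/
theorem star_of_union {X : Type} [MetricSpace X] {Φ Ψ : Set X → Prop}
    (h2 : ∀ B P : Set X, Φ B → Φ P → Ψ (P ∩ B) →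
      (∀ x ∈ B, ∀ y ∈ P, ∃ a ∈ P ∩ B, dist x y = dist x a + dist a y) → Φ (B ∪ P))
    (hU : ∀ {κ : Type} (A : κ → Set X), Directed (· ⊆ ·) A → (∀ i, Φ (A i)) → Φ (⋃ i, A i))
    {ι : Type} {B : Set X} {P : ι → Set X} (hB : Φ B) (hP : ∀ i, Φ (P i))
    (hA : ∀ i, Ψ (P i ∩ B))
    (hc : ∀ i, ∀ x ∈ B, ∀ y ∈ P i, ∃ a ∈ P i ∩ B, dist x y = dist x a + dist a y)
    (hc' : ∀ i j, i ≠ j → ∀ x ∈ P j, ∀ y ∈ P i, ∃ a ∈ P i ∩ B, dist x y = dist x a + dist a y) :
    Φ (B ∪ ⋃ i, P i) := by
  classical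
  have hfin : ∀ s : Finset ι, Φ (B ∪ ⋃ i ∈ s, P i) := by
    intro s
    induction s using Finset.induction_on with
    | empty => simpa using hB
    | insert i s his ih =>
      have h1 : (B ∪ ⋃ j ∈ insert i s, P j) = (B ∪ ⋃ j ∈ s, P j) ∪ P i := by
        ext x
        simp only [Finset.mem_insert, mem_union, mem_iUnion, exists_prop]
        constructor
        · rintro (h | ⟨j, rfl | hj, h⟩)
          · exact Or.inl (Or.inl h)
          · exact Or.inr h
          · exact Or.inl (Or.inr ⟨j, hj, h⟩)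
        · rintro ((h | ⟨j, hj, h⟩) | h)
          · exact Or.inl h
          · exact Or.inr ⟨j, Or.inr hj, h⟩
          · exact Or.inr ⟨i, Or.inl rfl, h⟩
      have hne : ∀ j ∈ s, i ≠ j := fun j hj h => his (h ▸ hj)
      have hcross : ∀ x ∈ B ∪ ⋃ j ∈ s, P j, ∀ y ∈ P i, ∃ a ∈ P i ∩ B,
          dist x y = dist x a + dist a y := by
        intro x hx y hy
        rcases hx with hx | hx
        · exact hc i x hx y hy
        · simp only [mem_iUnion, exists_prop] at hx
          obtain ⟨j, hj, hx⟩ := hx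
          exact hc' i j (hne j hj) x hx y hy
      have hint : P i ∩ (B ∪ ⋃ j ∈ s, P j) = P i ∩ B := by
        apply Subset.antisymm
        · rintro x ⟨hxi, hx⟩
          obtain ⟨a, ha, h⟩ := hcross x hx x hxi
          rw [dist_self] at h
          have h2 : dist x a = 0 := by
            have := dist_nonneg (x := x) (y := a)
            have := dist_nonneg (x := a) (y := x)
            linarith
          rw [dist_eq_zero.mp h2]
          exact ha
        · rintro x ⟨h2, h3⟩
          exact ⟨h2, Or.inl h3⟩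
      rw [h1]
      refine h2 _ _ ih (hP i) ?_ ?_
      · rw [hint]; exact hA i
      · intro x hx y hy
        obtain ⟨a, ha, h⟩ := hcross x hx y hy
        exact ⟨a, by rw [hint]; exact ha, h⟩
  have h1 : (B ∪ ⋃ i, P i) = ⋃ s : Finset ι, (B ∪ ⋃ i ∈ s, P i) := by
    ext x
    simp only [mem_union, mem_iUnion, exists_prop]
    constructor
    · rintro (h | ⟨i, h⟩)
      · exact ⟨∅, Or.inl h⟩
      · exact ⟨{i}, Or.inr ⟨i, by simp, h⟩⟩
    · rintro ⟨s, h | ⟨i, _, h⟩⟩
      · exact Or.inl h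
      · exact Or.inr ⟨i, h⟩
  rw [h1]
  refine hU _ ?_ hfin
  intro s t
  refine ⟨s ∪ t, ?_, ?_⟩
  · apply union_subset_union_right
    exact biUnion_subset_biUnion_left (by simp)
  · apply union_subset_union_right
    exact biUnion_subset_biUnion_left (by simp)

/-! ### The four-point condition -/

/-- the four-point condition (`0`-hyperbolicity) -/
def FourPt {X : Type} [MetricSpace X] (A : Set X) : Prop :=
  ∀ x ∈ A, ∀ y ∈ A, ∀ z ∈ A, ∀ w ∈ A, dist x y + dist z w ≤ dist x z + dist y w ∨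
    dist x y + dist z w ≤ dist x w + dist y z

theorem FourPt.union {X : Type} [MetricSpace X] {B P : Set X} (hB : FourPt B) (hP : FourPt P)
    (hA : (P ∩ B).Subsingleton)
    (hc : ∀ x ∈ B, ∀ y ∈ P, ∃ a ∈ P ∩ B, dist x y = dist x a + dist a y) : FourPt (B ∪ P) := by
  rcases B.eq_empty_or_nonempty with rfl | ⟨b, hb⟩
  · rwa [empty_union]
  rcases P.eq_empty_or_nonempty with rfl | ⟨p, hp⟩
  · rwa [union_empty]
  obtain ⟨a, ha, _⟩ := hc b hb p hp
  have hc1 : ∀ x ∈ B, ∀ y ∈ P, dist x y = dist x a + dist y a := by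
    intro x hx y hy
    obtain ⟨a', ha', h⟩ := hc x hx y hy
    rw [hA ha' ha] at h
    rw [h, dist_comm y a]
  have hc2 : ∀ x ∈ P, ∀ y ∈ B, dist x y = dist x a + dist y a := by
    intro x hx y hy
    rw [dist_comm, hc1 y hy x hx, add_comm]
  have tri : ∀ x y : X, dist x y ≤ dist x a + dist y a := fun x y => dist_triangle_right x y a
  intro x hx y hy z hz w hw
  rcases hx with hx | hx <;> rcases hy with hy | hy <;> rcases hz with hz | hz <;>
    rcases hw with hw | hw
  · exact hB x hx y hy z hz w hw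
  · rw [hc1 z hz w hw, hc1 y hy w hw, hc1 x hx w hw]
    rcases hB x hx y hy z hz a ha.2 with h | h
    · left; linarith
    · right; linarith
  · rw [hc2 z hz w hw, hc1 x hx z hz, hc1 y hy z hz]
    rcases hB x hx y hy w hw a ha.2 with h | h
    · right; linarith
    · left; linarith
  · rw [hc1 x hx z hz, hc1 y hy w hw]
    left
    linarith [tri x y, tri z w]
  · rw [hc1 x hx y hy, hc2 y hy w hw, hc2 y hy z hz]
    rcases hB x hx a ha.2 z hz w hw with h | h
    · left
      rw [dist_comm a w] at h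
      linarith
    · right
      rw [dist_comm a z] at h
      linarith
  · rw [hc1 x hx y hy, hc1 z hz w hw, hc1 x hx w hw, hc2 y hy z hz]
    right
    linarith
  · rw [hc1 x hx y hy, hc2 z hz w hw, hc1 x hx z hz, hc2 y hy w hw]
    left
    linarith
  · rw [hc1 x hx y hy, hc1 x hx z hz, hc1 x hx w hw]
    rcases hP a ha.1 y hy z hz w hw with h | h
    · left
      rw [dist_comm a y, dist_comm a z] at h
      linarith
    · right
      rw [dist_comm a y, dist_comm a w] at h
      linarith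
  · rw [hc2 x hx y hy, hc2 x hx z hz, hc2 x hx w hw]
    rcases hB a ha.2 y hy z hz w hw with h | h
    · left
      rw [dist_comm a y, dist_comm a z] at h
      linarith
    · right
      rw [dist_comm a y, dist_comm a w] at h
      linarith
  · rw [hc2 x hx y hy, hc1 z hz w hw, hc2 x hx z hz, hc1 y hy w hw]
    left
    linarith
  · rw [hc2 x hx y hy, hc2 z hz w hw, hc2 x hx w hw, hc1 y hy z hz]
    right
    linarith
  · rw [hc2 x hx y hy, hc1 y hy w hw, hc1 y hy z hz]
    rcases hP x hx a ha.1 z hz w hw with h | h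
    · left
      rw [dist_comm a w] at h
      linarith
    · right
      rw [dist_comm a z] at h
      linarith
  · rw [hc2 x hx z hz, hc2 y hy w hw]
    left
    linarith [tri x y, tri z w]
  · rw [hc1 z hz w hw, hc2 x hx z hz, hc2 y hy z hz]
    rcases hP x hx y hy w hw a ha.1 with h | h
    · right; linarith
    · left; linarith
  · rw [hc2 z hz w hw, hc2 y hy w hw, hc2 x hx w hw]
    rcases hP x hx y hy z hz a ha.1 with h | h
    · left; linarith
    · right; linarith
  · exact hP x hx y hy z hz w hw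

theorem FourPt.iUnion {X : Type} [MetricSpace X] {κ : Type*} {A : κ → Set X}
    (hdir : Directed (· ⊆ ·) A) (hA : ∀ i, FourPt (A i)) : FourPt (⋃ i, A i) := by
  intro x hx y hy z hz w hw
  rw [mem_iUnion] at hx hy hz hw
  obtain ⟨i, hi⟩ := hx
  obtain ⟨j, hj⟩ := hy
  obtain ⟨k, hk⟩ := hz
  obtain ⟨l, hl⟩ := hw
  obtain ⟨m, him, hjm⟩ := hdir i j
  obtain ⟨n, hkn, hln⟩ := hdir k l
  obtain ⟨o, hmo, hno⟩ := hdir m n
  exact hA o x (hmo (him hi)) y (hmo (hjm hj)) z (hno (hkn hk)) w (hno (hln hl))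

theorem FourPt.image {X Y : Type} [MetricSpace X] [MetricSpace Y] {f : X → Y} (hf : Isometry f)
    {A : Set X} (hA : FourPt A) : FourPt (f '' A) := by
  rintro _ ⟨x, hx, rfl⟩ _ ⟨y, hy, rfl⟩ _ ⟨z, hz, rfl⟩ _ ⟨w, hw, rfl⟩
  simp only [hf.dist_eq]
  exact hA x hx y hy z hz w hw

theorem fourPt_real (A : Set ℝ) : FourPt A := by
  intro x _ y _ z _ w _
  simp only [Real.dist_eq]
  rcases abs_cases (x - y) with h1 | h1 <;> rcases abs_cases (z - w) with h2 | h2 <;>
  rcases abs_cases (x - z) with h3 | h3 <;> rcases abs_cases (y - w) with h4 | h4 <;>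
  rcases abs_cases (x - w) with h5 | h5 <;> rcases abs_cases (y - z) with h6 | h6 <;>
  first
  | (left; linarith)
  | (right; linarith)

theorem fourPt_I01 (A : Set I01) : FourPt A := fun x _ y _ z _ w _ =>
  fourPt_real univ (x : ℝ) (mem_univ _) (y : ℝ) (mem_univ _) (z : ℝ) (mem_univ _) (w : ℝ)
    (mem_univ _)

theorem fourPt_of_subsingleton {X : Type} [MetricSpace X] {A : Set X} (h : A.Subsingleton) :
    FourPt A := by
  intro x hx y hy z hz w hw
  rw [h hx hw, h hy hw, h hz hw]
  simp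

theorem gluing_fourPt {X : Type} [MetricSpace X] :
    Gluing (FourPt : Set X → Prop) (fun A => A.Subsingleton) where
  star := by
    intro ι B P hB hP hA hc hc'
    exact star_of_union (Φ := FourPt) (Ψ := fun A => A.Subsingleton)
      (fun B P hB hP hA hc => hB.union hP hA hc) (fun A hd hA => FourPt.iUnion hd hA)
      hB hP hA hc hc'
  map hf hA := hA.image hf
  map' := fun _ hA => hA.image _
  union := by
    intro A hA h
    exact FourPt.iUnion (directed_of_isDirected_le hA) h

/-! ### The unit interval -/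

theorem geoCN_univ_subtype {X : Type*} [MetricSpace X] {A : Set X} (hA : GeoCN A) :
    GeoCN (univ : Set A) := by
  classical
  intro x _ y _
  obtain ⟨γ, h1, h2, h3⟩ := hA x x.2 y y.2
  have e : ∀ t (ht : t ∈ Icc (0 : ℝ) 1),
      (if h : t ∈ Icc (0 : ℝ) 1 then (⟨γ t, h2 t h⟩ : A) else x) = ⟨γ t, h2 t ht⟩ :=
    fun t ht => dif_pos ht
  refine ⟨fun t => if h : t ∈ Icc (0 : ℝ) 1 then ⟨γ t, h2 t h⟩ else x, ⟨?_, ?_, ?_⟩,
    fun _ _ => mem_univ _, ?_⟩
  · change (if h : (0 : ℝ) ∈ Icc (0 : ℝ) 1 then (⟨γ 0, h2 0 h⟩ : A) else x) = x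
    rw [e 0 (by simp)]
    exact Subtype.ext h1.1
  · change (if h : (1 : ℝ) ∈ Icc (0 : ℝ) 1 then (⟨γ 1, h2 1 h⟩ : A) else x) = y
    rw [e 1 (by simp)]
    exact Subtype.ext h1.2.1
  · intro s hs t ht
    simp only [e s hs, e t ht]
    exact h1.2.2 s hs t ht
  · intro p _ t ht
    simp only [e t ht]
    exact h3 p p.2 t ht

theorem geoCN_univ_I01 : GeoCN (univ : Set I01) := geoCN_univ_subtype (geoCN_Icc 0 1)

/-- the end of the unit interval of the given type -/
def ep : Bool → I01
  | false => 0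
  | true => 1

theorem pos_ep (i : Bool) : pos (ep i : ℝ) = ip i := by
  cases i
  · simp [ep, ip, pos]
  · have h : ¬ ((1 : ℝ) ≤ 0) := by norm_num
    simp [ep, ip, pos, h]

theorem eq_ep_of_pos {i : Bool} {t : I01} (h : pos (t : ℝ) = ip i) : t = ep i := by
  have h0 := t.2.1
  have h1 := t.2.2
  cases i
  · by_cases h2 : (t : ℝ) ≤ 0
    · exact Subtype.ext (le_antisymm h2 h0)
    · by_cases h3 : (1 : ℝ) ≤ t <;> simp [pos, ip, h2, h3] at h
  · by_cases h2 : (t : ℝ) ≤ 0
    · simp [pos, ip, h2] at h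
    · by_cases h3 : (1 : ℝ) ≤ t
      · exact Subtype.ext (le_antisymm h1 h3)
      · simp [pos, ip, h2, h3] at h

/-! ### Trees -/

/-- `S` is the stabiliser system of the tree of the amalgam `K lo *_{K mid} K hi`. -/
structure TreeSys {G : Type} [Group G] (S : StabSys G I01) (K : Pos → Subgroup G) : Prop where
  mid : K .mid = K .lo ⊓ K .hi
  amalg : IsAmalg (K .lo) (K .hi)
  st : ∀ p : I01, S.St p = K (pos (p : ℝ))

theorem DoubleAmalg.isTreeSys {G : Type} [Group G] (D : DoubleAmalg G) (a : Bool) :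
    TreeSys (D.treeSys a) (D.K a) :=
  ⟨D.mid_eq a, D.amalg a, fun _ => rfl⟩

/-- Reduced words all of whose letters lie in `L`. -/
inductive WdIn {G : Type} [Group G] (P Q L : Subgroup G) : Bool → Bool → ℕ → G → Prop
  | one (i : Bool) (x : G) (hL : x ∈ L) (hx : x ∈ side P Q i) (hx' : x ∉ P ⊓ Q) :
      WdIn P Q L i i 1 x
  | cons (i l : Bool) (n : ℕ) (x g : G) (hL : x ∈ L) (hx : x ∈ side P Q i) (hx' : x ∉ P ⊓ Q)
      (h : WdIn P Q L (!i) l n g) : WdIn P Q L i l (n + 1) (x * g)

namespace WdIn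

variable {G : Type} [Group G] {P Q L : Subgroup G}

theorem wd {f l : Bool} {n : ℕ} {g : G} (h : WdIn P Q L f l n g) : Wd P Q f l n g := by
  induction h with
  | one i x hL hx hx' => exact Wd.one i x hx hx'
  | cons i l n x g hL hx hx' h ih => exact Wd.cons i l n x g hx hx' ih

theorem mem {f l : Bool} {n : ℕ} {g : G} (h : WdIn P Q L f l n g) : g ∈ L := by
  induction h with
  | one i x hL hx hx' => exact hL
  | cons i l n x g hL hx hx' h ih => exact L.mul_mem hL ih

theorem pos {f l : Bool} {n : ℕ} {g : G} (h : WdIn P Q L f l n g) : 0 < n := h.wd.pos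

end WdIn

/-- A subgroup generated by its intersections with the two factors is an amalgam. -/
theorem IsAmalg.sub {G : Type} [Group G] {P Q L : Subgroup G} (h : IsAmalg P Q)
    (hL : L = (L ⊓ P) ⊔ (L ⊓ Q)) : IsAmalg (P.subgroupOf L) (Q.subgroupOf L) := by
  constructor
  · rw [eq_top_iff]
    have h1 : (L ⊓ P) ⊔ (L ⊓ Q) ≤
        ((P.subgroupOf L) ⊔ (Q.subgroupOf L)).map L.subtype := by
      apply sup_le
      · rintro x ⟨hx, hx'⟩
        exact ⟨⟨x, hx⟩, Subgroup.mem_sup_left hx', rfl⟩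
      · rintro x ⟨hx, hx'⟩
        exact ⟨⟨x, hx⟩, Subgroup.mem_sup_right hx', rfl⟩
    intro x _
    have h2 := h1 (by rw [← hL]; exact x.2)
    obtain ⟨y, hy, hyx⟩ := h2
    have : y = x := Subtype.ext hyx
    rwa [← this]
  · intro w hw hne hmem
    refine h.alt (w.map L.subtype) ⟨?_, ?_⟩ (fun h0 => hne (List.map_eq_nil_iff.mp h0)) ?_
    · intro x hx
      rw [List.mem_map] at hx
      obtain ⟨y, hy, rfl⟩ := hx
      exact hw.1 y hy
    · have := hw.2
      rw [List.isChain_map]
      exact this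
    · rw [← map_list_prod]
      exact hmem

theorem mem_or_wdIn {G : Type} [Group G] {P Q L : Subgroup G} (h : IsAmalg P Q)
    (hL : L = (L ⊓ P) ⊔ (L ⊓ Q)) {g : G} (hg : g ∈ L) :
    g ∈ P ⊓ Q ∨ ∃ f l n, WdIn P Q L f l n g := by
  rcases mem_or_wd (h.sub hL) (⟨g, hg⟩ : L) with h1 | ⟨f, l, n, h1⟩
  · exact Or.inl h1
  · refine Or.inr ⟨f, l, n, ?_⟩
    have key : ∀ {f l : Bool} {n : ℕ} {x : L}, Wd (P.subgroupOf L) (Q.subgroupOf L) f l n x →
        WdIn P Q L f l n (x : G) := by
      intro f l n x hx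
      induction hx with
      | one i x hx hx' =>
        refine WdIn.one i _ x.2 ?_ hx'
        cases i
        · exact hx
        · exact hx
      | cons i l n x g hx hx' h ih =>
        refine WdIn.cons i l n _ _ x.2 ?_ hx' ih
        cases i
        · exact hx
        · exact hx
    exact key h1

namespace StabSys

variable {G : Type} [Group G] {Q : Type} [MetricSpace Q] {S : StabSys G Q}

theorem ChainIn.smul {C C' : Set G} {k : G} (hk : ∀ g ∈ C, k * g ∈ C') {x y : S.U} {l : ℝ}
    (h : S.ChainIn C x y l) : S.ChainIn C' (k • x) (k • y) l := by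
  induction h with
  | nil x => exact StabSys.ChainIn.nil _
  | cons g hg p q y l h ih =>
    rw [StabSys.smul_pt] at ih ⊢
    exact StabSys.ChainIn.cons (k * g) (hk g hg) p q _ _ ih

end StabSys

namespace TreeSys

variable {G : Type} [Group G] {S : StabSys G I01} {K : Pos → Subgroup G} (H : TreeSys S K)

include H

theorem level : LevelSys S K (fun p : I01 => (p : ℝ)) :=
  ⟨H.mid, H.amalg, fun p => (H.st p).le⟩

theorem St_ep (i : Bool) : S.St (ep i) = K (ip i) := by rw [H.st, pos_ep]

theorem mid_le_St (p : I01) : K .mid ≤ S.St p := by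
  rw [H.st]
  exact H.level.mid_le' _

theorem pt_of_mid {g h : G} (hgh : g⁻¹ * h ∈ K .mid) (p : I01) : S.pt g p = S.pt h p := by
  rw [StabSys.pt_eq_pt]
  exact ⟨rfl, H.mid_le_St p hgh⟩

theorem pt_of_side {i : Bool} {g h : G} (hgh : g⁻¹ * h ∈ K (ip i)) :
    S.pt g (ep i) = S.pt h (ep i) := by
  rw [StabSys.pt_eq_pt]
  exact ⟨rfl, by rw [H.St_ep]; exact hgh⟩

theorem strip_one : S.strip K 1 = S.pt 1 '' univ := by
  ext x
  constructor
  · rintro ⟨h, p, rfl, hh⟩
    exact ⟨p, mem_univ _, H.pt_of_mid hh p⟩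
  · rintro ⟨p, _, rfl⟩
    exact ⟨1, p, rfl, by rw [inv_one, one_mul]; exact Subgroup.one_mem _⟩

theorem wall_one (i : Bool) : S.wall K (fun p : I01 => (p : ℝ)) i 1 = {S.pt 1 (ep i)} := by
  ext x
  constructor
  · rintro ⟨h, p, rfl, hh, hp⟩
    rw [eq_ep_of_pos hp]
    exact (H.pt_of_side hh).symm
  · intro hx
    rw [mem_singleton_iff] at hx
    exact ⟨1, ep i, hx, by rw [inv_one, one_mul]; exact Subgroup.one_mem _, pos_ep i⟩

theorem gate_one (i : Bool) : S.gate K (fun p : I01 => (p : ℝ)) i 1 = {S.pt 1 (ep i)} := by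
  ext x
  constructor
  · rintro ⟨h, p, rfl, hh, hp⟩
    rw [eq_ep_of_pos hp]
    exact (H.pt_of_mid hh _).symm
  · intro hx
    rw [mem_singleton_iff] at hx
    exact ⟨1, ep i, hx, by rw [inv_one, one_mul]; exact Subgroup.one_mem _, pos_ep i⟩

theorem hmin (i : Bool) (x y : S.U) :
    ∃ a ∈ S.gate K (fun p : I01 => (p : ℝ)) i 1,
      ∀ b ∈ S.gate K (fun p : I01 => (p : ℝ)) i 1, dist x a + dist a y ≤ dist x b + dist b y := by
  rw [H.gate_one]
  exact ⟨_, rfl, fun b hb => by rw [mem_singleton_iff.mp hb]⟩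

/-- **The tree is CAT(0).** -/
theorem geoCN_univ : GeoCN (univ : Set S.U) := by
  refine H.level.geoCN_univ ?_ ?_ ?_ (fun i x y _ => H.hmin i x y)
  · rw [H.strip_one]
    exact geoCN_univ_I01.image (S.isometry_pt 1)
  · intro i
    rw [H.wall_one]
    exact geoCN_singleton _
  · intro i
    rw [H.gate_one]
    exact geoConv_singleton _

/-- **The tree is `0`-hyperbolic.** -/
theorem fourPt_univ : FourPt (univ : Set S.U) := by
  refine H.level.glue_univ gluing_fourPt ?_ ?_ ?_ (fun i x y _ => H.hmin i x y)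
  · rw [H.strip_one]
    exact (fourPt_I01 univ).image (S.isometry_pt 1)
  · intro i
    rw [H.wall_one]
    exact fourPt_of_subsingleton subsingleton_singleton
  · intro i
    rw [H.gate_one]
    exact subsingleton_singleton

/-- The distance from a point of the base cell to a point beyond the end of type `i`. -/
theorem dist_half {i : Bool} {g : G} (hg : g ∈ Half (K .lo) (K .hi) i) (t t' : I01) :
    dist (S.pt 1 t) (S.pt g t') = dist t (ep i) + dist (S.pt 1 (ep i)) (S.pt g t') := by
  obtain ⟨a, ha, h⟩ := H.level.crossing (i := i) (fun x y _ => H.hmin i x y) (x := S.pt 1 t)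
    (y := S.pt g t') ⟨1, t, rfl, fun h1 => half_disjoint H.amalg h1 (Subgroup.one_mem _)⟩
    (Or.inl ⟨g, t', rfl, hg⟩)
  rw [H.gate_one, mem_singleton_iff] at ha
  rw [h, ha, StabSys.dist_pt]

omit H in
theorem dist_ep (i : Bool) : dist (ep (!i)) (ep i) = 1 := by
  cases i
  · change dist (1 : I01) (0 : I01) = 1
    rw [Subtype.dist_eq, Real.dist_eq]
    simp
  · change dist (0 : I01) (1 : I01) = 1
    rw [Subtype.dist_eq, Real.dist_eq]
    simp

theorem dist_wd_aux {f l : Bool} {n : ℕ} {g : G} (hw : Wd (K .lo) (K .hi) f l n g) :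
    ∀ t t' : I01, dist (S.pt 1 t) (S.pt g t') = dist t (ep f) + ((n : ℝ) - 1) + dist t' (ep l) := by
  induction hw with
  | one i x hx hx' =>
    intro t t'
    rw [H.dist_half (side_sub_half hx hx') t t']
    rw [side_eq] at hx
    rw [H.pt_of_side (i := i) (g := 1) (h := x) (by rwa [inv_one, one_mul]), StabSys.dist_pt,
      dist_comm (ep i) t']
    push_cast
    ring
  | cons i l n x g hx hx' h ih =>
    intro t t'
    have h1 : x * g ∈ Half (K .lo) (K .hi) i := ⟨l, n + 1, Wd.cons i l n x g hx hx' h⟩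
    rw [H.dist_half h1 t t']
    rw [side_eq] at hx
    rw [H.pt_of_side (i := i) (g := 1) (h := x) (by rwa [inv_one, one_mul])]
    have h2 : dist (S.pt x (ep i)) (S.pt (x * g) t') = dist (S.pt 1 (ep i)) (S.pt g t') := by
      rw [← dist_smul x (S.pt 1 (ep i)) (S.pt g t'), StabSys.smul_pt, StabSys.smul_pt, mul_one]
    rw [h2, ih (ep i) t']
    have h3 : dist (ep i) (ep (!i)) = 1 := by
      have := dist_ep (!i)
      rwa [Bool.not_not] at this
    rw [h3]
    push_cast
    ring

/-- **Distance formula**: cells whose difference is a reduced word of length `n ≥ 1` with first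
letter of type `f` and last letter of type `l`. -/
theorem dist_of_wd {f l : Bool} {n : ℕ} {g h : G} (hw : Wd (K .lo) (K .hi) f l n (g⁻¹ * h))
    (t t' : I01) :
    dist (S.pt g t) (S.pt h t') = dist t (ep f) + ((n : ℝ) - 1) + dist t' (ep l) := by
  rw [← H.dist_wd_aux hw t t', ← dist_smul g⁻¹ (S.pt g t) (S.pt h t'), StabSys.smul_pt,
    StabSys.smul_pt, inv_mul_cancel]

/-- Distance formula for equal cells. -/
theorem dist_of_mid {g h : G} (hgh : g⁻¹ * h ∈ K .mid) (t t' : I01) :
    dist (S.pt g t) (S.pt h t') = dist t t' := by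
  rw [H.pt_of_mid hgh, StabSys.dist_pt]

/-- The distance between the cells (interior points) is the length. -/
theorem dist_lt_one_iff_mid {g h : G} : g⁻¹ * h ∈ K .mid ∨
    ∃ f l n, Wd (K .lo) (K .hi) f l n (g⁻¹ * h) := by
  rw [H.mid]
  exact mem_or_wd H.amalg _

/-- **Tight chains**: the geodesic between two points in cells of `L` runs through cells
of `L`. -/
theorem exists_tight {L : Subgroup G} (hL : L = (L ⊓ K .lo) ⊔ (L ⊓ K .hi)) {g h : G}
    (hg : g ∈ L) (hh : h ∈ L) (t t' : I01) :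
    S.ChainIn L (S.pt g t) (S.pt h t') (dist (S.pt g t) (S.pt h t')) := by
  have key : ∀ {f l : Bool} {n : ℕ} {k : G}, WdIn (K .lo) (K .hi) L f l n k →
      ∀ t t' : I01, S.ChainIn L (S.pt 1 t) (S.pt k t') (dist (S.pt 1 t) (S.pt k t')) := by
    intro f l n k hk
    induction hk with
    | one i x hxL hx hx' =>
      intro t t'
      rw [H.dist_half (side_sub_half hx hx') t t']
      rw [side_eq] at hx
      refine StabSys.ChainIn.cons 1 L.one_mem t (ep i) _ _ ?_
      rw [H.pt_of_side (i := i) (g := 1) (h := x) (by rwa [inv_one, one_mul]), StabSys.dist_pt]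
      exact S.chainIn_single hxL _ _
    | cons i l n x g hxL hx hx' h ih =>
      intro t t'
      have h1 : x * g ∈ Half (K .lo) (K .hi) i := ⟨l, n + 1, Wd.cons i l n x g hx hx' h.wd⟩
      rw [H.dist_half h1 t t']
      rw [side_eq] at hx
      refine StabSys.ChainIn.cons 1 L.one_mem t (ep i) _ _ ?_
      rw [H.pt_of_side (i := i) (g := 1) (h := x) (by rwa [inv_one, one_mul])]
      have h2 : dist (S.pt x (ep i)) (S.pt (x * g) t') = dist (S.pt 1 (ep i)) (S.pt g t') := by
        rw [← dist_smul x (S.pt 1 (ep i)) (S.pt g t'), StabSys.smul_pt, StabSys.smul_pt, mul_one]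
      rw [h2]
      have h3 := (ih (ep i) t').smul (C' := L) (fun g hg => L.mul_mem hxL hg)
      rwa [StabSys.smul_pt, StabSys.smul_pt, mul_one] at h3
  have h0 : S.ChainIn L (S.pt 1 t) (S.pt (g⁻¹ * h) t')
      (dist (S.pt 1 t) (S.pt (g⁻¹ * h) t')) := by
    rcases mem_or_wdIn H.amalg hL (L.mul_mem (L.inv_mem hg) hh) with h1 | ⟨f, l, n, h1⟩
    · rw [← H.mid] at h1
      rw [← H.pt_of_mid (g := 1) (h := g⁻¹ * h) (by rwa [inv_one, one_mul]), StabSys.dist_pt]
      exact S.chainIn_single L.one_mem _ _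
    · exact key h1 t t'
  have h1 := h0.smul (C' := L) (fun k hk => L.mul_mem hg hk)
  rw [StabSys.smul_pt, StabSys.smul_pt, mul_one, mul_inv_cancel_left] at h1
  have h2 : dist (S.pt 1 t) (S.pt (g⁻¹ * h) t') = dist (S.pt g t) (S.pt h t') := by
    rw [← dist_smul g (S.pt 1 t) (S.pt (g⁻¹ * h) t'), StabSys.smul_pt, StabSys.smul_pt, mul_one,
      mul_inv_cancel_left]
  rwa [h2] at h1

omit H in
/-- Points at every distance along a tight chain. -/
theorem exists_point {L : Subgroup G} {x y : S.U} {l : ℝ} (hc : S.ChainIn L x y l)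
    (hx : ∃ g ∈ L, ∃ t, x = S.pt g t) (hl : l = dist x y) (r : ℝ) (hr0 : 0 ≤ r) (hr1 : r ≤ l) :
    ∃ z, (∃ g ∈ L, ∃ t, z = S.pt g t) ∧ dist x z = r ∧ dist z y = l - r := by
  induction hc generalizing r with
  | nil x =>
    have : r = 0 := le_antisymm hr1 hr0
    exact ⟨x, hx, by rw [dist_self, this], by rw [dist_self, this, sub_zero]⟩
  | cons g hg p q y l hc ih =>
    have h1 : dist (S.pt g q) y ≤ l := S.dist_le_of_chain hc.chain
    have h2 := dist_triangle (S.pt g p) (S.pt g q) y
    rw [StabSys.dist_pt] at h2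
    have h3 : l = dist (S.pt g q) y := by linarith
    rcases le_or_gt r (dist p q) with h4 | h4
    · obtain ⟨γ, hγ, _, _⟩ := geoCN_univ_I01 p (mem_univ _) q (mem_univ _)
      have hu : ∃ u ∈ Icc (0 : ℝ) 1, u * dist p q = r := by
        rcases (dist_nonneg (x := p) (y := q)).eq_or_lt with h5 | h5
        · refine ⟨0, by simp, ?_⟩
          rw [← h5] at h4
          rw [zero_mul]
          exact le_antisymm hr0 h4
        · refine ⟨r / dist p q, ⟨by positivity, (div_le_one h5).mpr h4⟩, ?_⟩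
          field_simp
      obtain ⟨u, hu, hur⟩ := hu
      have h6 := hγ.dist_left hu
      have h7 := hγ.dist_right hu
      have h8 : dist (S.pt g (γ u)) y ≤ dist (γ u) q + l := by
        have := dist_triangle (S.pt g (γ u)) (S.pt g q) y
        rw [StabSys.dist_pt] at this
        linarith
      have h9 : dist (S.pt g p) y ≤ dist p (γ u) + dist (S.pt g (γ u)) y := by
        have := dist_triangle (S.pt g p) (S.pt g (γ u)) y
        rwa [StabSys.dist_pt] at this
      refine ⟨S.pt g (γ u), ⟨g, hg, _, rfl⟩, ?_, ?_⟩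
      · rw [StabSys.dist_pt, h6, hur]
      · have h10 : (1 - u) * dist p q = dist p q - r := by rw [← hur]; ring
        linarith
    · obtain ⟨z, hz, hz1, hz2⟩ := ih ⟨g, hg, q, rfl⟩ h3 (r - dist p q) (by linarith) (by linarith)
      refine ⟨z, hz, ?_, by linarith⟩
      have h5 := dist_triangle (S.pt g p) (S.pt g q) z
      rw [StabSys.dist_pt] at h5
      have h6 := dist_triangle (S.pt g p) z y
      linarith

/-- The union of the cells of a subgroup generated by its intersections with the two factors is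
`GeoCN` (a subtree). -/
theorem geoCN_sub {L : Subgroup G} (hL : L = (L ⊓ K .lo) ⊔ (L ⊓ K .hi)) :
    GeoCN {x : S.U | ∃ g ∈ L, ∃ t, x = S.pt g t} := by
  intro x hx y hy
  obtain ⟨γ, h1, _, h3⟩ := H.geoCN_univ x (mem_univ _) y (mem_univ _)
  refine ⟨γ, h1, ?_, fun p _ => h3 p (mem_univ _)⟩
  intro t ht
  obtain ⟨g, hg, u, rfl⟩ := hx
  obtain ⟨h, hh, v, rfl⟩ := hy
  have hc := H.exists_tight hL hg hh u v
  obtain ⟨z, hz, hz1, hz2⟩ := exists_point hc ⟨g, hg, u, rfl⟩ rfl
    (t * dist (S.pt g u) (S.pt h v)) (mul_nonneg ht.1 dist_nonneg)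
    (mul_le_of_le_one_left dist_nonneg ht.2)
  have h4 := h3 z (mem_univ _) t ht
  rw [dist_comm z (S.pt g u), hz1, hz2] at h4
  have h5 : dist z (γ t) ^ 2 ≤ 0 := by
    refine h4.trans (le_of_eq ?_)
    ring
  have h6 : dist z (γ t) = 0 :=
    pow_eq_zero_iff (two_ne_zero) |>.mp (le_antisymm h5 (sq_nonneg _))
  rw [← dist_eq_zero.mp h6]
  exact hz

end TreeSys

/-! ### Alternating words -/

/-- Alternating lists give reduced words. -/
theorem Alt.wd {G : Type} [Group G] {P Q : Subgroup G} {w : List G} (h : Alt P Q w)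
    (hne : w ≠ []) : ∃ f l, Wd P Q f l w.length w.prod ∧ (∀ x ∈ w.head?, x ∈ side P Q f) ∧
      (∀ x ∈ w.getLast?, x ∈ side P Q l) := by
  induction w with
  | nil => exact absurd rfl hne
  | cons x w ih =>
    have hx := h.1 x (by simp)
    obtain ⟨i, hi, hi'⟩ : ∃ i, x ∈ side P Q i ∧ x ∉ P ⊓ Q := by
      rcases hx with ⟨h1, h2⟩ | ⟨h1, h2⟩
      · exact ⟨false, h1, fun h3 => h2 h3.2⟩
      · exact ⟨true, h1, fun h3 => h2 h3.1⟩
    rcases w with _ | ⟨y, w⟩
    · refine ⟨i, i, ?_, ?_, ?_⟩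
      · simpa using Wd.one i x hi hi'
      · simpa using hi
      · simpa using hi
    · have h1 : Alt P Q (y :: w) :=
        ⟨fun z hz => h.1 z (List.mem_cons_of_mem _ hz), (List.isChain_cons_cons.mp h.2).2⟩
      obtain ⟨f, l, h2, h3, h4⟩ := ih h1 (by simp)
      have h5 : y ∈ side P Q f := h3 y (by simp)
      have h6 := (List.isChain_cons_cons.mp h.2).1
      have hy := h.1 y (by simp)
      have h7 : f = !i := by
        have hiff : ∀ {z : G}, ((z ∈ P ∧ z ∉ Q) ∨ (z ∈ Q ∧ z ∉ P)) → ∀ j, z ∈ side P Q j →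
            (j = false ∧ z ∈ P ∧ z ∉ Q) ∨ (j = true ∧ z ∈ Q ∧ z ∉ P) := by
          intro z hz j hj
          cases j
          · rcases hz with hz | hz
            · exact Or.inl ⟨rfl, hz⟩
            · exact absurd hj hz.2
          · rcases hz with hz | hz
            · exact absurd hj hz.2
            · exact Or.inr ⟨rfl, hz⟩
        rcases hiff hx i hi with ⟨rfl, a1, a2⟩ | ⟨rfl, a1, a2⟩ <;>
          rcases hiff hy f h5 with ⟨rfl, b1, b2⟩ | ⟨rfl, b1, b2⟩
        · rcases h6 with ⟨_, c⟩ | ⟨c, _⟩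
          · exact absurd c b2
          · exact absurd c a2
        · rfl
        · rfl
        · rcases h6 with ⟨c, _⟩ | ⟨_, c⟩
          · exact absurd c a2
          · exact absurd c b2
      subst h7
      refine ⟨i, l, ?_, ?_, ?_⟩
      · simpa using Wd.cons i l _ x _ hi hi' h2
      · simpa using hi
      · intro z hz
        apply h4
        rwa [List.getLast?_cons_cons] at hz

/-! ### The trees of a double amalgam -/

namespace DoubleAmalg

variable {G : Type} [Group G] (D : DoubleAmalg G)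

/-- `T a` is CAT(0). -/
theorem geoCN_T (a : Bool) : GeoCN (univ : Set (D.T a)) := (D.isTreeSys a).geoCN_univ

/-- `T a` is `0`-hyperbolic. -/
theorem fourPt_T (a : Bool) : FourPt (univ : Set (D.T a)) := (D.isTreeSys a).fourPt_univ

theorem gen' (a : Bool) (i : Pos) :
    D.K a i = (D.K a i ⊓ D.K (!a) .lo) ⊔ (D.K a i ⊓ D.K (!a) .hi) := D.gen a i

/-- The part of the tree `T (!a)` spanned by the cells of `D.K a i` is `GeoCN`. -/
theorem geoCN_subT (a : Bool) (i : Pos) :
    GeoCN {x : D.T (!a) | ∃ g ∈ D.K a i, ∃ t, x = (D.treeSys (!a)).pt g t} :=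
  (D.isTreeSys (!a)).geoCN_sub (D.gen a i)

/-- Tight chains in the subtree of `D.K a i`. -/
theorem exists_tight (a : Bool) (i : Pos) {g h : G} (hg : g ∈ D.K a i) (hh : h ∈ D.K a i)
    (t t' : I01) : (D.treeSys (!a)).ChainIn (D.K a i) ((D.treeSys (!a)).pt g t)
      ((D.treeSys (!a)).pt h t')
      (dist ((D.treeSys (!a)).pt g t) ((D.treeSys (!a)).pt h t')) :=
  (D.isTreeSys (!a)).exists_tight (D.gen a i) hg hh t t'

end DoubleAmalg

end Pool.Agent.FlatClosing
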