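import Pool.Agent.FlatClosing.StripCN
import Pool.Agent.FlatClosing.Level
import Pool.Agent.FlatClosing.Proper

/-!
# The square complex satisfies the CAT(0) inequality (MP_ef842e_al)

`geoCN_X` : from the exactness of cosets in the tree `D.T (!a)` and `GeoCN` of this tree.
-/

set_option autoImplicit false

namespace Pool.Agent.FlatClosing

open Pool.Agent.CNGlue Set

theorem pos_eq_ip (i : Bool) (u : I01) : pos u = ip i ↔ u = (bif i then 1 else 0 : I01) := by
  have h0 := u.2.1
  have h1 := u.2.2
  cases i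
  · simp only [ip, cond_false]
    constructor
    · intro h
      unfold pos at h
      by_cases h2 : (u : ℝ) ≤ 0
      · exact Subtype.ext (le_antisymm h2 h0)
      · by_cases h3 : 1 ≤ (u : ℝ) <;> simp [h2, h3] at h
    · intro h
      subst h
      simp [pos]
  · simp only [ip, cond_true]
    constructor
    · intro h
      unfold pos at h
      by_cases h2 : (u : ℝ) ≤ 0
      · simp [h2] at h
      · by_cases h3 : 1 ≤ (u : ℝ)
        · exact Subtype.ext (le_antisymm h1 h3)
        · simp [h2, h3] at h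
    · intro h
      subst h
      have h : ¬ ((1 : ℝ) ≤ 0) := by norm_num
      simp [pos, h]

namespace DoubleAmalg

variable {G : Type} [Group G] (D : DoubleAmalg G)

/-- the level function of the square complex in direction `a` -/
theorem levelSys (a : Bool) : LevelSys D.sqSys (D.K a) (fun p => (co a p : ℝ)) where
  mid := D.mid_eq a
  amalg := D.amalg a
  le p := by
    rw [D.sqSys_St a]
    exact inf_le_left

theorem strip_eq_piece (a : Bool) (g : G) :
    D.sqSys.strip (D.K a) g = D.piece a .mid univ g := by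
  ext x
  constructor
  · rintro ⟨h, p, rfl, hh⟩
    exact ⟨h, hh, p, mem_univ _, rfl⟩
  · rintro ⟨h, hh, p, _, rfl⟩
    exact ⟨h, p, rfl, hh⟩

theorem wall_eq_piece (a i : Bool) (g : G) :
    D.sqSys.wall (D.K a) (fun p => (co a p : ℝ)) i g =
      D.piece a (ip i) {(bif i then 1 else 0 : I01)} g := by
  ext x
  constructor
  · rintro ⟨h, p, rfl, hh, hp⟩
    exact ⟨h, hh, p, (pos_eq_ip i _).mp hp, rfl⟩
  · rintro ⟨h, hh, p, hp, rfl⟩
    exact ⟨h, p, rfl, hh, (pos_eq_ip i _).mpr hp⟩

theorem gate_eq_piece (a i : Bool) (g : G) :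
    D.sqSys.gate (D.K a) (fun p => (co a p : ℝ)) i g =
      D.piece a .mid {(bif i then 1 else 0 : I01)} g := by
  ext x
  constructor
  · rintro ⟨h, p, rfl, hh, hp⟩
    exact ⟨h, hh, p, (pos_eq_ip i _).mp hp, rfl⟩
  · rintro ⟨h, hh, p, hp, rfl⟩
    exact ⟨h, p, rfl, hh, (pos_eq_ip i _).mpr hp⟩

theorem continuous_co (a : Bool) : Continuous fun p : Sq => (co a p : ℝ) := by
  apply LipschitzWith.continuous (K := 1)
  apply LipschitzWith.of_dist_le_mul
  intro p q
  rw [NNReal.coe_one, one_mul, dist_Sq a]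
  apply Real.le_sqrt_of_sq_le
  have : dist (co a p : ℝ) (co a q : ℝ) = dist (co a p) (co a q) := rfl
  rw [this]
  nlinarith [sq_nonneg (dist (co (!a) p) (co (!a) q))]

/-- **The square complex is `GeoCN`**, hence CAT(0). -/
theorem geoCN_X (a : Bool) (hE : ∀ i, D.CosetExact a i) (hT : GeoCN (univ : Set (D.T (!a)))) :
    GeoCN (univ : Set D.X) := by
  apply (D.levelSys a).geoCN_univ_of_proper (continuous_co a)
  · rw [strip_eq_piece]
    exact geoCN_piece (hE .mid) hT (adm_mid a _) geoCN_I01 1
  · intro i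
    rw [wall_eq_piece]
    exact geoCN_piece (hE (ip i)) hT (adm_singleton a ((pos_eq_ip i _).mpr rfl))
      (geoCN_singleton _) 1
  · intro i
    rw [gate_eq_piece]
    exact (geoCN_piece (hE .mid) hT (adm_mid a _) (geoCN_singleton _) 1).geoConv

end DoubleAmalg

end Pool.Agent.FlatClosing
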