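import Pool.Agent.FlatClosing.Tree
import Pool.Agent.FlatClosing.XCN

/-!
# The square complex of a double amalgam is CAT(0)
-/

set_option autoImplicit false

namespace Pool.Agent.FlatClosing

open Set Pool.Agent.CNGlue

namespace DoubleAmalg

variable {G : Type} [Group G] (D : DoubleAmalg G)

/-- The tree distance between cells of the same coset of `D.K a i` is realised in the coset. -/
theorem cosetExact (a : Bool) (i : Pos) : D.CosetExact a i := by
  intro g h s t hh
  have h0 := (D.isTreeSys (!a)).exists_tight (L := D.K a i) (D.gen a i) (g := 1) (h := g⁻¹ * h)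
    (Subgroup.one_mem _) hh s t
  have h1 := h0.smul (C' := D.coset a i g) (k := g) (by
    intro k hk
    change g⁻¹ * (g * k) ∈ D.K a i
    rwa [inv_mul_cancel_left])
  rw [StabSys.smul_pt, StabSys.smul_pt, mul_one, mul_inv_cancel_left] at h1
  have h2 : dist ((D.treeSys (!a)).pt 1 s) ((D.treeSys (!a)).pt (g⁻¹ * h) t) =
      dist ((D.treeSys (!a)).pt g s) ((D.treeSys (!a)).pt h t) := by
    rw [← dist_smul g ((D.treeSys (!a)).pt 1 s) ((D.treeSys (!a)).pt (g⁻¹ * h) t),
      StabSys.smul_pt, StabSys.smul_pt, mul_one, mul_inv_cancel_left]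
  rwa [h2] at h1

/-- **The square complex is CAT(0).** -/
theorem geoCN_univ_X : GeoCN (univ : Set D.X) :=
  D.geoCN_X false (fun i => D.cosetExact false i) (D.geoCN_T (!false))

end DoubleAmalg

end Pool.Agent.FlatClosing
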